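import Pool.Agent.H977.CC.UpD

/-! Lower bound in terms of `n` and `p`. -/

open MeasureTheory ProbabilityTheory unitInterval Finset
open scoped SimpleGraph

namespace Pool.Agent.H977.CC

open Pool.Agent.V11328

/-- the scale of the structure lemma -/
noncomputable def kap (j n : ℕ) (p : ℝ) : ℝ :=
  Real.exp ((Real.log (Real.log n) + n * p ^ j) / (j - 1) + j / 2 * (-Real.log p))

lemma mkDat {j n : ℕ} {p : ℝ} (hj : 3 ≤ j) (hp : 0 < p) (hL : 1 ≤ Real.log n)
    (hx : -Real.log p ≤ Real.log n)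
    (hc : n * p ^ j + (j + 5) * Real.log (Real.log n) ≤ (j - 1) / 2 * (-Real.log p)) :
    Dat j p (-Real.log p) (Real.log n) (Real.log (Real.log n)) (n * p ^ j) (kap j n p)
      ⌈cJ j * kap j n p⌉₊ where
  hj := hj
  hp := by rw [neg_neg, Real.exp_log hp]
  hL := hL
  hl := by rw [Real.exp_log (by linarith)]
  hμ := by positivity
  hx := hx
  hc := hc
  hκ := rfl
  ha := rfl

/-- Lower bound from the structure lemma at level `j`. -/
theorem lowJ {j c3 n : ℕ} (hj : 3 ≤ j) (hc3 : 1 ≤ c3) {ε : ℝ} (hε : 18 ≤ c3 * ε) {p : I}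
    (hp : (0 : ℝ) < p) (hL : (qQ j c3 : ℝ) ≤ Real.log n) (hx1 : -Real.log p ≤ Real.log n)
    (hx2 : ε * Real.log n ≤ -Real.log p)
    (hq : (qQ j c3 : ℝ) * Real.log n ≤ Real.exp (-Real.log p / 2))
    (hc : n * (p : ℝ) ^ j + (j + 5) * Real.log (Real.log n) ≤ (j - 1) / 2 * (-Real.log p))
    {k : ℕ} (hk1 : 1 ≤ k)
    (hk : (k : ℝ) * (c0 j c3 * kap j n p) ≤ ((n - k : ℕ) : ℝ) * (1 - (p : ℝ)) ^ k / 2) :
    (G(Fin n, p)).real {G : SimpleGraph (Fin n) | chiC G ≤ k} ≤ 6 * Real.exp (-Real.log n) := by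
  have hq8 : (8 : ℝ) ≤ qQ j c3 := by
    have : 8 ≤ qQ j c3 := by unfold qQ; omega
    exact_mod_cast this
  have hL1 : 1 ≤ Real.log n := by linarith
  have hn0 : (0 : ℝ) < n := by
    rcases Nat.eq_zero_or_pos n with h | h
    · rw [h] at hL1; simp at hL1; linarith
    · exact_mod_cast h
  have hn : (n : ℝ) = Real.exp (Real.log n) := (Real.exp_log hn0).symm
  haveI : Nonempty (Fin n) := ⟨⟨0, by exact_mod_cast hn0⟩⟩
  have hD := mkDat hj hp hL1 hx1 hc
  have hBig : Big j c3 (-Real.log p) (Real.log n) := ⟨hL, by rw [neg_div] at hq ⊢; exact hq⟩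
  have h1 := struct_final (V := Fin n) hD hBig hc3 hε hx2 (by rw [Fintype.card_fin]; exact hn)
    (by rw [Fintype.card_fin])
  have hc0 := c0_pos (c3 := c3) hj
  have hκ := hD.κge
  have hex := hBig.ex
  have h32 : 32 * Real.log n ≤ c0 j c3 * kap j n p := by
    have e1 : Real.exp (3 / 2 * -Real.log p) = Real.exp (-Real.log p / 2) *
        Real.exp (-Real.log p / 2) * Real.exp (-Real.log p / 2) := by
      rw [← Real.exp_add, ← Real.exp_add]; congr 1; ring
    set E := Real.exp (-Real.log p / 2) with hE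
    have h2 : 8 ≤ E := hq8.trans hex
    have h3 : 8 * Real.log n ≤ E := by nlinarith
    have h4 : 32 * Real.log n ≤ E * E * E := by nlinarith
    have h5 : 32 * Real.log n ≤ kap j n p := by rw [e1] at hκ; linarith
    nlinarith
  have h2 := lower_prob (V := Fin n) p (k := k) (s₀ := c0 j c3 * kap j n p) hL1
    (by rw [Fintype.card_fin]; exact hn) hk1 h32 (by rw [Fintype.card_fin]; exact hk)
  linarith

/-- `(1-p)^k ≥ exp(-pk(1+p))` for `p ≤ 1/2`. -/
lemma one_sub_pow_ge {p : ℝ} (h0 : 0 ≤ p) (h1 : p ≤ 1 / 2) (k : ℕ) :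
    Real.exp (-(k * (p * (1 + p)))) ≤ (1 - p) ^ k := by
  have h2 : Real.exp (-(p * (1 + p))) ≤ 1 - p := by
    have h3 : 1 / (1 - p) ≤ Real.exp (p * (1 + p)) := by
      have h4 := Real.quadratic_le_exp_of_nonneg (x := p * (1 + p)) (by positivity)
      refine le_trans ?_ h4
      rw [div_le_iff₀ (by linarith)]
      nlinarith [mul_nonneg h0 h0, mul_nonneg (mul_nonneg h0 h0) (sub_nonneg.2 h1),
        mul_nonneg (mul_nonneg h0 h0) h0]
    rw [Real.exp_neg]
    have h5 : 0 < 1 - p := by linarith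
    rw [div_le_iff₀ h5] at h3
    rw [inv_le_comm₀ (Real.exp_pos _) h5, inv_eq_one_div, div_le_iff₀ h5]
    exact h3
  calc Real.exp (-(k * (p * (1 + p)))) = Real.exp (-(p * (1 + p))) ^ k := by
        rw [exp_pow_nat]; congr 1; ring
    _ ≤ _ := pow_le_pow_left₀ (Real.exp_pos _).le h2 k

end Pool.Agent.H977.CC
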