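import Pool.Agent.H977.CC.AsA

/-! The function `F` and the lower bound with the sharp constant. -/

open MeasureTheory ProbabilityTheory unitInterval Finset Filter Topology
open scoped SimpleGraph

namespace Pool.Agent.H977.CC

open Pool.Agent.V11328

/-- The `j`-th term. -/
noncomputable def TT (j n : ℕ) (p : ℝ) : ℝ :=
  Real.log n - (1 + j / 2) * (-Real.log p) - n * p ^ j / (j - 1)

/-- The supremum of the terms. -/
noncomputable def FF (n : ℕ) (p : ℝ) : ℝ := ⨆ i : ℕ, TT (i + 3) n p

lemma ev_log {c : ℝ} (hc : 0 < c) (C : ℝ) : ∀ᶠ L : ℝ in atTop, C * Real.log L ≤ c * L := by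
  have h1 := Real.isLittleO_log_id_atTop.def (c := c / (|C| + 1)) (by positivity)
  filter_upwards [h1, eventually_ge_atTop 1] with L hL hL1
  have h2 : 0 ≤ Real.log L := Real.log_nonneg hL1
  rw [Real.norm_eq_abs, abs_of_nonneg h2, id, Real.norm_eq_abs,
    abs_of_nonneg (show (0 : ℝ) ≤ L by linarith)] at hL
  have h3 : C * Real.log L ≤ (|C| + 1) * Real.log L := by
    have := le_abs_self C
    nlinarith
  refine h3.trans ?_
  have h4 : (|C| + 1) * Real.log L ≤ (|C| + 1) * (c / (|C| + 1) * L) :=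
    mul_le_mul_of_nonneg_left hL (by positivity)
  refine h4.trans (le_of_eq ?_)
  have : |C| + 1 ≠ 0 := by positivity
  field_simp

lemma ev_pow {c : ℝ} (hc : 0 < c) (C : ℝ) (k : ℕ) :
    ∀ᶠ L : ℝ in atTop, C * L ^ k ≤ Real.exp (c * L) := by
  have h1 := (isLittleO_pow_exp_pos_mul_atTop k hc).def (c := 1 / (|C| + 1)) (by positivity)
  filter_upwards [h1, eventually_ge_atTop 1] with L hL hL1
  have h2 : 0 ≤ L ^ k := by positivity
  rw [Real.norm_eq_abs, abs_of_nonneg h2, Real.norm_eq_abs, abs_of_nonneg (Real.exp_pos _).le] at hL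
  have h3 : C * L ^ k ≤ (|C| + 1) * L ^ k := by
    have := le_abs_self C
    nlinarith
  refine h3.trans ?_
  have h4 : (|C| + 1) * L ^ k ≤ (|C| + 1) * (1 / (|C| + 1) * Real.exp (c * L)) :=
    mul_le_mul_of_nonneg_left hL (by positivity)
  refine h4.trans (le_of_eq ?_)
  have : |C| + 1 ≠ 0 := by positivity
  field_simp

lemma ev_nat {P : ℝ → Prop} (h : ∀ᶠ L : ℝ in atTop, P L) :
    ∃ N : ℕ, ∀ n : ℕ, N ≤ n → P (Real.log n) := by
  have h1 : Tendsto (fun n : ℕ => Real.log n) atTop atTop :=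
    Real.tendsto_log_atTop.comp tendsto_natCast_atTop_atTop
  exact eventually_atTop.1 (h1.eventually h)

lemma TT_le {j n : ℕ} {p : ℝ} (hj : 3 ≤ j) (hp0 : 0 < p) (hp1 : p ≤ 1) :
    TT j n p ≤ Real.log n := by
  unfold TT
  have h1 : 0 ≤ -Real.log p := by linarith [Real.log_nonpos hp0.le hp1]
  have hjR : (3 : ℝ) ≤ j := by exact_mod_cast hj
  have h2 : 0 ≤ n * p ^ j / ((j : ℝ) - 1) := div_nonneg (by positivity) (by linarith)
  have h3 : 0 ≤ (1 + (j : ℝ) / 2) * (-Real.log p) := mul_nonneg (by linarith) h1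
  linarith

lemma FF_bdd {n : ℕ} {p : ℝ} (hp0 : 0 < p) (hp1 : p ≤ 1) :
    BddAbove (Set.range (fun i : ℕ => TT (i + 3) n p)) := by
  refine ⟨Real.log n, ?_⟩
  rintro _ ⟨i, rfl⟩
  exact TT_le (by omega) hp0 hp1

lemma TT_le_FF {j n : ℕ} {p : ℝ} (hj : 3 ≤ j) (hp0 : 0 < p) (hp1 : p ≤ 1) :
    TT j n p ≤ FF n p := by
  have h := le_ciSup (FF_bdd (n := n) hp0 hp1) (j - 3)
  have e : j - 3 + 3 = j := by omega
  rw [e] at h
  exact h

lemma FF_le {n : ℕ} {p : ℝ} (hp0 : 0 < p) (hp1 : p ≤ 1) : FF n p ≤ Real.log n :=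
  ciSup_le fun i => TT_le (by omega) hp0 hp1

lemma exists_TT {n : ℕ} {p b : ℝ} (h : b < FF n p) : ∃ j, 3 ≤ j ∧ b < TT j n p := by
  obtain ⟨i, hi⟩ := exists_lt_of_lt_ciSup h
  exact ⟨i + 3, by omega, hi⟩

/-- The mean number of common neighbours in exponential form. -/
lemma mu_exp {j n : ℕ} {p : ℝ} (hp0 : 0 < p) (hn : 0 < n) :
    n * p ^ j = Real.exp (Real.log n - j * (-Real.log p)) := by
  have hn' : (0 : ℝ) < n := by exact_mod_cast hn
  rw [Real.exp_sub, Real.exp_log hn', mul_neg, Real.exp_neg, ← Real.log_pow, Real.exp_log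
    (by positivity)]
  field_simp

/-- Passing from `T_i` to a level where the structure lemma applies. -/
lemma key_level {i n : ℕ} {p ε : ℝ} (hi : 3 ≤ i) (hε : 0 < ε) (hp0 : 0 < p) (hp1 : p ≤ 1)
    (hL : 1 ≤ Real.log n) (hx : ε * Real.log n ≤ -Real.log p) (hT : 0 ≤ TT i n p)
    (h1 : 3 * Real.log (Real.log n) + 1 ≤ ε * Real.log n / 2)
    (h2 : 2 / ε * Real.log n * Real.exp (-(ε * Real.log n)) ≤ 1) :
    ∃ j : ℕ, 3 ≤ j ∧ (j : ℝ) ≤ 2 / ε + 1 ∧
      n * p ^ j + (j + 5) * Real.log (Real.log n) ≤ (j - 1) / 2 * (-Real.log p) ∧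
      TT i n p - 4 * Real.log (Real.log n) - 1 ≤ TT j n p := by
  set L := Real.log n with hLdef
  set l := Real.log L with hl
  set x := -Real.log p with hxdef
  have hl0 : 0 ≤ l := Real.log_nonneg hL
  have hiR : (3 : ℝ) ≤ i := by exact_mod_cast hi
  have hx0 : 0 < x := lt_of_lt_of_le (by positivity) hx
  have hμ0 : 0 ≤ n * p ^ i := by positivity
  have hT' : (1 + (i : ℝ) / 2) * x + n * p ^ i / (i - 1) ≤ L := by
    unfold TT at hT
    linarith
  have hμi : 0 ≤ n * p ^ i / ((i : ℝ) - 1) := div_nonneg hμ0 (by linarith)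
  have hi2 : (i : ℝ) ≤ 2 / ε := by
    rw [le_div_iff₀ hε]
    have h3 : (i : ℝ) / 2 * (ε * L) ≤ i / 2 * x := mul_le_mul_of_nonneg_left hx (by linarith)
    have h4 : (i : ℝ) / 2 * x ≤ L := by nlinarith
    have h5 : (i : ℝ) * ε / 2 * L ≤ 1 * L := by linarith
    have h6 := le_of_mul_le_mul_right h5 (by linarith)
    linarith
  by_cases hc : n * p ^ i + (i + 5) * l ≤ (i - 1) / 2 * x
  · exact ⟨i, hi, by linarith, hc, by linarith⟩
  · push Not at hc
    have hpe : p = Real.exp (-x) := by rw [hxdef, neg_neg, Real.exp_log hp0]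
    have hple : p ≤ Real.exp (-(ε * L)) := by
      rw [hpe]; exact Real.exp_le_exp.2 (by linarith)
    have hμL : n * p ^ i ≤ (i - 1) * L := by
      have h3 : n * p ^ i / ((i : ℝ) - 1) ≤ L := by
        have : 0 ≤ (1 + (i : ℝ) / 2) * x := by positivity
        linarith
      rw [div_le_iff₀ (by linarith)] at h3
      linarith
    have hμ' : n * p ^ (i + 1) ≤ 1 := by
      calc n * p ^ (i + 1) = n * p ^ i * p := by ring
        _ ≤ ((i - 1) * L) * Real.exp (-(ε * L)) := by
            refine mul_le_mul hμL hple hp0.le ?_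
            exact mul_nonneg (by linarith) (by linarith)
        _ ≤ (2 / ε * L) * Real.exp (-(ε * L)) := by
            refine mul_le_mul_of_nonneg_right ?_ (Real.exp_pos _).le
            exact mul_le_mul_of_nonneg_right (by linarith) (by linarith)
        _ ≤ 1 := h2
    refine ⟨i + 1, by omega, by push_cast; linarith, ?_, ?_⟩
    · push_cast
      have h3 : (i : ℝ) / 2 * (ε * L) ≤ i / 2 * x := mul_le_mul_of_nonneg_left hx (by linarith)
      have h4 : (i : ℝ) * (3 * l + 1) ≤ i * (ε * L / 2) := mul_le_mul_of_nonneg_left h1 (by linarith)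
      nlinarith
    · unfold TT
      rw [← hxdef, ← hLdef]
      push_cast
      have h3 : n * p ^ (i + 1) / ((i : ℝ) + 1 - 1) ≤ 1 := by
        rw [div_le_one (by linarith)]
        linarith
      have h4 : x / 2 - 4 * l ≤ n * p ^ i / ((i : ℝ) - 1) := by
        rw [le_div_iff₀ (by linarith)]
        nlinarith
      linarith

/-- `F` is of order `log n` below `n^(-ε)`, above `n^(-1/3+ε)`. -/
lemma FF_ge {n : ℕ} {p ε : ℝ} (hε : 0 < ε) (hp0 : 0 < p) (hp1 : p ≤ 1) (hn : 0 < n)
    (hL : 1 ≤ Real.log n) (hx : ε * Real.log n ≤ -Real.log p)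
    (hx2 : -Real.log p ≤ (1 / 3 - ε) * Real.log n) (h1 : 1 ≤ ε * Real.log n) :
    ε * Real.log n ≤ FF n p := by
  set L := Real.log n with hLdef
  set x := -Real.log p with hxdef
  have hx0 : 0 < x := lt_of_lt_of_le (by positivity) hx
  have h3 : 3 ≤ L / x := by
    rw [le_div_iff₀ hx0]
    nlinarith
  set j := ⌈L / x⌉₊ with hj
  have hj1 : L / x ≤ j := Nat.le_ceil _
  have hj2 : (j : ℝ) < L / x + 1 := Nat.ceil_lt_add_one (by linarith)
  have hj3 : 3 ≤ j := by
    have : (3 : ℝ) ≤ j := h3.trans hj1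
    exact_mod_cast this
  have hjR : (3 : ℝ) ≤ j := by exact_mod_cast hj3
  refine le_trans ?_ (TT_le_FF hj3 hp0 hp1)
  unfold TT
  rw [← hLdef, ← hxdef]
  have hμ : n * p ^ j ≤ 1 := by
    rw [mu_exp hp0 hn, ← hLdef, ← hxdef, Real.exp_le_one_iff]
    rw [div_le_iff₀ hx0] at hj1
    linarith
  have h4 : n * p ^ j / ((j : ℝ) - 1) ≤ 1 / 2 := by
    rw [div_le_iff₀ (by linarith)]
    linarith
  have h5 : (j : ℝ) * x ≤ L + x := by
    have h6 : (j : ℝ) * x ≤ (L / x + 1) * x := mul_le_mul_of_nonneg_right hj2.le hx0.le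
    have h7 : (L / x + 1) * x = L + x := by field_simp
    linarith
  nlinarith

/-- Lower bound with the sharp constant. -/
theorem lowF {ε η : ℝ} (hε : 0 < ε) (hη : 0 < η) (hη1 : η ≤ 1) :
    ∃ N : ℕ, ∀ n : ℕ, N ≤ n → ∀ p : I, (0 : ℝ) < p →
      ε * Real.log n ≤ -Real.log p → -Real.log p ≤ (1 / 3 - ε) * Real.log n →
      (G(Fin n, p)).real {G : SimpleGraph (Fin n) | (chiC G : ℝ) < (1 - η) * FF n p / p} ≤
        6 * Real.exp (-Real.log n) := by
  obtain ⟨c3, hc3⟩ := exists_nat_ge (18 / ε + 1)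
  have hc31 : 1 ≤ c3 := by
    have h1 : (0 : ℝ) ≤ 18 / ε := by positivity
    have : (1 : ℝ) ≤ c3 := by linarith
    exact_mod_cast this
  have hc3ε : 18 ≤ c3 * ε := by
    have h1 : 18 / ε ≤ c3 := by linarith
    rwa [div_le_iff₀ hε] at h1
  obtain ⟨J, hJ⟩ := exists_nat_ge (2 / ε + 1)
  set M : ℝ := ∑ j ∈ Finset.range (J + 1), ((qQ j c3 : ℝ) + |c0 j c3|) with hM
  have hMj : ∀ j, j ≤ J → (qQ j c3 : ℝ) + |c0 j c3| ≤ M := by
    intro j hj
    exact Finset.single_le_sum (f := fun j => (qQ j c3 : ℝ) + |c0 j c3|)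
      (fun i _ => by positivity) (mem_range.2 (by omega))
  have hev : ∀ᶠ L : ℝ in atTop, (1 ≤ L ∧ M ≤ L ∧ 1 ≤ ε * L) ∧
      M * L ^ 1 ≤ Real.exp (ε / 2 * L) ∧
      (7 * Real.log L ≤ ε * η / 4 * L ∧ 4 ≤ ε * η / 4 * L) ∧
      2 / η * L ^ 0 ≤ Real.exp (ε * L) ∧ 2 * L ^ 1 ≤ Real.exp (1 / 2 * L) ∧
      (3 * Real.log L ≤ ε / 4 * L ∧ 1 ≤ ε / 4 * L) ∧ 2 / ε * L ^ 1 ≤ Real.exp (ε * L) ∧
      2 / ε + 4 ≤ ε * L := by
    refine ((eventually_ge_atTop 1).and ((eventually_ge_atTop M).and ?_)).and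
      ((ev_pow (by positivity) M 1).and (((ev_log (by positivity) 7).and ?_).and
      ((ev_pow hε (2 / η) 0).and ((ev_pow (by norm_num) 2 1).and
      (((ev_log (by positivity) 3).and ?_).and ((ev_pow hε (2 / ε) 1).and ?_))))))
    · filter_upwards [eventually_ge_atTop (1 / ε)] with L h
      rw [div_le_iff₀ hε] at h; linarith
    · filter_upwards [eventually_ge_atTop (4 / (ε * η / 4))] with L h
      rw [div_le_iff₀ (by positivity)] at h; linarith
    · filter_upwards [eventually_ge_atTop (1 / (ε / 4))] with L h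
      rw [div_le_iff₀ (by positivity)] at h; linarith
    · filter_upwards [eventually_ge_atTop ((2 / ε + 4) / ε)] with L h
      rw [div_le_iff₀ hε] at h; linarith
  obtain ⟨N, hN⟩ := ev_nat hev
  refine ⟨N, fun n hn p hp0 hx hx2 => ?_⟩
  obtain ⟨⟨hL1, hML, hεL⟩, hML2, ⟨h7l, h4L⟩, h2η, h2L, ⟨h3l, h1L⟩, h2ε, h4ε⟩ := hN n hn
  set L := Real.log n with hLdef
  set x := -Real.log (p : ℝ) with hxdef
  set l := Real.log L with hl
  have hl0 : 0 ≤ l := Real.log_nonneg hL1
  have hLexp : Real.exp l = L := Real.exp_log (by linarith)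
  have hn0 : 0 < n := by
    rcases Nat.eq_zero_or_pos n with h | h
    · rw [hLdef, h] at hL1; simp at hL1; linarith
    · exact h
  have hnR : (0 : ℝ) < n := by exact_mod_cast hn0
  have hnL : (n : ℝ) = Real.exp L := (Real.exp_log hnR).symm
  have hp1 : (p : ℝ) ≤ 1 := p.2.2
  have hpx : (p : ℝ) = Real.exp (-x) := by rw [hxdef, neg_neg, Real.exp_log hp0]
  have hF := FF_ge hε hp0 hp1 hn0 hL1 hx hx2 hεL
  have hFL := FF_le (n := n) hp0 hp1
  set F := FF n (p : ℝ) with hFdef
  -- choice of the level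
  obtain ⟨i, hi3, hi⟩ := exists_TT (n := n) (p := (p : ℝ)) (b := F - 1) (by linarith)
  have hinv : 0 ≤ 2 / ε := by positivity
  obtain ⟨j, hj3, hjJ, hHC, hTj⟩ := key_level hi3 hε hp0 hp1 hL1 hx (by linarith)
    (by linarith) (by
      rw [Real.exp_neg]
      rw [pow_one] at h2ε
      rw [← div_eq_mul_inv, div_le_one (Real.exp_pos _)]
      exact h2ε)
  have hjJ' : j ≤ J := by
    have : (j : ℝ) ≤ J := hjJ.trans hJ
    exact_mod_cast this
  have hMjj := hMj j hjJ'
  have hjR : (3 : ℝ) ≤ j := by exact_mod_cast hj3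
  have hqQ : (qQ j c3 : ℝ) ≤ M := by have := abs_nonneg (c0 j c3); linarith
  have hc0M : c0 j c3 ≤ M := by
    have := le_abs_self (c0 j c3)
    have h2 : (0 : ℝ) ≤ qQ j c3 := by positivity
    linarith
  have hc0pos := c0_pos (c3 := c3) hj3
  have hxe : (1 / 3 - ε) * L = 1 / 3 * L - ε * L := by ring
  have hxL : x ≤ L := by linarith
  -- the number of colours
  set k := ⌊(1 - η) * F / p⌋₊ with hk
  have hkle : (k : ℝ) ≤ (1 - η) * F / p :=
    Nat.floor_le (div_nonneg (mul_nonneg (by linarith) (by linarith)) hp0.le)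
  have hkp : (k : ℝ) * p ≤ (1 - η) * F := by rwa [le_div_iff₀ hp0] at hkle
  have hpη : (p : ℝ) ≤ η / 2 := by
    rw [pow_zero, mul_one, div_le_iff₀ hη] at h2η
    have h3 : Real.exp (-x) ≤ Real.exp (-(ε * L)) := Real.exp_le_exp.2 (by linarith)
    have h4 : Real.exp (-(ε * L)) ≤ η / 2 := by
      rw [Real.exp_neg, inv_le_comm₀ (Real.exp_pos _) (by positivity), inv_div, div_le_iff₀ hη]
      exact h2η
    rw [hpx]; linarith
  have hFη : 7 * l + 4 ≤ F * (η / 2) := by
    have e1 := mul_le_mul_of_nonneg_right hF (show 0 ≤ η / 2 by linarith)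
    have e2 : ε * L * (η / 2) = ε * η / 4 * L + ε * η / 4 * L := by ring
    linarith
  rcases Nat.eq_zero_or_pos k with hk0 | hk1
  · -- then the event is empty for trivial reasons: chi >= 1
    have hempty : {G : SimpleGraph (Fin n) | (chiC G : ℝ) < (1 - η) * F / p} ⊆
        {G : SimpleGraph (Fin n) | chiC G ≤ 0} := by
      intro G hG
      have h1 : chiC G ≤ k := Nat.le_floor (le_of_lt hG)
      rw [hk0] at h1
      exact h1
    have hnone : {G : SimpleGraph (Fin n) | chiC G ≤ 0} = ∅ := by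
      ext G
      simp only [Set.mem_ofPred_eq, Set.mem_empty_iff_false, iff_false, not_le]
      by_contra h
      push Not at h
      obtain ⟨c, _⟩ := exists_of_chiC_le G h
      exact (c ⟨0, hn0⟩).elim0
    have h3 := measureReal_mono (μ := G(Fin n, p)) hempty (measure_ne_top _ _)
    rw [hnone, measureReal_empty] at h3
    exact h3.trans (by positivity)
  · have hsub : {G : SimpleGraph (Fin n) | (chiC G : ℝ) < (1 - η) * F / p} ⊆
        {G : SimpleGraph (Fin n) | chiC G ≤ k} := by
      intro G hG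
      exact Nat.le_floor (le_of_lt hG)
    refine (measureReal_mono hsub (measure_ne_top _ _)).trans ?_
    refine lowJ hj3 hc31 hc3ε hp0 (hqQ.trans hML) hxL hx ?_ hHC hk1 ?_
    · rw [pow_one] at hML2
      have h3 : Real.exp (ε / 2 * L) ≤ Real.exp (x / 2) := Real.exp_le_exp.2 (by linarith)
      have h4 : (qQ j c3 : ℝ) * L ≤ M * L := mul_le_mul_of_nonneg_right hqQ (by linarith)
      linarith
    · -- main inequality
      have hkL : (k : ℝ) ≤ L * Real.exp x := by
        have h3 : (1 - η) * F / p ≤ L / p := by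
          refine div_le_div_of_nonneg_right ?_ hp0.le
          have e1 := mul_le_mul_of_nonneg_right (show 1 - η ≤ 1 by linarith) (show 0 ≤ F by linarith)
          linarith
        refine hkle.trans (h3.trans (le_of_eq ?_))
        rw [hpx, Real.exp_neg]; field_simp
      have hkap : kap j n p * Real.exp x ≤ Real.exp (L - TT j n p + l) := by
        unfold kap TT
        rw [← hLdef, ← hl, ← hxdef, ← Real.exp_add]
        refine Real.exp_le_exp.2 ?_
        have h3 : (l + n * (p : ℝ) ^ j) / ((j : ℝ) - 1) = l / (j - 1) + n * (p : ℝ) ^ j / (j - 1) :=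
          add_div _ _ _
        have h4 : l / ((j : ℝ) - 1) ≤ l := div_le_self hl0 (by linarith)
        rw [h3]
        linarith
      have hkk : (n : ℝ) / 2 ≤ ((n - k : ℕ) : ℝ) := by
        have h3 : (k : ℝ) ≤ n / 2 := by
          rw [pow_one] at h2L
          have h4 : Real.exp x ≤ Real.exp (1 / 2 * L) := Real.exp_le_exp.2 (by linarith)
          have h5 : (n : ℝ) = Real.exp (1 / 2 * L) * Real.exp (1 / 2 * L) := by
            rw [hnL, ← Real.exp_add]; congr 1; ring
          have h6 : L * Real.exp x ≤ L * Real.exp (1 / 2 * L) :=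
            mul_le_mul_of_nonneg_left h4 (by linarith)
          rw [h5]
          have h7 := Real.exp_pos (1 / 2 * L)
          have e1 := mul_le_mul_of_nonneg_right h2L h7.le
          linarith
        have h4 : k ≤ n := by
          have : (k : ℝ) ≤ n := by linarith
          exact_mod_cast this
        rw [Nat.cast_sub h4]
        linarith
      have hpow := one_sub_pow_ge hp0.le (show (p : ℝ) ≤ 1 / 2 by linarith) k
      have hkap0 : 0 < kap j n p := Real.exp_pos _
      calc (k : ℝ) * (c0 j c3 * kap j n p) ≤ (L * Real.exp x) * (M * kap j n p) := by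
            refine mul_le_mul hkL (mul_le_mul_of_nonneg_right hc0M hkap0.le) ?_ (by positivity)
            exact mul_nonneg (by linarith) hkap0.le
        _ ≤ (L * Real.exp x) * (L * kap j n p) := by
            refine mul_le_mul_of_nonneg_left ?_ (by positivity)
            exact mul_le_mul_of_nonneg_right hML hkap0.le
        _ = L * L * (kap j n p * Real.exp x) := by ring
        _ ≤ L * L * Real.exp (L - TT j n p + l) := mul_le_mul_of_nonneg_left hkap (by positivity)
        _ = Real.exp (L - TT j n p + 3 * l) := by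
            nth_rewrite 1 2 [← hLexp]
            rw [← Real.exp_add, ← Real.exp_add]; congr 1; ring
        _ ≤ Real.exp (L - (1 - η) * F * (1 + p) - 2) := by
            refine Real.exp_le_exp.2 ?_
            have h3 : (1 - η) * F * (1 + p) ≤ F - F * (η / 2) := by
              have h5 : 0 ≤ F := by linarith
              have h6 : (1 - η) * (1 + (p : ℝ)) ≤ 1 - η / 2 := by
                have e1 : (1 - η) * (1 + (p : ℝ)) = 1 + p - η - η * p := by ring
                have e2 : 0 ≤ η * (p : ℝ) := by positivity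
                linarith
              have h7 := mul_le_mul_of_nonneg_left h6 h5
              have e1 : (1 - η) * F * (1 + p) = F * ((1 - η) * (1 + (p : ℝ))) := by ring
              have e2 : F * (1 - η / 2) = F - F * (η / 2) := by ring
              linarith
            linarith
        _ ≤ (n : ℝ) / 4 * Real.exp (-(k * (p * (1 + p)))) := by
            have h3 : Real.exp (-2) ≤ 1 / 4 := by
              rw [Real.exp_neg, inv_le_comm₀ (Real.exp_pos _) (by norm_num)]
              have h6 : Real.exp 2 = Real.exp 1 * Real.exp 1 := by rw [← Real.exp_add]; norm_num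
              have h8 := Real.exp_one_gt_d9
              rw [h6]; norm_num
              have h9 := mul_le_mul h8.le h8.le (by norm_num) (Real.exp_pos 1).le
              norm_num at h9
              linarith
            have h4 : L - (1 - η) * F * (1 + p) - 2 = L + (-2) + -((1 - η) * F * (1 + p)) := by ring
            rw [h4, Real.exp_add, Real.exp_add, ← hnL]
            have h5 : Real.exp (-((1 - η) * F * (1 + p))) ≤ Real.exp (-(k * (p * (1 + p)))) := by
              refine Real.exp_le_exp.2 ?_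
              have : (k : ℝ) * p * (1 + p) ≤ (1 - η) * F * (1 + p) :=
                mul_le_mul_of_nonneg_right hkp (by linarith)
              have e1 : (k : ℝ) * (p * (1 + p)) = k * p * (1 + p) := by ring
              linarith
            have h6 := Real.exp_pos (-((1 - η) * F * (1 + p)))
            calc (n : ℝ) * Real.exp (-2) * Real.exp (-((1 - η) * F * (1 + p)))
                ≤ n * (1 / 4) * Real.exp (-(k * (p * (1 + p)))) := by gcongr
              _ = _ := by ring
        _ ≤ ((n - k : ℕ) : ℝ) * (1 - (p : ℝ)) ^ k / 2 := by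
            have h3 : (n : ℝ) / 2 * Real.exp (-(k * (p * (1 + p)))) ≤
                ((n - k : ℕ) : ℝ) * (1 - (p : ℝ)) ^ k :=
              mul_le_mul hkk hpow (Real.exp_pos _).le (by positivity)
            linarith

end Pool.Agent.H977.CC
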