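import Pool.Agent.H977.CC.AsB

/-! Upper bound with the sharp constant. -/

open MeasureTheory ProbabilityTheory unitInterval Finset Filter Topology
open scoped SimpleGraph

namespace Pool.Agent.H977.CC

open Pool.Agent.V11328

/-- Numerical facts used for the upper bound. -/
structure UpNum (ε J L : ℝ) : Prop where
  L1 : 1 ≤ L
  LJ : 4 * (J + 2) ≤ L
  l1 : 8 * Real.log L ≤ L
  e1 : L ^ 2 < Real.exp (2 * ε * L)
  e2 : 1000 * (J + 3) * L ^ 2 ≤ Real.exp (ε * L)
  e3 : 8 * L ^ 4 ≤ Real.exp (ε * L)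
  e4 : 100 * (J + 3) * L ≤ Real.exp (1 / 4 * L)
  e5 : 2 * Real.exp 3 ≤ Real.exp (ε * L)

lemma ev_upNum {ε J : ℝ} (hε : 0 < ε) (hJ : 0 ≤ J) : ∀ᶠ L : ℝ in atTop, UpNum ε J L := by
  have hlog := ev_log (c := 1) (by norm_num) 8
  have h1 := ev_pow (c := 2 * ε) (by positivity) 2 2
  have h2 := ev_pow hε (1000 * (J + 3)) 2
  have h3 := ev_pow hε 8 4
  have h4 := ev_pow (c := 1 / 4) (by norm_num) (100 * (J + 3)) 1
  have h5 := ev_pow hε (2 * Real.exp 3) 0
  filter_upwards [eventually_ge_atTop 1, eventually_ge_atTop (4 * (J + 2)), hlog, h1, h2, h3, h4,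
    h5] with L a1 a2 a3 a4 a5 a6 a7 a8
  refine ⟨a1, a2, by linarith, ?_, a5, a6, ?_, ?_⟩
  · have : 0 < L ^ 2 := by positivity
    linarith
  · rwa [pow_one] at a7
  · rwa [pow_zero, mul_one] at a8

lemma pow_eq_exp {p : ℝ} (hp0 : 0 < p) (k : ℕ) : p ^ k = Real.exp (-(k * (-Real.log p))) := by
  rw [mul_neg, neg_neg, ← Real.log_pow, Real.exp_log (by positivity)]

/-- Upper bound with the sharp constant. -/
theorem upF {ε : ℝ} (hε : 0 < ε) :
    ∃ N : ℕ, ∀ n : ℕ, N ≤ n → ∀ p : I, (0 : ℝ) < p →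
      ε * Real.log n ≤ -Real.log p → -Real.log p ≤ (1 / 2 - ε) * Real.log n →
      (G(Fin n, p)).real {G : SimpleGraph (Fin n) | ¬ (chiC G : ℝ) ≤
        (max (FF n p + 8 * Real.log (Real.log n)) 0 + 1) / p} ≤
        4 * Real.exp (-Real.log n) := by
  obtain ⟨N, hN⟩ := ev_nat (ev_upNum (J := 1 / ε + 1) hε (by positivity))
  refine ⟨N, fun n hn p hp0 hx hx2 => ?_⟩
  obtain ⟨hL1, hLJ, hl1, he1, he2, he3, he4, he5⟩ := hN n hn
  set L := Real.log n with hLdef
  set x := -Real.log (p : ℝ) with hxdef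
  set l := Real.log L with hl
  have hl0 : 0 ≤ l := Real.log_nonneg hL1
  have hLexp : Real.exp l = L := Real.exp_log (by linarith)
  have hn0 : 0 < n := by
    rcases Nat.eq_zero_or_pos n with h | h
    · rw [hLdef, h] at hL1; simp at hL1; linarith
    · exact h
  have hnR : (0 : ℝ) < n := by exact_mod_cast hn0
  have hnL : (n : ℝ) = Real.exp L := (Real.exp_log hnR).symm
  have hp1 : (p : ℝ) ≤ 1 := p.2.2
  have hpx : (p : ℝ) = Real.exp (-x) := by rw [hxdef, neg_neg, Real.exp_log hp0]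
  have hFL := FF_le (n := n) hp0 hp1
  set F := FF n (p : ℝ) with hFdef
  have hεL : 0 < ε * L := by positivity
  have hx0 : 0 < x := by linarith
  set J : ℝ := 1 / ε + 1 with hJ
  have hJ0 : 0 < 1 / ε := by positivity
  have hexε : Real.exp (ε * L) ≤ Real.exp x := Real.exp_le_exp.2 hx
  -- the level
  have hex : ∃ j : ℕ, (n : ℝ) * (p : ℝ) ^ j ≤ L ^ 2 := by
    refine ⟨⌈L / x⌉₊, ?_⟩
    rw [mu_exp hp0 hn0, ← hLdef, ← hxdef]
    have h1 : L / x ≤ ⌈L / x⌉₊ := Nat.le_ceil _
    rw [div_le_iff₀ hx0] at h1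
    have h2 : Real.exp (L - ⌈L / x⌉₊ * x) ≤ 1 := Real.exp_le_one_iff.2 (by linarith)
    exact h2.trans (one_le_pow₀ hL1)
  classical
  set j := Nat.find hex with hjdef
  have hjμ : (n : ℝ) * (p : ℝ) ^ j ≤ L ^ 2 := Nat.find_spec hex
  have hjmin : ∀ i, i < j → L ^ 2 < (n : ℝ) * (p : ℝ) ^ i := by
    intro i hi
    have := Nat.find_min hex hi
    push Not at this
    exact this
  have hjJ : (j : ℝ) ≤ J := by
    have h1 : j ≤ ⌈L / x⌉₊ := by
      refine Nat.find_min' hex ?_
      rw [mu_exp hp0 hn0, ← hLdef, ← hxdef]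
      have h1 : L / x ≤ ⌈L / x⌉₊ := Nat.le_ceil _
      rw [div_le_iff₀ hx0] at h1
      have h2 : Real.exp (L - ⌈L / x⌉₊ * x) ≤ 1 := Real.exp_le_one_iff.2 (by linarith)
      exact h2.trans (one_le_pow₀ hL1)
    have h2 : (⌈L / x⌉₊ : ℝ) < L / x + 1 := Nat.ceil_lt_add_one (by positivity)
    have h3 : L / x ≤ 1 / ε := by
      rw [div_le_div_iff₀ hx0 hε]; linarith
    have h4 : (j : ℝ) ≤ ⌈L / x⌉₊ := by exact_mod_cast h1
    linarith
  have hj3 : 3 ≤ j := by
    by_contra hlt
    push Not at hlt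
    have h1 : (n : ℝ) * (p : ℝ) ^ 2 ≤ L ^ 2 := by
      refine le_trans ?_ hjμ
      exact mul_le_mul_of_nonneg_left (pow_le_pow_of_le_one hp0.le hp1 (by omega)) hnR.le
    rw [mu_exp hp0 hn0, ← hLdef, ← hxdef] at h1
    have h2 : Real.exp (2 * ε * L) ≤ Real.exp (L - (2 : ℕ) * x) := by
      refine Real.exp_le_exp.2 ?_
      push_cast
      linarith
    linarith
  have hjR : (3 : ℝ) ≤ j := by exact_mod_cast hj3
  set μ : ℝ := (n : ℝ) * (p : ℝ) ^ j with hμdef
  have hμ0 : 0 ≤ μ := by positivity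
  -- the chunk size
  set m₀ : ℝ := min ((j + 1) * x / 2) (j * x / 2 + μ / (j - 1)) with hm₀
  set s := ⌊Real.exp (m₀ - 3)⌋₊ with hs
  have hm₀x : 3 / 2 * x ≤ m₀ := by
    rw [hm₀]
    have hjx := mul_le_mul_of_nonneg_right hjR hx0.le
    refine le_min (by linarith) ?_
    have : 0 ≤ μ / ((j : ℝ) - 1) := div_nonneg hμ0 (by linarith)
    linarith
  have hsbig : 2 ≤ Real.exp (m₀ - 3) := by
    rw [Real.exp_sub, le_div_iff₀ (Real.exp_pos 3)]
    have h1 : Real.exp x ≤ Real.exp m₀ := Real.exp_le_exp.2 (by linarith)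
    linarith
  have hsle : (s : ℝ) ≤ Real.exp (m₀ - 3) := Nat.floor_le (Real.exp_pos _).le
  have hsge : Real.exp (m₀ - 3) / 2 ≤ s := by
    have h1 := Nat.lt_floor_add_one (Real.exp (m₀ - 3))
    rw [← hs] at h1
    linarith
  have hs1 : 1 ≤ s := by
    have : (1 : ℝ) ≤ s := by linarith
    exact_mod_cast this
  have hsR : (1 : ℝ) ≤ s := by exact_mod_cast hs1
  set a := ⌈L⌉₊ with ha
  have haL : L ≤ a := Nat.le_ceil _
  have haL2 : (a : ℝ) ≤ 2 * L := by
    have : (a : ℝ) < L + 1 := Nat.ceil_lt_add_one (by linarith)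
    linarith
  set k := ⌈(F + 8 * l) / p⌉₊ with hk
  have hkge : (F + 8 * l) / p ≤ k := Nat.le_ceil _
  have hkF : F + 8 * l ≤ k * p := by rwa [div_le_iff₀ hp0] at hkge
  have hkle : (k : ℝ) ≤ max (F + 8 * l) 0 / p + 1 := by
    have h1 : (k : ℝ) ≤ ⌈max (F + 8 * l) 0 / p⌉₊ := by
      have : k ≤ ⌈max (F + 8 * l) 0 / p⌉₊ := by
        rw [hk]
        exact Nat.ceil_le_ceil (div_le_div_of_nonneg_right (le_max_left _ _) hp0.le)
      exact_mod_cast this
    have h2 : (⌈max (F + 8 * l) 0 / p⌉₊ : ℝ) < max (F + 8 * l) 0 / p + 1 :=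
      Nat.ceil_lt_add_one (div_nonneg (le_max_right _ _) hp0.le)
    linarith
  have hpinv : 1 / (p : ℝ) = Real.exp x := by
    rw [hpx, Real.exp_neg]; simp
  have hkL : (k : ℝ) ≤ 2 * L * Real.exp x + 1 := by
    have h1 : max (F + 8 * l) 0 ≤ 2 * L := max_le (by linarith) (by linarith)
    have h2 : max (F + 8 * l) 0 / p ≤ 2 * L * Real.exp x := by
      rw [div_eq_mul_one_div, hpinv]
      exact mul_le_mul_of_nonneg_right h1 (Real.exp_pos _).le
    linarith
  set r : ℝ := 4 * (n * Real.exp (-(k * p))) + 4 * L with hr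
  have hexx1 : 1 ≤ Real.exp x := by rw [Real.one_le_exp_iff]; exact hx0.le
  have hpp2 : (p : ℝ) * Real.exp x = 1 := by
    rw [hpx, ← Real.exp_add, neg_add_cancel, Real.exp_zero]
  -- small quantities
  have hLp : 8 * L ^ 4 * (p : ℝ) ≤ 1 := by
    have h1 : 8 * L ^ 4 ≤ Real.exp x := he3.trans hexε
    calc 8 * L ^ 4 * (p : ℝ) ≤ Real.exp x * p := mul_le_mul_of_nonneg_right h1 hp0.le
      _ = 1 := by rw [mul_comm]; exact hpp2
  have hJp : 1000 * (J + 3) * L ^ 2 * (p : ℝ) ≤ 1 := by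
    have h1 : 1000 * (J + 3) * L ^ 2 ≤ Real.exp x := he2.trans hexε
    calc 1000 * (J + 3) * L ^ 2 * (p : ℝ) ≤ Real.exp x * p := mul_le_mul_of_nonneg_right h1 hp0.le
      _ = 1 := by rw [mul_comm]; exact hpp2
  have hL2 : L ≤ L ^ 2 := le_self_pow₀ hL1 (by norm_num)
  have hJ1 : 0 < J := by rw [hJ]; positivity
  -- `k + 1 + a j ≤ n`
  have hkn : (k : ℝ) + 1 + a * j ≤ n / 2 := by
    have hxe : (1 / 2 - ε) * L = 1 / 2 * L - ε * L := by ring
    have h1 : Real.exp x ≤ Real.exp (1 / 2 * L) := Real.exp_le_exp.2 (by linarith)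
    have h2 : (n : ℝ) = Real.exp (1 / 2 * L) * (Real.exp (1 / 4 * L) * Real.exp (1 / 4 * L)) := by
      rw [hnL, ← Real.exp_add, ← Real.exp_add]; congr 1; ring
    have h3 : 1 ≤ Real.exp (1 / 2 * L) := by rw [Real.one_le_exp_iff]; linarith
    have h4 : 1 ≤ Real.exp (1 / 4 * L) := by rw [Real.one_le_exp_iff]; linarith
    have h5 : (a : ℝ) * j ≤ 2 * L * J := mul_le_mul haL2 hjJ (by positivity) (by linarith)
    have h6 : (k : ℝ) + 1 + a * j ≤ (2 * L + 2 + 2 * L * J) * Real.exp (1 / 2 * L) := by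
      have h7 : 2 * L * Real.exp x ≤ 2 * L * Real.exp (1 / 2 * L) :=
        mul_le_mul_of_nonneg_left h1 (by linarith)
      have h8 : 2 + 2 * L * J ≤ (2 + 2 * L * J) * Real.exp (1 / 2 * L) :=
        le_mul_of_one_le_right (by positivity) h3
      have e9 : (2 * L + 2 + 2 * L * J) * Real.exp (1 / 2 * L) = 2 * L * Real.exp (1 / 2 * L) +
        (2 + 2 * L * J) * Real.exp (1 / 2 * L) := by ring
      linarith
    have h7 : 2 * L + 2 + 2 * L * J ≤ Real.exp (1 / 4 * L) / 2 := by
      have e9 : 100 * (J + 3) * L = 100 * (J * L) + 300 * L := by ring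
      have e10 : 2 * L * J = 2 * (J * L) := by ring
      have e11 : 0 ≤ J * L := by positivity
      linarith
    have h8 : Real.exp (1 / 4 * L) ≤ Real.exp (1 / 4 * L) * Real.exp (1 / 4 * L) :=
      le_mul_of_one_le_left (by positivity) h4
    calc (k : ℝ) + 1 + a * j ≤ (2 * L + 2 + 2 * L * J) * Real.exp (1 / 2 * L) := h6
      _ ≤ (Real.exp (1 / 4 * L) * Real.exp (1 / 4 * L) / 2) * Real.exp (1 / 2 * L) := by
          refine mul_le_mul_of_nonneg_right ?_ (Real.exp_pos _).le
          linarith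
      _ = n / 2 := by rw [h2]; ring
  have hknN : k + 1 + a * j ≤ n := by
    have : ((k + 1 + a * j : ℕ) : ℝ) ≤ n := by push_cast; linarith
    exact_mod_cast this
  have hpj1 : (p : ℝ) ^ (j - 1) ≤ p ^ 2 := pow_le_pow_of_le_one hp0.le hp1 (by omega)
  have hpj : (p : ℝ) ^ j ≤ p ^ 3 := pow_le_pow_of_le_one hp0.le hp1 hj3
  have hjprev := hjmin (j - 1) (by omega)
  have hUp : UpC n k s a j (p : ℝ) L μ r := by
    refine ⟨by omega, hp0, hp1, hL1, hnL, rfl, haL, hs1, hknN, ?_, ?_, ?_, ?_, ?_, ?_, ?_⟩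
    · -- h0
      have h1 : (n : ℝ) / 2 ≤ ((n - (j - 1) : ℕ) : ℝ) := by
        have h2 : (j : ℝ) ≤ n / 2 := by
          have : (j : ℝ) ≤ a * j := by
            have : (1 : ℝ) ≤ a := by linarith
            exact le_mul_of_one_le_left (by positivity) this
          have hk0 : (0 : ℝ) ≤ k := by positivity
          linarith
        rw [Nat.cast_sub (by
          have : (j : ℝ) ≤ n := by linarith
          have : j ≤ n := by exact_mod_cast this
          omega), Nat.cast_sub (by omega), Nat.cast_one]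
        linarith
      have h2 : (n : ℝ) / 2 * (p : ℝ) ^ (j - 1) ≤ ((n - (j - 1) : ℕ) : ℝ) * (p : ℝ) ^ (j - 1) :=
        mul_le_mul_of_nonneg_right h1 (by positivity)
      have h3 : (j : ℝ) * L ≤ L ^ 2 / 2 := by
        have e9 := mul_le_mul_of_nonneg_right (show (j : ℝ) ≤ L / 2 by linarith)
          (show 0 ≤ L by linarith)
        have e10 : L ^ 2 / 2 = L / 2 * L := by ring
        linarith
      linarith
    · -- hA
      have h1 : (s : ℝ) ≤ Real.exp ((j + 1) * x / 2 - 3) :=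
        hsle.trans (Real.exp_le_exp.2 (by linarith [min_le_left ((j + 1) * x / 2) (j * x / 2 + μ / (j - 1))]))
      calc (s : ℝ) ^ j * (p : ℝ) ^ ((j + 1).choose 2)
          ≤ Real.exp ((j + 1) * x / 2 - 3) ^ j * (p : ℝ) ^ ((j + 1).choose 2) := by gcongr
        _ = Real.exp (-(3 * j)) := by
            rw [exp_pow_nat, pow_eq_exp hp0, ← hxdef, ← Real.exp_add, Nat.cast_choose_two]
            congr 1; push_cast; ring
        _ ≤ Real.exp (-2) := Real.exp_le_exp.2 (by linarith)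
    · -- hB
      have h1 : (s : ℝ) ≤ Real.exp (j * x / 2 + μ / (j - 1) - 3) :=
        hsle.trans (Real.exp_le_exp.2 (by linarith [min_le_right ((j + 1) * x / 2) (j * x / 2 + μ / (j - 1))]))
      calc (s : ℝ) ^ (j - 1) * (p : ℝ) ^ (j.choose 2)
          ≤ Real.exp (j * x / 2 + μ / (j - 1) - 3) ^ (j - 1) * (p : ℝ) ^ (j.choose 2) := by gcongr
        _ = Real.exp (μ - 3 * (j - 1)) := by
            rw [exp_pow_nat, pow_eq_exp hp0, ← hxdef, ← Real.exp_add, Nat.cast_choose_two,
              Nat.cast_sub (by omega), Nat.cast_one]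
            congr 1
            have e : ((j : ℝ) - 1) * (μ / (j - 1)) = μ := by
              have : (j : ℝ) - 1 ≠ 0 := by linarith
              field_simp
            linear_combination e
        _ ≤ Real.exp (μ - 3) := Real.exp_le_exp.2 (by linarith)
    · -- hE
      have h1 : ((k : ℝ) + 1 + a * j) * (p : ℝ) ^ j ≤ 1 / 2 := by
        have h2 : (k : ℝ) + 1 + a * j ≤ (2 * L + 2 + 2 * L * J) * Real.exp x := by
          have h5 : (a : ℝ) * j ≤ 2 * L * J := mul_le_mul haL2 hjJ (by positivity) (by linarith)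
          have h8 : 2 + 2 * L * J ≤ (2 + 2 * L * J) * Real.exp x :=
            le_mul_of_one_le_right (by positivity) hexx1
          have e9 : (2 * L + 2 + 2 * L * J) * Real.exp x = 2 * L * Real.exp x +
            (2 + 2 * L * J) * Real.exp x := by ring
          linarith
        have h3 : ((k : ℝ) + 1 + a * j) * (p : ℝ) ^ j ≤
            ((2 * L + 2 + 2 * L * J) * Real.exp x) * (p : ℝ) ^ 3 := by gcongr
        have h4 : ((2 * L + 2 + 2 * L * J) * Real.exp x) * (p : ℝ) ^ 3 =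
            (2 * L + 2 + 2 * L * J) * (p * p) * (p * Real.exp x) := by ring
        rw [h4, hpp2, mul_one] at h3
        have h6 : (2 * L + 2 + 2 * L * J) * (p * p : ℝ) ≤ 1 / 2 := by
          have h7 : (2 * L + 2 + 2 * L * J) * (p : ℝ) ≤ 1 / 2 := by
            have e9 : 2 * L + 2 + 2 * L * J ≤ 500 * (J + 3) * L ^ 2 := by
              have e10 : 500 * (J + 3) * L ^ 2 = 500 * (J * L ^ 2) + 1500 * L ^ 2 := by ring
              have e11 : J * L ≤ J * L ^ 2 := mul_le_mul_of_nonneg_left hL2 hJ1.le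
              have e12 : 2 * L * J = 2 * (J * L) := by ring
              have e13 : 0 ≤ J * L := by positivity
              linarith
            have e14 := mul_le_mul_of_nonneg_right e9 hp0.le
            have e15 : 1000 * (J + 3) * L ^ 2 * (p : ℝ) = 2 * (500 * (J + 3) * L ^ 2 * p) := by ring
            linarith
          have h8 : (2 * L + 2 + 2 * L * J) * (p * p : ℝ) ≤ (2 * L + 2 + 2 * L * J) * p :=
            mul_le_mul_of_nonneg_left (mul_le_of_le_one_left hp0.le hp1) (by positivity)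
          linarith
        linarith
      have h2 : (a : ℝ) / 2 * (n * (p : ℝ) ^ (2 * j - 1)) ≤ 1 / 2 := by
        have h3 : (n : ℝ) * (p : ℝ) ^ (2 * j - 1) = μ * (p : ℝ) ^ (j - 1) := by
          rw [hμdef, mul_assoc, ← pow_add]; congr 2; omega
        rw [h3]
        have h4 : μ * (p : ℝ) ^ (j - 1) ≤ L ^ 2 * p := by
          refine mul_le_mul hjμ ?_ (by positivity) (by positivity)
          calc (p : ℝ) ^ (j - 1) ≤ p ^ 1 := pow_le_pow_of_le_one hp0.le hp1 (by omega)
            _ = p := pow_one _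
        have h5 : (a : ℝ) / 2 * (μ * (p : ℝ) ^ (j - 1)) ≤ L * (L ^ 2 * p) :=
          mul_le_mul (by linarith) h4 (by positivity) (by linarith)
        have h6 : L * (L ^ 2 * (p : ℝ)) ≤ L ^ 4 * p := by
          have : L ^ 3 ≤ L ^ 4 := pow_le_pow_right₀ hL1 (by norm_num)
          have := mul_le_mul_of_nonneg_right this hp0.le
          have e9 : L * (L ^ 2 * (p : ℝ)) = L ^ 3 * p := by ring
          linarith
        linarith
      linarith
    · -- hap
      have h1 : (a : ℝ) * (p : ℝ) ^ (j - 1) ≤ 2 * L * p := by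
        refine mul_le_mul haL2 ?_ (by positivity) (by linarith)
        calc (p : ℝ) ^ (j - 1) ≤ p ^ 1 := pow_le_pow_of_le_one hp0.le hp1 (by omega)
          _ = p := pow_one _
      have h2 : L ≤ L ^ 4 := le_self_pow₀ hL1 (by norm_num)
      have h3 : 2 * L * (p : ℝ) ≤ 8 * L ^ 4 * p := by
        refine mul_le_mul_of_nonneg_right ?_ hp0.le
        linarith [show 0 ≤ L ^ 4 by positivity]
      linarith
    · -- hr
      have h1 : (1 - (p : ℝ)) ^ k ≤ Real.exp (-(k * p)) := by
        have h2 : 1 - (p : ℝ) ≤ Real.exp (-p) := by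
          have := Real.add_one_le_exp (-(p : ℝ))
          linarith
        refine (pow_le_pow_left₀ (by linarith) h2 k).trans (le_of_eq ?_)
        rw [exp_pow_nat]; congr 1; ring
      have h2 : ((n - k : ℕ) : ℝ) ≤ n := by exact_mod_cast Nat.sub_le _ _
      have h3 : ((n - k : ℕ) : ℝ) * (1 - (p : ℝ)) ^ k ≤ n * Real.exp (-(k * p)) :=
        mul_le_mul h2 h1 (pow_nonneg (by linarith) _) hnR.le
      rw [hr]
      linarith
    · rw [hr]
      have : 0 ≤ (n : ℝ) * Real.exp (-(k * p)) := by positivity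
      linarith
  refine le_trans (measureReal_mono ?_ (measure_ne_top _ _)) (upper_prob hUp)
  intro G hG hcon
  apply hG
  refine hcon.trans ?_
  -- final estimate
  have hT1 : L - (j + 1) * x / 2 ≤ x + F + 1 := by
    have h1 := TT_le_FF (j := j + 1) (n := n) (by omega) hp0 hp1
    unfold TT at h1
    rw [← hLdef, ← hxdef, ← hFdef] at h1
    push_cast at h1
    have h2 : (n : ℝ) * (p : ℝ) ^ (j + 1) / ((j : ℝ) + 1 - 1) ≤ 1 := by
      rw [div_le_one (by linarith)]
      have h3 : (n : ℝ) * (p : ℝ) ^ (j + 1) = μ * p := by rw [hμdef]; ring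
      rw [h3]
      have h4 : μ * (p : ℝ) ≤ L ^ 2 * p := mul_le_mul_of_nonneg_right hjμ hp0.le
      have h5 : L ^ 2 * (p : ℝ) ≤ 1000 * (J + 3) * L ^ 2 * p := by
        refine mul_le_mul_of_nonneg_right ?_ hp0.le
        have e9 : 1000 * (J + 3) * L ^ 2 = 1000 * (J * L ^ 2) + 3000 * L ^ 2 := by ring
        have e10 : 0 ≤ J * L ^ 2 := by positivity
        have e11 : 0 ≤ L ^ 2 := by positivity
        linarith
      linarith
    linarith
  have hT2 : L - (j * x / 2 + μ / (j - 1)) ≤ x + F + 1 := by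
    have h1 := TT_le_FF (j := j) (n := n) hj3 hp0 hp1
    unfold TT at h1
    rw [← hLdef, ← hxdef, ← hFdef, ← hμdef] at h1
    linarith
  have hLm : L - m₀ ≤ x + F + 1 := by
    rw [hm₀]
    rcases min_choice ((j + 1) * x / 2) (j * x / 2 + μ / ((j : ℝ) - 1)) with h | h <;> rw [h]
    · exact hT1
    · exact hT2
  have hns : (n : ℝ) / s ≤ 2 * Real.exp 4 * Real.exp (x + F) := by
    rw [div_le_iff₀ (by linarith)]
    have h1 : (n : ℝ) = Real.exp (L - m₀ + 3) * Real.exp (m₀ - 3) := by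
      rw [hnL, ← Real.exp_add]; congr 1; ring
    have h2 : Real.exp (L - m₀ + 3) ≤ Real.exp 4 * Real.exp (x + F) := by
      rw [← Real.exp_add]; exact Real.exp_le_exp.2 (by linarith)
    calc (n : ℝ) = Real.exp (L - m₀ + 3) * Real.exp (m₀ - 3) := h1
      _ ≤ (Real.exp 4 * Real.exp (x + F)) * (2 * s) := by
          refine mul_le_mul h2 (by linarith) (Real.exp_pos _).le (by positivity)
      _ = _ := by ring
  have hrs : r / s ≤ 8 * Real.exp 4 * (Real.exp x * Real.exp (-(8 * l))) + 4 * L := by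
    rw [hr, add_div]
    refine add_le_add ?_ ?_
    · have h1 : 4 * ((n : ℝ) * Real.exp (-(k * p))) / s = 4 * (n / s) * Real.exp (-(k * p)) := by
        ring
      have h2 : Real.exp (-(k * (p : ℝ))) ≤ Real.exp (-(F + 8 * l)) := Real.exp_le_exp.2 (by linarith)
      rw [h1]
      calc 4 * ((n : ℝ) / s) * Real.exp (-(k * p))
          ≤ 4 * (2 * Real.exp 4 * Real.exp (x + F)) * Real.exp (-(F + 8 * l)) := by gcongr
        _ = 8 * Real.exp 4 * (Real.exp (x + F) * Real.exp (-(F + 8 * l))) := by ring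
        _ = _ := by
            have e : Real.exp (x + F) * Real.exp (-(F + 8 * l)) =
                Real.exp x * Real.exp (-(8 * l)) := by
              rw [← Real.exp_add, ← Real.exp_add]; congr 1; ring
            rw [e]
    · exact div_le_self (by linarith) hsR
  have hexp8 : Real.exp (-(8 * l)) = 1 / L ^ 8 := by
    have h := exp_pow_nat l 8
    rw [hLexp] at h
    push_cast at h
    rw [Real.exp_neg, one_div, h]
  have hfinal : (r / s + 1) * (4 * a * (j + 1)) + 2 ≤ Real.exp x := by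
    have h1 : (4 : ℝ) * a * (j + 1) ≤ 8 * L * (J + 1) := by
      have : (a : ℝ) * (j + 1) ≤ 2 * L * (J + 1) :=
        mul_le_mul haL2 (by linarith) (by positivity) (by linarith)
      linarith
    have h2 : (r / s + 1) * (4 * a * (j + 1)) ≤
        (8 * Real.exp 4 * (Real.exp x * Real.exp (-(8 * l))) + 4 * L + 1) * (8 * L * (J + 1)) := by
      refine mul_le_mul (by linarith) h1 (by positivity) (by positivity)
    rw [hexp8] at h2
    have he4' : Real.exp 4 ≤ 64 := by
      have h3 : Real.exp 4 = Real.exp 2 * Real.exp 2 := by rw [← Real.exp_add]; norm_num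
      have h4 := e2_le
      have h5 := Real.exp_pos 2
      rw [h3]
      have e9 := mul_le_mul h4 h4 h5.le (by norm_num)
      linarith
    have hL8 : (0 : ℝ) < L ^ 8 := by positivity
    -- first part
    have h3 : 8 * Real.exp 4 * (Real.exp x * (1 / L ^ 8)) * (8 * L * (J + 1)) ≤ Real.exp x / 4 := by
      have h4 : 8 * Real.exp 4 * (Real.exp x * (1 / L ^ 8)) * (8 * L * (J + 1)) =
          (64 * Real.exp 4 * (J + 1) / L ^ 7) * Real.exp x := by
        field_simp
        ring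
      rw [h4]
      have h5 : 64 * Real.exp 4 * (J + 1) / L ^ 7 ≤ 1 / 4 := by
        rw [div_le_iff₀ (by positivity)]
        have h6 : 4 * (J + 1) ≤ L := by linarith
        have h7 : (12 : ℝ) ≤ L := by
          have : (1 : ℝ) ≤ J := by rw [hJ]; linarith
          linarith
        have h8 : (12 : ℝ) ^ 6 ≤ L ^ 6 := pow_le_pow_left₀ (by norm_num) h7 6
        have h9 : L ^ 7 = L ^ 6 * L := by ring
        rw [h9]
        have h10 : 64 * Real.exp 4 * (J + 1) ≤ 64 * 64 * (J + 1) := by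
          have : 0 ≤ J + 1 := by linarith
          exact mul_le_mul_of_nonneg_right (by linarith) this
        have h11 : (12 : ℝ) ^ 6 * L ≤ L ^ 6 * L := mul_le_mul_of_nonneg_right h8 (by linarith)
        norm_num at h11
        linarith
      have h5' := mul_le_mul_of_nonneg_right h5 (Real.exp_pos x).le
      linarith
    have h4 : (4 * L + 1) * (8 * L * (J + 1)) + 2 ≤ Real.exp x / 2 := by
      have h5 : 1000 * (J + 3) * L ^ 2 ≤ Real.exp x := he2.trans hexε
      have a1 : (4 * L + 1) * (8 * L * (J + 1)) ≤ (5 * L) * (8 * L * (J + 1)) :=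
        mul_le_mul_of_nonneg_right (by linarith) (by positivity)
      have a2 : (5 * L) * (8 * L * (J + 1)) = 40 * (J * L ^ 2) + 40 * L ^ 2 := by ring
      have a3 : 1000 * (J + 3) * L ^ 2 = 1000 * (J * L ^ 2) + 3000 * L ^ 2 := by ring
      have a4 : 0 ≤ J * L ^ 2 := by positivity
      have a5 : 1 ≤ L ^ 2 := one_le_pow₀ hL1
      linarith
    have h6 : (8 * Real.exp 4 * (Real.exp x * (1 / L ^ 8)) + 4 * L + 1) * (8 * L * (J + 1)) =
        8 * Real.exp 4 * (Real.exp x * (1 / L ^ 8)) * (8 * L * (J + 1)) +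
          (4 * L + 1) * (8 * L * (J + 1)) := by ring
    have h5 := Real.exp_pos x
    linarith
  have h1 : (max (F + 8 * l) 0 + 1) / (p : ℝ) = max (F + 8 * l) 0 / p + Real.exp x := by
    rw [add_div, hpinv]
  rw [h1]
  linarith

end Pool.Agent.H977.CC
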