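import Pool.Agent.H977.CC.AsC

/-! Sharp asymptotics of the clique chromatic number for `n^(-1/3+ε) ≪ p ≪ n^(-ε)`. -/

open MeasureTheory ProbabilityTheory unitInterval Finset Filter Topology
open scoped SimpleGraph

namespace Pool.Agent.H977.CC

open Pool.Agent.V11328

/-- Both bounds, uniformly in `p`. -/
theorem sharpF {ε η : ℝ} (hε : 0 < ε) (hη : 0 < η) :
    ∃ N : ℕ, ∀ n : ℕ, N ≤ n → ∀ p : I, (0 : ℝ) < p →
      ε * Real.log n ≤ -Real.log p → -Real.log p ≤ (1 / 3 - ε) * Real.log n →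
      (G(Fin n, p)).real {G : SimpleGraph (Fin n) | ¬ |(chiC G : ℝ) - FF n p / p| ≤
        η * (FF n p / p)} ≤ 10 * Real.exp (-Real.log n) := by
  obtain ⟨N₁, hN₁⟩ := lowF hε (η := min η 1) (lt_min hη one_pos) (min_le_right _ _)
  obtain ⟨N₂, hN₂⟩ := upF hε
  have hev : ∀ᶠ L : ℝ in atTop, 8 * Real.log L ≤ ε * η / 2 * L ∧ 1 ≤ ε * η / 2 * L ∧
      1 ≤ L ∧ 1 ≤ ε * L := by
    refine (ev_log (by positivity) 8).and (Eventually.and ?_ (Eventually.and
      (eventually_ge_atTop 1) ?_))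
    · filter_upwards [eventually_ge_atTop (1 / (ε * η / 2))] with L h
      rw [div_le_iff₀ (by positivity)] at h; linarith
    · filter_upwards [eventually_ge_atTop (1 / ε)] with L h
      rw [div_le_iff₀ hε] at h; linarith
  obtain ⟨N₃, hN₃⟩ := ev_nat hev
  refine ⟨max N₁ (max N₂ N₃), fun n hn p hp0 hx hx2 => ?_⟩
  have hn1 : N₁ ≤ n := (le_max_left _ _).trans hn
  have hn2 : N₂ ≤ n := ((le_max_left _ _).trans (le_max_right _ _)).trans hn
  have hn3 : N₃ ≤ n := ((le_max_right _ _).trans (le_max_right _ _)).trans hn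
  obtain ⟨h8, h1, hL1, hεL⟩ := hN₃ n hn3
  have hlow := hN₁ n hn1 p hp0 hx hx2
  have hup := hN₂ n hn2 p hp0 hx (by nlinarith)
  have hn0 : 0 < n := by
    rcases Nat.eq_zero_or_pos n with h | h
    · rw [h] at hL1; simp at hL1; linarith
    · exact h
  have hp1 : (p : ℝ) ≤ 1 := p.2.2
  have hF := FF_ge hε hp0 hp1 hn0 hL1 hx hx2 hεL
  set F := FF n (p : ℝ) with hFdef
  set L := Real.log n with hLdef
  set l := Real.log L with hldef
  have hl0 : 0 ≤ l := Real.log_nonneg hL1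
  have hF0 : 0 < F := by linarith
  have hFp : 0 < F / p := div_pos hF0 hp0
  have hsub : {G : SimpleGraph (Fin n) | ¬ |(chiC G : ℝ) - F / p| ≤ η * (F / p)} ⊆
      {G : SimpleGraph (Fin n) | (chiC G : ℝ) < (1 - min η 1) * F / p} ∪
      {G : SimpleGraph (Fin n) | ¬ (chiC G : ℝ) ≤ (max (F + 8 * l) 0 + 1) / p} := by
    intro G hG
    by_contra hcon
    rw [Set.mem_union, not_or] at hcon
    simp only [Set.mem_ofPred_eq, not_lt, not_not] at hcon
    obtain ⟨h2, h3⟩ := hcon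
    apply hG
    rw [abs_le]
    constructor
    · have h4 : (1 - min η 1) * F / p = F / p - min η 1 * (F / p) := by ring
      have h5 : min η 1 * (F / p) ≤ η * (F / p) :=
        mul_le_mul_of_nonneg_right (min_le_left _ _) hFp.le
      linarith
    · have h4 : max (F + 8 * l) 0 = F + 8 * l := max_eq_left (by linarith)
      rw [h4] at h3
      have h5 : (F + 8 * l + 1) / p ≤ (F + η * F) / p := by
        refine div_le_div_of_nonneg_right ?_ hp0.le
        have h6 : η * (ε * L) ≤ η * F := mul_le_mul_of_nonneg_left hF hη.le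
        nlinarith
      have h6 : (F + η * F) / p = F / p + η * (F / p) := by ring
      linarith
  refine (measureReal_mono hsub (measure_ne_top _ _)).trans ?_
  refine (measureReal_union_le _ _).trans ?_
  linarith

lemma rpow_facts {n : ℕ} (hn : 0 < n) {p c : ℝ} (hp : 0 < p) :
    (p ≤ (n : ℝ) ^ c ↔ Real.log p ≤ c * Real.log n) ∧
    ((n : ℝ) ^ c ≤ p ↔ c * Real.log n ≤ Real.log p) := by
  have hnR : (0 : ℝ) < n := by exact_mod_cast hn
  have h1 : Real.log ((n : ℝ) ^ c) = c * Real.log n := Real.log_rpow hnR c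
  have h2 : 0 < (n : ℝ) ^ c := Real.rpow_pos_of_pos hnR c
  constructor
  · rw [← h1, Real.log_le_log_iff hp h2]
  · rw [← h1, Real.log_le_log_iff h2 hp]

/-- Range of `p` in logarithmic form. -/
lemma range_log {p : ℕ → I} {a b : ℝ}
    (h1 : Tendsto (fun n : ℕ => (p n : ℝ) / (n : ℝ) ^ a) atTop atTop)
    (h2 : Tendsto (fun n : ℕ => (p n : ℝ) / (n : ℝ) ^ b) atTop (𝓝 0)) :
    ∀ᶠ n : ℕ in atTop, (0 : ℝ) < p n ∧ -b * Real.log n ≤ -Real.log (p n) ∧
      -Real.log (p n) ≤ -a * Real.log n := by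
  filter_upwards [h1.eventually_ge_atTop 1, h2.eventually (gt_mem_nhds (zero_lt_one)),
    eventually_gt_atTop 0] with n h3 h4 h5
  have hnR : (0 : ℝ) < n := by exact_mod_cast h5
  have ha : 0 < (n : ℝ) ^ a := Real.rpow_pos_of_pos hnR a
  have hb : 0 < (n : ℝ) ^ b := Real.rpow_pos_of_pos hnR b
  rw [le_div_iff₀ ha, one_mul] at h3
  rw [div_lt_one hb] at h4
  have hp0 : (0 : ℝ) < p n := lt_of_lt_of_le ha h3
  refine ⟨hp0, ?_, ?_⟩
  · have := (rpow_facts h5 hp0).1.1 h4.le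
    linarith
  · have := (rpow_facts h5 hp0).2.1 h3
    linarith

/-- `exp (-log n) → 0`. -/
lemma tendsto_exp_neg_log (C : ℝ) :
    Tendsto (fun n : ℕ => C * Real.exp (-Real.log n)) atTop (𝓝 0) := by
  have h1 : Tendsto (fun n : ℕ => Real.log n) atTop atTop :=
    Real.tendsto_log_atTop.comp tendsto_natCast_atTop_atTop
  have h2 := (Real.tendsto_exp_neg_atTop_nhds_zero.comp h1).const_mul C
  rw [mul_zero] at h2
  exact h2

theorem main1 {ε : ℝ} (hε : 0 < ε) {p : ℕ → I}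
    (h1 : Tendsto (fun n : ℕ => (p n : ℝ) / (n : ℝ) ^ (-(1 / 3) + ε)) atTop atTop)
    (h2 : Tendsto (fun n : ℕ => (p n : ℝ) / (n : ℝ) ^ (-ε)) atTop (𝓝 0)) {η : ℝ} (hη : 0 < η) :
    Tendsto (fun n : ℕ => (G(Fin n, p n)) {G | |(chiC G : ℝ) - FF n (p n) / p n| ≤
      η * (FF n (p n) / p n)}) atTop (𝓝 1) := by
  obtain ⟨N, hN⟩ := sharpF hε hη
  refine tendsto_one (B := fun n => {G | ¬ |(chiC G : ℝ) - FF n (p n) / p n| ≤
      η * (FF n (p n) / p n)}) (b := fun n => 10 * Real.exp (-Real.log n)) ?_ ?_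
    (tendsto_exp_neg_log 10)
  · exact Eventually.of_forall fun n G hG => by
      simpa using hG
  · filter_upwards [range_log h1 h2, eventually_ge_atTop N] with n h3 h4
    refine hN n h4 (p n) h3.1 ?_ ?_
    · have := h3.2.1
      rwa [neg_neg] at this
    · have h5 := h3.2.2
      have h6 : -(-(1 / 3) + ε) * Real.log n = (1 / 3 - ε) * Real.log n := by ring
      rwa [h6] at h5

/-- The leading constant for `p = n ^ (-x + o(1))`, `1/(r+1) < x < 1/r`. -/
theorem main1_const {r : ℕ} (hr : 3 ≤ r) {x : ℝ} (hx1 : 1 / ((r : ℝ) + 1) < x)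
    (hx2 : x < 1 / r) {p : ℕ → I} (hp : ∀ᶠ n in atTop, (0 : ℝ) < p n)
    (hpx : Tendsto (fun n : ℕ => -Real.log (p n) / Real.log n) atTop (𝓝 x)) :
    Tendsto (fun n : ℕ => FF n (p n) / Real.log n) atTop (𝓝 (1 - (r + 3) * x / 2)) := by
  have hrR : (3 : ℝ) ≤ r := by exact_mod_cast hr
  have hx0 : 0 < x := lt_trans (by positivity) hx1
  have hlog : Tendsto (fun n : ℕ => Real.log n) atTop atTop :=
    Real.tendsto_log_atTop.comp tendsto_natCast_atTop_atTop
  have hxr : r * x < 1 := by rw [lt_div_iff₀ (by linarith)] at hx2; linarith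
  have hxr1 : 1 < (r + 1) * x := by rw [div_lt_iff₀ (by linarith)] at hx1; linarith
  -- lower bound function
  have hT : Tendsto (fun n : ℕ => 1 - (1 + ((r : ℝ) + 1) / 2) * (-Real.log (p n) / Real.log n) -
      1 / Real.log n) atTop (𝓝 (1 - (1 + ((r : ℝ) + 1) / 2) * x - 0)) :=
    (tendsto_const_nhds.sub (tendsto_const_nhds.mul hpx)).sub
      (tendsto_const_nhds.div_atTop hlog)
  have hU : Tendsto (fun n : ℕ => 1 - (1 + ((r : ℝ) + 1) / 2) * (-Real.log (p n) / Real.log n))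
      atTop (𝓝 (1 - (1 + ((r : ℝ) + 1) / 2) * x)) :=
    tendsto_const_nhds.sub (tendsto_const_nhds.mul hpx)
  have e1 : 1 - (1 + ((r : ℝ) + 1) / 2) * x - 0 = 1 - (r + 3) * x / 2 := by ring
  have e2 : 1 - (1 + ((r : ℝ) + 1) / 2) * x = 1 - (r + 3) * x / 2 := by ring
  rw [e1] at hT
  rw [e2] at hU
  set δ : ℝ := (1 - r * x) / 2 with hδ
  have hδ0 : 0 < δ := by rw [hδ]; linarith
  -- eventually bounds on the exponent
  have hxn1 : ∀ᶠ n : ℕ in atTop, 1 / ((r : ℝ) + 1) < -Real.log (p n) / Real.log n :=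
    hpx.eventually (lt_mem_nhds hx1)
  have hxn2 : ∀ᶠ n : ℕ in atTop, -Real.log (p n) / Real.log n < (1 - δ) / r :=
    hpx.eventually (gt_mem_nhds (by
      rw [lt_div_iff₀ (by linarith), hδ]; nlinarith))
  have hbig := hlog.eventually ((ev_pow (c := δ) hδ0 (2 * ((r : ℝ) - 1) * (r + 3)) 1).and
    (eventually_ge_atTop 1))
  refine tendsto_of_tendsto_of_tendsto_of_le_of_le' hT hU ?_ ?_
  · filter_upwards [hp, hxn1, hlog.eventually_ge_atTop 1, eventually_gt_atTop 0] with n hp0 h3 hL1 hn0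
    have hL0 : 0 < Real.log n := by linarith
    have hp1 : ((p n : I) : ℝ) ≤ 1 := (p n).2.2
    rw [le_div_iff₀ hL0]
    have h4 := TT_le_FF (j := r + 1) (n := n) (by omega) hp0 hp1
    refine le_trans ?_ h4
    unfold TT
    push_cast
    have h5 : (n : ℝ) * ((p n : I) : ℝ) ^ (r + 1) / ((r : ℝ) + 1 - 1) ≤ 1 := by
      rw [div_le_one (by linarith), mu_exp hp0 hn0]
      have h6 : Real.exp (Real.log n - ((r + 1 : ℕ) : ℝ) * -Real.log (p n)) ≤ 1 := by
        rw [Real.exp_le_one_iff]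
        push_cast
        rw [lt_div_iff₀ hL0, one_div, inv_mul_lt_iff₀ (by linarith)] at h3
        linarith
      linarith
    have h6 : (1 - (1 + ((r : ℝ) + 1) / 2) * (-Real.log (p n) / Real.log n) - 1 / Real.log n) *
        Real.log n = Real.log n - (1 + ((r : ℝ) + 1) / 2) * (-Real.log (p n)) - 1 := by
      field_simp
    rw [h6]
    linarith
  · filter_upwards [hp, hxn1, hxn2, hbig, eventually_gt_atTop 0] with n hp0 h3 h3' hb hn0
    obtain ⟨hb1, hL1⟩ := hb
    have hL0 : 0 < Real.log n := by linarith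
    have hp1 : ((p n : I) : ℝ) ≤ 1 := (p n).2.2
    rw [div_le_iff₀ hL0]
    set L := Real.log n with hL
    set y := -Real.log ((p n : I) : ℝ) with hy
    have h6 : (1 - (1 + ((r : ℝ) + 1) / 2) * (y / L)) * L = L - (1 + ((r : ℝ) + 1) / 2) * y := by
      field_simp
    rw [h6]
    have hyL : 1 / ((r : ℝ) + 1) * L < y := by rwa [lt_div_iff₀ hL0] at h3
    have hy0 : 0 < y := lt_trans (by positivity) hyL
    have hyL2 : y < (1 - δ) / r * L := by rwa [div_lt_iff₀ hL0] at h3'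
    refine ciSup_le fun i => ?_
    unfold TT
    rw [← hL, ← hy]
    have hjR : (3 : ℝ) ≤ ((i + 3 : ℕ) : ℝ) := by push_cast; linarith [show (0 : ℝ) ≤ i by positivity]
    have hμ0 : 0 ≤ (n : ℝ) * ((p n : I) : ℝ) ^ (i + 3) / (((i + 3 : ℕ) : ℝ) - 1) :=
      div_nonneg (by positivity) (by linarith)
    rcases Nat.lt_or_ge (i + 3) (r + 1) with hlt | hge
    · -- small levels
      have h7 : Real.exp (δ * L) ≤ (n : ℝ) * ((p n : I) : ℝ) ^ (i + 3) := by
        have h8 : (n : ℝ) * ((p n : I) : ℝ) ^ r ≤ (n : ℝ) * ((p n : I) : ℝ) ^ (i + 3) :=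
          mul_le_mul_of_nonneg_left (pow_le_pow_of_le_one hp0.le hp1 (by omega)) (by positivity)
        refine le_trans ?_ h8
        rw [mu_exp hp0 hn0, ← hL, ← hy]
        refine Real.exp_le_exp.2 ?_
        have h9 : (r : ℝ) * y ≤ r * ((1 - δ) / r * L) := mul_le_mul_of_nonneg_left hyL2.le (by linarith)
        have h10 : (r : ℝ) * ((1 - δ) / r * L) = (1 - δ) * L := by field_simp
        nlinarith
      have hjr : ((i + 3 : ℕ) : ℝ) ≤ r := by exact_mod_cast (by omega : i + 3 ≤ r)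
      have h8 : 2 * (r + 3) * L ≤ (n : ℝ) * ((p n : I) : ℝ) ^ (i + 3) / (((i + 3 : ℕ) : ℝ) - 1) := by
        rw [le_div_iff₀ (by linarith)]
        rw [pow_one] at hb1
        calc 2 * ((r : ℝ) + 3) * L * (((i + 3 : ℕ) : ℝ) - 1) ≤ 2 * (r + 3) * L * (r - 1) := by
              refine mul_le_mul_of_nonneg_left (by linarith) (by positivity)
          _ = 2 * (r - 1) * (r + 3) * L := by ring
          _ ≤ Real.exp (δ * L) := hb1
          _ ≤ _ := h7
      have hyL3 : y ≤ L := by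
        have h9 : (1 - δ) / r ≤ 1 := by
          rw [div_le_one (by linarith)]; linarith
        have h10 : (1 - δ) / r * L ≤ 1 * L := mul_le_mul_of_nonneg_right h9 hL0.le
        linarith
      have h9 : (1 + ((r : ℝ) + 1) / 2) * y ≤ (1 + ((r : ℝ) + 1) / 2) * L :=
        mul_le_mul_of_nonneg_left hyL3 (by positivity)
      have h10 : 0 ≤ (1 + ((i + 3 : ℕ) : ℝ) / 2) * y := by positivity
      nlinarith
    · have hjr : ((r : ℝ) + 1) ≤ ((i + 3 : ℕ) : ℝ) := by exact_mod_cast hge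
      have h7 : (1 + ((r : ℝ) + 1) / 2) * y ≤ (1 + ((i + 3 : ℕ) : ℝ) / 2) * y :=
        mul_le_mul_of_nonneg_right (by linarith) hy0.le
      linarith

end Pool.Agent.H977.CC
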