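import Pool.Agent.H977.CC.FfA

/-! First-fit colouring: probability of failure. -/

open MeasureTheory ProbabilityTheory unitInterval Finset
open scoped SimpleGraph

namespace Pool.Agent.H977.CC

open Pool.Agent.V11328

variable {n : ℕ}

/-- Failure of the procedure at `v` (under the global conditions). -/
def Fail (m c r M : ℕ) (X : Finset (Fin n)) (T : Finset (Sym2 (Fin n))) (v : Fin n) : Prop :=
  v ∈ far T X ∧ #(far T X) ≤ r ∧ (∀ C : Finset (Fin n), #C ≤ c → #(T ∩ prs C) ≤ M) ∧
    ∀ i : Fin m, #(stt m c T (far T X) v i) < c → rej T (stt m c T (far T X) v i) v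

/-- One class rejects with probability bounded away from one. -/
lemma one_class {p : ℝ} (h0 : 0 ≤ p) (h1 : p ≤ 1) {M : ℕ} {C : Finset (Fin n)} {v : Fin n}
    (hv : v ∉ C) {F : Finset (Sym2 (Fin n))} (hF : F ⊆ prs C) (hM : #F ≤ M) :
    ex (fun _ => p) (ew C v) (fun T => 1 - ∏ e ∈ F, (if ew e.toFinset v ⊆ T then 0 else 1)) ≤
      1 - (1 - p ^ 2) ^ M := by
  classical
  rw [ex_sub, ex_const]
  have hp2 : p ^ 2 ≤ 1 := pow_le_one₀ h0 h1
  have hp2' : 0 ≤ p ^ 2 := by positivity
  have hone : ∀ e ∈ F, ex (fun _ => p) (ew C v) (fun T => if ew e.toFinset v ⊆ T then 0 else 1) =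
      1 - p ^ 2 := by
    intro e he
    obtain ⟨x, hx, y, hy, hxy, rfl⟩ := mem_prs.1 (hF he)
    have h3 : (fun T : Finset (Sym2 (Fin n)) => if ew (s(x, y)).toFinset v ⊆ T then (0 : ℝ) else 1) =
        (fun T => 1 - (if ew (s(x, y)).toFinset v ⊆ T then 1 else 0)) := by
      funext T; split_ifs <;> norm_num
    have hsub : (s(x, y)).toFinset ⊆ C := by
      intro z hz
      rw [Sym2.mem_toFinset, Sym2.mem_iff] at hz
      rcases hz with rfl | rfl
      · exact hx
      · exact hy
    have hsub2 : ew (s(x, y)).toFinset v ⊆ ew C v := Finset.image_subset_image hsub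
    rw [h3, ex_sub, ex_const, ex_subset _ hsub2, Finset.prod_const,
      card_ew (fun h => hv (hsub h)), Sym2.card_toFinset_of_not_isDiag _ (by
        rw [Sym2.mk_isDiag_iff]; exact hxy)]
  have hH := ex_harris_prod (P := fun _ : Sym2 (Fin n) => p) (fun _ => h0) (fun _ => h1) (ew C v) F
    (fun e T => if ew e.toFinset v ⊆ T then 0 else 1)
    (fun e _ T => by split_ifs <;> norm_num)
    (fun e _ S T hST => by
      by_cases h : ew e.toFinset v ⊆ T
      · rw [if_pos h]; split_ifs <;> norm_num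
      · rw [if_neg h, if_neg (fun h' => h (h'.trans hST))])
  rw [Finset.prod_congr rfl hone, Finset.prod_const] at hH
  have h2 : (1 - p ^ 2) ^ M ≤ (1 - p ^ 2) ^ #F :=
    pow_le_pow_of_le_one (by linarith) (by linarith) hM
  linarith

lemma rej_edge {T : Finset (Sym2 (Fin n))} (hT : T ⊆ allE (Fin n)) {C : Finset (Fin n)}
    {v : Fin n} (h : rej T C v) : ∃ e ∈ T ∩ prs C, ew e.toFinset v ⊆ T := by
  obtain ⟨a, ha, b, hb, h1, h2, h3⟩ := h
  refine ⟨s(a, b), mem_inter.2 ⟨h1, mk_mem_prs.2 ⟨ha, hb, mk_mem_allE.1 (hT h1)⟩⟩, ?_⟩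
  intro e he
  obtain ⟨z, hz, rfl⟩ := mem_ew.1 he
  rw [Sym2.mem_toFinset, Sym2.mem_iff] at hz
  rcases hz with rfl | rfl
  · exact h2
  · exact h3

open Classical in
/-- Probability of failure at `v`. -/
lemma fail_prob {p : ℝ} (h0 : 0 ≤ p) (h1 : p ≤ 1) {m c r M m' : ℕ} (hc : 1 ≤ c)
    (hm : m' + r / c ≤ m) (X : Finset (Fin n)) (v : Fin n) :
    ex (fun _ => p) (allE (Fin n)) (fun T => if Fail m c r M X T v then 1 else 0) ≤
      (1 - (1 - p ^ 2) ^ M) ^ m' := by
  have hp2 : p ^ 2 ≤ 1 := pow_le_one₀ h0 h1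
  have hp2' : 0 ≤ p ^ 2 := by positivity
  set ρ : ℝ := 1 - (1 - p ^ 2) ^ M with hρ
  have hρ0 : 0 ≤ ρ := by
    have : (1 - p ^ 2) ^ M ≤ 1 := pow_le_one₀ (by linarith) (by linarith)
    linarith
  have hρ1 : ρ ≤ 1 := by
    have : 0 ≤ (1 - p ^ 2) ^ M := pow_nonneg (by linarith) _
    linarith
  by_cases hvX : v ∈ X
  · refine (ex_le_const (fun _ => h0) (fun _ => h1) (c := 0) fun T _ => ?_).trans
      (pow_nonneg hρ0 m')
    rw [if_neg]
    intro h
    exact (mem_far.1 h.1).1 hvX
  · set W : Finset (Fin n) := univ.filter (fun u => u < v ∧ u ∉ X) with hW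
    set E₂ := ew W v with hE₂
    have hvW : v ∉ W := by
      intro h
      exact lt_irrefl v (mem_filter.1 h).2.1
    have hE₂sub : E₂ ⊆ allE (Fin n) := by
      intro e he
      obtain ⟨w, hw, rfl⟩ := mem_ew.1 he
      rw [mk_mem_allE]
      rintro rfl
      exact hvW hw
    refine ex_le_of_cond (fun _ => h0) (fun _ => h1) hE₂sub _ _ fun T₁ hT₁ => ?_
    -- the exposed part determines everything
    have hfar : ∀ T₂ ⊆ E₂, far (T₁ ∪ T₂) X = far T₁ X := by
      intro T₂ hT₂
      ext u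
      rw [mem_far, mem_far]
      refine and_congr_right fun hu => forall_congr' fun x => forall_congr' fun hx => not_congr ?_
      rw [mem_union]
      refine or_iff_left fun h => ?_
      obtain ⟨w, hw, he⟩ := mem_ew.1 (hT₂ h)
      rw [Sym2.eq_iff] at he
      rcases he with ⟨_, rfl⟩ | ⟨rfl, _⟩
      · exact (mem_filter.1 hw).2.2 hx
      · exact hvX hx
    set R := far T₁ X with hR
    have hst : ∀ T₂ ⊆ E₂, stt m c (T₁ ∪ T₂) R v = stt m c T₁ R v := by
      intro T₂ hT₂
      refine stt_congr _ fun a b ha hb => ?_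
      rw [mem_union]
      refine or_iff_left fun h => ?_
      obtain ⟨w, hw, he⟩ := mem_ew.1 (hT₂ h)
      rw [Sym2.eq_iff] at he
      rcases he with ⟨rfl, _⟩ | ⟨rfl, _⟩
      · omega
      · omega
    set τ := stt m c T₁ R v with hτ
    have hinv : FInv m c T₁ R v τ := inv_stt m c T₁ R v
    have hvτ : ∀ i, v ∉ τ i := fun i h => by
      have := (hinv.sub i v h).1
      omega
    have hτW : ∀ i, τ i ⊆ W := by
      intro i u hu
      rw [hW, mem_filter]
      exact ⟨mem_univ u, (hinv.sub i u hu).1, (mem_far.1 (hinv.sub i u hu).2).1⟩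
    by_cases hgood : #R ≤ r ∧ ∀ i, #(T₁ ∩ prs (τ i)) ≤ M
    · obtain ⟨hRr, hMi⟩ := hgood
      set O : Finset (Fin m) := univ.filter (fun i => #(τ i) < c) with hO
      have hOc : m' ≤ #O := by
        have h2 : #Oᶜ * c ≤ #R := by
          have h3 : #Oᶜ * c ≤ ∑ i ∈ Oᶜ, #(τ i) := by
            rw [← smul_eq_mul]
            refine Finset.card_nsmul_le_sum _ _ c fun i hi => ?_
            rw [mem_compl, hO, mem_filter, not_and, not_lt] at hi
            exact hi (mem_univ i)
          refine h3.trans ?_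
          rw [← card_biUnion (fun i _ k _ hik => hinv.dis i k hik)]
          refine card_le_card ?_
          intro u hu
          obtain ⟨i, _, hi⟩ := mem_biUnion.1 hu
          exact (hinv.sub i u hi).2
        have h3 : #Oᶜ ≤ r / c := by
          rw [Nat.le_div_iff_mul_le (by omega)]
          exact h2.trans hRr
        have h4 := Finset.card_add_card_compl O
        rw [Fintype.card_fin] at h4
        omega
      -- reduce to a product
      have hle : ∀ T₂ ⊆ E₂, (if Fail m c r M X (T₁ ∪ T₂) v then (1 : ℝ) else 0) ≤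
          ∏ i ∈ O, (1 - ∏ e ∈ T₁ ∩ prs (τ i),
            (if ew e.toFinset v ⊆ T₂ ∩ ew (τ i) v then (0 : ℝ) else 1)) := by
        intro T₂ hT₂
        by_cases hF : Fail m c r M X (T₁ ∪ T₂) v
        · rw [if_pos hF]
          refine le_of_eq ?_
          symm
          refine Finset.prod_eq_one fun i hi => ?_
          obtain ⟨_, _, _, h4⟩ := hF
          rw [hfar T₂ hT₂, hst T₂ hT₂] at h4
          have h5 := h4 i (mem_filter.1 hi).2
          obtain ⟨e, he, hev⟩ := rej_edge (Finset.union_subset (hT₁.trans sdiff_subset)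
            (hT₂.trans hE₂sub)) h5
          rw [mem_inter] at he
          obtain ⟨x, hx, y, hy, hxy, rfl⟩ := mem_prs.1 he.2
          have he1 : s(x, y) ∈ T₁ := by
            rcases mem_union.1 he.1 with h | h
            · exact h
            · exfalso
              obtain ⟨w, hw, he'⟩ := mem_ew.1 (hT₂ h)
              rw [Sym2.eq_iff] at he'
              rcases he' with ⟨rfl, _⟩ | ⟨rfl, _⟩
              · exact hvτ i hx
              · exact hvτ i hy
          rw [Finset.prod_eq_zero (i := s(x, y)) (mem_inter.2 ⟨he1, he.2⟩), sub_zero]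
          rw [if_pos]
          intro e' he'
          obtain ⟨z, hz, rfl⟩ := mem_ew.1 he'
          have hz' : z ∈ τ i := by
            rw [Sym2.mem_toFinset, Sym2.mem_iff] at hz
            rcases hz with rfl | rfl
            · exact hx
            · exact hy
          refine mem_inter.2 ⟨?_, mem_ew.2 ⟨z, hz', rfl⟩⟩
          rcases mem_union.1 (hev he') with h | h
          · exfalso
            refine (mem_sdiff.1 (hT₁ h)).2 ?_
            exact mem_ew.2 ⟨z, hτW i hz', rfl⟩
          · exact h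
        · rw [if_neg hF]
          refine Finset.prod_nonneg fun i _ => ?_
          have : ∏ e ∈ T₁ ∩ prs (τ i),
            (if ew e.toFinset v ⊆ T₂ ∩ ew (τ i) v then (0 : ℝ) else 1) ≤ 1 :=
            Finset.prod_le_one (fun e _ => by split_ifs <;> norm_num)
              (fun e _ => by split_ifs <;> norm_num)
          linarith
      refine (ex_mono (fun _ => h0) (fun _ => h1) hle).trans ?_
      have hBsub : O.biUnion (fun i => ew (τ i) v) ⊆ E₂ := by
        intro e he
        obtain ⟨i, _, hi⟩ := mem_biUnion.1 he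
        exact Finset.image_subset_image (hτW i) hi
      rw [ex_restrict _ hBsub]
      · have hBd : ∀ i ∈ O, ∀ k ∈ O, i ≠ k → Disjoint (ew (τ i) v) (ew (τ k) v) := by
          intro i _ k _ hik
          rw [Finset.disjoint_left]
          intro e he he'
          obtain ⟨z, hz, rfl⟩ := mem_ew.1 he
          rw [mk_mem_ew (hvτ k)] at he'
          exact Finset.disjoint_left.1 (hinv.dis i k hik) hz he'
        rw [ex_prod (fun _ => p) O (fun i => ew (τ i) v) hBd (fun i T => 1 - ∏ e ∈ T₁ ∩ prs (τ i),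
          (if ew e.toFinset v ⊆ T then (0 : ℝ) else 1))]
        calc ∏ i ∈ O, ex (fun _ => p) (ew (τ i) v) (fun T => 1 - ∏ e ∈ T₁ ∩ prs (τ i),
              (if ew e.toFinset v ⊆ T then (0 : ℝ) else 1)) ≤ ∏ _i ∈ O, ρ := by
              refine Finset.prod_le_prod (fun i _ => ?_) fun i _ =>
                one_class h0 h1 (hvτ i) inter_subset_right (hMi i)
              refine ex_nonneg (fun _ => h0) (fun _ => h1) fun T _ => ?_
              have : ∏ e ∈ T₁ ∩ prs (τ i),
                (if ew e.toFinset v ⊆ T then (0 : ℝ) else 1) ≤ 1 :=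
                Finset.prod_le_one (fun e _ => by split_ifs <;> norm_num)
                  (fun e _ => by split_ifs <;> norm_num)
              linarith
          _ = ρ ^ #O := by rw [Finset.prod_const]
          _ ≤ ρ ^ m' := pow_le_pow_of_le_one hρ0 hρ1 hOc
      · intro T _
        refine Finset.prod_congr rfl fun i hi => ?_
        have h3 : T ∩ O.biUnion (fun i => ew (τ i) v) ∩ ew (τ i) v = T ∩ ew (τ i) v := by
          rw [inter_assoc]
          congr 1
          exact inter_eq_right.2 (Finset.subset_biUnion_of_mem (fun i => ew (τ i) v) hi)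
        rw [h3]
    · refine (ex_le_const (fun _ => h0) (fun _ => h1) (c := 0) fun T₂ hT₂ => ?_).trans
        (pow_nonneg hρ0 m')
      rw [if_neg]
      intro h
      obtain ⟨h2, h3, h4, _⟩ := h
      rw [hfar T₂ hT₂] at h3
      refine hgood ⟨h3, fun i => ?_⟩
      refine le_trans (card_le_card ?_) (h4 (τ i) (hinv.cap i))
      exact Finset.inter_subset_inter subset_union_left (Finset.Subset.refl _)

/-- Deterministic conclusion. -/
lemma ff_det (G : SimpleGraph (Fin n)) {X : Finset (Fin n)} {m c : ℕ}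
    (H0 : ∀ F : Finset (Fin n), #F = 2 → (com G F).Nonempty)
    (hok : ∀ v ∈ far (ed G) X, ∃ i : Fin m, #(stt m c (ed G) (far (ed G) X) v i) < c ∧
      ¬ rej (ed G) (stt m c (ed G) (far (ed G) X) v i) v) :
    chiC G ≤ #X + (1 + m) := by
  classical
  set R := far (ed G) X with hR
  set τ := stt m c (ed G) R n with hτ
  have hinv : FInv m c (ed G) R n τ := inv_stt m c (ed G) R n
  have hcov : ∀ v ∈ R, ∃ i, v ∈ τ i := fun v hv => stt_cover hok n v hv v.2
  set col : Fin n → ↥X ⊕ (Fin 1 ⊕ Fin m) :=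
    fun v => if h : ∃ x, x ∈ X ∧ G.Adj x v then Sum.inl ⟨h.choose, h.choose_spec.1⟩
      else if h' : v ∈ R then Sum.inr (Sum.inr (hcov v h').choose)
      else Sum.inr (Sum.inl 0) with hc
  have hcard : Fintype.card (↥X ⊕ (Fin 1 ⊕ Fin m)) = #X + (1 + m) := by simp
  rw [← hcard]
  refine chiC_le_type G col ?_
  rintro S ⟨i, hi⟩ K hKS ⟨hcl, hK2, hmx⟩
  have hiK : ∀ v ∈ K, col v = i := fun v hv => hi v (hKS hv)
  obtain ⟨x₀, hx₀, y₀, hy₀, hxy₀⟩ := Finset.one_lt_card.1 hK2
  rcases i with ⟨x, hx⟩ | i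
  · have hadj : ∀ v ∈ K, G.Adj x v := by
      intro v hv
      have h1 := hiK v hv
      simp only [hc] at h1
      by_cases h : ∃ x, x ∈ X ∧ G.Adj x v
      · rw [dif_pos h] at h1
        have h2 : h.choose = x := congrArg Subtype.val (Sum.inl.inj h1)
        rw [← h2]
        exact h.choose_spec.2
      · rw [dif_neg h] at h1
        split_ifs at h1
    have hxK : x ∉ K := fun h => G.loopless.irrefl x (hadj x h)
    obtain ⟨y, hy, hny⟩ := hmx x hxK
    exact hny (hadj y hy)
  · have hnX : ∀ v ∈ K, ¬ ∃ x, x ∈ X ∧ G.Adj x v := by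
      intro v hv h
      have h1 := hiK v hv
      simp only [hc] at h1
      rw [dif_pos h] at h1
      simp at h1
    rcases i with i | i
    · have hX : ∀ v ∈ K, v ∈ X := by
        intro v hv
        have h1 := hiK v hv
        simp only [hc] at h1
        rw [dif_neg (hnX v hv)] at h1
        by_contra hvX
        have hvR : v ∈ R := by
          rw [hR, mem_far]
          refine ⟨hvX, fun x hx h => hnX v hv ⟨x, hx, ?_⟩⟩
          exact (mk_mem_ed.1 h).symm
        rw [dif_pos hvR] at h1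
        simp at h1
      exact hnX y₀ hy₀ ⟨x₀, hX x₀ hx₀, hcl x₀ hx₀ y₀ hy₀ hxy₀⟩
    · have hKi : ∀ v ∈ K, v ∈ τ i := by
        intro v hv
        have h1 := hiK v hv
        simp only [hc] at h1
        rw [dif_neg (hnX v hv)] at h1
        by_cases hvR : v ∈ R
        · rw [dif_pos hvR] at h1
          have h2 := Sum.inr.inj (Sum.inr.inj h1)
          rw [← h2]
          exact (hcov v hvR).choose_spec
        · rw [dif_neg hvR] at h1
          simp at h1
      have hK3 : #K = 2 := by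
        by_contra hne
        have h3 : 2 < #K := by omega
        obtain ⟨a, b, d, ha, hb, hd, hab, had, hbd⟩ := Finset.two_lt_card_iff.1 h3
        exact hinv.tri i a (hKi a ha) b (hKi b hb) d (hKi d hd) hab had hbd
          ⟨mk_mem_ed.2 (hcl a ha b hb hab), mk_mem_ed.2 (hcl a ha d hd had),
            mk_mem_ed.2 (hcl b hb d hd hbd)⟩
      obtain ⟨w, hw⟩ := H0 K hK3
      rw [mem_com] at hw
      have hwK : w ∉ K := fun h => G.loopless.irrefl w (hw w h)
      obtain ⟨x, hx, hnx⟩ := hmx w hwK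
      exact hnx (hw x hx)

/-- Small sets do not span many edges. -/
lemma dense_prob (p : I) {c M : ℕ} {L : ℝ} (hL : 1 ≤ L) (hn : (n : ℝ) = Real.exp L)
    (hM : 2 * (p : ℝ) * c ^ 2 ≤ M + 1) (hc1 : 1 ≤ c) (hpc : 6 * L ≤ p * c) :
    (G(Fin n, p)).real {G : SimpleGraph (Fin n) | ¬ ∀ C : Finset (Fin n), #C ≤ c →
      #(ed G ∩ prs C) ≤ M} ≤ Real.exp (-L) := by
  classical
  have h0 : (0 : ℝ) ≤ p := p.2.1
  have h1 : (p : ℝ) ≤ 1 := p.2.2
  set XS := univ.filter (fun s : Finset (Fin n) => #s ≤ c) with hXS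
  have hsub : {G : SimpleGraph (Fin n) | ¬ ∀ C : Finset (Fin n), #C ≤ c →
      #(ed G ∩ prs C) ≤ M} ⊆ ⋃ C ∈ XS, {G | (M : ℝ) + 1 ≤ #(ed G ∩ prs C)} := by
    intro G hG
    simp only [Set.mem_ofPred_eq, not_forall, not_le] at hG
    obtain ⟨C, hC, hlt⟩ := hG
    simp only [Set.mem_iUnion]
    refine ⟨C, by rw [hXS, mem_filter]; exact ⟨mem_univ _, hC⟩, ?_⟩
    have : M + 1 ≤ #(ed G ∩ prs C) := hlt
    have h2 : ((M + 1 : ℕ) : ℝ) ≤ #(ed G ∩ prs C) := by exact_mod_cast this
    push_cast at h2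
    exact h2
  have hev : ∀ C ∈ XS, (G(Fin n, p)).real {G : SimpleGraph (Fin n) | (M : ℝ) + 1 ≤
      #(ed G ∩ prs C)} ≤ Real.exp (-(3 * c * L)) := by
    intro C hC
    rw [hXS, mem_filter] at hC
    have hQ : prs C ⊆ allE (Fin n) := by
      intro e he
      obtain ⟨x, hx, y, hy, hxy, rfl⟩ := mem_prs.1 he
      exact mk_mem_allE.2 hxy
    have hz : (1 : ℝ) ≤ Real.exp 1 := by rw [Real.one_le_exp_iff]; norm_num
    refine (pat_up p hQ hz (s := M + 1) _ (fun G hG => hG)).trans (Real.exp_le_exp.2 ?_)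
    rw [Real.log_exp, mul_one, card_prs]
    have h3 : ((#C).choose 2 : ℝ) ≤ c ^ 2 / 2 := by
      rw [Nat.cast_choose_two]
      have h4 : (#C : ℝ) ≤ c := by exact_mod_cast hC.2
      have h5 : (0 : ℝ) ≤ #C := by positivity
      nlinarith
    have h4 := Real.exp_one_lt_d9
    have h5 : (p : ℝ) * Real.exp 1 * ((#C).choose 2 : ℝ) ≤ p * 3 * (c ^ 2 / 2) := by
      refine mul_le_mul (mul_le_mul_of_nonneg_left (by linarith) h0) h3 (by positivity)
        (by positivity)
    have h6 : (6 * L) * (c : ℝ) ≤ (p * c) * c := mul_le_mul_of_nonneg_right hpc (by positivity)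
    have h7 : (p : ℝ) * c * c = p * c ^ 2 := by ring
    rw [h7] at h6
    linarith
  refine (measureReal_mono hsub (measure_ne_top _ _)).trans ?_
  refine (measureReal_biUnion_finset_le _ _).trans ?_
  refine (Finset.sum_le_sum hev).trans ?_
  rw [Finset.sum_const, nsmul_eq_mul]
  have h2 : (#XS : ℝ) ≤ ((n : ℝ) + 1) ^ c := by
    have := card_small (α := Fin n) c
    rw [Fintype.card_fin] at this
    exact_mod_cast this
  have h3 := n1_exp hn hL c
  have hcR : (1 : ℝ) ≤ c := by exact_mod_cast hc1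
  calc (#XS : ℝ) * Real.exp (-(3 * c * L)) ≤ Real.exp (2 * L * c) * Real.exp (-(3 * c * L)) :=
        mul_le_mul_of_nonneg_right (h2.trans h3) (Real.exp_pos _).le
    _ = Real.exp (2 * L * c - 3 * c * L) := by rw [← Real.exp_add]; congr 1
    _ ≤ Real.exp (-L) := by
        refine Real.exp_le_exp.2 ?_
        have : L * 1 ≤ L * c := mul_le_mul_of_nonneg_left hcR (by linarith)
        linarith

/-- Probabilistic upper bound from first-fit. -/
theorem ff_prob (p : I) {k c r M m m' : ℕ} {L : ℝ} (hL : 1 ≤ L) (hn : (n : ℝ) = Real.exp L)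
    (hk : k ≤ n) (hc1 : 1 ≤ c) (hm : m' + r / c ≤ m)
    (hM : 2 * (p : ℝ) * c ^ 2 ≤ M + 1) (hpc : 6 * L ≤ p * c)
    (h2 : 3 * L ≤ ((n - 2 : ℕ) : ℝ) * (p : ℝ) ^ 2)
    (hr : 4 * (((n - k : ℕ) : ℝ) * (1 - (p : ℝ)) ^ k) ≤ r) (hr2 : 4 * L ≤ r)
    (hρ : 2 * L ≤ m' * (1 - (p : ℝ) ^ 2) ^ M) :
    (G(Fin n, p)).real {G : SimpleGraph (Fin n) | ¬ chiC G ≤ k + (1 + m)} ≤
      4 * Real.exp (-L) := by
  classical
  have h0 : (0 : ℝ) ≤ p := p.2.1
  have h1 : (p : ℝ) ≤ 1 := p.2.2
  obtain ⟨X, -, hX⟩ := Finset.exists_subset_card_eq (s := (univ : Finset (Fin n))) (n := k)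
    (by rw [card_univ, Fintype.card_fin]; exact hk)
  have hsub : {G : SimpleGraph (Fin n) | ¬ chiC G ≤ k + (1 + m)} ⊆
      (({G : SimpleGraph (Fin n) | ¬ ∀ F : Finset (Fin n), #F = 2 → (com G F).Nonempty} ∪
      {G : SimpleGraph (Fin n) | (r : ℝ) ≤ (#(far (ed G) X) : ℝ)}) ∪
      {G : SimpleGraph (Fin n) | ¬ ∀ C : Finset (Fin n), #C ≤ c → #(ed G ∩ prs C) ≤ M}) ∪
      ⋃ v ∈ (univ : Finset (Fin n)), {G | Fail m c r M X (ed G) v} := by
    intro G hG
    by_contra hcon
    simp only [Set.mem_union, Set.mem_ofPred_eq, not_or, not_not, not_le, Set.mem_iUnion,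
      mem_univ, exists_prop, true_and, not_exists] at hcon
    obtain ⟨⟨⟨e1, e2⟩, e3⟩, e4⟩ := hcon
    apply hG
    rw [← hX]
    refine ff_det G (c := c) e1 fun v hv => ?_
    by_contra hno
    push Not at hno
    refine e4 v ⟨hv, ?_, e3, hno⟩
    have : (#(far (ed G) X) : ℝ) < r := e2
    exact_mod_cast this.le
  refine (measureReal_mono hsub (measure_ne_top _ _)).trans ?_
  refine (measureReal_union_le _ _).trans ?_
  have hb0 : (G(Fin n, p)).real {G : SimpleGraph (Fin n) | ¬ ∀ F : Finset (Fin n), #F = 2 →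
      (com G F).Nonempty} ≤ Real.exp (-L) := by
    refine (nocom_prob p 2).trans ?_
    rw [np_exp hn, ← Real.exp_add]
    refine Real.exp_le_exp.2 ?_
    push_cast
    linarith
  have hb1 : (G(Fin n, p)).real {G : SimpleGraph (Fin n) | (r : ℝ) ≤ (#(far (ed G) X) : ℝ)} ≤
      Real.exp (-L) := by
    refine (far_upper p X (s := r) ?_).trans (Real.exp_le_exp.2 ?_)
    · rw [Fintype.card_fin, hX]
      exact hr
    · linarith
  have hb2 := dense_prob p hL hn hM hc1 hpc
  have hb3 : (G(Fin n, p)).real (⋃ v ∈ (univ : Finset (Fin n)), {G | Fail m c r M X (ed G) v}) ≤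
      Real.exp (-L) := by
    refine (measureReal_biUnion_finset_le _ _).trans ?_
    have hev : ∀ v ∈ (univ : Finset (Fin n)), (G(Fin n, p)).real {G | Fail m c r M X (ed G) v} ≤
        Real.exp (-(2 * L)) := by
      intro v _
      rw [real_ed p (fun T => Fail m c r M X T v)]
      refine (fail_prob h0 h1 hc1 hm X v).trans ?_
      have hp2 : (p : ℝ) ^ 2 ≤ 1 := pow_le_one₀ h0 h1
      have h3 : (1 - (p : ℝ) ^ 2) ^ M ≤ 1 := pow_le_one₀ (by linarith) (by
        have : (0 : ℝ) ≤ (p : ℝ) ^ 2 := by positivity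
        linarith)
      have h4 : 1 - (1 - (p : ℝ) ^ 2) ^ M ≤ Real.exp (-((1 - (p : ℝ) ^ 2) ^ M)) := by
        have := Real.add_one_le_exp (-((1 - (p : ℝ) ^ 2) ^ M))
        linarith
      refine (pow_le_pow_left₀ (by linarith) h4 m').trans ?_
      rw [exp_pow_nat]
      refine Real.exp_le_exp.2 ?_
      linarith
    refine (Finset.sum_le_sum hev).trans ?_
    rw [Finset.sum_const, card_univ, Fintype.card_fin, nsmul_eq_mul, hn, ← Real.exp_add]
    exact Real.exp_le_exp.2 (by linarith)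
  have hu1 := measureReal_union_le (μ := G(Fin n, p)) ({G : SimpleGraph (Fin n) |
      ¬ ∀ F : Finset (Fin n), #F = 2 → (com G F).Nonempty} ∪
      {G : SimpleGraph (Fin n) | (r : ℝ) ≤ (#(far (ed G) X) : ℝ)})
      {G : SimpleGraph (Fin n) | ¬ ∀ C : Finset (Fin n), #C ≤ c → #(ed G ∩ prs C) ≤ M}
  have hu2 := measureReal_union_le (μ := G(Fin n, p)) {G : SimpleGraph (Fin n) |
      ¬ ∀ F : Finset (Fin n), #F = 2 → (com G F).Nonempty}
      {G : SimpleGraph (Fin n) | (r : ℝ) ≤ (#(far (ed G) X) : ℝ)}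
  linarith

end Pool.Agent.H977.CC
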