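import Pool.Agent.H977.CC.AsD
import Pool.Agent.H977.CC.FfB

/-! Order of magnitude of the clique chromatic number near `n^(-2/5)` and `n^(-1/3)`: lower bounds
and the upper bound above `n^(-1/3)/3`. -/

open MeasureTheory ProbabilityTheory unitInterval Finset Filter Topology
open scoped SimpleGraph

namespace Pool.Agent.H977.CC

open Pool.Agent.V11328

lemma chiC_lt_small {n : ℕ} (hn0 : 0 < n) (p : I) {B : ℝ} (hk0 : ⌊B⌋₊ = 0) :
    (G(Fin n, p)).real {G : SimpleGraph (Fin n) | (chiC G : ℝ) < B} = 0 := by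
  have hempty : {G : SimpleGraph (Fin n) | (chiC G : ℝ) < B} ⊆
      {G : SimpleGraph (Fin n) | chiC G ≤ 0} := by
    intro G hG
    have h1 : chiC G ≤ ⌊B⌋₊ := Nat.le_floor (le_of_lt hG)
    rw [hk0] at h1
    exact h1
  have hnone : {G : SimpleGraph (Fin n) | chiC G ≤ 0} = ∅ := by
    ext G
    simp only [Set.mem_ofPred_eq, Set.mem_empty_iff_false, iff_false, not_le]
    by_contra h
    push Not at h
    obtain ⟨c, _⟩ := exists_of_chiC_le G h
    exact (c ⟨0, hn0⟩).elim0
  rw [hnone, Set.subset_empty_iff] at hempty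
  rw [hempty, measureReal_empty]

/-- Lower bound from a level, with `B = p k`. -/
theorem lowB {j c3 n : ℕ} (hj : 3 ≤ j) (hc3 : 1 ≤ c3) {ε : ℝ} (hε : 18 ≤ c3 * ε) {p : I}
    (hp : (0 : ℝ) < p) (hL : (qQ j c3 : ℝ) ≤ Real.log n) (hx1 : -Real.log p ≤ Real.log n / 2)
    (hx2 : ε * Real.log n ≤ -Real.log p)
    (hq : (qQ j c3 : ℝ) * Real.log n ≤ Real.exp (-Real.log p / 2))
    (hc : n * (p : ℝ) ^ j + (j + 5) * Real.log (Real.log n) ≤ (j - 1) / 2 * (-Real.log p))
    (h2L : 2 * Real.log n ≤ Real.exp (Real.log n / 2)) (hp2 : (p : ℝ) ≤ 1 / 2)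
    {B : ℝ} (hB0 : 0 ≤ B) (hBL : B ≤ Real.log n)
    (hmain : B * (c0 j c3 * kap j n p) ≤ n * p / 4 * Real.exp (-(B * (1 + p)))) :
    (G(Fin n, p)).real {G : SimpleGraph (Fin n) | (chiC G : ℝ) < B / p} ≤
      6 * Real.exp (-Real.log n) := by
  have hq8 : (8 : ℝ) ≤ qQ j c3 := by
    have : 8 ≤ qQ j c3 := by unfold qQ; omega
    exact_mod_cast this
  have hL1 : 1 ≤ Real.log n := by linarith
  have hn0 : 0 < n := by
    rcases Nat.eq_zero_or_pos n with h | h
    · rw [h] at hL1; simp at hL1; linarith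
    · exact h
  have hnR : (0 : ℝ) < n := by exact_mod_cast hn0
  have hnL : (n : ℝ) = Real.exp (Real.log n) := (Real.exp_log hnR).symm
  have hpx : (p : ℝ) = Real.exp (-(-Real.log p)) := by rw [neg_neg, Real.exp_log hp]
  rcases Nat.eq_zero_or_pos ⌊B / p⌋₊ with hk0 | hk1
  · rw [chiC_lt_small hn0 p hk0]
    positivity
  · have hsub : {G : SimpleGraph (Fin n) | (chiC G : ℝ) < B / p} ⊆
        {G : SimpleGraph (Fin n) | chiC G ≤ ⌊B / p⌋₊} := by
      intro G hG
      exact Nat.le_floor (le_of_lt hG)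
    refine (measureReal_mono hsub (measure_ne_top _ _)).trans ?_
    set k := ⌊B / (p : ℝ)⌋₊ with hk
    have hkle : (k : ℝ) ≤ B / p := Nat.floor_le (by positivity)
    have hkp : (k : ℝ) * p ≤ B := by rwa [le_div_iff₀ hp] at hkle
    refine lowJ hj hc3 hε hp hL (by linarith) hx2 hq hc hk1 ?_
    have hkk : (n : ℝ) / 2 ≤ ((n - k : ℕ) : ℝ) := by
      have h3 : (k : ℝ) ≤ n / 2 := by
        have h4 : 1 / (p : ℝ) ≤ Real.exp (Real.log n / 2) := by
          have e1 : 1 / (p : ℝ) = Real.exp (-Real.log p) := by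
            rw [Real.exp_neg, Real.exp_log hp, one_div]
          rw [e1]; exact Real.exp_le_exp.2 hx1
        have h5 : (n : ℝ) = Real.exp (Real.log n / 2) * Real.exp (Real.log n / 2) := by
          rw [← Real.exp_add, add_halves, ← hnL]
        have h6 : B / p ≤ Real.log n * Real.exp (Real.log n / 2) := by
          rw [div_eq_mul_one_div]
          exact mul_le_mul hBL h4 (by positivity) (by linarith)
        have h7 := Real.exp_pos (Real.log n / 2)
        have h8 := mul_le_mul_of_nonneg_right h2L h7.le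
        rw [← h5] at h8
        linarith
      have h4 : k ≤ n := by
        have : (k : ℝ) ≤ n := by linarith
        exact_mod_cast this
      rw [Nat.cast_sub h4]
      linarith
    have hpow := one_sub_pow_ge hp.le hp2 k
    have hkap0 : 0 < kap j n p := Real.exp_pos _
    have hc0 := c0_pos (c3 := c3) hj
    have hcc : 0 ≤ c0 j c3 * kap j n p := mul_nonneg (by linarith) hkap0.le
    have h1 : (k : ℝ) * (c0 j c3 * kap j n p) ≤ B / p * (c0 j c3 * kap j n p) :=
      mul_le_mul_of_nonneg_right hkle hcc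
    have h2 : B / p * (c0 j c3 * kap j n p) = (B * (c0 j c3 * kap j n p)) / p := by ring
    have h3 : (B * (c0 j c3 * kap j n p)) / p ≤ (n * p / 4 * Real.exp (-(B * (1 + p)))) / p :=
      div_le_div_of_nonneg_right hmain hp.le
    have h4 : ((n : ℝ) * p / 4 * Real.exp (-(B * (1 + p)))) / p =
        n / 4 * Real.exp (-(B * (1 + p))) := by
      have hpne : (p : ℝ) ≠ 0 := hp.ne'
      rw [div_eq_iff hpne]
      ring
    have h5 : Real.exp (-(B * (1 + (p : ℝ)))) ≤ Real.exp (-(k * (p * (1 + p)))) := by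
      refine Real.exp_le_exp.2 ?_
      have : (k : ℝ) * p * (1 + p) ≤ B * (1 + p) :=
        mul_le_mul_of_nonneg_right hkp (by linarith)
      have e1 : (k : ℝ) * (p * (1 + p)) = k * p * (1 + p) := by ring
      linarith
    have h6 : (n : ℝ) / 2 * Real.exp (-(k * (p * (1 + p)))) ≤
        ((n - k : ℕ) : ℝ) * (1 - (p : ℝ)) ^ k :=
      mul_le_mul hkk hpow (Real.exp_pos _).le (by positivity)
    have h7 : (n : ℝ) / 4 * Real.exp (-(B * (1 + p))) ≤ n / 4 * Real.exp (-(k * (p * (1 + p)))) :=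
      mul_le_mul_of_nonneg_left h5 (by positivity)
    have h8 : (n : ℝ) / 4 * Real.exp (-(k * (p * (1 + p)))) =
        (n / 2 * Real.exp (-(k * (p * (1 + p))))) / 2 := by ring
    linarith

/-- The parameter governing the range around `n^(-2/5)`. -/
noncomputable def zz (n : ℕ) (p : ℝ) : ℝ := n * p ^ (5 / 2 : ℝ) / Real.sqrt (Real.log n)

lemma zz_exp {n : ℕ} {p : ℝ} (hp : 0 < p) (hn : 0 < n) (hL : 1 ≤ Real.log n) :
    zz n p = Real.exp (Real.log n - 5 / 2 * (-Real.log p) - Real.log (Real.log n) / 2) := by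
  have hnR : (0 : ℝ) < n := by exact_mod_cast hn
  unfold zz
  rw [Real.exp_sub, Real.exp_sub, Real.exp_log hnR, Real.sqrt_eq_rpow,
    Real.rpow_def_of_pos hp, Real.rpow_def_of_pos (show (0 : ℝ) < Real.log n by linarith)]
  have e1 : Real.exp (5 / 2 * -Real.log p) = (Real.exp (Real.log p * (5 / 2)))⁻¹ := by
    rw [← Real.exp_neg]; congr 1; ring
  have e2 : Real.exp (Real.log (Real.log n) / 2) = Real.exp (Real.log (Real.log n) * (1 / 2)) := by
    congr 1; ring
  rw [e1, e2, div_inv_eq_mul]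

lemma log_one_add_sqrt {z : ℝ} (hz : 0 ≤ z) :
    Real.log (1 + z) * Real.sqrt (1 + z) ≤ 2 * z := by
  set s := Real.sqrt (1 + z) with hs
  have h1 : s * s = 1 + z := Real.mul_self_sqrt (by linarith)
  have hs1 : 1 ≤ s := by rw [hs, Real.one_le_sqrt]; linarith
  have h2 : Real.log (1 + z) = 2 * Real.log s := by
    rw [← h1, Real.log_mul (by linarith) (by linarith)]; ring
  have h3 : Real.log s ≤ s - 1 := Real.log_le_sub_one_of_pos (by linarith)
  rw [h2]
  have h4 : Real.log s * s ≤ (s - 1) * s := mul_le_mul_of_nonneg_right h3 (by linarith)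
  nlinarith

/-- Lower bound below `n^(-1/3)`. -/
theorem lowZ : ∃ γ : ℝ, 0 < γ ∧ ∃ N : ℕ, ∀ n : ℕ, N ≤ n → ∀ p : I, (0 : ℝ) < p →
      Real.log n / 3 ≤ -Real.log p → -Real.log p ≤ Real.log n / 2 →
      (G(Fin n, p)).real {G : SimpleGraph (Fin n) | (chiC G : ℝ) <
        γ * (Real.log (1 + zz n p) / p)} ≤ 6 * Real.exp (-Real.log n) := by
  set Q : ℝ := (qQ 3 54 : ℝ) with hQ
  set C0 : ℝ := c0 3 54 with hC0
  have hC0p : 0 < C0 := lt_of_lt_of_le one_pos (c0_pos (j := 3) (c3 := 54) (by norm_num))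
  have hQ0 : 0 ≤ Q := by positivity
  set γ : ℝ := 1 / (16 * (C0 + 1)) with hγ
  have hγ0 : 0 < γ := by positivity
  have hγC : γ * C0 * 16 ≤ 1 := by
    rw [hγ, div_mul_eq_mul_div, div_mul_eq_mul_div, div_le_one (by positivity)]
    linarith
  have hγ4 : γ ≤ 1 / 16 := by
    rw [hγ]
    refine div_le_div_of_nonneg_left (by norm_num) (by norm_num) (by linarith)
  have hev : ∀ᶠ L : ℝ in atTop, (1 ≤ L ∧ Q ≤ L) ∧ Q * L ^ 1 ≤ Real.exp (1 / 6 * L) ∧
      (16 * Real.log L ≤ 1 / 3 * L ∧ 2 ≤ 1 / 3 * L) ∧ 2 * L ^ 1 ≤ Real.exp (1 / 2 * L) := by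
    refine ((eventually_ge_atTop 1).and (eventually_ge_atTop Q)).and
      ((ev_pow (by norm_num) Q 1).and (((ev_log (by norm_num) 16).and ?_).and
      (ev_pow (by norm_num) 2 1)))
    filter_upwards [eventually_ge_atTop 6] with L h
    linarith
  obtain ⟨N, hN⟩ := ev_nat hev
  refine ⟨γ, hγ0, N, fun n hn p hp0 hx hx2 => ?_⟩
  obtain ⟨⟨hL1, hQL⟩, hQe, ⟨h16, h2L⟩, h2e⟩ := hN n hn
  rw [pow_one] at hQe h2e
  have hn0 : 0 < n := by
    rcases Nat.eq_zero_or_pos n with h | h
    · rw [h] at hL1; simp at hL1; linarith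
    · exact h
  have hnR : (0 : ℝ) < n := by exact_mod_cast hn0
  have hzz := zz_exp (n := n) hp0 hn0 hL1
  set z := zz n (p : ℝ) with hz
  set L := Real.log n with hLdef
  set x := -Real.log (p : ℝ) with hxdef
  set l := Real.log L with hl
  have hl0 : 0 ≤ l := Real.log_nonneg hL1
  have hnL : (n : ℝ) = Real.exp L := (Real.exp_log hnR).symm
  have hpx : (p : ℝ) = Real.exp (-x) := by rw [hxdef, neg_neg, Real.exp_log hp0]
  have hz0 : 0 < z := by rw [hzz]; exact Real.exp_pos _
  have hlog0 : 0 ≤ Real.log (1 + z) := Real.log_nonneg (by linarith)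
  have hlogL : Real.log (1 + z) ≤ L := by
    have h1 : 1 + z ≤ Real.exp L := by
      have h2 : z ≤ Real.exp (1 / 2 * L) := by
        rw [hzz]; exact Real.exp_le_exp.2 (by linarith)
      have h3 : Real.exp L = Real.exp (1 / 2 * L) * Real.exp (1 / 2 * L) := by
        rw [← Real.exp_add]; congr 1; ring
      have h4 : 2 ≤ Real.exp (1 / 2 * L) := by linarith
      rw [h3]
      nlinarith
    calc Real.log (1 + z) ≤ Real.log (Real.exp L) := Real.log_le_log (by linarith) h1
      _ = L := Real.log_exp L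
  have hμ : (n : ℝ) * (p : ℝ) ^ 3 ≤ 1 := by
    rw [mu_exp hp0 hn0, ← hLdef, ← hxdef, Real.exp_le_one_iff]
    push_cast
    linarith
  have hp2 : (p : ℝ) ≤ 1 / 2 := by
    have h3 : (1 : ℝ) ≤ x := by linarith
    have h4 : Real.exp (-x) ≤ Real.exp (-1) := Real.exp_le_exp.2 (by linarith)
    have h5 : Real.exp (-1) ≤ 1 / 2 := by
      rw [Real.exp_neg, inv_le_comm₀ (Real.exp_pos _) (by norm_num)]
      have := Real.exp_one_gt_d9
      norm_num
      linarith
    rw [hpx]; linarith
  have e0 : γ * (Real.log (1 + z) / p) = γ * Real.log (1 + z) / p := by ring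
  rw [e0]
  refine lowB (j := 3) (c3 := 54) (ε := 1 / 3) (by norm_num) (by norm_num) (by norm_num) hp0 hQL
    (by linarith) (by linarith) ?_ ?_ ?_ hp2 (by positivity) ?_ ?_
  · refine hQe.trans (Real.exp_le_exp.2 ?_)
    linarith
  · push_cast
    linarith
  · have e : L / 2 = 1 / 2 * L := by ring
    rw [e]; exact h2e
  · nlinarith
  · -- main inequality
    have hkap : kap 3 n p ≤ 2 * Real.exp (l / 2 + 3 / 2 * x) := by
      unfold kap
      rw [← hLdef, ← hl, ← hxdef]
      have h1 : (l + n * (p : ℝ) ^ 3) / (((3 : ℕ) : ℝ) - 1) + ((3 : ℕ) : ℝ) / 2 * x ≤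
          1 / 2 + (l / 2 + 3 / 2 * x) := by
        push_cast
        linarith
      refine (Real.exp_le_exp.2 h1).trans ?_
      rw [Real.exp_add]
      refine mul_le_mul_of_nonneg_right ?_ (Real.exp_pos _).le
      have h2 : Real.exp (1 / 2) * Real.exp (1 / 2) = Real.exp 1 := by
        rw [← Real.exp_add]; norm_num
      have h3 := Real.exp_one_lt_d9
      have h4 := Real.exp_pos (1 / 2)
      nlinarith
    set E := Real.exp (l / 2 + 3 / 2 * x) with hE
    have hE0 : 0 < E := Real.exp_pos _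
    have hnp : (n : ℝ) * p = z * E := by
      rw [hnL, hpx, hzz, hE, ← Real.exp_add, ← Real.exp_add]; congr 1; ring
    set s := Real.sqrt (1 + z) with hs
    have hs0 : 0 < s := Real.sqrt_pos.2 (by linarith)
    have hexp : 1 / s ≤ Real.exp (-(γ * Real.log (1 + z) * (1 + p))) := by
      have h1 : 1 / s = Real.exp (-(Real.log (1 + z) / 2)) := by
        rw [Real.exp_neg, one_div, hs]
        congr 1
        rw [Real.sqrt_eq_rpow, Real.rpow_def_of_pos (by linarith)]
        congr 1; ring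
      rw [h1]
      refine Real.exp_le_exp.2 ?_
      have h2 : γ * Real.log (1 + z) * (1 + (p : ℝ)) ≤ 1 / 16 * Real.log (1 + z) * 2 := by
        refine mul_le_mul (mul_le_mul_of_nonneg_right hγ4 hlog0) (by linarith) (by linarith)
          (by positivity)
      linarith
    have hsq := log_one_add_sqrt hz0.le
    rw [← hs] at hsq
    calc γ * Real.log (1 + z) * (C0 * kap 3 n p) ≤ γ * Real.log (1 + z) * (C0 * (2 * E)) := by
          gcongr
      _ = (γ * C0 * 16) * (Real.log (1 + z) * E) / 8 := by ring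
      _ ≤ 1 * (Real.log (1 + z) * E) / 8 := by
          have : 0 ≤ Real.log (1 + z) * E := by positivity
          have := mul_le_mul_of_nonneg_right hγC this
          linarith
      _ = (Real.log (1 + z) * s) * E / 8 * (1 / s) := by field_simp
      _ ≤ (2 * z) * E / 8 * (1 / s) := by
          refine mul_le_mul_of_nonneg_right ?_ (by positivity)
          have := mul_le_mul_of_nonneg_right hsq hE0.le
          linarith
      _ = (z * E) / 4 * (1 / s) := by ring
      _ = n * p / 4 * (1 / s) := by rw [hnp]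
      _ ≤ _ := mul_le_mul_of_nonneg_left hexp (by positivity)

end Pool.Agent.H977.CC
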