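import Pool.Agent.H977.CC.AsE

/-! Order of magnitude above `n^(-1/3)/3`. -/

open MeasureTheory ProbabilityTheory unitInterval Finset Filter Topology
open scoped SimpleGraph

namespace Pool.Agent.H977.CC

open Pool.Agent.V11328

/-- The order of magnitude of `p χ` above `n^(-1/3)/3`. -/
noncomputable def AA (n : ℕ) (p : ℝ) : ℝ :=
  max (Real.log n - 3 * (n * p ^ 3)) (Real.log (n * p ^ 3))

lemma log_mu {n : ℕ} {p : ℝ} (hp : 0 < p) (hn : 0 < n) (j : ℕ) :
    Real.log (n * p ^ j) = Real.log n - j * (-Real.log p) := by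
  rw [mu_exp hp hn, Real.log_exp]

/-- Facts on the two regimes. -/
lemma AA_ge {n : ℕ} {p : ℝ} (hp : 0 < p) (hn : 0 < n) (hL : 36 ≤ Real.log n)
    (hl : 2 * Real.log 6 + 2 ≤ Real.log (Real.log n)) :
    Real.log (Real.log n) / 2 ≤ AA n p ∧ 1 ≤ AA n p := by
  set L := Real.log n with hLdef
  set μ := (n : ℝ) * p ^ 3 with hμ
  have hnR : (0 : ℝ) < n := by exact_mod_cast hn
  have hμ0 : 0 < μ := by positivity
  have hlL : Real.log L ≤ L := (Real.log_le_sub_one_of_pos (by linarith)).trans (by linarith)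
  have hlog6 : 0 ≤ Real.log 6 := Real.log_nonneg (by norm_num)
  have hA : Real.log L / 2 ≤ AA n p := by
    unfold AA
    rw [← hLdef, ← hμ]
    rcases le_total μ (L / 6) with h | h
    · refine le_trans ?_ (le_max_left _ _)
      linarith
    · refine le_trans ?_ (le_max_right _ _)
      have h1 : Real.log (L / 6) ≤ Real.log μ := Real.log_le_log (by positivity) h
      rw [Real.log_div (by linarith) (by norm_num)] at h1
      linarith
  exact ⟨hA, by linarith⟩

lemma AA_le {n : ℕ} {p : ℝ} (hp : 0 < p) (hp1 : p ≤ 1) (hn : 0 < n) : AA n p ≤ Real.log n := by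
  have hnR : (0 : ℝ) < n := by exact_mod_cast hn
  have hμ0 : 0 < (n : ℝ) * p ^ 3 := by positivity
  unfold AA
  refine max_le (by linarith) ?_
  refine Real.log_le_log hμ0 ?_
  have : p ^ 3 ≤ 1 := pow_le_one₀ hp.le hp1
  nlinarith

/-- Comparison of the supremum with the maximum. -/
lemma FF_le_AA {n : ℕ} {p : ℝ} (hp : 0 < p) (hp1 : p ≤ 1) (hn : 0 < n) : FF n p ≤ AA n p := by
  have hx : 0 ≤ -Real.log p := by linarith [Real.log_nonpos hp.le hp1]
  have hlm := log_mu hp hn 3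
  push_cast at hlm
  refine ciSup_le fun i => ?_
  have h1 : Real.log n - 3 * (n * p ^ 3) ≤ AA n p := le_max_left _ _
  have h2 : Real.log (n * p ^ 3) ≤ AA n p := le_max_right _ _
  rcases Nat.eq_zero_or_pos i with rfl | hi
  · unfold TT
    push_cast
    norm_num
    linarith
  · have hiR : (1 : ℝ) ≤ i := by exact_mod_cast hi
    unfold TT
    have h3 : 0 ≤ (n : ℝ) * p ^ (i + 3) / (((i + 3 : ℕ) : ℝ) - 1) :=
      div_nonneg (by positivity) (by push_cast; linarith)
    have h4 : 3 * (-Real.log p) ≤ (1 + ((i + 3 : ℕ) : ℝ) / 2) * (-Real.log p) := by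
      refine mul_le_mul_of_nonneg_right ?_ hx
      push_cast; linarith
    linarith

/-- Upper bound above `n^(-1/3)/3`. -/
theorem upA {ε : ℝ} (hε : 0 < ε) :
    ∃ N : ℕ, ∀ n : ℕ, N ≤ n → ∀ p : I, (0 : ℝ) < p →
      ε * Real.log n ≤ -Real.log p → -Real.log p ≤ Real.log n / 3 + 2 →
      (G(Fin n, p)).real {G : SimpleGraph (Fin n) | ¬ (chiC G : ℝ) ≤ 18 * (AA n p / p)} ≤
        4 * Real.exp (-Real.log n) := by
  obtain ⟨N₁, hN₁⟩ := upF (ε := min ε (1 / 10)) (lt_min hε (by norm_num))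
  have hev : ∀ᶠ L : ℝ in atTop, 36 ≤ L ∧ 2 * Real.log 6 + 2 ≤ Real.log L := by
    refine (eventually_ge_atTop 36).and ?_
    exact Real.tendsto_log_atTop.eventually_ge_atTop _
  obtain ⟨N₂, hN₂⟩ := ev_nat hev
  refine ⟨max N₁ N₂, fun n hn p hp0 hx hx2 => ?_⟩
  obtain ⟨hL36, hl⟩ := hN₂ n ((le_max_right _ _).trans hn)
  have hn0 : 0 < n := by
    rcases Nat.eq_zero_or_pos n with h | h
    · rw [h] at hL36; simp at hL36; linarith
    · exact h
  have hp1 : (p : ℝ) ≤ 1 := p.2.2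
  have h1 : min ε (1 / 10) * Real.log n ≤ ε * Real.log n :=
    mul_le_mul_of_nonneg_right (min_le_left _ _) (by linarith)
  have h2 : min ε (1 / 10) * Real.log n ≤ 1 / 10 * Real.log n :=
    mul_le_mul_of_nonneg_right (min_le_right _ _) (by linarith)
  have hup := hN₁ n ((le_max_left _ _).trans hn) p hp0 (by linarith) (by
    have e : (1 / 2 - min ε (1 / 10)) * Real.log n = 1 / 2 * Real.log n -
      min ε (1 / 10) * Real.log n := by ring
    linarith)
  refine le_trans (measureReal_mono ?_ (measure_ne_top _ _)) hup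
  intro G hG hcon
  apply hG
  refine hcon.trans ?_
  obtain ⟨h3, h4⟩ := AA_ge hp0 hn0 hL36 hl
  have h5 := FF_le_AA hp0 hp1 hn0
  have h6 : 18 * (AA n (p : ℝ) / p) = 18 * AA n (p : ℝ) / p := by ring
  rw [h6]
  refine div_le_div_of_nonneg_right ?_ hp0.le
  have h7 : max (FF n (p : ℝ) + 8 * Real.log (Real.log n)) 0 ≤ 17 * AA n (p : ℝ) :=
    max_le (by linarith) (by linarith)
  linarith

/-- Lower bound above `n^(-1/3)/3`, close to `n^(-1/3)`. -/
theorem lowA1 : ∃ γ : ℝ, 0 < γ ∧ ∃ N : ℕ, ∀ n : ℕ, N ≤ n → ∀ p : I, (0 : ℝ) < p →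
      3 / 10 * Real.log n ≤ -Real.log p → -Real.log p ≤ Real.log n / 3 + 4 / 3 →
      (G(Fin n, p)).real {G : SimpleGraph (Fin n) | (chiC G : ℝ) <
        γ * (AA n p / p)} ≤ 6 * Real.exp (-Real.log n) := by
  set Q : ℝ := (qQ 3 60 : ℝ) + (qQ 4 60 : ℝ) with hQ
  have hQ0 : 0 ≤ Q := by positivity
  set C0 : ℝ := c0 3 60 + c0 4 60 with hC0
  have hC03 : 1 ≤ c0 3 60 := c0_pos (j := 3) (c3 := 60) (by norm_num)
  have hC04 : 1 ≤ c0 4 60 := c0_pos (j := 4) (c3 := 60) (by norm_num)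
  have hlogt : Tendsto (fun L : ℝ => Real.log L) atTop atTop := Real.tendsto_log_atTop
  have hev : ∀ᶠ L : ℝ in atTop, ((36 ≤ L ∧ 2 * Real.log 6 + 6 ≤ Real.log L) ∧ Q ≤ L) ∧
      Q * L ^ 1 ≤ Real.exp (3 / 20 * L) ∧ 2 * L ^ 1 ≤ Real.exp (1 / 2 * L) ∧
      200 * Real.log L ≤ 1 * L ∧ 8 * C0 * Real.log L ^ 0 ≤ Real.exp (1 / 24 * Real.log L) := by
    refine (((eventually_ge_atTop 36).and (hlogt.eventually_ge_atTop _)).and
      (eventually_ge_atTop Q)).and
      ((ev_pow (by norm_num) Q 1).and ((ev_pow (by norm_num) 2 1).and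
      ((ev_log (by norm_num) 200).and (hlogt.eventually (ev_pow (by norm_num) (8 * C0) 0)))))
  obtain ⟨N, hN⟩ := ev_nat hev
  refine ⟨1 / 720, by norm_num, N, fun n hn p hp0 hx hx2 => ?_⟩
  obtain ⟨⟨⟨hL36, hl6⟩, hQL⟩, hQe, h2e, h200, hC0e⟩ := hN n hn
  rw [pow_one] at hQe h2e
  rw [pow_zero, mul_one] at hC0e
  have hn0 : 0 < n := by
    rcases Nat.eq_zero_or_pos n with h | h
    · rw [h] at hL36; simp at hL36; linarith
    · exact h
  have hnR : (0 : ℝ) < n := by exact_mod_cast hn0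
  have hp1 : (p : ℝ) ≤ 1 := p.2.2
  have hlm := log_mu hp0 hn0 3
  have hlog6 : 0 ≤ Real.log 6 := Real.log_nonneg (by norm_num)
  obtain ⟨hA1, hA2⟩ := AA_ge hp0 hn0 hL36 (by linarith)
  set L := Real.log n with hLdef
  set x := -Real.log (p : ℝ) with hxdef
  set l := Real.log L with hl
  have hnL : (n : ℝ) = Real.exp L := (Real.exp_log hnR).symm
  have hpx : (p : ℝ) = Real.exp (-x) := by rw [hxdef, neg_neg, Real.exp_log hp0]
  have hLexp : Real.exp l = L := Real.exp_log (by linarith)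
  have hl0 : 0 ≤ l := by linarith
  set μ := (n : ℝ) * (p : ℝ) ^ 3 with hμ
  have hμ0 : 0 < μ := by positivity
  push_cast at hlm
  have hlmlow : -4 ≤ Real.log μ := by linarith
  have hp2 : (p : ℝ) ≤ 1 / 2 := by
    have h4 : Real.exp (-x) ≤ Real.exp (-1) := Real.exp_le_exp.2 (by linarith)
    have h5 : Real.exp (-1) ≤ 1 / 2 := by
      rw [Real.exp_neg, inv_le_comm₀ (Real.exp_pos _) (by norm_num)]
      have := Real.exp_one_gt_d9
      norm_num
      linarith
    rw [hpx]; linarith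
  have hnp : (n : ℝ) * p = Real.exp (L - x) := by
    rw [hnL, hpx, ← Real.exp_add]; congr 1
  have hqQ3 : (qQ 3 60 : ℝ) ≤ Q := by
    have : (0 : ℝ) ≤ (qQ 4 60 : ℝ) := by positivity
    linarith
  have hqQ4 : (qQ 4 60 : ℝ) ≤ Q := by
    have : (0 : ℝ) ≤ (qQ 3 60 : ℝ) := by positivity
    linarith
  have hQe' : Q * L ≤ Real.exp (x / 2) := hQe.trans (Real.exp_le_exp.2 (by linarith))
  have h2e' : 2 * L ≤ Real.exp (L / 2) := by
    have e : L / 2 = 1 / 2 * L := by ring
    rw [e]; exact h2e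
  -- main inequality from an inequality of exponents
  have hfin : ∀ (j : ℕ) (B b e : ℝ), 0 ≤ B → B ≤ Real.exp b → 1 ≤ c0 j 60 → c0 j 60 ≤ C0 →
      kap j n p ≤ 2 * Real.exp e → l / 24 + b + e + B * (1 + p) ≤ L - x →
      B * (c0 j 60 * kap j n p) ≤ n * p / 4 * Real.exp (-(B * (1 + p))) := by
    intro j B b e hB0 hB hc1 hc hk hexp
    have hk0 : 0 < kap j n (p : ℝ) := Real.exp_pos _
    have hC00 : 0 ≤ C0 := by linarith
    calc B * (c0 j 60 * kap j n p) ≤ Real.exp b * (C0 * (2 * Real.exp e)) := by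
          exact mul_le_mul hB (mul_le_mul hc hk hk0.le hC00)
            (mul_nonneg (by linarith) hk0.le) (Real.exp_pos _).le
      _ = (8 * C0) * (Real.exp b * Real.exp e) / 4 := by ring
      _ ≤ Real.exp (1 / 24 * l) * (Real.exp b * Real.exp e) / 4 := by
          have : 0 ≤ Real.exp b * Real.exp e := by positivity
          have := mul_le_mul_of_nonneg_right hC0e this
          linarith
      _ = Real.exp (1 / 24 * l + (b + e)) / 4 := by rw [← Real.exp_add, ← Real.exp_add]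
      _ ≤ Real.exp (L - x + -(B * (1 + p))) / 4 := by
          have := Real.exp_le_exp.2 (show 1 / 24 * l + (b + e) ≤ L - x + -(B * (1 + p)) by linarith)
          linarith
      _ = n * p / 4 * Real.exp (-(B * (1 + p))) := by
          rw [Real.exp_add, hnp]; ring
  rcases le_total (30 * l) (L - 3 * μ) with hcase | hcase
  · -- first regime: level three
    have hμL : μ ≤ L := by linarith
    have hlogμ : Real.log μ ≤ l := Real.log_le_log hμ0 hμL
    have hAA : AA n p = L - 3 * μ := by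
      unfold AA
      rw [← hLdef, ← hμ]
      exact max_eq_left (by linarith)
    have e0 : 1 / 720 * (AA n (p : ℝ) / p) ≤ (1 / 24 * (L - 3 * μ)) / p := by
      rw [hAA]
      have : 0 ≤ (L - 3 * μ) / p := div_nonneg (by linarith) hp0.le
      have e1 : (1 / 24 * (L - 3 * μ)) / (p : ℝ) = 1 / 24 * ((L - 3 * μ) / p) := by ring
      rw [e1]; linarith
    have hsub : {G : SimpleGraph (Fin n) | (chiC G : ℝ) < 1 / 720 * (AA n (p : ℝ) / p)} ⊆
        {G : SimpleGraph (Fin n) | (chiC G : ℝ) < (1 / 24 * (L - 3 * μ)) / p} := by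
      intro G hG
      exact lt_of_lt_of_le hG e0
    refine (measureReal_mono hsub (measure_ne_top _ _)).trans ?_
    have hB0 : 0 ≤ 1 / 24 * (L - 3 * μ) := by linarith
    refine lowB (j := 3) (c3 := 60) (ε := 3 / 10) (by norm_num) (by norm_num) (by norm_num) hp0
      (hqQ3.trans hQL) (by linarith) (by linarith) ?_ ?_ h2e' hp2 hB0 (by linarith) ?_
    · exact (mul_le_mul_of_nonneg_right hqQ3 (by linarith)).trans hQe'
    · push_cast
      rw [← hμ]
      linarith
    · refine hfin 3 _ l ((l + μ) / 2 + 3 / 2 * x) hB0 ?_ hC03 (by linarith) ?_ ?_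
      · rw [hLexp]; linarith
      · unfold kap
        rw [← hLdef, ← hl, ← hxdef, ← hμ]
        have h1 := Real.exp_pos ((l + μ) / 2 + 3 / 2 * x)
        have e1 : (l + μ) / (((3 : ℕ) : ℝ) - 1) + ((3 : ℕ) : ℝ) / 2 * x =
          (l + μ) / 2 + 3 / 2 * x := by push_cast; ring
        rw [e1]; linarith
      · have h1 : 1 / 24 * (L - 3 * μ) * (1 + (p : ℝ)) ≤ 1 / 24 * (L - 3 * μ) * 2 :=
          mul_le_mul_of_nonneg_left (by linarith) hB0
        linarith
  · -- second regime: level four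
    have hμL6 : L / 6 ≤ μ := by linarith
    have hlogμ : l - Real.log 6 ≤ Real.log μ := by
      have h1 : Real.log (L / 6) ≤ Real.log μ := Real.log_le_log (by linarith) hμL6
      rwa [Real.log_div (by linarith) (by norm_num)] at h1
    have hAA : AA n p ≤ 60 * Real.log μ := by
      unfold AA
      rw [← hLdef, ← hμ]
      exact max_le (by linarith) (by linarith)
    have e0 : 1 / 720 * (AA n (p : ℝ) / p) ≤ (1 / 12 * Real.log μ) / p := by
      have : AA n (p : ℝ) / p ≤ (60 * Real.log μ) / p := div_le_div_of_nonneg_right hAA hp0.le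
      have e1 : (1 / 12 * Real.log μ) / (p : ℝ) = 1 / 720 * ((60 * Real.log μ) / p) := by ring
      rw [e1]; linarith
    have hsub : {G : SimpleGraph (Fin n) | (chiC G : ℝ) < 1 / 720 * (AA n (p : ℝ) / p)} ⊆
        {G : SimpleGraph (Fin n) | (chiC G : ℝ) < (1 / 12 * Real.log μ) / p} := by
      intro G hG
      exact lt_of_lt_of_le hG e0
    refine (measureReal_mono hsub (measure_ne_top _ _)).trans ?_
    have hB0 : 0 ≤ 1 / 12 * Real.log μ := by linarith
    have hμ4 : (n : ℝ) * (p : ℝ) ^ 4 ≤ 1 := by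
      rw [mu_exp hp0 hn0, ← hLdef, ← hxdef, Real.exp_le_one_iff]
      push_cast
      linarith
    refine lowB (j := 4) (c3 := 60) (ε := 3 / 10) (by norm_num) (by norm_num) (by norm_num) hp0
      (hqQ4.trans hQL) (by linarith) (by linarith) ?_ ?_ h2e' hp2 hB0 (by linarith) ?_
    · exact (mul_le_mul_of_nonneg_right hqQ4 (by linarith)).trans hQe'
    · push_cast
      linarith
    · refine hfin 4 _ (1 / 12 * Real.log μ) (l / 3 + 2 * x) hB0 ?_ hC04 (by linarith) ?_ ?_
      · have := Real.add_one_le_exp (1 / 12 * Real.log μ)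
        linarith
      · unfold kap
        rw [← hLdef, ← hl, ← hxdef]
        have h1 : (l + n * (p : ℝ) ^ 4) / (((4 : ℕ) : ℝ) - 1) + ((4 : ℕ) : ℝ) / 2 * x ≤
            1 / 3 + (l / 3 + 2 * x) := by
          push_cast
          linarith
        refine (Real.exp_le_exp.2 h1).trans ?_
        rw [Real.exp_add]
        refine mul_le_mul_of_nonneg_right ?_ (Real.exp_pos _).le
        have h2 : Real.exp (1 / 3) ≤ Real.exp (1 / 2) := Real.exp_le_exp.2 (by norm_num)
        have h3 : Real.exp (1 / 2) * Real.exp (1 / 2) = Real.exp 1 := by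
          rw [← Real.exp_add]; norm_num
        have h4 := Real.exp_one_lt_d9
        have h5 := Real.exp_pos (1 / 2)
        nlinarith
      · have h1 : 1 / 12 * Real.log μ * (1 + (p : ℝ)) ≤ 1 / 12 * Real.log μ * 2 :=
          mul_le_mul_of_nonneg_left (by linarith) hB0
        linarith

/-- Lower bound above `n^(-1/3)/3`. -/
theorem lowA {ε : ℝ} (hε : 0 < ε) : ∃ γ : ℝ, 0 < γ ∧ ∃ N : ℕ, ∀ n : ℕ, N ≤ n → ∀ p : I,
      (0 : ℝ) < p → ε * Real.log n ≤ -Real.log p → -Real.log p ≤ Real.log n / 3 + 4 / 3 →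
      (G(Fin n, p)).real {G : SimpleGraph (Fin n) | (chiC G : ℝ) <
        γ * (AA n p / p)} ≤ 6 * Real.exp (-Real.log n) := by
  obtain ⟨γ₁, hγ₁, N₁, hN₁⟩ := lowA1
  set ε' := min ε (1 / 30) with hε'
  have hε'0 : 0 < ε' := lt_min hε (by norm_num)
  obtain ⟨N₂, hN₂⟩ := lowF (ε := ε') (η := 1 / 2) hε'0 (by norm_num) (by norm_num)
  have hev : ∀ᶠ L : ℝ in atTop, (1 ≤ L ∧ 1 ≤ ε' * L) ∧
      (36 ≤ L ∧ 2 * Real.log 6 + 2 ≤ Real.log L) := by
    refine ((eventually_ge_atTop 1).and ?_).and ((eventually_ge_atTop 36).and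
      (Real.tendsto_log_atTop.eventually_ge_atTop _))
    filter_upwards [eventually_ge_atTop (1 / ε')] with L h
    rw [div_le_iff₀ hε'0] at h; linarith
  obtain ⟨N₃, hN₃⟩ := ev_nat hev
  refine ⟨min γ₁ (ε' / 2), lt_min hγ₁ (by positivity), max N₁ (max N₂ N₃),
    fun n hn p hp0 hx hx2 => ?_⟩
  have hn1 : N₁ ≤ n := (le_max_left _ _).trans hn
  have hn2 : N₂ ≤ n := ((le_max_left _ _).trans (le_max_right _ _)).trans hn
  have hn3 : N₃ ≤ n := ((le_max_right _ _).trans (le_max_right _ _)).trans hn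
  obtain ⟨⟨hL1, hεL⟩, hAe⟩ := hN₃ n hn3
  have hn0 : 0 < n := by
    rcases Nat.eq_zero_or_pos n with h | h
    · rw [h] at hL1; simp at hL1; linarith
    · exact h
  have hp1 : (p : ℝ) ≤ 1 := p.2.2
  obtain ⟨_, hA1⟩ := AA_ge hp0 hn0 hAe.1 hAe.2
  have hAp : 0 ≤ AA n (p : ℝ) / p := div_nonneg (by linarith) hp0.le
  rcases le_total (3 / 10 * Real.log n) (-Real.log p) with hc | hc
  · refine le_trans (measureReal_mono ?_ (measure_ne_top _ _)) (hN₁ n hn1 p hp0 hc hx2)
    intro G hG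
    have h1 : min γ₁ (ε' / 2) * (AA n (p : ℝ) / p) ≤ γ₁ * (AA n (p : ℝ) / p) :=
      mul_le_mul_of_nonneg_right (min_le_left _ _) hAp
    refine lt_of_lt_of_le ?_ h1
    exact hG
  · have h1 : ε' * Real.log n ≤ ε * Real.log n :=
      mul_le_mul_of_nonneg_right (min_le_left _ _) (by linarith)
    have h2 : ε' * Real.log n ≤ 1 / 30 * Real.log n :=
      mul_le_mul_of_nonneg_right (min_le_right _ _) (by linarith)
    have h3 : (1 / 3 - ε') * Real.log n = 1 / 3 * Real.log n - ε' * Real.log n := by ring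
    refine le_trans (measureReal_mono ?_ (measure_ne_top _ _)) (hN₂ n hn2 p hp0 (by linarith)
      (by linarith))
    intro G hG
    refine lt_of_lt_of_le (b := min γ₁ (ε' / 2) * (AA n (p : ℝ) / p)) hG ?_
    have h4 := FF_ge hε'0 hp0 hp1 hn0 hL1 (by linarith) (by linarith) hεL
    have h5 := AA_le hp0 hp1 hn0
    have h6 : min γ₁ (ε' / 2) * (AA n (p : ℝ) / p) ≤ ε' / 2 * (AA n (p : ℝ) / p) :=
      mul_le_mul_of_nonneg_right (min_le_right _ _) hAp
    refine h6.trans ?_
    rw [← mul_div_assoc]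
    refine div_le_div_of_nonneg_right ?_ hp0.le
    have h7 : ε' / 2 * AA n (p : ℝ) ≤ ε' / 2 * Real.log n :=
      mul_le_mul_of_nonneg_left h5 (by positivity)
    linarith

end Pool.Agent.H977.CC
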