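import Pool.Agent.H977.CC.AsE

/-! First-fit: the upper bound in terms of `n` and `p`. -/

open MeasureTheory ProbabilityTheory unitInterval Finset Filter Topology
open scoped SimpleGraph

namespace Pool.Agent.H977.CC

open Pool.Agent.V11328

/-- Upper bound between `n^(-1/2+ε)` and `n^(-1/4)`. -/
theorem upZ {ε : ℝ} (hε : 0 < ε) : ∃ N : ℕ, ∀ n : ℕ, N ≤ n → ∀ p : I, (0 : ℝ) < p →
      Real.log n / 4 ≤ -Real.log p → -Real.log p ≤ (1 / 2 - ε) * Real.log n →
      (G(Fin n, p)).real {G : SimpleGraph (Fin n) | ¬ (chiC G : ℝ) ≤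
        100 * (Real.log (1 + zz n p) / p)} ≤ 4 * Real.exp (-Real.log n) := by
  have hev : ∀ᶠ L : ℝ in atTop, (24 ≤ L ∧ 6 * Real.log L ≤ 1 * L) ∧
      100 * L ^ 1 ≤ Real.exp (1 / 8 * L) ∧ 6 * L ^ 1 ≤ Real.exp (2 * ε * L) ∧
      100 * L ^ 1 ≤ Real.exp (1 / 18 * L) ∧ 4 * L ^ 1 ≤ Real.exp (1 / 2 * L) := by
    exact ((eventually_ge_atTop 24).and (ev_log (by norm_num) 6)).and
      ((ev_pow (by norm_num) 100 1).and ((ev_pow (by positivity) 6 1).and
      ((ev_pow (by norm_num) 100 1).and (ev_pow (by norm_num) 4 1))))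
  obtain ⟨N, hN⟩ := ev_nat hev
  refine ⟨N, fun n hn p hp0 hx hx2 => ?_⟩
  obtain ⟨⟨hL24, h6l⟩, h100, h6e, h100', h4e⟩ := hN n hn
  rw [pow_one] at h100 h6e h100' h4e
  have hn0 : 0 < n := by
    rcases Nat.eq_zero_or_pos n with h | h
    · rw [h] at hL24; simp at hL24; linarith
    · exact h
  have hnR : (0 : ℝ) < n := by exact_mod_cast hn0
  have hL1 : 1 ≤ Real.log n := by linarith
  have hp1 : (p : ℝ) ≤ 1 := p.2.2
  have hzz := zz_exp (n := n) hp0 hn0 hL1
  set z := zz n (p : ℝ) with hz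
  set L := Real.log n with hLdef
  set x := -Real.log (p : ℝ) with hxdef
  set l := Real.log L with hl
  have hl0 : 0 ≤ l := Real.log_nonneg hL1
  have hLexp : Real.exp l = L := Real.exp_log (by linarith)
  have hnL : (n : ℝ) = Real.exp L := (Real.exp_log hnR).symm
  have hpx : (p : ℝ) = Real.exp (-x) := by rw [hxdef, neg_neg, Real.exp_log hp0]
  have hpinv : 1 / (p : ℝ) = Real.exp x := by rw [hpx, Real.exp_neg]; simp
  have hεL : 0 < ε * L := by positivity
  have hxe : (1 / 2 - ε) * L = 1 / 2 * L - ε * L := by ring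
  rw [hxe] at hx2
  have hz0 : 0 < z := by rw [hzz]; exact Real.exp_pos _
  have hlog0 : 0 < Real.log (1 + z) := Real.log_pos (by linarith)
  -- the basic scale `U`
  set U : ℝ := Real.log (1 + z) / p with hU
  have hUx : U = Real.log (1 + z) * Real.exp x := by rw [hU, div_eq_mul_one_div, hpinv]
  have hzlog : z / (1 + z) ≤ Real.log (1 + z) := by
    have h1 := Real.one_sub_inv_le_log_of_pos (show 0 < 1 + z by linarith)
    have h2 : z / (1 + z) = 1 - (1 + z)⁻¹ := by
      have : 1 + z ≠ 0 := by linarith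
      field_simp
      ring
    rw [h2]; exact h1
  have hUbig : 100 * L ≤ U ∧ Real.exp (1 / 6 * L) / 2 ≤ U := by
    have h1 : Real.exp (1 / 6 * L) / 2 ≤ U := by
      rw [hUx]
      rcases le_total z 1 with h | h
      · have h2 : z / 2 ≤ Real.log (1 + z) := by
          refine le_trans ?_ hzlog
          exact div_le_div_of_nonneg_left hz0.le (by linarith) (by linarith)
        have h3 : Real.exp (1 / 6 * L) ≤ z * Real.exp x := by
          rw [hzz, ← Real.exp_add]
          exact Real.exp_le_exp.2 (by linarith)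
        have h4 := mul_le_mul_of_nonneg_right h2 (Real.exp_pos x).le
        linarith
      · have h2 : 1 / 2 ≤ Real.log (1 + z) := by
          refine le_trans ?_ hzlog
          rw [div_le_div_iff₀ (by norm_num) (by linarith)]
          linarith
        have h3 : Real.exp (1 / 6 * L) ≤ Real.exp x := Real.exp_le_exp.2 (by linarith)
        have h4 := mul_le_mul_of_nonneg_right h2 (Real.exp_pos x).le
        linarith
    refine ⟨?_, h1⟩
    have h2 : Real.exp (1 / 6 * L) = Real.exp (1 / 18 * L) * Real.exp (1 / 9 * L) := by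
      rw [← Real.exp_add]; congr 1; ring
    have h3 : 2 ≤ Real.exp (1 / 9 * L) := by
      have := Real.add_one_le_exp (1 / 9 * L)
      linarith
    have h4 : 100 * L * 2 ≤ Real.exp (1 / 18 * L) * Real.exp (1 / 9 * L) :=
      mul_le_mul h100' h3 (by norm_num) (Real.exp_pos _).le
    rw [h2] at h1
    linarith
  obtain ⟨hU1, hU2⟩ := hUbig
  have hU0 : 0 < U := by linarith
  -- the parameters
  set k := ⌈U⌉₊ with hk
  have hkU : U ≤ k := Nat.le_ceil _
  have hkU' : (k : ℝ) < U + 1 := Nat.ceil_lt_add_one hU0.le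
  set E := Real.exp (l / 2 + 3 / 2 * x) with hE
  have hE0 : 0 < E := Real.exp_pos _
  have hE72 : 72 * L ≤ p * E := by
    have h1 : (p : ℝ) * E = Real.exp (l / 2 + 1 / 2 * x) := by
      rw [hpx, hE, ← Real.exp_add]; congr 1; ring
    rw [h1]
    have h2 : Real.exp (1 / 8 * L) ≤ Real.exp (l / 2 + 1 / 2 * x) :=
      Real.exp_le_exp.2 (by linarith)
    linarith
  have hpE : (p : ℝ) * E ≤ E := mul_le_of_le_one_left hE0.le hp1
  set c := ⌊E / 6⌋₊ with hc
  have hc1 : (c : ℝ) ≤ E / 6 := Nat.floor_le (by positivity)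
  have hc2 : E / 12 ≤ c := by
    have h1 : E / 6 < c + 1 := Nat.lt_floor_add_one _
    linarith
  have hcpos : 1 ≤ c := by
    have : (1 : ℝ) ≤ c := by linarith
    exact_mod_cast this
  have hcR : (1 : ℝ) ≤ c := by exact_mod_cast hcpos
  set M := ⌊2 * (p : ℝ) * c ^ 2⌋₊ with hM
  have hM1 : (M : ℝ) ≤ 2 * p * c ^ 2 := Nat.floor_le (by positivity)
  have hM2 : 2 * (p : ℝ) * c ^ 2 ≤ M + 1 := (Nat.lt_floor_add_one _).le
  set m' := ⌈2 * L * Real.exp (1 / 9 * L)⌉₊ with hm'
  have hm'1 : 2 * L * Real.exp (1 / 9 * L) ≤ m' := Nat.le_ceil _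
  have hm'2 : (m' : ℝ) < 2 * L * Real.exp (1 / 9 * L) + 1 := Nat.ceil_lt_add_one (by positivity)
  set r := ⌈4 * (n : ℝ) * (1 - (p : ℝ)) ^ k + 4 * L⌉₊ with hr
  have h1p : (0 : ℝ) ≤ 1 - p := by linarith
  have hr1 : 4 * (n : ℝ) * (1 - (p : ℝ)) ^ k + 4 * L ≤ r := Nat.le_ceil _
  have hr2 : (r : ℝ) < 4 * (n : ℝ) * (1 - (p : ℝ)) ^ k + 4 * L + 1 :=
    Nat.ceil_lt_add_one (by positivity)
  have hpow1 : (1 - (p : ℝ)) ^ k ≤ 1 / (1 + z) := by
    have h1 : 1 - (p : ℝ) ≤ Real.exp (-p) := by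
      have := Real.add_one_le_exp (-(p : ℝ))
      linarith
    refine (pow_le_pow_left₀ h1p h1 k).trans ?_
    rw [exp_pow_nat]
    have h2 : Real.log (1 + z) ≤ k * p := by
      have := mul_le_mul_of_nonneg_right hkU hp0.le
      rwa [hU, div_mul_cancel₀ _ hp0.ne'] at this
    have h3 : 1 / (1 + z) = Real.exp (-Real.log (1 + z)) := by
      rw [Real.exp_neg, Real.exp_log (by linarith), one_div]
    rw [h3]
    exact Real.exp_le_exp.2 (by linarith)
  have hzE : z * E = n * p := by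
    rw [hnL, hpx, hzz, hE, ← Real.exp_add, ← Real.exp_add]; congr 1; ring
  -- `k ≤ n`
  have hkn : k ≤ n := by
    have h1 : U ≤ L * Real.exp (1 / 2 * L) := by
      rw [hUx]
      refine mul_le_mul ?_ (Real.exp_le_exp.2 (by linarith)) (Real.exp_pos _).le (by linarith)
      have h2 : 1 + z ≤ Real.exp L := by
        have h3 : z ≤ Real.exp (1 / 2 * L) := by
          rw [hzz]; exact Real.exp_le_exp.2 (by linarith)
        have h4 : Real.exp L = Real.exp (1 / 2 * L) * Real.exp (1 / 2 * L) := by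
          rw [← Real.exp_add]; congr 1; ring
        have h5 : 2 ≤ Real.exp (1 / 2 * L) := by linarith
        rw [h4]
        nlinarith
      calc Real.log (1 + z) ≤ Real.log (Real.exp L) := Real.log_le_log (by linarith) h2
        _ = L := Real.log_exp L
    have h2 : (k : ℝ) ≤ n := by
      have h4 : (n : ℝ) = Real.exp (1 / 2 * L) * Real.exp (1 / 2 * L) := by
        rw [hnL, ← Real.exp_add]; congr 1; ring
      have h5 : (4 * L) * Real.exp (1 / 2 * L) ≤ Real.exp (1 / 2 * L) * Real.exp (1 / 2 * L) :=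
        mul_le_mul_of_nonneg_right h4e (Real.exp_pos _).le
      linarith
    exact_mod_cast h2
  have hprob := ff_prob (n := n) p (k := k) (c := c) (r := r) (M := M) (m := m' + r / c)
    (m' := m') (L := L) hL1 hnL hkn hcpos le_rfl hM2 ?_ ?_ ?_ ?_ ?_
  · refine le_trans (measureReal_mono ?_ (measure_ne_top _ _)) hprob
    intro G hG hcon
    apply hG
    have h1 : (chiC G : ℝ) ≤ k + (1 + (m' + ((r / c : ℕ) : ℝ))) := by exact_mod_cast hcon
    refine h1.trans ?_
    have h2 : ((r / c : ℕ) : ℝ) ≤ r / c := Nat.cast_div_le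
    have h3 : (r : ℝ) / c ≤ 48 * U + (4 * L + 1) := by
      have h4 : (r : ℝ) / c ≤ (4 * (n : ℝ) * (1 / (1 + z)) + (4 * L + 1)) / c := by
        refine div_le_div_of_nonneg_right ?_ (by linarith)
        have := mul_le_mul_of_nonneg_left hpow1 (show 0 ≤ 4 * (n : ℝ) by positivity)
        linarith
      refine h4.trans ?_
      rw [add_div]
      refine add_le_add ?_ (div_le_self (by linarith) hcR)
      have h5 : 4 * (n : ℝ) * (1 / (1 + z)) / c ≤ 4 * (n : ℝ) * (1 / (1 + z)) / (E / 12) :=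
        div_le_div_of_nonneg_left (by positivity) (by positivity) hc2
      refine h5.trans ?_
      have h6 : 4 * (n : ℝ) * (1 / (1 + z)) / (E / 12) = 48 * ((z / (1 + z)) / p) := by
        have h7 : (n : ℝ) = z * E / p := by rw [hzE]; field_simp
        rw [h7]
        have : 1 + z ≠ 0 := by linarith
        field_simp
        ring
      rw [h6]
      have h7 : (z / (1 + z)) / (p : ℝ) ≤ U := div_le_div_of_nonneg_right hzlog hp0.le
      linarith
    have h4 : (m' : ℝ) ≤ U + 1 := by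
      have h5 : 2 * L * Real.exp (1 / 9 * L) ≤ Real.exp (1 / 6 * L) / 2 := by
        have h6 : Real.exp (1 / 6 * L) = Real.exp (1 / 18 * L) * Real.exp (1 / 9 * L) := by
          rw [← Real.exp_add]; congr 1; ring
        rw [h6]
        have h7 := mul_le_mul_of_nonneg_right h100' (Real.exp_pos (1 / 9 * L)).le
        have h8 : 0 ≤ L * Real.exp (1 / 9 * L) := by positivity
        linarith
      linarith
    linarith
  · -- hpc
    have := mul_le_mul_of_nonneg_left hc2 hp0.le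
    linarith
  · -- h2
    have h1 : (n : ℝ) / 2 ≤ ((n - 2 : ℕ) : ℝ) := by
      have h3 : (4 : ℝ) ≤ n := by
        rw [hnL]
        have := Real.add_one_le_exp L
        linarith
      have h4 : 4 ≤ n := by exact_mod_cast h3
      rw [Nat.cast_sub (by omega)]
      push_cast
      linarith
    have h2 : 6 * L ≤ (n : ℝ) * (p : ℝ) ^ 2 := by
      rw [mu_exp hp0 hn0, ← hLdef, ← hxdef]
      refine h6e.trans (Real.exp_le_exp.2 ?_)
      push_cast
      linarith
    have h3 : (n : ℝ) / 2 * (p : ℝ) ^ 2 ≤ ((n - 2 : ℕ) : ℝ) * (p : ℝ) ^ 2 :=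
      mul_le_mul_of_nonneg_right h1 (by positivity)
    linarith
  · -- hr
    have h1 : ((n - k : ℕ) : ℝ) ≤ n := by exact_mod_cast Nat.sub_le _ _
    have h2 : ((n - k : ℕ) : ℝ) * (1 - (p : ℝ)) ^ k ≤ n * (1 - (p : ℝ)) ^ k :=
      mul_le_mul_of_nonneg_right h1 (pow_nonneg h1p k)
    linarith
  · have : 0 ≤ 4 * (n : ℝ) * (1 - (p : ℝ)) ^ k := by positivity
    linarith
  · -- hρ
    have hp2 : (p : ℝ) ^ 2 ≤ 1 / 2 := by
      have h1 : (p : ℝ) ≤ Real.exp (-1) := by
        rw [hpx]; exact Real.exp_le_exp.2 (by linarith)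
      have h5 : Real.exp (-1) ≤ 1 / 2 := by
        rw [Real.exp_neg, inv_le_comm₀ (Real.exp_pos _) (by norm_num)]
        have := Real.exp_one_gt_d9
        norm_num
        linarith
      nlinarith
    have h1 := one_sub_pow_ge (show (0 : ℝ) ≤ (p : ℝ) ^ 2 by positivity) hp2 M
    have h2 : (M : ℝ) * ((p : ℝ) ^ 2 * (1 + (p : ℝ) ^ 2)) ≤ 1 / 9 * L := by
      have h3 : (M : ℝ) * (p : ℝ) ^ 2 ≤ L / 18 := by
        have h4 : (M : ℝ) * (p : ℝ) ^ 2 ≤ 2 * p * (E / 6) ^ 2 * (p : ℝ) ^ 2 := by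
          refine mul_le_mul_of_nonneg_right (hM1.trans ?_) (by positivity)
          gcongr
        have h5 : 2 * (p : ℝ) * (E / 6) ^ 2 * (p : ℝ) ^ 2 = (E * E * (p * p * p)) / 18 := by ring
        have h6 : E * E * ((p : ℝ) * p * p) = L := by
          rw [← hLexp, hE, hpx, ← Real.exp_add, ← Real.exp_add, ← Real.exp_add, ← Real.exp_add]
          congr 1; ring
        rw [h5, h6] at h4
        exact h4
      calc (M : ℝ) * ((p : ℝ) ^ 2 * (1 + (p : ℝ) ^ 2)) = (M * (p : ℝ) ^ 2) * (1 + (p : ℝ) ^ 2) := by ring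
        _ ≤ (L / 18) * (1 + (p : ℝ) ^ 2) := mul_le_mul_of_nonneg_right h3 (by positivity)
        _ ≤ (L / 18) * 2 := mul_le_mul_of_nonneg_left (by linarith) (by linarith)
        _ = 1 / 9 * L := by ring
    have h3 : Real.exp (-(1 / 9 * L)) ≤ (1 - (p : ℝ) ^ 2) ^ M :=
      (Real.exp_le_exp.2 (by linarith)).trans h1
    calc 2 * L = (2 * L * Real.exp (1 / 9 * L)) * Real.exp (-(1 / 9 * L)) := by
          rw [mul_assoc, ← Real.exp_add, add_neg_cancel, Real.exp_zero, mul_one]
      _ ≤ m' * (1 - (p : ℝ) ^ 2) ^ M := mul_le_mul hm'1 h3 (Real.exp_pos _).le (by positivity)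

end Pool.Agent.H977.CC
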