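import Pool.Agent.H977.CC.AsF
import Pool.Agent.H977.CC.AsG

/-! Order of magnitude of the clique chromatic number: both bounds together. -/

open MeasureTheory ProbabilityTheory unitInterval Finset Filter Topology
open scoped SimpleGraph

namespace Pool.Agent.H977.CC

open Pool.Agent.V11328

/-- Combination of a lower and an upper bound. -/
lemma both {n : ℕ} {p : I} {γ F E : ℝ} (hF : 0 ≤ F) (γ' C : ℝ) (hγ' : γ' ≤ γ) (hC : C ≤ 100)
    (h1 : (G(Fin n, p)).real {G : SimpleGraph (Fin n) | (chiC G : ℝ) < γ * F} ≤ 6 * E)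
    (h2 : (G(Fin n, p)).real {G : SimpleGraph (Fin n) | ¬ (chiC G : ℝ) ≤ C * F} ≤ 4 * E) :
    (G(Fin n, p)).real {G : SimpleGraph (Fin n) | ¬ (γ' * F ≤ (chiC G : ℝ) ∧
      (chiC G : ℝ) ≤ 100 * F)} ≤ 10 * E := by
  have hsub : {G : SimpleGraph (Fin n) | ¬ (γ' * F ≤ (chiC G : ℝ) ∧ (chiC G : ℝ) ≤ 100 * F)} ⊆
      {G : SimpleGraph (Fin n) | (chiC G : ℝ) < γ * F} ∪
      {G : SimpleGraph (Fin n) | ¬ (chiC G : ℝ) ≤ C * F} := by
    intro G hG
    by_contra hcon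
    rw [Set.mem_union, not_or] at hcon
    simp only [Set.mem_ofPred_eq, not_lt, not_not] at hcon
    obtain ⟨h3, h4⟩ := hcon
    refine hG ⟨?_, ?_⟩
    · exact (mul_le_mul_of_nonneg_right hγ' hF).trans h3
    · exact h4.trans (mul_le_mul_of_nonneg_right hC hF)
  refine (measureReal_mono hsub (measure_ne_top _ _)).trans ?_
  refine (measureReal_union_le _ _).trans ?_
  linarith

/-- Below `n^(-1/3)`. -/
theorem bothZ {ε : ℝ} (hε : 0 < ε) : ∃ c : ℝ, 0 < c ∧ c ≤ 1 ∧ ∃ N : ℕ, ∀ n : ℕ, N ≤ n →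
    ∀ p : I, (0 : ℝ) < p → Real.log n / 3 ≤ -Real.log p →
      -Real.log p ≤ (1 / 2 - ε) * Real.log n →
      (G(Fin n, p)).real {G : SimpleGraph (Fin n) |
        ¬ (c * (Real.log (1 + zz n p) / p) ≤ (chiC G : ℝ) ∧
        (chiC G : ℝ) ≤ 100 * (Real.log (1 + zz n p) / p))} ≤ 10 * Real.exp (-Real.log n) := by
  obtain ⟨γ, hγ, N₁, hN₁⟩ := lowZ
  obtain ⟨N₂, hN₂⟩ := upZ hε
  refine ⟨min γ 1, lt_min hγ one_pos, min_le_right _ _, max N₁ (max N₂ 1), fun n hn p hp0 hx hx2 => ?_⟩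
  have hn1 : N₁ ≤ n := (le_max_left _ _).trans hn
  have hn2 : N₂ ≤ n := ((le_max_left _ _).trans (le_max_right _ _)).trans hn
  have hn3 : 1 ≤ n := ((le_max_right _ _).trans (le_max_right _ _)).trans hn
  have hL0 : 0 ≤ Real.log n := Real.log_natCast_nonneg n
  have hz0 : 0 ≤ zz n (p : ℝ) := by unfold zz; positivity
  have hF0 : 0 ≤ Real.log (1 + zz n (p : ℝ)) / p :=
    div_nonneg (Real.log_nonneg (by linarith)) hp0.le
  have hεL : 0 ≤ ε * Real.log n := by positivity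
  have h1 := hN₁ n hn1 p hp0 hx (by
    have e : (1 / 2 - ε) * Real.log n = Real.log n / 2 - ε * Real.log n := by ring
    linarith)
  have h2 := hN₂ n hn2 p hp0 (by linarith) hx2
  exact both hF0 _ 100 (min_le_left _ _) le_rfl h1 h2

/-- Above `n^(-1/3)/3`. -/
theorem bothA {ε : ℝ} (hε : 0 < ε) : ∃ c : ℝ, 0 < c ∧ c ≤ 1 ∧ ∃ N : ℕ, ∀ n : ℕ, N ≤ n →
    ∀ p : I, (0 : ℝ) < p → ε * Real.log n ≤ -Real.log p →
      -Real.log p ≤ Real.log n / 3 + 4 / 3 →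
      (G(Fin n, p)).real {G : SimpleGraph (Fin n) |
        ¬ (c * (AA n p / p) ≤ (chiC G : ℝ) ∧ (chiC G : ℝ) ≤ 100 * (AA n p / p))} ≤
        10 * Real.exp (-Real.log n) := by
  obtain ⟨γ, hγ, N₁, hN₁⟩ := lowA hε
  obtain ⟨N₂, hN₂⟩ := upA hε
  have hev : ∀ᶠ L : ℝ in atTop, 36 ≤ L ∧ 2 * Real.log 6 + 2 ≤ Real.log L :=
    (eventually_ge_atTop 36).and (Real.tendsto_log_atTop.eventually_ge_atTop _)
  obtain ⟨N₃, hN₃⟩ := ev_nat hev
  refine ⟨min γ 1, lt_min hγ one_pos, min_le_right _ _, max N₁ (max N₂ N₃),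
    fun n hn p hp0 hx hx2 => ?_⟩
  have hn1 : N₁ ≤ n := (le_max_left _ _).trans hn
  have hn2 : N₂ ≤ n := ((le_max_left _ _).trans (le_max_right _ _)).trans hn
  have hn3 : N₃ ≤ n := ((le_max_right _ _).trans (le_max_right _ _)).trans hn
  obtain ⟨hL36, hl⟩ := hN₃ n hn3
  have hn0 : 0 < n := by
    rcases Nat.eq_zero_or_pos n with h | h
    · rw [h] at hL36; simp at hL36; linarith
    · exact h
  obtain ⟨_, hA1⟩ := AA_ge hp0 hn0 hL36 hl
  have hF0 : 0 ≤ AA n (p : ℝ) / p := div_nonneg (by linarith) hp0.le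
  exact both hF0 _ 18 (min_le_left _ _) (by norm_num) (hN₁ n hn1 p hp0 hx hx2)
    (hN₂ n hn2 p hp0 hx (by linarith))

lemma AA_nonneg : ∃ N : ℕ, ∀ n : ℕ, N ≤ n → ∀ p : ℝ, 0 < p → 0 ≤ AA n p / p := by
  have hev : ∀ᶠ L : ℝ in atTop, 36 ≤ L ∧ 2 * Real.log 6 + 2 ≤ Real.log L :=
    (eventually_ge_atTop 36).and (Real.tendsto_log_atTop.eventually_ge_atTop _)
  obtain ⟨N₃, hN₃⟩ := ev_nat hev
  refine ⟨N₃, fun n hn p hp0 => ?_⟩
  obtain ⟨hL36, hl⟩ := hN₃ n hn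
  have hn0 : 0 < n := by
    rcases Nat.eq_zero_or_pos n with h | h
    · rw [h] at hL36; simp at hL36; linarith
    · exact h
  obtain ⟨_, hA1⟩ := AA_ge hp0 hn0 hL36 hl
  exact div_nonneg (by linarith) hp0.le

/-- Logarithmic form of an upper bound `p ≪ n^b`. -/
lemma up_log {p : ℕ → I} {b : ℝ} (hp : ∀ᶠ n in atTop, (0 : ℝ) < p n)
    (h2 : Tendsto (fun n : ℕ => (p n : ℝ) / (n : ℝ) ^ b) atTop (𝓝 0)) :
    ∀ᶠ n : ℕ in atTop, -b * Real.log n ≤ -Real.log (p n) := by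
  filter_upwards [hp, h2.eventually (gt_mem_nhds (zero_lt_one)), eventually_gt_atTop 0]
    with n hp0 h4 h5
  have hnR : (0 : ℝ) < n := by exact_mod_cast h5
  have hb : 0 < (n : ℝ) ^ b := Real.rpow_pos_of_pos hnR b
  rw [div_lt_one hb] at h4
  have := (rpow_facts h5 hp0).1.1 h4.le
  linarith

lemma third_log {n : ℕ} (hn : 0 < n) {q : ℝ} (h : 1 / 3 * (n : ℝ) ^ (-(1 / 3) : ℝ) ≤ q) :
    0 < q ∧ -Real.log q ≤ Real.log n / 3 + 4 / 3 := by
  have hnR : (0 : ℝ) < n := by exact_mod_cast hn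
  have h1 : 0 < (n : ℝ) ^ (-(1 / 3) : ℝ) := Real.rpow_pos_of_pos hnR _
  have hq : 0 < q := lt_of_lt_of_le (by positivity) h
  refine ⟨hq, ?_⟩
  have h2 := Real.log_le_log (by positivity) h
  rw [Real.log_mul (by norm_num) h1.ne', Real.log_rpow hnR, one_div, Real.log_inv] at h2
  have h3 : Real.log 3 ≤ 4 / 3 := by
    rw [Real.log_le_iff_le_exp (by norm_num)]
    have h4 := Real.quadratic_le_exp_of_nonneg (x := 4 / 3) (by norm_num)
    norm_num at h4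
    linarith
  linarith

end Pool.Agent.H977.CC
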