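import Pool.Agent.H977.CC.GoodG

/-! Clique colourings, the covering lemma and the lower bound. -/

open MeasureTheory ProbabilityTheory unitInterval Finset
open scoped SimpleGraph

namespace Pool.Agent.H977.CC

open Pool.Agent.V11328

section Def

variable {V : Type*}

/-- Clique colouring. -/
def IsCC (G : SimpleGraph V) {k : ℕ} (c : V → Fin k) : Prop :=
  ∀ s : Set V, Maximal (fun t : Set V => G.IsClique t) s → s.Nontrivial →
    ¬ ∃ i, ∀ v ∈ s, c v = i

/-- Clique chromatic number. -/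
noncomputable def chiC (G : SimpleGraph V) : ℕ := sInf {k | ∃ c : V → Fin k, IsCC G c}

variable [Fintype V] [DecidableEq V]

lemma isCC_iff (G : SimpleGraph V) {k : ℕ} (c : V → Fin k) :
    IsCC G c ↔ ∀ i, NoMax G (univ.filter (fun v => c v = i)) := by
  constructor
  · intro h i K hK hmax
    obtain ⟨h1, h2, h3⟩ := hmax
    refine h (K : Set V) ⟨?_, ?_⟩ ?_ ⟨i, fun v hv => ?_⟩
    · intro x hx y hy hxy
      exact h1 x (by exact_mod_cast hx) y (by exact_mod_cast hy) hxy
    · intro t ht hKt w hw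
      by_contra hwK
      obtain ⟨x, hx, hnx⟩ := h3 w (by exact_mod_cast hwK)
      apply hnx
      refine ht hw (hKt (by exact_mod_cast hx)) ?_
      rintro rfl
      exact hwK (by exact_mod_cast hx)
    · obtain ⟨x, hx, y, hy, hxy⟩ := Finset.one_lt_card.1 h2
      exact ⟨x, by exact_mod_cast hx, y, by exact_mod_cast hy, hxy⟩
    · have := hK (show v ∈ K by exact_mod_cast hv)
      simpa using this
  · rintro h s hs ⟨x, hx, y, hy, hxy⟩ ⟨i, hi⟩
    classical
    have hmem : ∀ v, v ∈ univ.filter (fun v => v ∈ s) ↔ v ∈ s := by intro v; simp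
    refine h i (univ.filter (fun v => v ∈ s)) ?_ ⟨?_, ?_, ?_⟩
    · intro v hv
      rw [hmem] at hv
      simpa using hi v hv
    · intro a ha b hb hab
      rw [hmem] at ha hb
      exact hs.1 ha hb hab
    · exact Finset.one_lt_card.2 ⟨x, (hmem x).2 hx, y, (hmem y).2 hy, hxy⟩
    · intro w hw
      rw [hmem] at hw
      by_contra hcon
      push Not at hcon
      apply hw
      have h4 : G.IsClique (insert w s) := by
        intro a ha b hb hab
        rcases ha with rfl | ha
        · rcases hb with rfl | hb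
          · exact absurd rfl hab
          · exact hcon b ((hmem b).2 hb)
        · rcases hb with rfl | hb
          · exact (hcon a ((hmem a).2 ha)).symm
          · exact hs.1 ha hb hab
      exact hs.2 h4 (Set.subset_insert w s) (Set.mem_insert w s)

lemma chiC_le (G : SimpleGraph V) {k : ℕ} (c : V → Fin k)
    (h : ∀ i, NoMax G (univ.filter (fun v => c v = i))) : chiC G ≤ k :=
  Nat.sInf_le ⟨c, (isCC_iff G c).2 h⟩

lemma noMax_small (G : SimpleGraph V) {S : Finset V} (h : #S ≤ 1) : NoMax G S := by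
  intro K hK hm
  have := card_le_card hK
  have := hm.2.1
  omega

lemma exists_of_chiC_le (G : SimpleGraph V) {k : ℕ} (h : chiC G ≤ k) :
    ∃ c : V → Fin k, ∀ i, NoMax G (univ.filter (fun v => c v = i)) := by
  have hne : {k | ∃ c : V → Fin k, IsCC G c}.Nonempty := by
    refine ⟨Fintype.card V, Fintype.equivFin V, ?_⟩
    rw [isCC_iff]
    intro i
    refine noMax_small G ?_
    rw [Finset.card_le_one]
    intro a ha b hb
    rw [mem_filter] at ha hb
    exact (Fintype.equivFin V).injective (ha.2.trans hb.2.symm)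
  obtain ⟨c, hc⟩ := Nat.sInf_mem hne
  refine ⟨fun v => Fin.castLE h (c v), fun i => ?_⟩
  rw [isCC_iff] at hc
  by_cases hi : ∃ i', Fin.castLE h i' = i
  · obtain ⟨i', rfl⟩ := hi
    have : univ.filter (fun v => Fin.castLE h (c v) = Fin.castLE h i') =
        univ.filter (fun v => c v = i') := by
      ext v
      simp only [mem_filter, mem_univ, true_and, (Fin.castLE_injective h).eq_iff]
      exact Iff.rfl
    rw [this]
    exact hc i'
  · refine noMax_small G ?_
    have : univ.filter (fun v => Fin.castLE h (c v) = i) = ∅ := by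
      rw [Finset.filter_eq_empty_iff]
      intro v _ hv
      exact hi ⟨c v, hv⟩
    rw [this]; simp

end Def

section Cov

variable {V : Type} [Fintype V] [DecidableEq V]

/-- Vertices outside `X` with no neighbour in `X`. -/
def far (T : Finset (Sym2 V)) (X : Finset V) : Finset V :=
  univ.filter (fun v => v ∉ X ∧ ∀ x ∈ X, s(v, x) ∉ T)

lemma mem_far {T : Finset (Sym2 V)} {X : Finset V} {v : V} :
    v ∈ far T X ↔ v ∉ X ∧ ∀ x ∈ X, s(v, x) ∉ T := by
  unfold far; simp

lemma card_ew {X : Finset V} {v : V} (hv : v ∉ X) : #(ew X v) = #X := by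
  have := card_ew_union (X := X) (Y := {v}) (by simpa using hv)
  simpa using this

lemma ex_empty_ind (P : Sym2 V → ℝ) (B : Finset (Sym2 V)) :
    ex P B (fun T => if T = ∅ then 1 else 0) = ∏ e ∈ B, (1 - P e) := by
  unfold ex
  rw [Finset.sum_eq_single ∅]
  · simp [wt]
  · intro T _ hne
    beta_reduce
    rw [if_neg hne, mul_zero]
  · intro h
    exact absurd (mem_powerset.2 (Finset.empty_subset B)) h

/-- Generating function of the number of far vertices. -/
lemma far_mgf (p : I) (X : Finset V) (z : ℝ) :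
    ex (fun _ => (p : ℝ)) (allE V) (fun T => z ^ #(far T X)) =
      (1 + (z - 1) * (1 - (p : ℝ)) ^ #X) ^ (Fintype.card V - #X) := by
  classical
  set E₂ := (univ \ X).biUnion (ew X) with hE₂
  have hsub : E₂ ⊆ allE V := by
    intro e he
    obtain ⟨w, hw, he⟩ := mem_biUnion.1 he
    obtain ⟨v, hv, rfl⟩ := mem_ew.1 he
    rw [mk_mem_allE]
    intro h
    exact (mem_sdiff.1 hw).2 (h ▸ hv)
  have hprod : ∀ T : Finset (Sym2 V), z ^ #(far T X) =
      ∏ v ∈ univ \ X, (if T ∩ ew X v = ∅ then z else 1) := by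
    intro T
    rw [Finset.prod_ite, Finset.prod_const, Finset.prod_const_one, mul_one]
    congr 2
    ext v
    rw [mem_far, mem_filter, mem_sdiff]
    refine ⟨fun h => ⟨⟨mem_univ v, h.1⟩, ?_⟩, fun h => ⟨h.1.2, ?_⟩⟩
    · rw [← Finset.disjoint_iff_inter_eq_empty, Finset.disjoint_right]
      intro e he
      obtain ⟨x, hx, rfl⟩ := mem_ew.1 he
      exact h.2 x hx
    · intro x hx hT
      have h3 : s(v, x) ∈ T ∩ ew X v := mem_inter.2 ⟨hT, mem_ew.2 ⟨x, hx, rfl⟩⟩
      rw [h.2] at h3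
      simp at h3
  rw [ex_restrict _ hsub]
  · simp_rw [hprod]
    rw [ex_prod (fun _ => (p : ℝ)) (univ \ X) (ew X) (fun w hw w' _ hne =>
      ew_disjoint (mem_sdiff.1 hw).2 hne) (fun _ T => if T = ∅ then z else 1)]
    have h1 : ∀ v ∈ univ \ X, ex (fun _ => (p : ℝ)) (ew X v) (fun T => if T = ∅ then z else 1) =
        1 + (z - 1) * (1 - (p : ℝ)) ^ #X := by
      intro v hv
      have h2 : (fun T : Finset (Sym2 V) => if T = ∅ then z else 1) =
          (fun T => 1 + (z - 1) * (if T = ∅ then 1 else 0)) := by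
        funext T
        split_ifs <;> ring
      rw [h2, ex_add, ex_const, ex_mul, ex_empty_ind, Finset.prod_const,
        card_ew (mem_sdiff.1 hv).2]
    rw [Finset.prod_congr rfl h1, Finset.prod_const, card_sdiff_of_subset (subset_univ X),
      card_univ]
  · intro T _
    congr 1
    congr 1
    ext v
    rw [mem_far, mem_far]
    refine and_congr_right fun hv => forall_congr' fun x => forall_congr' fun hx => not_congr ?_
    rw [mem_inter]
    refine ⟨fun h => ⟨h, mem_biUnion.2 ⟨v, ?_, mem_ew.2 ⟨x, hx, rfl⟩⟩⟩, fun h => h.1⟩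
    exact mem_sdiff.2 ⟨mem_univ v, hv⟩

lemma far_lower (p : I) (X : Finset V) {s : ℝ}
    (hs : s ≤ ((Fintype.card V - #X : ℕ) : ℝ) * (1 - (p : ℝ)) ^ #X / 2) :
    (G(V, p)).real {G : SimpleGraph V | (#(far (ed G) X) : ℝ) ≤ s} ≤
      Real.exp (-(((Fintype.card V - #X : ℕ) : ℝ) * (1 - (p : ℝ)) ^ #X / 8)) := by
  classical
  have h0 : (0 : ℝ) ≤ p := p.2.1
  have h1 : (p : ℝ) ≤ 1 := p.2.2
  set N : ℕ := Fintype.card V - #X with hN
  set q : ℝ := (1 - (p : ℝ)) ^ #X with hq
  have hq0 : 0 ≤ q := pow_nonneg (by linarith) _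
  have hq1 : q ≤ 1 := pow_le_one₀ (by linarith) (by linarith)
  rw [real_ed p (fun T => (#(far T X) : ℝ) ≤ s)]
  have h2 : ∀ T ⊆ allE V, (if (#(far T X) : ℝ) ≤ s then (1 : ℝ) else 0) ≤
      Real.exp (s * Real.log 2) * (1 / 2) ^ #(far T X) := by
    intro T _
    split_ifs with h
    · have h3 : (1 / 2 : ℝ) ^ #(far T X) = Real.exp (-(#(far T X) * Real.log 2)) := by
        rw [← mul_neg, Real.exp_nat_mul, Real.exp_neg, Real.exp_log (by norm_num)]
        norm_num
      rw [h3, ← Real.exp_add, Real.one_le_exp_iff]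
      have h4 : 0 < Real.log 2 := Real.log_pos (by norm_num)
      nlinarith
    · positivity
  refine (ex_mono (fun _ => h0) (fun _ => h1) h2).trans ?_
  rw [ex_mul, far_mgf, ← hN, ← hq]
  have h3 : (1 + (1 / 2 - 1) * q) ≤ Real.exp (-(q / 2)) := by
    have := Real.add_one_le_exp (-(q / 2))
    linarith
  have h4 : (1 + (1 / 2 - 1) * q) ^ N ≤ Real.exp (-(q / 2)) ^ N :=
    pow_le_pow_left₀ (by linarith) h3 N
  refine (mul_le_mul_of_nonneg_left h4 (Real.exp_pos _).le).trans ?_
  rw [exp_pow_nat, ← Real.exp_add]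
  refine Real.exp_le_exp.2 ?_
  have h5 := Real.log_two_lt_d9
  have h6 : 0 < Real.log 2 := Real.log_pos (by norm_num)
  have h7 : 0 ≤ (N : ℝ) * q := by positivity
  have h8 : s * Real.log 2 ≤ ((N : ℝ) * q / 2) * Real.log 2 := mul_le_mul_of_nonneg_right hs h6.le
  nlinarith

lemma far_upper (p : I) (X : Finset V) {s : ℝ}
    (hs : 4 * (((Fintype.card V - #X : ℕ) : ℝ) * (1 - (p : ℝ)) ^ #X) ≤ s) :
    (G(V, p)).real {G : SimpleGraph V | s ≤ (#(far (ed G) X) : ℝ)} ≤ Real.exp (-(s / 4)) := by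
  classical
  have h0 : (0 : ℝ) ≤ p := p.2.1
  have h1 : (p : ℝ) ≤ 1 := p.2.2
  set N : ℕ := Fintype.card V - #X with hN
  set q : ℝ := (1 - (p : ℝ)) ^ #X with hq
  have hq0 : 0 ≤ q := pow_nonneg (by linarith) _
  rw [real_ed p (fun T => s ≤ (#(far T X) : ℝ))]
  have h2 : ∀ T ⊆ allE V, (if s ≤ (#(far T X) : ℝ) then (1 : ℝ) else 0) ≤
      Real.exp (-(s * Real.log 2)) * 2 ^ #(far T X) := by
    intro T _
    split_ifs with h
    · have h3 : (2 : ℝ) ^ #(far T X) = Real.exp (#(far T X) * Real.log 2) := by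
        rw [Real.exp_nat_mul, Real.exp_log (by norm_num)]
      rw [h3, ← Real.exp_add, Real.one_le_exp_iff]
      have h4 : 0 < Real.log 2 := Real.log_pos (by norm_num)
      nlinarith
    · positivity
  refine (ex_mono (fun _ => h0) (fun _ => h1) h2).trans ?_
  rw [ex_mul, far_mgf, ← hN, ← hq]
  have h3 : (1 + (2 - 1) * q) ≤ Real.exp q := by
    have := Real.add_one_le_exp q
    linarith
  have h4 : (1 + (2 - 1) * q) ^ N ≤ Real.exp q ^ N := pow_le_pow_left₀ (by linarith) h3 N
  refine (mul_le_mul_of_nonneg_left h4 (Real.exp_pos _).le).trans ?_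
  rw [exp_pow_nat, ← Real.exp_add]
  refine Real.exp_le_exp.2 ?_
  have h5 := Real.log_two_gt_d9
  have h7 : 0 ≤ (N : ℝ) * q := by positivity
  nlinarith

/-- Colour classes give a set with few far vertices. -/
lemma far_of_colouring [Nonempty V] (G : SimpleGraph V) {k : ℕ} {s₀ : ℝ}
    (hst : ∀ S, NoMax G S → ∃ w, (#(S \ nb G w S) : ℝ) ≤ s₀) (h : chiC G ≤ k) :
    ∃ X : Finset V, #X ≤ k ∧ (#(far (ed G) X) : ℝ) ≤ k * s₀ := by
  obtain ⟨c, hc⟩ := exists_of_chiC_le G h
  choose w hw using fun i => hst _ (hc i)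
  refine ⟨univ.image w, card_image_le.trans (by rw [card_univ, Fintype.card_fin]), ?_⟩
  have h1 : far (ed G) (univ.image w) ⊆ (univ : Finset (Fin k)).biUnion (fun i =>
      univ.filter (fun v => c v = i) \ nb G (w i) (univ.filter (fun v => c v = i))) := by
    intro v hv
    rw [mem_far] at hv
    refine mem_biUnion.2 ⟨c v, mem_univ _, ?_⟩
    rw [mem_sdiff, mem_nb, mem_filter]
    refine ⟨⟨mem_univ v, rfl⟩, fun h2 => ?_⟩
    refine hv.2 (w (c v)) (mem_image.2 ⟨c v, mem_univ _, rfl⟩) ?_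
    rw [mk_mem_ed]
    exact h2.2.symm
  have h2 := (card_le_card h1).trans card_biUnion_le
  have h3 : (#(far (ed G) (univ.image w)) : ℝ) ≤ ∑ i : Fin k, (#(univ.filter (fun v => c v = i) \
      nb G (w i) (univ.filter (fun v => c v = i))) : ℝ) := by exact_mod_cast h2
  refine h3.trans ((Finset.sum_le_sum fun i _ => hw i).trans ?_)
  rw [Finset.sum_const, card_univ, Fintype.card_fin, nsmul_eq_mul]

/-- Lower bound for the clique chromatic number. -/
theorem lower_prob [Nonempty V] (p : I) {k : ℕ} {s₀ L : ℝ} (hL : 1 ≤ L)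
    (hn : (Fintype.card V : ℝ) = Real.exp L) (hk : 1 ≤ k)
    (hs : 32 * L ≤ s₀)
    (hks : (k : ℝ) * s₀ ≤ ((Fintype.card V - k : ℕ) : ℝ) * (1 - (p : ℝ)) ^ k / 2) :
    (G(V, p)).real {G : SimpleGraph V | chiC G ≤ k} ≤
      (G(V, p)).real {G : SimpleGraph V | ¬ ∀ S, NoMax G S →
        ∃ w, (#(S \ nb G w S) : ℝ) ≤ s₀} + Real.exp (-L) := by
  classical
  have h0 : (0 : ℝ) ≤ p := p.2.1
  have h1 : (p : ℝ) ≤ 1 := p.2.2
  have hkR : (1 : ℝ) ≤ k := by exact_mod_cast hk
  set XS := univ.filter (fun s : Finset V => #s ≤ k) with hXS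
  have hsub : {G : SimpleGraph V | chiC G ≤ k} ⊆
      {G : SimpleGraph V | ¬ ∀ S, NoMax G S → ∃ w, (#(S \ nb G w S) : ℝ) ≤ s₀} ∪
      ⋃ X ∈ XS, {G : SimpleGraph V | (#(far (ed G) X) : ℝ) ≤ k * s₀} := by
    intro G hG
    by_cases hst : ∀ S, NoMax G S → ∃ w, (#(S \ nb G w S) : ℝ) ≤ s₀
    · right
      obtain ⟨X, hX, hXf⟩ := far_of_colouring G hst hG
      simp only [Set.mem_iUnion]
      exact ⟨X, by rw [hXS, mem_filter]; exact ⟨mem_univ _, hX⟩, hXf⟩
    · left
      exact hst
  refine (measureReal_mono hsub (measure_ne_top _ _)).trans ?_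
  refine (measureReal_union_le _ _).trans ?_
  refine add_le_add le_rfl ?_
  refine (measureReal_biUnion_finset_le _ _).trans ?_
  have hev : ∀ X ∈ XS, (G(V, p)).real {G : SimpleGraph V | (#(far (ed G) X) : ℝ) ≤ k * s₀} ≤
      Real.exp (-(8 * k * L)) := by
    intro X hX
    rw [hXS, mem_filter] at hX
    have h2 : ((Fintype.card V - k : ℕ) : ℝ) * (1 - (p : ℝ)) ^ k ≤
        ((Fintype.card V - #X : ℕ) : ℝ) * (1 - (p : ℝ)) ^ #X := by
      refine mul_le_mul ?_ ?_ (pow_nonneg (by linarith) _) (by positivity)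
      · exact_mod_cast Nat.sub_le_sub_left hX.2 _
      · exact pow_le_pow_of_le_one (by linarith) (by linarith) hX.2
    refine (far_lower p X (by linarith)).trans (Real.exp_le_exp.2 ?_)
    have h3 : (k : ℝ) * (32 * L) ≤ k * s₀ := mul_le_mul_of_nonneg_left hs (by linarith)
    linarith
  refine (Finset.sum_le_sum hev).trans ?_
  rw [Finset.sum_const, nsmul_eq_mul]
  have h2 : (#XS : ℝ) ≤ ((Fintype.card V : ℝ) + 1) ^ k := by
    exact_mod_cast card_small (α := V) k
  have h3 := n1_exp hn hL k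
  calc (#XS : ℝ) * Real.exp (-(8 * k * L)) ≤ Real.exp (2 * L * k) * Real.exp (-(8 * k * L)) :=
        mul_le_mul_of_nonneg_right (h2.trans h3) (Real.exp_pos _).le
    _ = Real.exp (2 * L * k - 8 * k * L) := by rw [← Real.exp_add]; congr 1
    _ ≤ Real.exp (-L) := by
        refine Real.exp_le_exp.2 ?_
        nlinarith

end Cov

end Pool.Agent.H977.CC
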