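import Pool.Agent.H977.CC.Ex

/-! Deterministic part of the structure lemma: a set without maximal cliques is almost contained
in a neighbourhood. -/

open Finset

namespace Pool.Agent.H977.CC

variable {V : Type*} [Fintype V] [DecidableEq V]

/-- Maximal clique with at least two vertices. -/
def MaxCl (G : SimpleGraph V) (K : Finset V) : Prop :=
  (∀ x ∈ K, ∀ y ∈ K, x ≠ y → G.Adj x y) ∧ 2 ≤ #K ∧ ∀ w, w ∉ K → ∃ x ∈ K, ¬ G.Adj w x

/-- No maximal clique (with at least two vertices) inside `S`. -/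
def NoMax (G : SimpleGraph V) (S : Finset V) : Prop := ∀ K ⊆ S, ¬ MaxCl G K

open Classical in
/-- Neighbours of `w` in `A`. -/
noncomputable def nb (G : SimpleGraph V) (w : V) (A : Finset V) : Finset V :=
  A.filter (fun v => G.Adj w v)

open Classical in
/-- Common neighbours of `A`. -/
noncomputable def com (G : SimpleGraph V) (A : Finset V) : Finset V :=
  univ.filter (fun w => ∀ v ∈ A, G.Adj w v)

lemma mem_nb {G : SimpleGraph V} {w v : V} {A : Finset V} : v ∈ nb G w A ↔ v ∈ A ∧ G.Adj w v := by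
  unfold nb; simp

lemma mem_com {G : SimpleGraph V} {w : V} {A : Finset V} : w ∈ com G A ↔ ∀ v ∈ A, G.Adj w v := by
  unfold com; simp

lemma nb_subset (G : SimpleGraph V) (w : V) (A : Finset V) : nb G w A ⊆ A := by
  intro v hv; exact (mem_nb.1 hv).1

lemma com_com (G : SimpleGraph V) {A F : Finset V} (h : F ⊆ com G A) : A ⊆ com G F := by
  intro v hv
  rw [mem_com]
  intro w hw
  exact ((mem_com.1 (h hw)) v hv).symm

lemma com_small {G : SimpleGraph V} {j D : ℕ} (H1 : ∀ F : Finset V, #F = j → #(com G F) < D)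
    {A : Finset V} (hA : D ≤ #A) : #(com G A) < j := by
  by_contra h
  push Not at h
  obtain ⟨F, hF, hFj⟩ := Finset.exists_subset_card_eq h
  have h1 := card_le_card (com_com G hF)
  have h2 := H1 F hFj
  omega

lemma stable_exists (G : SimpleGraph V) {j D s₁ : ℕ} {y : ℝ} (hy0 : 0 < y) (hy1 : y ≤ 1)
    (H1 : ∀ F : Finset V, #F = j → #(com G F) < D) (hs : (D : ℝ) ≤ y * s₁) :
    ∀ m : ℕ, ∀ A : Finset V, j ≤ #(com G A) + 1 + m → (s₁ : ℝ) ≤ y ^ m * #A →
      ∃ A' ⊆ A, s₁ ≤ #A' ∧ ∀ w, w ∈ com G A' ∨ (#(nb G w A') : ℝ) < y * #A' := by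
  intro m
  induction m with
  | zero =>
    intro A hA hsA
    rw [pow_zero, one_mul] at hsA
    refine ⟨A, Finset.Subset.refl A, by exact_mod_cast hsA, fun w => ?_⟩
    by_contra hc
    push Not at hc
    obtain ⟨h1, h2⟩ := hc
    have h3 : insert w (com G A) ⊆ com G (nb G w A) := by
      intro x hx
      rw [mem_com]
      intro v hv
      rw [mem_nb] at hv
      rcases mem_insert.1 hx with rfl | hx
      · exact hv.2
      · exact (mem_com.1 hx) v hv.1
    have h4 := card_le_card h3
    rw [card_insert_of_notMem h1] at h4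
    have h5 : D ≤ #(nb G w A) := by
      have : (D : ℝ) ≤ #(nb G w A) := by
        refine hs.trans (le_trans ?_ h2)
        exact mul_le_mul_of_nonneg_left hsA hy0.le
      exact_mod_cast this
    have h6 := com_small H1 h5
    omega
  | succ m ih =>
    intro A hA hsA
    by_cases hst : ∀ w, w ∈ com G A ∨ (#(nb G w A) : ℝ) < y * #A
    · refine ⟨A, Finset.Subset.refl A, ?_, hst⟩
      have : (s₁ : ℝ) ≤ #A := by
        refine hsA.trans ?_
        have h1 : y ^ (m + 1) ≤ 1 := pow_le_one₀ hy0.le hy1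
        have h2 : (0 : ℝ) ≤ #A := by positivity
        nlinarith
      exact_mod_cast this
    · push Not at hst
      obtain ⟨w, h1, h2⟩ := hst
      have h3 : insert w (com G A) ⊆ com G (nb G w A) := by
        intro x hx
        rw [mem_com]
        intro v hv
        rw [mem_nb] at hv
        rcases mem_insert.1 hx with rfl | hx
        · exact hv.2
        · exact (mem_com.1 hx) v hv.1
      have h4 := card_le_card h3
      rw [card_insert_of_notMem h1] at h4
      obtain ⟨A', hA', h5, h6⟩ := ih (nb G w A) (by omega) (by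
        refine hsA.trans ?_
        rw [pow_succ, mul_assoc]
        exact mul_le_mul_of_nonneg_left h2 (by positivity))
      exact ⟨A', hA'.trans (nb_subset G w A), h5, h6⟩

/-- If `S` is far from every neighbourhood then it contains `j` large sets such that no vertex
has many neighbours in all of them. -/
lemma spread_exists [Nonempty V] (G : SimpleGraph V) {j D s₁ : ℕ} {y : ℝ} (hy0 : 0 < y)
    (hy1 : y ≤ 1) (hj : 1 ≤ j) (hs1 : 1 ≤ s₁)
    (H1 : ∀ F : Finset V, #F = j → #(com G F) < D) (hs : (D : ℝ) ≤ y * s₁) (S : Finset V)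
    (hS : ∀ w, (s₁ : ℝ) ≤ y ^ (j - 1) * #(S \ nb G w S)) :
    ∃ B : Fin j → Finset V, (∀ i, B i ⊆ S) ∧ (∀ i, s₁ ≤ #(B i)) ∧
      ∀ w, ∃ i, (#(nb G w (B i)) : ℝ) < y * #(B i) := by
  have hst : ∀ w, ∃ A' ⊆ S \ nb G w S, s₁ ≤ #A' ∧
      ∀ w', w' ∈ com G A' ∨ (#(nb G w' A') : ℝ) < y * #A' := fun w =>
    stable_exists G hy0 hy1 H1 hs (j - 1) _ (by omega) (hS w)
  choose A hA hAs hAst using hst
  have hw : ∀ w, w ∉ com G (A w) := by
    intro w h
    have hne : (A w).Nonempty := by
      rw [← card_pos]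
      have := hAs w
      omega
    obtain ⟨v, hv⟩ := hne
    have h1 := hA w hv
    rw [mem_sdiff, mem_nb, not_and] at h1
    exact h1.2 h1.1 ((mem_com.1 h) v hv)
  obtain ⟨w₀⟩ := ‹Nonempty V›
  have hc : #(com G (A w₀)) < j := by
    refine com_small H1 ?_
    have h1 : (D : ℝ) ≤ s₁ := by
      have : (0 : ℝ) ≤ s₁ := by positivity
      nlinarith
    have h2 : D ≤ s₁ := by exact_mod_cast h1
    exact h2.trans (hAs w₀)
  set l : List V := w₀ :: (com G (A w₀)).toList with hl
  have hlen : l.length ≤ j := by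
    rw [hl, List.length_cons, Finset.length_toList]
    omega
  refine ⟨fun i => A (l.getD i w₀), fun i => (hA _).trans sdiff_subset, fun i => hAs _,
    fun w => ?_⟩
  by_cases hwc : w ∈ com G (A w₀)
  · have hwl : w ∈ l := by
      rw [hl]
      exact List.mem_cons_of_mem _ (Finset.mem_toList.2 hwc)
    obtain ⟨i, hi, hiw⟩ := List.getElem_of_mem hwl
    refine ⟨⟨i, by omega⟩, ?_⟩
    have h1 : l.getD i w₀ = w := by
      rw [List.getD_eq_getElem _ _ hi, hiw]
    simp only [h1]
    exact (hAst w w).resolve_left (hw w)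
  · refine ⟨⟨0, by omega⟩, ?_⟩
    have h1 : l.getD 0 w₀ = w₀ := by rw [hl]; rfl
    simp only [h1]
    exact (hAst w₀ w).resolve_left hwc

/-! Subsampling. -/

lemma choose_ratio {N M : ℕ} {y : ℝ} (hy0 : 0 ≤ y) (hy1 : y ≤ 1) (h : (N : ℝ) ≤ y * M) (l : ℕ) :
    (N.choose l : ℝ) ≤ y ^ l * M.choose l := by
  induction l with
  | zero => simp
  | succ l ih =>
    rcases Nat.lt_or_ge l N with hlN | hlN
    · have hNM : N ≤ M := by
        have : (N : ℝ) ≤ M := h.trans (by
          have : (0 : ℝ) ≤ M := by positivity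
          nlinarith)
        exact_mod_cast this
      have e1 : (N.choose (l + 1) : ℝ) * (l + 1) = N.choose l * (N - l) := by
        have := Nat.choose_succ_right_eq N l
        have h2 : ((N.choose (l + 1) * (l + 1) : ℕ) : ℝ) = ((N.choose l * (N - l) : ℕ) : ℝ) := by
          rw [this]
        push_cast [Nat.cast_sub hlN.le] at h2
        exact h2
      have e2 : (M.choose (l + 1) : ℝ) * (l + 1) = M.choose l * (M - l) := by
        have := Nat.choose_succ_right_eq M l
        have h2 : ((M.choose (l + 1) * (l + 1) : ℕ) : ℝ) = ((M.choose l * (M - l) : ℕ) : ℝ) := by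
          rw [this]
        push_cast [Nat.cast_sub (hlN.le.trans hNM)] at h2
        exact h2
      have hl0 : (0 : ℝ) < (l : ℝ) + 1 := by positivity
      have h3 : (N : ℝ) - l ≤ y * (M - l) := by
        have : (0 : ℝ) ≤ l := by positivity
        nlinarith
      have h4 : (0 : ℝ) ≤ (N : ℝ) - l := by
        have : (l : ℝ) ≤ N := by exact_mod_cast hlN.le
        linarith
      have h5 : (N.choose (l + 1) : ℝ) * (l + 1) ≤ (y ^ (l + 1) * M.choose (l + 1)) * (l + 1) := by
        rw [e1, mul_assoc, e2, pow_succ]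
        calc (N.choose l : ℝ) * (N - l) ≤ (y ^ l * M.choose l) * (y * (M - l)) :=
              mul_le_mul ih h3 h4 (by positivity)
          _ = _ := by ring
      exact le_of_mul_le_mul_right h5 hl0
    · rw [Nat.choose_eq_zero_of_lt (by omega)]
      simp only [Nat.cast_zero]
      positivity

lemma card_super (B L : Finset V) (a : ℕ) (hL : L ⊆ B) (hla : #L ≤ a) :
    #((powersetCard a B).filter (fun A' => L ⊆ A')) ≤ (#B - #L).choose (a - #L) := by
  have h1 : (powersetCard a B).filter (fun A' => L ⊆ A') ⊆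
      (powersetCard (a - #L) (B \ L)).image (fun X => L ∪ X) := by
    intro A' hA'
    rw [mem_filter, mem_powersetCard] at hA'
    rw [mem_image]
    refine ⟨A' \ L, ?_, Finset.union_sdiff_of_subset hA'.2⟩
    rw [mem_powersetCard]
    refine ⟨Finset.sdiff_subset_sdiff hA'.1.1 (Finset.Subset.refl L), ?_⟩
    rw [card_sdiff_of_subset hA'.2, hA'.1.2]
  refine (card_le_card h1).trans (card_image_le.trans ?_)
  rw [card_powersetCard, card_sdiff_of_subset hL]

lemma card_bad (B N : Finset V) (a l : ℕ) {y : ℝ} (hy0 : 0 ≤ y) (hy1 : y ≤ 1)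
    (hN : (#(B ∩ N) : ℝ) ≤ y * #B) (ha : a ≤ #B) :
    (#((powersetCard a B).filter (fun A' => l ≤ #(A' ∩ N))) : ℝ) ≤
      2 ^ a * y ^ l * (#B).choose a := by
  rcases Nat.lt_or_ge a l with hal | hla
  · have : (powersetCard a B).filter (fun A' => l ≤ #(A' ∩ N)) = ∅ := by
      rw [Finset.filter_eq_empty_iff]
      intro A' hA'
      rw [mem_powersetCard] at hA'
      have := card_le_card (inter_subset_left : A' ∩ N ⊆ A')
      omega
    rw [this]
    simp only [card_empty, Nat.cast_zero]
    positivity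
  · have h1 : (powersetCard a B).filter (fun A' => l ≤ #(A' ∩ N)) ⊆
        (powersetCard l (B ∩ N)).biUnion
          (fun L => (powersetCard a B).filter (fun A' => L ⊆ A')) := by
      intro A' hA'
      rw [mem_filter, mem_powersetCard] at hA'
      obtain ⟨L, hL, hLl⟩ := Finset.exists_subset_card_eq hA'.2
      rw [mem_biUnion]
      refine ⟨L, ?_, ?_⟩
      · rw [mem_powersetCard]
        exact ⟨hL.trans (Finset.inter_subset_inter_right hA'.1.1), hLl⟩
      · rw [mem_filter, mem_powersetCard]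
        exact ⟨hA'.1, hL.trans inter_subset_left⟩
    have h2 : #((powersetCard a B).filter (fun A' => l ≤ #(A' ∩ N))) ≤
        (#(B ∩ N)).choose l * (#B - l).choose (a - l) := by
      refine (card_le_card h1).trans (card_biUnion_le.trans ?_)
      refine (Finset.sum_le_sum (g := fun _ => (#B - l).choose (a - l)) fun L hL => ?_).trans ?_
      · rw [mem_powersetCard] at hL
        have := card_super B L a (hL.1.trans inter_subset_left) (by omega)
        rwa [hL.2] at this
      · rw [Finset.sum_const, card_powersetCard, smul_eq_mul]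
    have h3 : ((#(B ∩ N)).choose l : ℝ) ≤ y ^ l * (#B).choose l := choose_ratio hy0 hy1 hN l
    have h4 : ((#B).choose l : ℝ) * (#B - l).choose (a - l) = (#B).choose a * a.choose l := by
      have := Nat.choose_mul (n := #B) hla
      have h5 : (((#B).choose a * a.choose l : ℕ) : ℝ) =
        (((#B).choose l * (#B - l).choose (a - l) : ℕ) : ℝ) := by rw [this]
      push_cast at h5
      exact h5.symm
    have h5 : (a.choose l : ℝ) ≤ 2 ^ a := by exact_mod_cast Nat.choose_le_two_pow a l
    calc (#((powersetCard a B).filter (fun A' => l ≤ #(A' ∩ N))) : ℝ)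
        ≤ (#(B ∩ N)).choose l * (#B - l).choose (a - l) := by exact_mod_cast h2
      _ ≤ (y ^ l * (#B).choose l) * (#B - l).choose (a - l) :=
          mul_le_mul_of_nonneg_right h3 (by positivity)
      _ = y ^ l * ((#B).choose a * a.choose l) := by rw [← h4]; ring
      _ ≤ y ^ l * ((#B).choose a * 2 ^ a) := by gcongr
      _ = _ := by ring

lemma subsample (B : Finset V) (N : V → Finset V) (a l : ℕ) {y : ℝ} (hy0 : 0 ≤ y) (hy1 : y ≤ 1)
    (ha : a ≤ #B) (hnum : (Fintype.card V : ℝ) * (2 ^ a * y ^ l) < 1) :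
    ∃ A' ⊆ B, #A' = a ∧ ∀ w, (#(B ∩ N w) : ℝ) ≤ y * #B → #(A' ∩ N w) < l := by
  by_contra hcon
  push Not at hcon
  have h1 : powersetCard a B ⊆ (univ.filter (fun w => (#(B ∩ N w) : ℝ) ≤ y * #B)).biUnion
      (fun w => (powersetCard a B).filter (fun A' => l ≤ #(A' ∩ N w))) := by
    intro A' hA'
    have hA'' := mem_powersetCard.1 hA'
    obtain ⟨w, hw1, hw2⟩ := hcon A' hA''.1 hA''.2
    rw [mem_biUnion]
    exact ⟨w, by simpa using hw1, mem_filter.2 ⟨hA', hw2⟩⟩
  have h2 : ((#B).choose a : ℝ) ≤ (Fintype.card V : ℝ) * (2 ^ a * y ^ l * (#B).choose a) := by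
    have h3 := (card_le_card h1).trans card_biUnion_le
    rw [card_powersetCard] at h3
    have h4 : ((#B).choose a : ℝ) ≤ ∑ w ∈ univ.filter (fun w => (#(B ∩ N w) : ℝ) ≤ y * #B),
        (#((powersetCard a B).filter (fun A' => l ≤ #(A' ∩ N w))) : ℝ) := by exact_mod_cast h3
    refine h4.trans ?_
    refine (Finset.sum_le_sum (g := fun _ => 2 ^ a * y ^ l * ((#B).choose a : ℝ))
      fun w hw => ?_).trans ?_
    · exact card_bad B (N w) a l hy0 hy1 (by simpa using hw) ha
    · rw [Finset.sum_const, nsmul_eq_mul]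
      refine mul_le_mul_of_nonneg_right ?_ (by positivity)
      exact_mod_cast card_le_univ _
  have h3 : (0 : ℝ) < (#B).choose a := by exact_mod_cast Nat.choose_pos ha
  nlinarith

/-- Disjoint subsamples. -/
lemma subsample_family (G : SimpleGraph V) {j a l : ℕ} {y : ℝ} (hy0 : 0 ≤ y) (hy1 : 2 * y ≤ 1)
    (hnum : (Fintype.card V : ℝ) * (2 ^ a * (2 * y) ^ l) < 1) (B : Fin j → Finset V)
    (hB : ∀ i, 2 * (j * a) ≤ #(B i)) (s : Finset (Fin j)) :
    ∃ A : Fin j → Finset V, (∀ i ∈ s, A i ⊆ B i ∧ #(A i) = a ∧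
      ∀ w, (#(nb G w (B i)) : ℝ) < y * #(B i) → #(nb G w (A i)) < l) ∧
      (∀ i ∈ s, ∀ k ∈ s, i ≠ k → Disjoint (A i) (A k)) := by
  induction s using Finset.induction_on with
  | empty => exact ⟨fun _ => ∅, by simp, by simp⟩
  | insert i s hi ih =>
    obtain ⟨A, hA, hd⟩ := ih
    set X := s.biUnion A with hX
    have hXc : #X ≤ j * a := by
      refine card_biUnion_le.trans ?_
      refine (Finset.sum_le_card_nsmul s _ a fun k hk => (hA k hk).2.1.le).trans ?_
      rw [smul_eq_mul]
      refine Nat.mul_le_mul_right a ?_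
      have := card_le_univ s
      rwa [Fintype.card_fin] at this
    have hXB : #(B i ∩ X) ≤ #X := card_le_card inter_subset_right
    have hBX : #(B i \ X) + #(B i ∩ X) = #(B i) := card_sdiff_add_card_inter (B i) X
    have hBi := hB i
    have haj : a ≤ j * a := Nat.le_mul_of_pos_left a (Fin.pos i)
    obtain ⟨A', hA', hA'a, hA'w⟩ := subsample (B i \ X) (fun w => nb G w univ) a l
      (y := 2 * y) (by linarith) hy1 (by omega) hnum
    refine ⟨Function.update A i A', ?_, ?_⟩
    · intro k hk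
      by_cases hki : k = i
      · subst hki
        rw [Function.update_self]
        refine ⟨hA'.trans sdiff_subset, hA'a, fun w hw => ?_⟩
        have h1 : nb G w A' = A' ∩ nb G w univ := by
          ext v; simp [mem_nb]
        rw [h1]
        refine hA'w w ?_
        have h2 : #((B k \ X) ∩ nb G w univ) ≤ #(nb G w (B k)) := by
          refine card_le_card fun v hv => ?_
          rw [mem_inter, mem_sdiff, mem_nb] at hv
          exact mem_nb.2 ⟨hv.1.1, hv.2.2⟩
        have h3 : (#((B k \ X) ∩ nb G w univ) : ℝ) ≤ #(nb G w (B k)) := by exact_mod_cast h2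
        have h4 : (#(B k) : ℝ) ≤ 2 * #(B k \ X) := by
          have : #(B k) ≤ 2 * #(B k \ X) := by omega
          exact_mod_cast this
        nlinarith
      · rw [Function.update_of_ne hki]
        exact hA k ((mem_insert.1 hk).resolve_left hki)
    · intro k hk m hm hkm
      by_cases hki : k = i
      · subst hki
        rw [Function.update_self, Function.update_of_ne (Ne.symm hkm)]
        have hms : m ∈ s := (mem_insert.1 hm).resolve_left (Ne.symm hkm)
        rw [Finset.disjoint_left]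
        intro v hv hv'
        have := mem_sdiff.1 (hA' hv)
        exact this.2 (mem_biUnion.2 ⟨m, hms, hv'⟩)
      · have hks : k ∈ s := (mem_insert.1 hk).resolve_left hki
        rw [Function.update_of_ne hki]
        by_cases hmi : m = i
        · subst hmi
          rw [Function.update_self, Finset.disjoint_right]
          intro v hv hv'
          have := mem_sdiff.1 (hA' hv)
          exact this.2 (mem_biUnion.2 ⟨k, hks, hv'⟩)
        · rw [Function.update_of_ne hmi]
          exact hd k hks m ((mem_insert.1 hm).resolve_left hmi) hkm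

/-- The random-like property used in the structure lemma. -/
def Good (G : SimpleGraph V) (j a l : ℕ) : Prop :=
  ∀ A : Fin j → Finset V, (∀ i, #(A i) = a) → (∀ i k, i ≠ k → Disjoint (A i) (A k)) →
    (∀ w, ∃ i, #(nb G w (A i)) < l) →
    ∃ u : Fin j → V, (∀ i, u i ∈ A i) ∧ (∀ i k, i ≠ k → G.Adj (u i) (u k)) ∧
      ∀ w, (∀ i, w ∉ A i) → ∃ i, ¬ G.Adj w (u i)

lemma extend_clique (G : SimpleGraph V) (S K : Finset V) (hKS : K ⊆ S)
    (hK : ∀ x ∈ K, ∀ y ∈ K, x ≠ y → G.Adj x y) :
    ∃ K' ⊆ S, K ⊆ K' ∧ (∀ x ∈ K', ∀ y ∈ K', x ≠ y → G.Adj x y) ∧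
      ∀ w ∈ S, w ∉ K' → ∃ x ∈ K', ¬ G.Adj w x := by
  classical
  set T := S.powerset.filter (fun K' => K ⊆ K' ∧ ∀ x ∈ K', ∀ y ∈ K', x ≠ y → G.Adj x y) with hT
  have hne : T.Nonempty := ⟨K, by rw [hT, mem_filter, mem_powerset]; exact ⟨hKS, Subset.refl K, hK⟩⟩
  obtain ⟨K', hK', hmax⟩ := T.exists_max_image card hne
  rw [hT, mem_filter, mem_powerset] at hK'
  refine ⟨K', hK'.1, hK'.2.1, hK'.2.2, fun w hwS hwK => ?_⟩
  by_contra hcon
  push Not at hcon
  have h1 : insert w K' ∈ T := by
    rw [hT, mem_filter, mem_powerset]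
    refine ⟨Finset.insert_subset hwS hK'.1, hK'.2.1.trans (subset_insert w K'), ?_⟩
    intro x hx y hy hxy
    rcases mem_insert.1 hx with hxw | hxK
    · rcases mem_insert.1 hy with hyw | hyK
      · exact absurd (hxw.trans hyw.symm) hxy
      · rw [hxw]; exact hcon y hyK
    · rcases mem_insert.1 hy with hyw | hyK
      · rw [hyw]; exact (hcon x hxK).symm
      · exact hK'.2.2 x hxK y hyK hxy
  have h2 := hmax _ h1
  rw [card_insert_of_notMem hwK] at h2
  omega

/-- The structure lemma, deterministic form. -/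
theorem struct_det [Nonempty V] (G : SimpleGraph V) {j D a l : ℕ} {y s₀ : ℝ} (hj : 2 ≤ j)
    (ha : 1 ≤ a) (hy0 : 0 < y) (hy1 : 2 * y ≤ 1)
    (H1 : ∀ F : Finset V, #F = j → #(com G F) < D) (hD : (D : ℝ) ≤ y * (2 * (j * a)))
    (hnum : (Fintype.card V : ℝ) * (2 ^ a * (2 * y) ^ l) < 1) (hG : Good G j a l)
    (hs₀ : 2 * ((j : ℝ) * a) ≤ y ^ (j - 1) * s₀) (S : Finset V) (hS : NoMax G S) :
    ∃ w, (#(S \ nb G w S) : ℝ) ≤ s₀ := by
  by_contra hcon
  push Not at hcon
  have h1 : ∀ w, ((2 * (j * a) : ℕ) : ℝ) ≤ y ^ (j - 1) * #(S \ nb G w S) := by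
    intro w
    push_cast
    refine hs₀.trans ?_
    exact mul_le_mul_of_nonneg_left (hcon w).le (by positivity)
  obtain ⟨B, hBS, hBc, hBw⟩ := spread_exists G hy0 (by linarith) (by omega)
    (s₁ := 2 * (j * a)) (by nlinarith) H1 (by push_cast; linarith) S h1
  obtain ⟨A, hA, hAd⟩ := subsample_family G hy0.le hy1 hnum B hBc univ
  obtain ⟨u, hu1, hu2, hu3⟩ := hG A (fun i => (hA i (mem_univ i)).2.1)
    (fun i k hik => hAd i (mem_univ i) k (mem_univ k) hik) (fun w => by
      obtain ⟨i, hi⟩ := hBw w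
      exact ⟨i, (hA i (mem_univ i)).2.2 w hi⟩)
  have hAS : (univ : Finset (Fin j)).biUnion A ⊆ S := by
    intro v hv
    obtain ⟨i, _, hi⟩ := mem_biUnion.1 hv
    exact hBS i ((hA i (mem_univ i)).1 hi)
  have hinj : Function.Injective u := by
    intro i k hik
    by_contra hne
    have := hu2 i k hne
    rw [hik] at this
    exact G.loopless.irrefl _ this
  obtain ⟨K', hK'S, hK', hcl, hmx⟩ := extend_clique G ((univ : Finset (Fin j)).biUnion A)
    (univ.image u) (by
      intro v hv
      obtain ⟨i, _, rfl⟩ := mem_image.1 hv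
      exact mem_biUnion.2 ⟨i, mem_univ i, hu1 i⟩) (by
      intro x hx z hz hxz
      obtain ⟨i, _, rfl⟩ := mem_image.1 hx
      obtain ⟨k, _, rfl⟩ := mem_image.1 hz
      exact hu2 i k (fun h => hxz (h ▸ rfl)))
  refine hS K' (hK'S.trans hAS) ⟨hcl, ?_, ?_⟩
  · have h2 := card_le_card hK'
    rw [card_image_of_injective _ hinj, card_univ, Fintype.card_fin] at h2
    omega
  · intro w hw
    by_cases hwA : w ∈ (univ : Finset (Fin j)).biUnion A
    · exact hmx w hwA hw
    · obtain ⟨i, hi⟩ := hu3 w (fun i hi => hwA (mem_biUnion.2 ⟨i, mem_univ i, hi⟩))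
      exact ⟨u i, hK' (mem_image.2 ⟨i, mem_univ i, rfl⟩), hi⟩

end Pool.Agent.H977.CC
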