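import Pool.Graph.R_seed8.V11328.Gnp
import Pool.Graph.R_seed8.H449R3.CHIJanson

/-! Expectation over random subsets of a finite set: Fubini, independence, Harris, Janson. -/

open Finset

namespace Pool.Agent.H977.CC

section Basic

variable {α : Type*} [DecidableEq α]

/-- Weight of `T` as a random subset of `E` with inclusion probabilities `P`. -/
noncomputable def wt (P : α → ℝ) (E T : Finset α) : ℝ := (∏ e ∈ T, P e) * ∏ e ∈ E \ T, (1 - P e)

/-- Expectation of `f` over a random subset of `E`. -/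
noncomputable def ex (P : α → ℝ) (E : Finset α) (f : Finset α → ℝ) : ℝ :=
  ∑ T ∈ E.powerset, wt P E T * f T

lemma wt_nonneg {P : α → ℝ} (h0 : ∀ e, 0 ≤ P e) (h1 : ∀ e, P e ≤ 1) (E T : Finset α) :
    0 ≤ wt P E T := by
  refine mul_nonneg (Finset.prod_nonneg fun e _ => h0 e) (Finset.prod_nonneg fun e _ => ?_)
  linarith [h1 e]

lemma ex_empty (P : α → ℝ) (f : Finset α → ℝ) : ex P ∅ f = f ∅ := by
  simp [ex, wt]

lemma ex_congr {P : α → ℝ} {E : Finset α} {f g : Finset α → ℝ} (h : ∀ T ⊆ E, f T = g T) :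
    ex P E f = ex P E g := by
  refine Finset.sum_congr rfl fun T hT => ?_
  rw [h T (mem_powerset.1 hT)]

lemma ex_insert (P : α → ℝ) {E : Finset α} {e : α} (he : e ∉ E) (f : Finset α → ℝ) :
    ex P (insert e E) f = P e * ex P E (fun T => f (insert e T)) + (1 - P e) * ex P E f := by
  unfold ex
  rw [Finset.sum_powerset_insert he, Finset.mul_sum, Finset.mul_sum, add_comm]
  congr 1
  · refine Finset.sum_congr rfl fun T hT => ?_
    have hT' := mem_powerset.1 hT
    have heT : e ∉ T := fun h => he (hT' h)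
    unfold wt
    rw [Finset.prod_insert heT]
    have : insert e E \ insert e T = E \ T := by
      ext x
      simp only [mem_sdiff, mem_insert, not_or]
      constructor
      · rintro ⟨h1 | h1, h2, h3⟩
        · exact absurd h1 h2
        · exact ⟨h1, h3⟩
      · rintro ⟨h1, h2⟩
        exact ⟨Or.inr h1, fun h => he (h ▸ h1), h2⟩
    rw [this]
    ring
  · refine Finset.sum_congr rfl fun T hT => ?_
    have hT' := mem_powerset.1 hT
    have heT : e ∉ T := fun h => he (hT' h)
    unfold wt
    rw [Finset.insert_sdiff_of_notMem _ heT, Finset.prod_insert]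
    · ring
    · intro h
      exact he (mem_sdiff.1 h).1

lemma ex_one (P : α → ℝ) (E : Finset α) : ex P E (fun _ => 1) = 1 := by
  induction E using Finset.induction_on with
  | empty => simp [ex_empty]
  | insert e E he ih => rw [ex_insert P he, ih]; ring

lemma ex_mono {P : α → ℝ} (h0 : ∀ e, 0 ≤ P e) (h1 : ∀ e, P e ≤ 1) {E : Finset α}
    {f g : Finset α → ℝ} (h : ∀ T ⊆ E, f T ≤ g T) : ex P E f ≤ ex P E g :=
  Finset.sum_le_sum fun T hT => mul_le_mul_of_nonneg_left (h T (mem_powerset.1 hT))
    (wt_nonneg h0 h1 E T)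

lemma ex_add (P : α → ℝ) (E : Finset α) (f g : Finset α → ℝ) :
    ex P E (fun T => f T + g T) = ex P E f + ex P E g := by
  unfold ex
  rw [← Finset.sum_add_distrib]
  exact Finset.sum_congr rfl fun T _ => by ring

lemma ex_sub (P : α → ℝ) (E : Finset α) (f g : Finset α → ℝ) :
    ex P E (fun T => f T - g T) = ex P E f - ex P E g := by
  unfold ex
  rw [← Finset.sum_sub_distrib]
  exact Finset.sum_congr rfl fun T _ => by ring

lemma ex_mul (P : α → ℝ) (E : Finset α) (c : ℝ) (f : Finset α → ℝ) :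
    ex P E (fun T => c * f T) = c * ex P E f := by
  unfold ex
  rw [Finset.mul_sum]
  exact Finset.sum_congr rfl fun T _ => by ring

lemma ex_const (P : α → ℝ) (E : Finset α) (c : ℝ) : ex P E (fun _ => c) = c := by
  have := ex_mul P E c (fun _ => 1)
  rw [ex_one] at this
  simpa using this

lemma ex_sum {ι : Type*} (P : α → ℝ) (E : Finset α) (s : Finset ι) (f : ι → Finset α → ℝ) :
    ex P E (fun T => ∑ i ∈ s, f i T) = ∑ i ∈ s, ex P E (f i) := by
  unfold ex
  rw [Finset.sum_comm]
  exact Finset.sum_congr rfl fun T _ => by rw [Finset.mul_sum]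

lemma ex_nonneg {P : α → ℝ} (h0 : ∀ e, 0 ≤ P e) (h1 : ∀ e, P e ≤ 1) {E : Finset α}
    {f : Finset α → ℝ} (h : ∀ T ⊆ E, 0 ≤ f T) : 0 ≤ ex P E f := by
  have := ex_mono h0 h1 h
  rwa [ex_const] at this

lemma ex_le_const {P : α → ℝ} (h0 : ∀ e, 0 ≤ P e) (h1 : ∀ e, P e ≤ 1) {E : Finset α}
    {f : Finset α → ℝ} {c : ℝ} (h : ∀ T ⊆ E, f T ≤ c) : ex P E f ≤ c := by
  have := ex_mono h0 h1 h
  rwa [ex_const] at this

/-- Fubini. -/
lemma ex_union (P : α → ℝ) {E₁ E₂ : Finset α} (hd : Disjoint E₁ E₂) (f : Finset α → ℝ) :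
    ex P (E₁ ∪ E₂) f = ex P E₁ (fun T₁ => ex P E₂ (fun T₂ => f (T₁ ∪ T₂))) := by
  induction E₁ using Finset.induction_on generalizing f with
  | empty => simp [ex_empty]
  | insert e E₁ he ih =>
    rw [Finset.disjoint_insert_left] at hd
    rw [Finset.insert_union, ex_insert P (by
      rw [mem_union, not_or]; exact ⟨he, hd.1⟩), ih hd.2, ih hd.2, ex_insert P he]
    simp only [Finset.insert_union]

/-- A function depending only on the part in `E₁`. -/
lemma ex_restrict (P : α → ℝ) {E E₁ : Finset α} (h : E₁ ⊆ E) (f : Finset α → ℝ)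
    (hf : ∀ T ⊆ E, f T = f (T ∩ E₁)) : ex P E f = ex P E₁ f := by
  have hE : E = E₁ ∪ (E \ E₁) := (Finset.union_sdiff_of_subset h).symm
  have hd : Disjoint E₁ (E \ E₁) := Finset.disjoint_sdiff
  rw [hE, ex_union P hd]
  refine ex_congr fun T hT => ?_
  have : ex P (E \ E₁) (fun T₂ => f (T ∪ T₂)) = ex P (E \ E₁) (fun _ => f T) := by
    refine ex_congr fun T₂ hT₂ => ?_
    rw [hf (T ∪ T₂)]
    · congr 1
      ext x
      simp only [mem_inter, mem_union]
      constructor
      · rintro ⟨h1 | h1, h2⟩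
        · exact h1
        · exact absurd h2 (mem_sdiff.1 (hT₂ h1)).2
      · intro h1
        exact ⟨Or.inl h1, hT h1⟩
    · exact Finset.union_subset (hT.trans h) (hT₂.trans sdiff_subset)
  rw [this, ex_const]

/-- Independence of functions depending on disjoint parts. -/
lemma ex_indep (P : α → ℝ) {E E₂ : Finset α} (h : E₂ ⊆ E) (f g : Finset α → ℝ)
    (hf : ∀ T ⊆ E, f T = f (T \ E₂)) (hg : ∀ T ⊆ E, g T = g (T ∩ E₂)) :
    ex P E (fun T => f T * g T) = ex P E f * ex P E₂ g := by
  have hE : E = (E \ E₂) ∪ E₂ := (Finset.sdiff_union_of_subset h).symm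
  have hd : Disjoint (E \ E₂) E₂ := Finset.sdiff_disjoint
  have hfr : ex P E f = ex P (E \ E₂) f := by
    refine ex_restrict P sdiff_subset f fun T hT => ?_
    rw [hf T hT]
    congr 1
    ext x
    simp only [mem_inter, mem_sdiff]
    exact ⟨fun h => ⟨h.1, hT h.1, h.2⟩, fun h => ⟨h.1, h.2.2⟩⟩
  rw [hfr]
  conv_lhs => rw [hE, ex_union P hd]
  have : ∀ T₁ ⊆ E \ E₂, ex P E₂ (fun T₂ => f (T₁ ∪ T₂) * g (T₁ ∪ T₂)) = ex P E₂ g * f T₁ := by
    intro T₁ hT₁
    have h1 : ex P E₂ (fun T₂ => f (T₁ ∪ T₂) * g (T₁ ∪ T₂)) = ex P E₂ (fun T₂ => f T₁ * g T₂) := by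
      refine ex_congr fun T₂ hT₂ => ?_
      have hu : T₁ ∪ T₂ ⊆ E := Finset.union_subset (hT₁.trans sdiff_subset) (hT₂.trans h)
      rw [hf _ hu, hg _ hu]
      congr 2
      · ext x
        simp only [mem_sdiff, mem_union]
        constructor
        · rintro ⟨h1 | h1, h2⟩
          · exact h1
          · exact absurd (hT₂ h1) h2
        · intro h1
          exact ⟨Or.inl h1, (mem_sdiff.1 (hT₁ h1)).2⟩
      · ext x
        simp only [mem_inter, mem_union]
        constructor
        · rintro ⟨h1 | h1, h2⟩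
          · exact absurd h2 (mem_sdiff.1 (hT₁ h1)).2
          · exact h1
        · intro h1
          exact ⟨Or.inr h1, hT₂ h1⟩
    rw [h1, ex_mul, mul_comm]
  rw [ex_congr this, ex_mul, mul_comm]

/-- Bounding an expectation by a conditional bound. -/
lemma ex_le_of_cond {P : α → ℝ} (h0 : ∀ e, 0 ≤ P e) (h1 : ∀ e, P e ≤ 1) {E E₂ : Finset α}
    (h : E₂ ⊆ E) (f : Finset α → ℝ) (c : ℝ)
    (hc : ∀ T₁ ⊆ E \ E₂, ex P E₂ (fun T₂ => f (T₁ ∪ T₂)) ≤ c) : ex P E f ≤ c := by
  have hE : E = (E \ E₂) ∪ E₂ := (Finset.sdiff_union_of_subset h).symm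
  have hd : Disjoint (E \ E₂) E₂ := Finset.sdiff_disjoint
  rw [hE, ex_union P hd]
  exact ex_le_const h0 h1 hc

/-- Probability that a set is contained in the random set. -/
lemma ex_subset (P : α → ℝ) {E F : Finset α} (hF : F ⊆ E) :
    ex P E (fun T => if F ⊆ T then 1 else 0) = ∏ e ∈ F, P e := by
  rw [ex_restrict P hF]
  · unfold ex
    rw [Finset.sum_eq_single F]
    · simp [wt]
    · intro T hT hne
      beta_reduce
      rw [if_neg, mul_zero]
      intro h
      exact hne (Finset.Subset.antisymm (mem_powerset.1 hT) h)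
    · intro h
      exact absurd (mem_powerset.2 (Finset.Subset.refl F)) h
  · intro T _
    have : F ⊆ T ↔ F ⊆ T ∩ F := by
      constructor
      · intro h
        exact Finset.subset_inter h (Finset.Subset.refl F)
      · intro h
        exact h.trans inter_subset_left
    simp only [this]

/-- Product formula over disjoint blocks. -/
lemma ex_prod {ι : Type*} [DecidableEq ι] (P : α → ℝ) (I : Finset ι) (B : ι → Finset α)
    (hB : ∀ i ∈ I, ∀ k ∈ I, i ≠ k → Disjoint (B i) (B k)) (f : ι → Finset α → ℝ) :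
    ex P (I.biUnion B) (fun T => ∏ i ∈ I, f i (T ∩ B i)) = ∏ i ∈ I, ex P (B i) (f i) := by
  induction I using Finset.induction_on with
  | empty => simp [ex_empty]
  | insert i I hi ih =>
    have hd : Disjoint (B i) (I.biUnion B) := by
      rw [Finset.disjoint_biUnion_right]
      intro k hk
      exact hB i (mem_insert_self i I) k (mem_insert_of_mem hk) (fun h => hi (h ▸ hk))
    rw [Finset.biUnion_insert, ex_union P hd, Finset.prod_insert hi,
      ← ih (fun a ha b hb hab => hB a (mem_insert_of_mem ha) b (mem_insert_of_mem hb) hab),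
      mul_comm (ex P (B i) (f i)), ← ex_mul]
    refine ex_congr fun T₁ hT₁ => ?_
    rw [mul_comm, ← ex_mul]
    refine ex_congr fun T₂ hT₂ => ?_
    rw [Finset.prod_insert hi]
    congr 1
    · congr 1
      ext x
      simp only [mem_inter, mem_union]
      constructor
      · rintro ⟨h1 | h1, h2⟩
        · exact h1
        · exact absurd h2 (Finset.disjoint_right.1 hd (hT₂ h1))
      · intro h1
        exact ⟨Or.inl h1, hT₁ h1⟩
    · refine Finset.prod_congr rfl fun k hk => ?_
      congr 1
      ext x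
      simp only [mem_inter, mem_union]
      constructor
      · rintro ⟨h1 | h1, h2⟩
        · exact absurd (hT₁ h1) (Finset.disjoint_right.1 hd (mem_biUnion.2 ⟨k, hk, h2⟩))
        · exact ⟨h1, h2⟩
      · rintro ⟨h1, h2⟩
        exact ⟨Or.inr h1, h2⟩

/-- Harris' inequality for two decreasing functions. -/
lemma ex_harris {P : α → ℝ} (h0 : ∀ e, 0 ≤ P e) (h1 : ∀ e, P e ≤ 1) (E : Finset α)
    {f g : Finset α → ℝ} (hf : ∀ S T, S ⊆ T → f T ≤ f S) (hg : ∀ S T, S ⊆ T → g T ≤ g S) :
    ex P E f * ex P E g ≤ ex P E (fun T => f T * g T) := by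
  induction E using Finset.induction_on generalizing f g with
  | empty => simp [ex_empty]
  | insert e E he ih =>
    rw [ex_insert P he, ex_insert P he, ex_insert P he]
    have h2 := ih (f := fun T => f (insert e T)) (g := fun T => g (insert e T))
      (fun S T h => hf _ _ (Finset.insert_subset_insert e h))
      (fun S T h => hg _ _ (Finset.insert_subset_insert e h))
    have h3 := ih hf hg
    have h4 : ex P E (fun T => f (insert e T)) ≤ ex P E f :=
      ex_mono h0 h1 fun T _ => hf _ _ (Finset.subset_insert e T)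
    have h5 : ex P E (fun T => g (insert e T)) ≤ ex P E g :=
      ex_mono h0 h1 fun T _ => hg _ _ (Finset.subset_insert e T)
    have h6 := h0 e
    have h7 := h1 e
    set a := ex P E (fun T => f (insert e T))
    set b := ex P E f
    set c := ex P E (fun T => g (insert e T))
    set d := ex P E g
    have h8 : 0 ≤ P e * (1 - P e) * ((b - a) * (d - c)) :=
      mul_nonneg (mul_nonneg h6 (by linarith)) (mul_nonneg (by linarith) (by linarith))
    have h9 := mul_le_mul_of_nonneg_left h2 h6
    have h10 := mul_le_mul_of_nonneg_left h3 (show 0 ≤ 1 - P e by linarith)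
    nlinarith

/-- Harris' inequality for products of decreasing functions. -/
lemma ex_harris_prod {ι : Type*} [DecidableEq ι] {P : α → ℝ} (h0 : ∀ e, 0 ≤ P e)
    (h1 : ∀ e, P e ≤ 1) (E : Finset α) (s : Finset ι) (f : ι → Finset α → ℝ)
    (hf0 : ∀ i ∈ s, ∀ T, 0 ≤ f i T) (hf : ∀ i ∈ s, ∀ S T, S ⊆ T → f i T ≤ f i S) :
    ∏ i ∈ s, ex P E (f i) ≤ ex P E (fun T => ∏ i ∈ s, f i T) := by
  induction s using Finset.induction_on with
  | empty => simp [ex_one]
  | insert i s hi ih =>
    rw [Finset.prod_insert hi]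
    have h2 := ih (fun k hk => hf0 k (mem_insert_of_mem hk))
      (fun k hk => hf k (mem_insert_of_mem hk))
    have h3 : 0 ≤ ex P E (f i) := ex_nonneg h0 h1 fun T _ => hf0 i (mem_insert_self i s) T
    refine (mul_le_mul_of_nonneg_left h2 h3).trans ?_
    refine (ex_harris h0 h1 E (hf i (mem_insert_self i s)) ?_).trans (le_of_eq ?_)
    · intro S T hST
      refine Finset.prod_le_prod (fun k hk => hf0 k (mem_insert_of_mem hk) T) fun k hk => ?_
      exact hf k (mem_insert_of_mem hk) S T hST
    · refine ex_congr fun T _ => ?_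
      rw [Finset.prod_insert hi]

end Basic

/-! Comparison with the product weights of the library. -/

section Jan

open Pool.Agent.H449R3.CHI Pool.Agent.H452R3.CHI

lemma ex_eq_EP {α : Type} [DecidableEq α] [Fintype α] (P : α → ℝ) (f : Finset α → ℝ) :
    ex P univ f = EP P f := by
  unfold ex EP
  rw [Finset.powerset_univ]
  refine Finset.sum_congr rfl fun T _ => ?_
  congr 1
  have hpw : pw P T = ∏ e : α, if e ∈ T then P e else 1 - P e := by
    unfold pw
    refine Finset.prod_congr rfl fun e _ => ?_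
    by_cases h : e ∈ T <;> simp [h]
  rw [hpw]
  unfold wt
  rw [Finset.prod_ite]
  congr 1
  · refine Finset.prod_congr ?_ fun _ _ => rfl
    ext x; simp
  · refine Finset.prod_congr ?_ fun _ _ => rfl
    ext x; simp

lemma ex_compl {α : Type} [DecidableEq α] [Fintype α] (P : α → ℝ) (f : Finset α → ℝ) :
    ex P univ f = ex (fun e => 1 - P e) univ (fun T => f Tᶜ) := by
  unfold ex
  rw [Finset.powerset_univ]
  refine Finset.sum_bij' (fun T _ => Tᶜ) (fun T _ => Tᶜ) (by simp) (by simp) (by simp) (by simp) ?_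
  intro T _
  beta_reduce
  rw [compl_compl]
  congr 1
  unfold wt
  simp only [sub_sub_cancel]
  rw [mul_comm]
  congr 1
  refine Finset.prod_congr ?_ fun _ _ => rfl
  ext x; simp

/-- Janson's inequality. -/
lemma ex_janson {α : Type} [DecidableEq α] [Fintype α] {P : α → ℝ} (h0 : ∀ e, 0 ≤ P e)
    (h1 : ∀ e, P e ≤ 1) {ι : Type} [DecidableEq ι] [Fintype ι] (F : ι → Finset α) :
    ex P univ (fun T => if ∀ i, ¬ F i ⊆ T then 1 else 0) ≤
      Real.exp (- ∑ i, ∏ e ∈ F i, P e + (1 / 2) * ∑ i, ∑ j,
              if i ≠ j ∧ ¬ Disjoint (F i) (F j) then ∏ e ∈ F i ∪ F j, P e else 0) := by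
  have h := taskJanson α (fun e => 1 - P e) (fun e => by linarith [h1 e])
    (fun e => by linarith [h0 e]) ι F
  simp only [sub_sub_cancel] at h
  refine le_trans (le_of_eq ?_) (h.trans (le_of_eq ?_))
  · rw [ex_compl, ex_eq_EP]
    unfold EP
    refine Finset.sum_congr rfl fun T _ => ?_
    have : (∀ i, ¬ F i ⊆ Tᶜ) ↔ (∀ i, ¬ Disjoint T (F i)) := by
      refine forall_congr' fun i => not_congr ?_
      rw [Finset.disjoint_right]
      constructor
      · intro h x hx
        exact mem_compl.1 (h hx)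
      · intro h x hx
        exact mem_compl.2 (h hx)
    beta_reduce
    by_cases hc : ∀ i, ¬ F i ⊆ Tᶜ
    · rw [if_pos hc, if_pos (this.1 hc), mul_one]
    · rw [if_neg hc, if_neg (fun h => hc (this.2 h)), mul_zero]
  · congr 1
    congr 1
    congr 1
    refine Finset.sum_congr rfl fun i _ => Finset.sum_congr rfl fun j _ => ?_
    by_cases hc : i ≠ j ∧ ¬ Disjoint (F i) (F j)
    · rw [if_pos hc, if_pos hc]
      refine Finset.prod_congr ?_ fun _ _ => rfl
      ext e
      simp only [Finset.mem_union]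
    · rw [if_neg hc, if_neg hc]

lemma ex_map {α β : Type} [DecidableEq α] [DecidableEq β] (P : β → ℝ) (φ : α ↪ β) (E : Finset α) (f : Finset β → ℝ) :
    ex P (E.map φ) f = ex (fun a => P (φ a)) E (fun T => f (T.map φ)) := by
  induction E using Finset.induction_on generalizing f with
  | empty => simp [ex_empty]
  | insert e E he ih =>
    rw [Finset.map_insert, ex_insert P (by simpa using he), ih, ih, ex_insert _ he]
    simp only [Finset.map_insert]

/-- Janson's inequality with thinning. -/
lemma ex_janson_thin {α : Type} [DecidableEq α] [Fintype α] {P : α → ℝ} (h0 : ∀ e, 0 ≤ P e)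
    (h1 : ∀ e, P e ≤ 1) {ι : Type} [DecidableEq ι] [Fintype ι] (F : ι → Finset α) {q : ℝ} (hq0 : 0 ≤ q)
    (hq1 : q ≤ 1) :
    ex P univ (fun T => if ∀ i, ¬ F i ⊆ T then 1 else 0) ≤
      Real.exp (- (q * ∑ i, ∏ e ∈ F i, P e) + (1 / 2) * (q ^ 2 * ∑ i, ∑ j,
              if i ≠ j ∧ ¬ Disjoint (F i) (F j) then ∏ e ∈ F i ∪ F j, P e else 0)) := by
  set P' : α ⊕ ι → ℝ := Sum.elim P (fun _ => q) with hP'
  set F' : ι → Finset (α ⊕ ι) := fun i => insert (Sum.inr i) ((F i).map Function.Embedding.inl)
    with hF'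
  have h0' : ∀ e, 0 ≤ P' e := by
    rintro (e | e)
    · exact h0 e
    · exact hq0
  have h1' : ∀ e, P' e ≤ 1 := by
    rintro (e | e)
    · exact h1 e
    · exact hq1
  have hJ := ex_janson h0' h1' F'
  have hnot : ∀ i (S : Finset α), Sum.inr i ∉ S.map (Function.Embedding.inl : α ↪ α ⊕ ι) := by
    intro i S h
    obtain ⟨a, _, ha⟩ := Finset.mem_map.1 h
    exact Sum.inl_ne_inr ha
  have e1 : ∀ i, ∏ e ∈ F' i, P' e = q * ∏ e ∈ F i, P e := by
    intro i
    simp only [hF']
    rw [Finset.prod_insert (hnot i _), Finset.prod_map]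
    rfl
  simp only [e1, ← Finset.mul_sum] at hJ
  refine le_trans ?_ (hJ.trans (le_of_eq ?_))
  swap
  · congr 1
    congr 1
    congr 1
    rw [Finset.mul_sum]
    refine Finset.sum_congr rfl fun i _ => ?_
    rw [Finset.mul_sum]
    refine Finset.sum_congr rfl fun j _ => ?_
    by_cases hij : i = j
    · simp [hij]
    · have hd : Disjoint (F' i) (F' j) ↔ Disjoint (F i) (F j) := by
        simp only [hF']
        rw [Finset.disjoint_insert_left, Finset.disjoint_insert_right, Finset.disjoint_map]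
        constructor
        · exact fun h => h.2.2
        · intro h
          refine ⟨?_, hnot j _, h⟩
          rw [Finset.mem_insert, not_or]
          exact ⟨fun h => hij (Sum.inr_injective h), hnot i _⟩
      by_cases hc : i ≠ j ∧ ¬ Disjoint (F i) (F j)
      · have hc' : i ≠ j ∧ ¬ Disjoint (F' i) (F' j) := ⟨hc.1, fun h => hc.2 (hd.1 h)⟩
        rw [if_pos hc, if_pos hc']
        have hu : F' i ∪ F' j = insert (Sum.inr i) (insert (Sum.inr j)
            ((F i ∪ F j).map Function.Embedding.inl)) := by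
          simp only [hF']
          rw [Finset.map_union]
          ext x
          simp only [Finset.mem_union, Finset.mem_insert]
          tauto
        rw [hu, Finset.prod_insert, Finset.prod_insert (hnot j _), Finset.prod_map]
        · simp only [hP', Sum.elim_inr, Function.Embedding.inl_apply, Sum.elim_inl]
          ring
        · rw [Finset.mem_insert, not_or]
          exact ⟨fun h => hij (Sum.inr_injective h), hnot i _⟩
      · have hc' : ¬ (i ≠ j ∧ ¬ Disjoint (F' i) (F' j)) := fun h => hc ⟨h.1, fun h' => h.2 (hd.2 h')⟩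
        rw [if_neg hc, if_neg hc', mul_zero]
  have hu : (univ : Finset (α ⊕ ι)) = (univ : Finset α).map Function.Embedding.inl ∪
      (univ : Finset ι).map Function.Embedding.inr := by
    ext x
    rcases x with x | x <;> simp
  have hd : Disjoint ((univ : Finset α).map (Function.Embedding.inl : α ↪ α ⊕ ι))
      ((univ : Finset ι).map Function.Embedding.inr) := by
    rw [Finset.disjoint_left]
    intro x hx hx'
    obtain ⟨a, _, ha⟩ := Finset.mem_map.1 hx
    obtain ⟨b, _, hb⟩ := Finset.mem_map.1 hx'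
    rw [← hb] at ha
    exact Sum.inl_ne_inr ha
  rw [hu, ex_union P' hd, ex_map]
  have e3 : (fun a => P' (Function.Embedding.inl a)) = P := rfl
  rw [e3]
  refine ex_mono h0 h1 fun T _ => ?_
  refine le_trans (le_of_eq (ex_const P' _ _).symm) (ex_mono h0' h1' fun T₂ hT₂ => ?_)
  by_cases hc : ∀ i, ¬ F i ⊆ T
  · rw [if_pos hc, if_pos]
    intro i hi
    refine hc i fun x hx => ?_
    have h3 : Sum.inl x ∈ T.map (Function.Embedding.inl : α ↪ α ⊕ ι) ∪ T₂ := by
      apply hi
      simp only [hF']
      rw [Finset.mem_insert]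
      exact Or.inr (Finset.mem_map.2 ⟨x, hx, rfl⟩)
    rcases Finset.mem_union.1 h3 with h4 | h4
    · obtain ⟨a, ha, hax⟩ := Finset.mem_map.1 h4
      rwa [← Sum.inl_injective hax]
    · obtain ⟨b, _, hb⟩ := Finset.mem_map.1 (hT₂ h4)
      exact absurd hb Sum.inr_ne_inl
  · rw [if_neg hc]
    split_ifs <;> norm_num

end Jan

/-! Random graphs. -/

section Graph

open MeasureTheory ProbabilityTheory unitInterval Pool.Agent.V11328
open scoped SimpleGraph

variable {V : Type*} [Fintype V] [DecidableEq V]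

/-- Probability of an event as an expectation over random edge sets. -/
lemma real_ex (p : I) (A : Set (SimpleGraph V)) [DecidablePred (· ∈ A)] :
    (G(V, p)).real A = ex (fun _ => (p : ℝ)) (allE V)
      (fun T => if SimpleGraph.fromEdgeSet (T : Set (Sym2 V)) ∈ A then 1 else 0) := by
  rw [real_event, Finset.sum_filter]
  have h := sum_graph (V := V) (fun S => wt (fun _ => (p : ℝ)) (allE V) S *
    (if SimpleGraph.fromEdgeSet (S : Set (Sym2 V)) ∈ A then 1 else 0))
  unfold ex
  rw [← h]
  refine Finset.sum_congr rfl fun G _ => ?_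
  have h1 : SimpleGraph.fromEdgeSet ((ed G : Finset (Sym2 V)) : Set (Sym2 V)) = G := by
    rw [ed_coe, SimpleGraph.fromEdgeSet_edgeSet]
  rw [h1]
  have h2 : wt (fun _ => (p : ℝ)) (allE V) (ed G) = gw (p : ℝ) G := by
    unfold wt gw
    rw [Finset.prod_const, Finset.prod_const]
  rw [h2]
  split_ifs <;> simp

end Graph

end Pool.Agent.H977.CC
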