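import Pool.Agent.H977.CC.UpD

/-! First-fit colouring of the far vertices into triangle-free classes: the procedure. -/

open MeasureTheory ProbabilityTheory unitInterval Finset
open scoped SimpleGraph

namespace Pool.Agent.H977.CC

open Pool.Agent.V11328

variable {n : ℕ}

/-- `v` is rejected by the class `C`. -/
def rej (T : Finset (Sym2 (Fin n))) (C : Finset (Fin n)) (v : Fin n) : Prop :=
  ∃ a ∈ C, ∃ b ∈ C, s(a, b) ∈ T ∧ s(v, a) ∈ T ∧ s(v, b) ∈ T

open Classical in
/-- Put `v` into a class allowed by `Q`. -/
noncomputable def put {m : ℕ} (Q : Fin m → Prop) (v : Fin n) (τ : Fin m → Finset (Fin n)) :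
    Fin m → Finset (Fin n) :=
  if h : ∃ i, Q i then Function.update τ h.choose (insert v (τ h.choose)) else τ

lemma put_cases {m : ℕ} (Q : Fin m → Prop) (v : Fin n) (τ : Fin m → Finset (Fin n)) :
    (put Q v τ = τ ∧ ∀ i, ¬ Q i) ∨
      ∃ i, Q i ∧ put Q v τ = Function.update τ i (insert v (τ i)) := by
  by_cases h : ∃ i, Q i
  · right
    exact ⟨h.choose, h.choose_spec, by unfold put; rw [dif_pos h]⟩
  · left
    refine ⟨by unfold put; rw [dif_neg h], ?_⟩
    push Not at h
    exact h

/-- The condition of the procedure. -/
def okc {m : ℕ} (c : ℕ) (T : Finset (Sym2 (Fin n))) (R : Finset (Fin n)) (v : Fin n)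
    (τ : Fin m → Finset (Fin n)) : Fin m → Prop :=
  fun i => v ∈ R ∧ #(τ i) < c ∧ ¬ rej T (τ i) v

/-- The classes before the vertex number `t` is treated. -/
noncomputable def stt (m c : ℕ) (T : Finset (Sym2 (Fin n))) (R : Finset (Fin n)) :
    ℕ → (Fin m → Finset (Fin n))
  | 0 => fun _ => ∅
  | t + 1 => if h : t < n then
      put (okc c T R ⟨t, h⟩ (stt m c T R t)) ⟨t, h⟩ (stt m c T R t) else stt m c T R t

lemma stt_zero (m c : ℕ) (T : Finset (Sym2 (Fin n))) (R : Finset (Fin n)) :
    stt m c T R 0 = fun _ => ∅ := rfl

lemma stt_succ {m c t : ℕ} {T : Finset (Sym2 (Fin n))} {R : Finset (Fin n)} (h : t < n) :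
    stt m c T R (t + 1) = put (okc c T R ⟨t, h⟩ (stt m c T R t)) ⟨t, h⟩ (stt m c T R t) := by
  show (if h : t < n then _ else _) = _
  rw [dif_pos h]

lemma stt_succ' {m c t : ℕ} {T : Finset (Sym2 (Fin n))} {R : Finset (Fin n)} (h : ¬ t < n) :
    stt m c T R (t + 1) = stt m c T R t := by
  show (if h : t < n then _ else _) = _
  rw [dif_neg h]

/-- Invariants. -/
structure FInv (m c : ℕ) (T : Finset (Sym2 (Fin n))) (R : Finset (Fin n)) (t : ℕ)
    (τ : Fin m → Finset (Fin n)) : Prop where
  sub : ∀ i, ∀ u ∈ τ i, (u : ℕ) < t ∧ u ∈ R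
  cap : ∀ i, #(τ i) ≤ c
  dis : ∀ i k, i ≠ k → Disjoint (τ i) (τ k)
  tri : ∀ i, ∀ a ∈ τ i, ∀ b ∈ τ i, ∀ d ∈ τ i, a ≠ b → a ≠ d → b ≠ d →
    ¬ (s(a, b) ∈ T ∧ s(a, d) ∈ T ∧ s(b, d) ∈ T)

lemma inv_stt (m c : ℕ) (T : Finset (Sym2 (Fin n))) (R : Finset (Fin n)) (t : ℕ) :
    FInv m c T R t (stt m c T R t) := by
  induction t with
  | zero =>
    rw [stt_zero]
    exact ⟨by simp, by simp, by simp, by simp⟩
  | succ t ih =>
    by_cases h : t < n
    · rw [stt_succ h]
      set v : Fin n := ⟨t, h⟩ with hv
      set τ := stt m c T R t with hτ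
      rcases put_cases (okc c T R v τ) v τ with ⟨h1, _⟩ | ⟨i, ⟨h2, h3, h4⟩, h1⟩
      · rw [h1]
        exact ⟨fun i u hu => ⟨Nat.lt_succ_of_lt (ih.sub i u hu).1, (ih.sub i u hu).2⟩,
          ih.cap, ih.dis, ih.tri⟩
      · rw [h1]
        have hvn : ∀ k, v ∉ τ k := by
          intro k hk
          have := (ih.sub k v hk).1
          simp [hv] at this
        refine ⟨?_, ?_, ?_, ?_⟩
        · intro k u hu
          by_cases hki : k = i
          · subst hki
            rw [Function.update_self, mem_insert] at hu
            rcases hu with rfl | hu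
            · exact ⟨by simp [hv], h2⟩
            · exact ⟨Nat.lt_succ_of_lt (ih.sub k u hu).1, (ih.sub k u hu).2⟩
          · rw [Function.update_of_ne hki] at hu
            exact ⟨Nat.lt_succ_of_lt (ih.sub k u hu).1, (ih.sub k u hu).2⟩
        · intro k
          by_cases hki : k = i
          · subst hki
            rw [Function.update_self]
            exact (card_insert_le _ _).trans h3
          · rw [Function.update_of_ne hki]
            exact ih.cap k
        · intro k l hkl
          by_cases hki : k = i
          · subst hki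
            rw [Function.update_self, Function.update_of_ne (Ne.symm hkl), disjoint_insert_left]
            exact ⟨hvn l, ih.dis k l hkl⟩
          · by_cases hli : l = i
            · subst hli
              rw [Function.update_self, Function.update_of_ne hki, disjoint_insert_right]
              exact ⟨hvn k, ih.dis k l hkl⟩
            · rw [Function.update_of_ne hki, Function.update_of_ne hli]
              exact ih.dis k l hkl
        · intro k a ha b hb d hd hab had hbd hT
          by_cases hki : k = i
          · subst hki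
            rw [Function.update_self, mem_insert] at ha hb hd
            obtain ⟨e1, e2, e3⟩ := hT
            rcases ha with rfl | ha
            · rcases hb with rfl | hb
              · exact hab rfl
              · rcases hd with rfl | hd
                · exact had rfl
                · exact h4 ⟨b, hb, d, hd, e3, e1, e2⟩
            · rcases hb with rfl | hb
              · rcases hd with rfl | hd
                · exact hbd rfl
                · refine h4 ⟨a, ha, d, hd, e2, ?_, e3⟩
                  rwa [Sym2.eq_swap]
              · rcases hd with rfl | hd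
                · refine h4 ⟨a, ha, b, hb, e1, ?_, ?_⟩
                  · rwa [Sym2.eq_swap]
                  · rwa [Sym2.eq_swap]
                · exact ih.tri k a ha b hb d hd hab had hbd ⟨e1, e2, e3⟩
          · rw [Function.update_of_ne hki] at ha hb hd
            exact ih.tri k a ha b hb d hd hab had hbd hT
    · rw [stt_succ' h]
      exact ⟨fun i u hu => ⟨Nat.lt_succ_of_lt (ih.sub i u hu).1, (ih.sub i u hu).2⟩,
          ih.cap, ih.dis, ih.tri⟩

/-- If the procedure never fails, all vertices are covered. -/
lemma stt_cover {m c : ℕ} {T : Finset (Sym2 (Fin n))} {R : Finset (Fin n)}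
    (hok : ∀ v ∈ R, ∃ i, #(stt m c T R v i) < c ∧ ¬ rej T (stt m c T R v i) v) (t : ℕ) :
    ∀ v ∈ R, (v : ℕ) < t → ∃ i, v ∈ stt m c T R t i := by
  induction t with
  | zero => intro v _ h; omega
  | succ t ih =>
    intro v hv hvt
    by_cases h : t < n
    · rw [stt_succ h]
      set w : Fin n := ⟨t, h⟩ with hw
      set τ := stt m c T R t with hτ
      rcases put_cases (okc c T R w τ) w τ with ⟨h1, h2⟩ | ⟨i, ⟨h2, h3, h4⟩, h1⟩
      · rw [h1]
        by_cases hvw : v = w
        · exfalso
          obtain ⟨i, h3, h4⟩ := hok v hv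
          have e1 : (v : ℕ) = t := by rw [hvw, hw]
          rw [e1] at h3 h4
          exact h2 i ⟨hvw ▸ hv, h3, hvw ▸ h4⟩
        · refine ih v hv ?_
          have : (v : ℕ) ≠ t := fun h5 => hvw (Fin.ext (by rw [hw]; exact h5))
          omega
      · rw [h1]
        by_cases hvw : v = w
        · refine ⟨i, ?_⟩
          rw [Function.update_self, hvw]
          exact mem_insert_self _ _
        · obtain ⟨k, hk⟩ := ih v hv (by
            have : (v : ℕ) ≠ t := fun h5 => hvw (Fin.ext (by rw [hw]; exact h5))
            omega)
          refine ⟨k, ?_⟩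
          by_cases hki : k = i
          · subst hki
            rw [Function.update_self]
            exact mem_insert_of_mem hk
          · rw [Function.update_of_ne hki]
            exact hk
    · rw [stt_succ' h]
      exact ih v hv (by have := v.2; omega)

/-- The classes depend only on the pairs of vertices already treated. -/
lemma stt_congr {m c : ℕ} {T T' : Finset (Sym2 (Fin n))} {R : Finset (Fin n)} (t : ℕ)
    (h : ∀ a b : Fin n, (a : ℕ) < t → (b : ℕ) < t → (s(a, b) ∈ T ↔ s(a, b) ∈ T')) :
    stt m c T R t = stt m c T' R t := by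
  induction t with
  | zero => rfl
  | succ t ih =>
    have ih' := ih fun a b ha hb => h a b (by omega) (by omega)
    by_cases ht : t < n
    · rw [stt_succ ht, stt_succ ht, ← ih']
      congr 1
      funext i
      unfold okc
      have hinv := inv_stt m c T R t
      have : rej T (stt m c T R t i) ⟨t, ht⟩ ↔ rej T' (stt m c T R t i) ⟨t, ht⟩ := by
        unfold rej
        refine exists_congr fun a => and_congr_right fun ha => exists_congr fun b =>
          and_congr_right fun hb => ?_
        have h1 := (hinv.sub i a ha).1
        have h2 := (hinv.sub i b hb).1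
        rw [h a b (by omega) (by omega), h ⟨t, ht⟩ a (by simp) (by omega),
          h ⟨t, ht⟩ b (by simp) (by omega)]
      rw [this]
    · rw [stt_succ' ht, stt_succ' ht]
      exact ih'

end Pool.Agent.H977.CC
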