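import Pool.Agent.H977.CC.Det

/-! The covering process: typical vertices cover the tuples independently. -/

open Finset

namespace Pool.Agent.H977.CC

variable {V : Type*} [Fintype V] [DecidableEq V]

/-- Pairs between `w` and `X`. -/
def ew (X : Finset V) (w : V) : Finset (Sym2 V) := X.image (fun v => s(w, v))

lemma mem_ew {X : Finset V} {w : V} {e : Sym2 V} : e ∈ ew X w ↔ ∃ v ∈ X, s(w, v) = e := by
  unfold ew; simp

lemma mk_mem_ew {X : Finset V} {w v : V} (hw : w ∉ X) : s(w, v) ∈ ew X w ↔ v ∈ X := by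
  rw [mem_ew]
  constructor
  · rintro ⟨v', hv', h⟩
    rw [Sym2.eq_iff] at h
    rcases h with ⟨_, h⟩ | ⟨h1, h2⟩
    · exact h ▸ hv'
    · exact absurd (h2 ▸ hv') hw
  · intro h
    exact ⟨v, h, rfl⟩

lemma ew_disjoint {X : Finset V} {w w' : V} (hw : w ∉ X) (hne : w ≠ w') :
    Disjoint (ew X w) (ew X w') := by
  rw [Finset.disjoint_left]
  intro e he he'
  obtain ⟨v, hv, rfl⟩ := mem_ew.1 he
  obtain ⟨v', hv', h⟩ := mem_ew.1 he'
  rw [Sym2.eq_iff] at h
  rcases h with ⟨h, _⟩ | ⟨h1, h2⟩
  · exact hne h.symm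
  · exact hw (h2 ▸ hv')

/-- `w` is joined to all entries of `u`. -/
def cvr {j : ℕ} (T : Finset (Sym2 V)) (w : V) (u : Fin j → V) : Prop := ∀ i, s(w, u i) ∈ T

/-- `w` is typical: few neighbours in each of the sets. -/
def typ {j : ℕ} (A : Fin j → Finset V) (b : ℕ) (T : Finset (Sym2 V)) (w : V) : Prop :=
  ∀ i, #((A i).filter (fun v => s(w, v) ∈ T)) < b

open Classical in
/-- Tuples of `U` not covered by a typical vertex of `W`. -/
noncomputable def surv {j : ℕ} (A : Fin j → Finset V) (b : ℕ) (T : Finset (Sym2 V))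
    (W : Finset V) (U : Finset (Fin j → V)) : Finset (Fin j → V) :=
  U.filter (fun u => ∀ w ∈ W, typ A b T w → ¬ cvr T w u)

lemma mem_surv {j : ℕ} {A : Fin j → Finset V} {b : ℕ} {T : Finset (Sym2 V)}
    {W : Finset V} {U : Finset (Fin j → V)} {u : Fin j → V} :
    u ∈ surv A b T W U ↔ u ∈ U ∧ ∀ w ∈ W, typ A b T w → ¬ cvr T w u := by
  unfold surv; simp

/-- Union of the sets. -/
def un {j : ℕ} (A : Fin j → Finset V) : Finset V := (univ : Finset (Fin j)).biUnion A

lemma mem_un {j : ℕ} {A : Fin j → Finset V} {v : V} : v ∈ un A ↔ ∃ i, v ∈ A i := by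
  unfold un; simp

lemma cvr_congr {j : ℕ} {A : Fin j → Finset V} {T T' : Finset (Sym2 V)} {w : V} {u : Fin j → V}
    (hu : ∀ i, u i ∈ A i) (h : ∀ v ∈ un A, s(w, v) ∈ T ↔ s(w, v) ∈ T') :
    cvr T w u ↔ cvr T' w u := by
  unfold cvr
  exact forall_congr' fun i => h (u i) (mem_un.2 ⟨i, hu i⟩)

lemma typ_congr {j : ℕ} {A : Fin j → Finset V} {b : ℕ} {T T' : Finset (Sym2 V)} {w : V}
    (h : ∀ v ∈ un A, s(w, v) ∈ T ↔ s(w, v) ∈ T') :
    typ A b T w ↔ typ A b T' w := by
  unfold typ
  refine forall_congr' fun i => ?_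
  have : (A i).filter (fun v => s(w, v) ∈ T) = (A i).filter (fun v => s(w, v) ∈ T') := by
    refine Finset.filter_congr fun v hv => h v (mem_un.2 ⟨i, hv⟩)
  rw [this]

lemma surv_congr {j : ℕ} {A : Fin j → Finset V} {b : ℕ} {T T' : Finset (Sym2 V)} {W : Finset V}
    {U : Finset (Fin j → V)} (hU : U ⊆ Fintype.piFinset A)
    (h : ∀ w ∈ W, ∀ v ∈ un A, s(w, v) ∈ T ↔ s(w, v) ∈ T') :
    surv A b T W U = surv A b T' W U := by
  ext u
  rw [mem_surv, mem_surv]
  refine and_congr_right fun hu => ?_
  refine forall_congr' fun w => forall_congr' fun hw => ?_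
  have hu' := Fintype.mem_piFinset.1 (hU hu)
  rw [typ_congr (h w hw), cvr_congr hu' (h w hw)]

lemma surv_insert {j : ℕ} (A : Fin j → Finset V) (b : ℕ) (T : Finset (Sym2 V)) (w : V)
    (W : Finset V) (U : Finset (Fin j → V)) :
    surv A b T (insert w W) U = surv A b T W (surv A b T {w} U) := by
  ext u
  simp only [mem_surv, mem_insert, mem_singleton, forall_eq_or_imp, forall_eq]
  tauto

lemma surv_subset {j : ℕ} (A : Fin j → Finset V) (b : ℕ) (T : Finset (Sym2 V)) (W : Finset V)
    (U : Finset (Fin j → V)) : surv A b T W U ⊆ U := by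
  intro u hu; exact (mem_surv.1 hu).1

/-- A typical vertex covers at most `b ^ j` tuples. -/
lemma surv_single_card {j : ℕ} {A : Fin j → Finset V} {b : ℕ} {T : Finset (Sym2 V)} {w : V}
    {U : Finset (Fin j → V)} (hU : U ⊆ Fintype.piFinset A) :
    #U ≤ #(surv A b T {w} U) + b ^ j := by
  classical
  by_cases ht : typ A b T w
  · have h1 : U ⊆ surv A b T {w} U ∪
        Fintype.piFinset (fun i => (A i).filter (fun v => s(w, v) ∈ T)) := by
      intro u hu
      rw [mem_union]
      by_cases hc : cvr T w u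
      · right
        rw [Fintype.mem_piFinset]
        intro i
        rw [mem_filter]
        exact ⟨Fintype.mem_piFinset.1 (hU hu) i, hc i⟩
      · left
        unfold surv
        rw [mem_filter]
        refine ⟨hu, fun w' hw' _ => ?_⟩
        rw [mem_singleton.1 hw']
        exact hc
    refine (card_le_card h1).trans ((card_union_le _ _).trans ?_)
    refine Nat.add_le_add_left ?_ _
    rw [Fintype.card_piFinset]
    calc ∏ i, #((A i).filter (fun v => s(w, v) ∈ T)) ≤ ∏ _i : Fin j, b :=
          Finset.prod_le_prod (fun _ _ => Nat.zero_le _) fun i _ => (ht i).le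
      _ = b ^ j := by simp
  · have : surv A b T {w} U = U := by
      ext u
      rw [mem_surv]
      refine and_iff_left ?_
      intro w' hw' h
      rw [mem_singleton.1 hw'] at h
      exact absurd h ht
    rw [this]
    omega

/-- Expected number of tuples covered by one vertex. -/
lemma ex_cover {j : ℕ} {A : Fin j → Finset V} {b : ℕ} {p : ℝ} (h0 : 0 ≤ p) (h1 : p ≤ 1) {w : V}
    (hw : w ∉ un A) (hA : ∀ i k, i ≠ k → Disjoint (A i) (A k))
    {U : Finset (Fin j → V)} (hU : U ⊆ Fintype.piFinset A) :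
    ex (fun _ => p) (ew (un A) w) (fun T => (#U : ℝ) - #(surv A b T {w} U)) ≤ #U * p ^ j := by
  classical
  have h2 : ∀ T ⊆ ew (un A) w, (#U : ℝ) - #(surv A b T {w} U) ≤
      ∑ u ∈ U, (if univ.image (fun i => s(w, u i)) ⊆ T then (1 : ℝ) else 0) := by
    intro T _
    have h3 : U \ surv A b T {w} U ⊆ U.filter (fun u => univ.image (fun i => s(w, u i)) ⊆ T) := by
      intro u hu
      rw [mem_sdiff] at hu
      rw [mem_filter]
      refine ⟨hu.1, ?_⟩
      have h4 : ¬ ∀ w' ∈ ({w} : Finset V), typ A b T w' → ¬ cvr T w' u := by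
        intro h5
        apply hu.2
        rw [mem_surv]
        exact ⟨hu.1, h5⟩
      push Not at h4
      obtain ⟨w', hw', _, h6⟩ := h4
      rw [mem_singleton.1 hw'] at h6
      intro e he
      obtain ⟨i, _, rfl⟩ := mem_image.1 he
      exact h6 i
    have h4 := card_le_card h3
    rw [card_sdiff_of_subset (surv_subset A b T {w} U)] at h4
    have h5 := card_le_card (surv_subset A b T {w} U)
    rw [← Finset.sum_filter, Finset.sum_const, nsmul_eq_mul, mul_one]
    have h6 : #U ≤ #(U.filter (fun u => univ.image (fun i => s(w, u i)) ⊆ T)) +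
        #(surv A b T {w} U) := by omega
    have h7 : (#U : ℝ) ≤ #(U.filter (fun u => univ.image (fun i => s(w, u i)) ⊆ T)) +
        #(surv A b T {w} U) := by exact_mod_cast h6
    linarith
  refine (ex_mono (fun _ => h0) (fun _ => h1) h2).trans ?_
  rw [ex_sum, ← nsmul_eq_mul, ← Finset.sum_const]
  refine Finset.sum_le_sum fun u hu => ?_
  have hu' := Fintype.mem_piFinset.1 (hU hu)
  have hinj : Function.Injective (fun i => s(w, u i)) := by
    intro i k hik
    have hwi : ∀ i, w ≠ u i := by
      intro i h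
      exact hw (h ▸ mem_un.2 ⟨i, hu' i⟩)
    have h3 : u i = u k := by
      have h4 : s(w, u i) = s(w, u k) := hik
      rw [Sym2.eq_iff] at h4
      rcases h4 with ⟨_, h⟩ | ⟨h1, _⟩
      · exact h
      · exact absurd h1 (hwi k)
    by_contra hne
    have h5 := hA i k hne
    rw [Finset.disjoint_left] at h5
    exact h5 (hu' i) (h3 ▸ hu' k)
  rw [ex_subset]
  · rw [Finset.prod_const, card_image_of_injective _ hinj, card_univ, Fintype.card_fin]
  · intro e he
    obtain ⟨i, _, rfl⟩ := mem_image.1 he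
    exact mem_ew.2 ⟨u i, mem_un.2 ⟨i, hu' i⟩, rfl⟩

/-- The covering process. -/
lemma cover_ind {j : ℕ} {A : Fin j → Finset V} {b : ℕ} {p : ℝ} (h0 : 0 ≤ p) (h1 : p ≤ 1)
    (hA : ∀ i k, i ≠ k → Disjoint (A i) (A k)) {θ ρ c : ℝ} (hθ : 0 < θ) (hρ : ρ ≤ 1 / 2)
    (hb : (b : ℝ) ^ j ≤ ρ * θ) {lam : ℕ} (hc0 : 0 ≤ c)
    (hc : ∀ x : ℝ, 0 ≤ x → x ≤ ρ → (1 / (1 - x)) ^ lam ≤ 1 + c * x) (W : Finset V)
    (hW : Disjoint W (un A)) :
    ∀ U : Finset (Fin j → V), U ⊆ Fintype.piFinset A → U.Nonempty →
      ex (fun _ => p) (W.biUnion (ew (un A)))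
        (fun T => if (#(surv A b T W U) : ℝ) < θ then 1 else 0) ≤
        (θ / #U) ^ lam * (1 + c * p ^ j) ^ #W := by
  classical
  have hpj : 0 ≤ p ^ j := by positivity
  have hcp : 1 ≤ 1 + c * p ^ j := by nlinarith [mul_nonneg hc0 hpj]
  have htriv : ∀ (W : Finset V) (E : Finset (Sym2 V)) (U : Finset (Fin j → V)), U.Nonempty →
      (#U : ℝ) ≤ θ → ∀ f : Finset (Sym2 V) → ℝ, (∀ T ⊆ E, f T ≤ 1) →
      ex (fun _ => p) E f ≤ (θ / #U) ^ lam * (1 + c * p ^ j) ^ #W := by
    intro W E U hU hUθ f hf
    have h2 : (0 : ℝ) < #U := by exact_mod_cast card_pos.2 hU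
    have h3 : 1 ≤ (θ / #U) ^ lam := one_le_pow₀ (by rw [le_div_iff₀ h2]; linarith)
    have h4 : 1 ≤ (1 + c * p ^ j) ^ #W := one_le_pow₀ hcp
    exact (ex_le_const (fun _ => h0) (fun _ => h1) hf).trans (by nlinarith)
  have h01 : ∀ (P : Prop) [Decidable P], (if P then (1 : ℝ) else 0) ≤ 1 := by
    intro P _; split_ifs <;> norm_num
  induction W using Finset.induction_on with
  | empty =>
    intro U hU hUne
    rcases le_or_gt (#U : ℝ) θ with h2 | h2
    · exact htriv ∅ _ U hUne h2 _ fun T _ => h01 _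
    · rw [Finset.biUnion_empty, ex_empty]
      have h3 : surv A b ∅ ∅ U = U := by
        ext u
        simp [mem_surv]
      rw [h3, if_neg (by linarith)]
      positivity
  | insert w W hwW ih =>
    intro U hU hUne
    rcases le_or_gt (#U : ℝ) θ with h2 | h2
    · exact htriv _ _ U hUne h2 _ fun T _ => h01 _
    · rw [Finset.disjoint_insert_left] at hW
      have hUpos : (0 : ℝ) < #U := lt_trans hθ h2
      have hd : Disjoint (ew (un A) w) (W.biUnion (ew (un A))) := by
        rw [Finset.disjoint_biUnion_right]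
        intro w' hw'
        exact ew_disjoint hW.1 (fun h => hwW (h ▸ hw'))
      rw [Finset.biUnion_insert, ex_union _ hd]
      have hstep : ∀ T₁ ⊆ ew (un A) w,
          ex (fun _ => p) (W.biUnion (ew (un A))) (fun T₂ =>
            if (#(surv A b (T₁ ∪ T₂) (insert w W) U) : ℝ) < θ then 1 else 0) ≤
          (θ / #U) ^ lam * (1 + c * p ^ j) ^ #W *
            (1 + c * (((#U : ℝ) - #(surv A b T₁ {w} U)) / #U)) := by
        intro T₁ hT₁
        have hsc := surv_single_card (b := b) (T := T₁) (w := w) hU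
        have hsc' : (#U : ℝ) ≤ #(surv A b T₁ {w} U) + (b : ℝ) ^ j := by exact_mod_cast hsc
        have hle : (#(surv A b T₁ {w} U) : ℝ) ≤ #U := by
          exact_mod_cast card_le_card (surv_subset A b T₁ {w} U)
        have hρθ : ρ * θ ≤ 1 / 2 * #U := by nlinarith
        have hρU : ρ * θ ≤ ρ * #U := by
          have hρ0 : 0 ≤ ρ := by
            by_contra hneg
            push Not at hneg
            have : (0 : ℝ) ≤ (b : ℝ) ^ j := by positivity
            nlinarith
          nlinarith
        have hpos : (0 : ℝ) < #(surv A b T₁ {w} U) := by linarith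
        have hne : (surv A b T₁ {w} U).Nonempty := by
          rw [← card_pos]
          exact_mod_cast hpos
        set U' := surv A b T₁ {w} U with hU'
        have hU'A : U' ⊆ Fintype.piFinset A := (surv_subset A b T₁ {w} U).trans hU
        have e1 : ex (fun _ => p) (W.biUnion (ew (un A))) (fun T₂ =>
            if (#(surv A b (T₁ ∪ T₂) (insert w W) U) : ℝ) < θ then 1 else 0) =
            ex (fun _ => p) (W.biUnion (ew (un A))) (fun T₂ =>
            if (#(surv A b T₂ W U') : ℝ) < θ then 1 else 0) := by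
          refine ex_congr fun T₂ hT₂ => ?_
          rw [surv_insert]
          have h3 : surv A b (T₁ ∪ T₂) {w} U = U' := by
            rw [hU']
            refine surv_congr hU fun w' hw' v hv => ?_
            rw [mem_singleton.1 hw', mem_union]
            constructor
            · rintro (h4 | h4)
              · exact h4
              · exact absurd ((mk_mem_ew hW.1).2 hv) (Finset.disjoint_right.1 hd (hT₂ h4))
            · exact Or.inl
          have h4 : surv A b (T₁ ∪ T₂) W U' = surv A b T₂ W U' := by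
            refine surv_congr hU'A fun w' hw' v hv => ?_
            rw [mem_union]
            constructor
            · rintro (h5 | h5)
              · exfalso
                have h6 : s(w', v) ∈ W.biUnion (ew (un A)) :=
                  mem_biUnion.2 ⟨w', hw', mem_ew.2 ⟨v, hv, rfl⟩⟩
                exact Finset.disjoint_left.1 hd (hT₁ h5) h6
              · exact h5
            · exact Or.inr
          rw [h3, h4]
        rw [e1]
        refine (ih hW.2 U' hU'A hne).trans ?_
        set x : ℝ := ((#U : ℝ) - #U') / #U with hx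
        have hx0 : 0 ≤ x := div_nonneg (by linarith) hUpos.le
        have hxρ : x ≤ ρ := by
          rw [hx, div_le_iff₀ hUpos]
          linarith
        have h3 : θ / #U' = θ / #U * (1 / (1 - x)) := by
          have h4 : 1 - x = #U' / #U := by
            rw [hx]; field_simp; ring
          rw [h4]
          field_simp
        rw [h3, mul_pow]
        have h4 := hc x hx0 hxρ
        have h5 : 0 ≤ (θ / #U) ^ lam := by positivity
        have h6 : 0 ≤ (1 + c * p ^ j) ^ #W := by positivity
        calc (θ / #U) ^ lam * (1 / (1 - x)) ^ lam * (1 + c * p ^ j) ^ #W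
            = (θ / #U) ^ lam * (1 + c * p ^ j) ^ #W * (1 / (1 - x)) ^ lam := by ring
          _ ≤ (θ / #U) ^ lam * (1 + c * p ^ j) ^ #W * (1 + c * x) :=
              mul_le_mul_of_nonneg_left h4 (mul_nonneg h5 h6)
      refine (ex_mono (fun _ => h0) (fun _ => h1) hstep).trans ?_
      rw [ex_mul, ex_add, ex_const, ex_mul]
      have h3 : ex (fun _ => p) (ew (un A) w)
          (fun T => ((#U : ℝ) - #(surv A b T {w} U)) / #U) ≤ p ^ j := by
        have h4 : (fun T => ((#U : ℝ) - #(surv A b T {w} U)) / #U) =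
            (fun T => (1 / (#U : ℝ)) * ((#U : ℝ) - #(surv A b T {w} U))) := by
          funext T; ring
        rw [h4, ex_mul]
        have h5 := ex_cover (b := b) h0 h1 hW.1 hA hU
        calc 1 / (#U : ℝ) * _ ≤ 1 / (#U : ℝ) * (#U * p ^ j) :=
              mul_le_mul_of_nonneg_left h5 (by positivity)
          _ = p ^ j := by field_simp
      rw [card_insert_of_notMem hwW, pow_succ, ← mul_assoc]
      refine mul_le_mul_of_nonneg_left ?_ (by positivity)
      have := mul_le_mul_of_nonneg_left h3 hc0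
      linarith

end Pool.Agent.H977.CC
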