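import Pool.Agent.H977.CC.GoodA

/-! Janson's inequality for tuples. -/

open Finset

namespace Pool.Agent.H977.CC

variable {V : Type} [Fintype V] [DecidableEq V]

/-- Pairs inside `K`. -/
def prs (K : Finset V) : Finset (Sym2 V) := K.offDiag.image (Function.uncurry Sym2.mk)

lemma mem_prs {K : Finset V} {e : Sym2 V} :
    e ∈ prs K ↔ ∃ x ∈ K, ∃ y ∈ K, x ≠ y ∧ s(x, y) = e := by
  unfold prs
  rw [mem_image]
  constructor
  · rintro ⟨⟨x, y⟩, h, rfl⟩
    rw [mem_offDiag] at h
    exact ⟨x, h.1, y, h.2.1, h.2.2, rfl⟩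
  · rintro ⟨x, hx, y, hy, hxy, rfl⟩
    exact ⟨(x, y), mem_offDiag.2 ⟨hx, hy, hxy⟩, rfl⟩

lemma mk_mem_prs {K : Finset V} {x y : V} : s(x, y) ∈ prs K ↔ x ∈ K ∧ y ∈ K ∧ x ≠ y := by
  rw [mem_prs]
  constructor
  · rintro ⟨a, ha, b, hb, hab, h⟩
    rw [Sym2.eq_iff] at h
    rcases h with ⟨rfl, rfl⟩ | ⟨rfl, rfl⟩
    · exact ⟨ha, hb, hab⟩
    · exact ⟨hb, ha, hab.symm⟩
  · rintro ⟨hx, hy, hxy⟩
    exact ⟨x, hx, y, hy, hxy, rfl⟩

lemma card_prs (K : Finset V) : #(prs K) = (#K).choose 2 := by
  unfold prs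
  exact Sym2.card_image_offDiag K

lemma prs_inter (K K' : Finset V) : prs K ∩ prs K' = prs (K ∩ K') := by
  ext e
  induction e with
  | _ x y =>
    rw [mem_inter, mk_mem_prs, mk_mem_prs, mk_mem_prs, mem_inter, mem_inter]
    tauto

lemma prs_mono {K K' : Finset V} (h : K ⊆ K') : prs K ⊆ prs K' := by
  intro e he
  obtain ⟨x, hx, y, hy, hxy, rfl⟩ := mem_prs.1 he
  exact mk_mem_prs.2 ⟨h hx, h hy, hxy⟩

/-- The correction term in Janson's inequality. -/
noncomputable def dsum (j a : ℕ) (p : ℝ) : ℝ :=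
  ∑ J ∈ (univ : Finset (Finset (Fin j))).filter (fun J => 2 ≤ #J ∧ #J < j),
    (a : ℝ) ^ (j - #J) * p ^ (j.choose 2 - (#J).choose 2)

lemma dsum_nonneg (j a : ℕ) {p : ℝ} (h0 : 0 ≤ p) : 0 ≤ dsum j a p :=
  Finset.sum_nonneg fun _ _ => by positivity

lemma card_agree {j : ℕ} {A : Fin j → Finset V} {a : ℕ} (hAa : ∀ i, #(A i) = a)
    (u : Fin j → V) (J : Finset (Fin j)) :
    #((Fintype.piFinset A).filter (fun u' => ∀ i ∈ J, u' i = u i)) ≤ a ^ (j - #J) := by
  classical
  have h1 : (Fintype.piFinset A).filter (fun u' => ∀ i ∈ J, u' i = u i) ⊆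
      Fintype.piFinset (fun i => if i ∈ J then {u i} else A i) := by
    intro u' hu'
    rw [mem_filter, Fintype.mem_piFinset] at hu'
    rw [Fintype.mem_piFinset]
    intro i
    split_ifs with h
    · rw [mem_singleton]; exact hu'.2 i h
    · exact hu'.1 i
  refine (card_le_card h1).trans ?_
  rw [Fintype.card_piFinset]
  have h2 : ∀ i, #(if i ∈ J then {u i} else A i) = if i ∈ J then 1 else a := by
    intro i
    split_ifs
    · simp
    · exact hAa i
  simp_rw [h2]
  rw [Finset.prod_ite, Finset.prod_const_one, one_mul, Finset.prod_const]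
  have h3 : #(univ.filter (fun i => ¬ i ∈ J)) = j - #J := by
    have : univ.filter (fun i => ¬ i ∈ J) = Jᶜ := by ext i; simp
    rw [this, card_compl, Fintype.card_fin]
  rw [h3]

lemma tuple_inj {j : ℕ} {A : Fin j → Finset V} (hA : ∀ i k, i ≠ k → Disjoint (A i) (A k))
    {u : Fin j → V} (hu : ∀ i, u i ∈ A i) : Function.Injective u := by
  intro i k hik
  by_contra hne
  have := Finset.disjoint_left.1 (hA i k hne) (hu i)
  rw [hik] at this
  exact this (hu k)

/-- Janson's inequality for tuples. -/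
lemma jan_tuples {j : ℕ} {A : Fin j → Finset V} {a : ℕ} {p : ℝ} (h0 : 0 ≤ p) (h1 : p ≤ 1)
    (hA : ∀ i k, i ≠ k → Disjoint (A i) (A k)) (hAa : ∀ i, #(A i) = a)
    {U : Finset (Fin j → V)} (hU : U ⊆ Fintype.piFinset A) :
    ex (fun _ => p) univ (fun T => if ∀ u ∈ U, ¬ prs (univ.image u) ⊆ T then 1 else 0) ≤
      Real.exp (-(#U * p ^ (j.choose 2) / (2 * (1 + dsum j a p)))) := by
  classical
  have hD := dsum_nonneg j a h0
  set D := dsum j a p with hDdef
  set F : ↥U → Finset (Sym2 V) := fun u => prs (univ.image u.1) with hF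
  have hq0 : 0 ≤ 1 / (1 + D) := by positivity
  have hq1 : 1 / (1 + D) ≤ 1 := by
    rw [div_le_one (by linarith)]; linarith
  have hJ := ex_janson_thin (P := fun _ : Sym2 V => p) (fun _ => h0) (fun _ => h1) F hq0 hq1
  have hmem : ∀ u : ↥U, ∀ i, u.1 i ∈ A i := fun u => Fintype.mem_piFinset.1 (hU u.2)
  have hcard : ∀ u : ↥U, #(univ.image u.1) = j := by
    intro u
    rw [card_image_of_injective _ (tuple_inj hA (hmem u)), card_univ, Fintype.card_fin]
  have hFc : ∀ u : ↥U, #(F u) = j.choose 2 := by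
    intro u
    simp only [hF]
    rw [card_prs, hcard]
  have hs1 : ∑ u : ↥U, ∏ _e ∈ F u, p = #U * p ^ (j.choose 2) := by
    simp_rw [Finset.prod_const, hFc]
    rw [Finset.sum_const, card_univ, Fintype.card_coe, nsmul_eq_mul]
  have hs2 : ∑ u : ↥U, ∑ u' : ↥U, (if u ≠ u' ∧ ¬ Disjoint (F u) (F u') then
      ∏ _e ∈ F u ∪ F u', p else 0) ≤ #U * p ^ (j.choose 2) * D := by
    have h2 : ∀ u : ↥U, ∑ u' : ↥U, (if u ≠ u' ∧ ¬ Disjoint (F u) (F u') then
        ∏ _e ∈ F u ∪ F u', p else 0) ≤ p ^ (j.choose 2) * D := by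
      intro u
      set g : Finset (Fin j) → ℝ := fun J => p ^ (j.choose 2) * p ^ (j.choose 2 - (#J).choose 2)
        with hg
      have hg0 : ∀ J, 0 ≤ g J := fun J => by positivity
      set JJ := (univ : Finset (Finset (Fin j))).filter (fun J => 2 ≤ #J ∧ #J < j) with hJJ
      have h3 : ∀ u' : ↥U, (if u ≠ u' ∧ ¬ Disjoint (F u) (F u') then
          ∏ _e ∈ F u ∪ F u', p else 0) ≤
          ∑ J ∈ JJ, (if ∀ i ∈ J, u'.1 i = u.1 i then g J else 0) := by
        intro u'
        split_ifs with hc
        · set J : Finset (Fin j) := univ.filter (fun i => u'.1 i = u.1 i) with hJdef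
          have hKK : univ.image u.1 ∩ univ.image u'.1 ⊆ J.image u.1 := by
            intro v hv
            rw [mem_inter, mem_image, mem_image] at hv
            obtain ⟨⟨i, _, hi⟩, ⟨k, _, hk⟩⟩ := hv
            have hik : i = k := by
              by_contra hne
              have := Finset.disjoint_left.1 (hA i k hne) (hmem u i)
              rw [hi, ← hk] at this
              exact this (hmem u' k)
            subst hik
            rw [mem_image]
            refine ⟨i, ?_, hi⟩
            rw [hJdef, mem_filter]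
            exact ⟨mem_univ _, hk.trans hi.symm⟩
          have hKc : #(univ.image u.1 ∩ univ.image u'.1) ≤ #J :=
            (card_le_card hKK).trans card_image_le
          have hJ2 : 2 ≤ #J := by
            rw [Finset.not_disjoint_iff] at hc
            obtain ⟨_, e, he, he'⟩ := hc
            have h4 : e ∈ prs (univ.image u.1 ∩ univ.image u'.1) := by
              rw [← prs_inter, mem_inter]; exact ⟨he, he'⟩
            obtain ⟨x, hx, y, hy, hxy, _⟩ := mem_prs.1 h4
            have h5 : 1 < #(univ.image u.1 ∩ univ.image u'.1) :=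
              one_lt_card.2 ⟨x, hx, y, hy, hxy⟩
            omega
          have hJj : #J < j := by
            by_contra hge
            push Not at hge
            have h4 : J = univ := by
              rw [← card_eq_iff_eq_univ, Fintype.card_fin]
              have := card_le_univ J
              rw [Fintype.card_fin] at this
              omega
            apply hc.1
            apply Subtype.ext
            funext i
            have h5 : i ∈ J := h4 ▸ mem_univ i
            rw [hJdef, mem_filter] at h5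
            exact h5.2.symm
          have hJm : J ∈ JJ := by rw [hJJ, mem_filter]; exact ⟨mem_univ _, hJ2, hJj⟩
          have h6 : ∏ _e ∈ F u ∪ F u', p ≤ g J := by
            rw [Finset.prod_const]
            simp only [hg]
            rw [← pow_add]
            refine pow_le_pow_of_le_one h0 h1 ?_
            have h7 := card_union_add_card_inter (F u) (F u')
            have h8 : #(F u ∩ F u') ≤ (#J).choose 2 := by
              simp only [hF]
              rw [prs_inter, card_prs]
              exact Nat.choose_le_choose 2 hKc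
            rw [hFc, hFc] at h7
            have h9 : (#J).choose 2 ≤ j.choose 2 := Nat.choose_le_choose 2 hJj.le
            omega
          refine h6.trans ?_
          have h7 := Finset.single_le_sum (f := fun J =>
            (if ∀ i ∈ J, u'.1 i = u.1 i then g J else 0)) (fun J _ => by
              split_ifs; exacts [hg0 J, le_refl 0]) hJm
          refine le_trans (le_of_eq ?_) h7
          rw [if_pos]
          intro i hi
          rw [hJdef, mem_filter] at hi
          exact hi.2
        · exact Finset.sum_nonneg fun J _ => by split_ifs; exacts [hg0 J, le_refl 0]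
      refine (Finset.sum_le_sum fun u' _ => h3 u').trans ?_
      rw [Finset.sum_comm, hDdef, dsum, Finset.mul_sum]
      refine Finset.sum_le_sum fun J _ => ?_
      rw [Finset.sum_coe_sort U (fun u' => if ∀ i ∈ J, u' i = u.1 i then g J else 0),
        ← Finset.sum_filter, Finset.sum_const, nsmul_eq_mul]
      have h4 : #(U.filter (fun u' => ∀ i ∈ J, u' i = u.1 i)) ≤ a ^ (j - #J) :=
        (card_le_card (Finset.filter_subset_filter _ hU)).trans (card_agree hAa u.1 J)
      have h5 : (#(U.filter (fun u' => ∀ i ∈ J, u' i = u.1 i)) : ℝ) ≤ (a : ℝ) ^ (j - #J) := by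
        exact_mod_cast h4
      calc (#(U.filter (fun u' => ∀ i ∈ J, u' i = u.1 i)) : ℝ) * g J
          ≤ (a : ℝ) ^ (j - #J) * g J := mul_le_mul_of_nonneg_right h5 (hg0 J)
        _ = _ := by simp only [hg]; ring
    refine (Finset.sum_le_sum fun u _ => h2 u).trans ?_
    rw [Finset.sum_const, card_univ, Fintype.card_coe, nsmul_eq_mul, mul_assoc]
  rw [hs1] at hJ
  have e1 : (fun T : Finset (Sym2 V) => if ∀ u ∈ U, ¬ prs (univ.image u) ⊆ T then (1 : ℝ) else 0) =
      (fun T => if ∀ u : ↥U, ¬ F u ⊆ T then 1 else 0) := by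
    funext T
    have : (∀ u ∈ U, ¬ prs (univ.image u) ⊆ T) ↔ (∀ u : ↥U, ¬ F u ⊆ T) := by
      simp only [hF, Subtype.forall]
    by_cases hc : ∀ u : ↥U, ¬ F u ⊆ T
    · rw [if_pos hc, if_pos (this.2 hc)]
    · rw [if_neg hc, if_neg (fun h => hc (this.1 h))]
  rw [e1]
  refine hJ.trans (Real.exp_le_exp.2 ?_)
  set m : ℝ := #U * p ^ (j.choose 2) with hm
  have hm0 : 0 ≤ m := by positivity
  have h1D : 0 < 1 + D := by linarith
  have h2 : (1 / 2) * ((1 / (1 + D)) ^ 2 * ∑ u : ↥U, ∑ u' : ↥U,
      (if u ≠ u' ∧ ¬ Disjoint (F u) (F u') then ∏ _e ∈ F u ∪ F u', p else 0)) ≤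
      (1 / 2) * ((1 / (1 + D)) ^ 2 * (m * D)) := by
    have : 0 ≤ (1 / (1 + D)) ^ 2 := by positivity
    have := mul_le_mul_of_nonneg_left hs2 this
    linarith
  refine (add_le_add le_rfl h2).trans ?_
  have h3 : -(1 / (1 + D) * m) + (1 / 2) * ((1 / (1 + D)) ^ 2 * (m * D)) =
      -(m / (2 * (1 + D))) - m / (2 * (1 + D) ^ 2) := by
    field_simp
    ring
  rw [h3]
  have : 0 ≤ m / (2 * (1 + D) ^ 2) := by positivity
  linarith

end Pool.Agent.H977.CC
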