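import Pool.Agent.H977.CC.Ex

/-! General tools for binomial random graphs. -/

open MeasureTheory ProbabilityTheory unitInterval Finset Filter Topology
open scoped SimpleGraph

namespace Pool.Agent.H977.CC

open Pool.Agent.V11328

/-- Number of small subsets. -/
lemma card_small {α : Type*} [Fintype α] [DecidableEq α] (k : ℕ) :
    #(univ.filter (fun s : Finset α => #s ≤ k)) ≤ (Fintype.card α + 1) ^ k := by
  induction k with
  | zero =>
    have : univ.filter (fun s : Finset α => #s ≤ 0) ⊆ {∅} := by
      intro s hs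
      rw [mem_filter] at hs
      rw [mem_singleton, ← card_eq_zero]
      omega
    simpa using card_le_card this
  | succ k ih =>
    have hsub : univ.filter (fun s : Finset α => #s ≤ k + 1) ⊆
        ((univ : Finset (Option α)) ×ˢ univ.filter (fun s : Finset α => #s ≤ k)).image
          (fun q => q.1.elim q.2 (fun a => insert a q.2)) := by
      intro s hs
      rw [mem_filter] at hs
      rw [mem_image]
      obtain rfl | ⟨a, ha⟩ := s.eq_empty_or_nonempty
      · exact ⟨(none, ∅), by simp, rfl⟩
      · refine ⟨(some a, s.erase a), ?_, ?_⟩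
        · rw [mem_product, mem_filter]
          refine ⟨mem_univ _, mem_univ _, ?_⟩
          rw [card_erase_of_mem ha]
          omega
        · simp [insert_erase ha]
    refine (card_le_card hsub).trans (card_image_le.trans ?_)
    rw [card_product, card_univ, Fintype.card_option, pow_succ, mul_comm]
    exact Nat.mul_le_mul_right _ ih

/-- Upper tail with a free parameter. -/
lemma pat_up {V : Type*} [Fintype V] [DecidableEq V] (p : I) {Q : Finset (Sym2 V)} (hQ : Q ⊆ allE V) {z : ℝ}
    (hz1 : 1 ≤ z) {s : ℝ} (A : Set (SimpleGraph V))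
    (hA : ∀ G ∈ A, s ≤ #(ed G ∩ Q)) :
    (G(V, p)).real A ≤ Real.exp ((p : ℝ) * z * #Q - s * Real.log z) := by
  classical
  have hp0 : (0 : ℝ) ≤ p := p.2.1
  have hp1 : (p : ℝ) ≤ 1 := p.2.2
  have hz0 : (0 : ℝ) < z := by linarith
  have hlog : 0 ≤ Real.log z := Real.log_nonneg hz1
  rw [real_event]
  have h1 : ∀ G ∈ univ.filter (fun G : SimpleGraph V => G ∈ A),
      gw (p : ℝ) G ≤ Real.exp (-(s * Real.log z)) *
        (gw (p : ℝ) G * ∏ e ∈ ed G, (if e ∈ Q then z else 1)) := by
    intro G hG
    have hGA : G ∈ A := by simpa using hG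
    have h3 := hA G hGA
    have h5 : ∏ e ∈ ed G, (if e ∈ Q then z else 1) = Real.exp (#(ed G ∩ Q) * Real.log z) := by
      rw [Finset.prod_ite, Finset.prod_const, Finset.prod_const_one, mul_one,
        Finset.filter_mem_eq_inter, Real.exp_nat_mul, Real.exp_log hz0]
    rw [h5]
    have h7 : 1 ≤ Real.exp (-(s * Real.log z)) * Real.exp (#(ed G ∩ Q) * Real.log z) := by
      rw [← Real.exp_add, Real.one_le_exp_iff]
      nlinarith
    calc gw (p : ℝ) G = gw (p : ℝ) G * 1 := (mul_one _).symm
      _ ≤ gw (p : ℝ) G * (Real.exp (-(s * Real.log z)) * Real.exp (#(ed G ∩ Q) * Real.log z)) :=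
          mul_le_mul_of_nonneg_left h7 (gw_nonneg hp0 hp1 G)
      _ = _ := by ring
  refine (Finset.sum_le_sum h1).trans ?_
  refine (Finset.sum_le_sum_of_subset_of_nonneg (Finset.filter_subset _ _)
    fun G _ _ => ?_).trans ?_
  · refine mul_nonneg (Real.exp_pos _).le (mul_nonneg (gw_nonneg hp0 hp1 G) ?_)
    exact Finset.prod_nonneg fun e _ => by split_ifs <;> linarith
  · rw [← Finset.mul_sum, sum_prod]
    have h8 : ∏ e ∈ allE V, ((p : ℝ) * (if e ∈ Q then z else 1) + (1 - p)) ≤
        ∏ e ∈ allE V, (if e ∈ Q then Real.exp ((p : ℝ) * z) else 1) := by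
      refine Finset.prod_le_prod (fun e _ => ?_) (fun e _ => ?_)
      · have : (0 : ℝ) ≤ 1 - p := by linarith
        split_ifs <;> positivity
      · split_ifs
        · have := Real.add_one_le_exp ((p : ℝ) * z)
          linarith
        · linarith
    have h9 : ∏ e ∈ allE V, (if e ∈ Q then Real.exp ((p : ℝ) * z) else 1) =
        Real.exp ((p : ℝ) * z * #Q) := by
      rw [Finset.prod_ite, Finset.prod_const, Finset.prod_const_one, mul_one,
        Finset.filter_mem_eq_inter, Finset.inter_eq_right.2 hQ, ← Real.exp_nat_mul]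
      congr 1
      ring
    rw [h9] at h8
    calc Real.exp (-(s * Real.log z)) * ∏ e ∈ allE V, ((p : ℝ) * (if e ∈ Q then z else 1) + (1 - p))
        ≤ Real.exp (-(s * Real.log z)) * Real.exp ((p : ℝ) * z * #Q) :=
          mul_le_mul_of_nonneg_left h8 (Real.exp_pos _).le
      _ = _ := by rw [← Real.exp_add]; congr 1; ring


lemma tendsto_one {p : ℕ → I} {E B : ∀ n, Set (SimpleGraph (Fin n))} {b : ℕ → ℝ}
    (hsub : ∀ᶠ n in atTop, ∀ G, G ∉ B n → G ∈ E n)
    (hB : ∀ᶠ n in atTop, (G(Fin n, p n)).real (B n) ≤ b n) (hb : Tendsto b atTop (𝓝 0)) :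
    Tendsto (fun n => (G(Fin n, p n)) (E n)) atTop (𝓝 1) := by
  have h1 : Tendsto (fun n => (G(Fin n, p n)).real (E n)) atTop (𝓝 1) := by
    have hlow : Tendsto (fun n => 1 - b n) atTop (𝓝 1) := by
      have := (tendsto_const_nhds (x := (1 : ℝ))).sub hb
      simpa using this
    refine tendsto_of_tendsto_of_tendsto_of_le_of_le' hlow tendsto_const_nhds ?_ ?_
    · filter_upwards [hsub, hB] with n hn hn2
      have hm : MeasurableSet (E n) := Set.Finite.measurableSet (Set.toFinite _)
      have h3 : (G(Fin n, p n)).real (E n)ᶜ = 1 - (G(Fin n, p n)).real (E n) := by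
        rw [probReal_compl_eq_one_sub hm]
      have h4 : (G(Fin n, p n)).real (E n)ᶜ ≤ (G(Fin n, p n)).real (B n) := by
        refine measureReal_mono ?_ (measure_ne_top _ _)
        intro G hG
        by_contra hc
        exact hG (hn G hc)
      linarith
    · exact Eventually.of_forall fun n => measureReal_le_one
  have h2 := ENNReal.tendsto_ofReal h1
  simp only [ENNReal.ofReal_one] at h2
  refine h2.congr fun n => ?_
  rw [ofReal_measureReal]

end Pool.Agent.H977.CC
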