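import Pool.Agent.H977.CC.GoodB
import Pool.Agent.H977.CC.Tools

/-! Probability that the random-like property fails. -/

open MeasureTheory ProbabilityTheory unitInterval Finset
open scoped SimpleGraph

namespace Pool.Agent.H977.CC

open Pool.Agent.V11328

variable {V : Type} [Fintype V] [DecidableEq V]

/-- Events given by a property of the edge set. -/
lemma real_ed (p : I) (Q : Finset (Sym2 V) → Prop) [DecidablePred Q] :
    (G(V, p)).real {G : SimpleGraph V | Q (ed G)} = ex (fun _ => (p : ℝ)) (allE V)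
      (fun T => if Q T then 1 else 0) := by
  classical
  rw [real_ex]
  refine ex_congr fun T hT => ?_
  have h1 : (SimpleGraph.fromEdgeSet (T : Set (Sym2 V)) ∈ {G : SimpleGraph V | Q (ed G)}) ↔ Q T := by
    rw [Set.mem_ofPred_eq, ed_fromEdgeSet hT]
  by_cases h : Q T
  · rw [if_pos h, if_pos (h1.2 h)]
  · rw [if_neg h, if_neg (fun h' => h (h1.1 h'))]

lemma mk_mem_ed {G : SimpleGraph V} {x y : V} : s(x, y) ∈ ed G ↔ G.Adj x y := by
  rw [mem_ed, SimpleGraph.mem_edgeSet]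

lemma mk_mem_allE {x y : V} : s(x, y) ∈ allE V ↔ x ≠ y := by
  rw [mem_allE, Sym2.mk_isDiag_iff]

lemma nb_eq (G : SimpleGraph V) (w : V) (A : Finset V) :
    nb G w A = A.filter (fun v => s(w, v) ∈ ed G) := by
  ext v
  rw [mem_nb, mem_filter, mk_mem_ed]

open Classical in
/-- Tuples not covered by the vertices of `W`. -/
noncomputable def unc {j : ℕ} (A : Fin j → Finset V) (T : Finset (Sym2 V)) (W : Finset V) :
    Finset (Fin j → V) :=
  (Fintype.piFinset A).filter (fun u => ∀ w ∈ W, ¬ cvr T w u)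

lemma mem_unc {j : ℕ} {A : Fin j → Finset V} {T : Finset (Sym2 V)} {W : Finset V}
    {u : Fin j → V} : u ∈ unc A T W ↔ (∀ i, u i ∈ A i) ∧ ∀ w ∈ W, ¬ cvr T w u := by
  unfold unc; simp

lemma unc_subset {j : ℕ} (A : Fin j → Finset V) (T : Finset (Sym2 V)) (W : Finset V) :
    unc A T W ⊆ Fintype.piFinset A := by
  intro u hu
  exact Fintype.mem_piFinset.2 (mem_unc.1 hu).1

lemma unc_congr {j : ℕ} {A : Fin j → Finset V} {T T' : Finset (Sym2 V)} {W : Finset V}
    (h : ∀ w ∈ W, ∀ v ∈ un A, s(w, v) ∈ T ↔ s(w, v) ∈ T') : unc A T W = unc A T' W := by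
  ext u
  rw [mem_unc, mem_unc]
  refine and_congr_right fun hu => ?_
  refine forall_congr' fun w => forall_congr' fun hw => ?_
  rw [cvr_congr hu (h w hw)]

/-- The bad event for given sets `A` and special vertices `W`. -/
def BadE {j : ℕ} (A : Fin j → Finset V) (a b : ℕ) (W : Finset V) (T : Finset (Sym2 V)) : Prop :=
  (∀ w, w ∉ un A → w ∉ W → typ A b T w) ∧ (a : ℝ) ^ j / 2 ≤ #(unc A T W) ∧
    ∀ u, (∀ i, u i ∈ A i) → (∀ w, w ∉ un A → ¬ cvr T w u) → ¬ prs (univ.image u) ⊆ T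

lemma badE_prob {j : ℕ} (hj : 1 ≤ j) {A : Fin j → Finset V} {a b : ℕ} (ha : 1 ≤ a) (p : I)
    (hA : ∀ i k, i ≠ k → Disjoint (A i) (A k)) (hAa : ∀ i, #(A i) = a) (W : Finset V)
    (hW : ∀ w ∈ W, w ∉ un A) {θ ρ c : ℝ} (hθ : 0 < θ) (hρ : ρ ≤ 1 / 2)
    (hb : (b : ℝ) ^ j ≤ ρ * θ) {lam : ℕ} (hc0 : 0 ≤ c)
    (hc : ∀ x : ℝ, 0 ≤ x → x ≤ ρ → (1 / (1 - x)) ^ lam ≤ 1 + c * x) :
    (G(V, p)).real {G : SimpleGraph V | BadE A a b W (ed G)} ≤
      (2 * θ / (a : ℝ) ^ j) ^ lam * (1 + c * (p : ℝ) ^ j) ^ Fintype.card V +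
      Real.exp (-(θ * (p : ℝ) ^ (j.choose 2) / (2 * (1 + dsum j a p)))) := by
  classical
  have h0 : (0 : ℝ) ≤ p := p.2.1
  have h1 : (p : ℝ) ≤ 1 := p.2.2
  rw [real_ed]
  set R : Finset V := univ \ (un A ∪ W) with hR
  have hRA : ∀ w ∈ R, w ∉ un A := by
    intro w hw h
    rw [hR, mem_sdiff, mem_union] at hw
    exact hw.2 (Or.inl h)
  have hRW : ∀ w ∈ R, w ∉ W := by
    intro w hw h
    rw [hR, mem_sdiff, mem_union] at hw
    exact hw.2 (Or.inr h)
  have h01 : ∀ (P : Prop) [Decidable P], (0 : ℝ) ≤ (if P then (1 : ℝ) else 0) := by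
    intro P _; split_ifs <;> norm_num
  -- splitting
  have hsplit : ∀ T ⊆ allE V, (if BadE A a b W T then (1 : ℝ) else 0) ≤
      (if (a : ℝ) ^ j / 2 ≤ #(unc A T W) ∧ (#(surv A b T R (unc A T W)) : ℝ) < θ then (1 : ℝ) else 0)
      + (if θ ≤ (#(surv A b T R (unc A T W)) : ℝ) ∧
          ∀ u ∈ surv A b T R (unc A T W), ¬ prs (univ.image u) ⊆ T then (1 : ℝ) else 0) := by
    intro T _
    by_cases hB : BadE A a b W T
    · rw [if_pos hB]
      rcases lt_or_ge (#(surv A b T R (unc A T W)) : ℝ) θ with h2 | h2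
      · rw [if_pos ⟨hB.2.1, h2⟩]
        have := h01 (θ ≤ (#(surv A b T R (unc A T W)) : ℝ) ∧
          ∀ u ∈ surv A b T R (unc A T W), ¬ prs (univ.image u) ⊆ T)
        linarith
      · have h3 : ∀ u ∈ surv A b T R (unc A T W), ¬ prs (univ.image u) ⊆ T := by
          intro u hu
          rw [mem_surv, mem_unc] at hu
          refine hB.2.2 u hu.1.1 fun w hw => ?_
          by_cases hwW : w ∈ W
          · exact hu.1.2 w hwW
          · refine hu.2 w ?_ (hB.1 w hw hwW)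
            rw [hR, mem_sdiff, mem_union, not_or]
            exact ⟨mem_univ w, hw, hwW⟩
        have h4 := h01 ((a : ℝ) ^ j / 2 ≤ #(unc A T W) ∧
          (#(surv A b T R (unc A T W)) : ℝ) < θ)
        rw [if_pos (show θ ≤ (#(surv A b T R (unc A T W)) : ℝ) ∧
          ∀ u ∈ surv A b T R (unc A T W), ¬ prs (univ.image u) ⊆ T from ⟨h2, h3⟩)]
        linarith
    · rw [if_neg hB]
      exact add_nonneg (h01 _) (h01 _)
  refine (ex_mono (fun _ => h0) (fun _ => h1) hsplit).trans ?_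
  rw [ex_add]
  refine add_le_add ?_ ?_
  · -- covering part
    set E₂ := R.biUnion (ew (un A)) with hE₂
    have hE₂sub : E₂ ⊆ allE V := by
      intro e he
      obtain ⟨w, hw, he⟩ := mem_biUnion.1 he
      obtain ⟨v, hv, rfl⟩ := mem_ew.1 he
      rw [mk_mem_allE]
      intro h
      exact hRA w hw (h ▸ hv)
    refine ex_le_of_cond (fun _ => h0) (fun _ => h1) hE₂sub _ _ fun T₁ hT₁ => ?_
    have hu1 : ∀ T₂ ⊆ E₂, unc A (T₁ ∪ T₂) W = unc A T₁ W := by
      intro T₂ hT₂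
      refine unc_congr fun w hw v hv => ?_
      rw [mem_union]
      refine or_iff_left ?_
      intro h
      obtain ⟨w', hw', he⟩ := mem_biUnion.1 (hT₂ h)
      obtain ⟨v', hv', h2⟩ := mem_ew.1 he
      rw [Sym2.eq_iff] at h2
      rcases h2 with ⟨h2, _⟩ | ⟨h2, _⟩
      · exact hRW w' hw' (h2 ▸ hw)
      · exact hRA w' hw' (h2 ▸ hv)
    have hs1 : ∀ T₂ ⊆ E₂, ∀ U ⊆ Fintype.piFinset A, surv A b (T₁ ∪ T₂) R U = surv A b T₂ R U := by
      intro T₂ hT₂ U hU
      refine surv_congr hU fun w hw v hv => ?_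
      rw [mem_union]
      refine or_iff_right ?_
      intro h
      refine (mem_sdiff.1 (hT₁ h)).2 (mem_biUnion.2 ⟨w, hw, mem_ew.2 ⟨v, hv, rfl⟩⟩)
    have e1 : ex (fun _ => (p : ℝ)) E₂ (fun T₂ => if (a : ℝ) ^ j / 2 ≤ #(unc A (T₁ ∪ T₂) W) ∧
        (#(surv A b (T₁ ∪ T₂) R (unc A (T₁ ∪ T₂) W)) : ℝ) < θ then (1 : ℝ) else 0) =
        ex (fun _ => (p : ℝ)) E₂ (fun T₂ => if (a : ℝ) ^ j / 2 ≤ #(unc A T₁ W) ∧
        (#(surv A b T₂ R (unc A T₁ W)) : ℝ) < θ then (1 : ℝ) else 0) := by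
      refine ex_congr fun T₂ hT₂ => ?_
      rw [hu1 T₂ hT₂, hs1 T₂ hT₂ _ (unc_subset A T₁ W)]
    rw [e1]
    by_cases h2 : (a : ℝ) ^ j / 2 ≤ #(unc A T₁ W)
    · have haj : (0 : ℝ) < (a : ℝ) ^ j := by
        have : (0 : ℝ) < a := by exact_mod_cast ha
        positivity
      have hpos : (0 : ℝ) < #(unc A T₁ W) := by linarith
      have hne : (unc A T₁ W).Nonempty := by
        rw [← card_pos]; exact_mod_cast hpos
      have h3 := cover_ind (b := b) h0 h1 hA hθ hρ hb hc0 hc R (by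
        rw [Finset.disjoint_left]; exact hRA) (unc A T₁ W) (unc_subset A T₁ W) hne
      have e2 : ex (fun _ => (p : ℝ)) E₂ (fun T₂ => if (a : ℝ) ^ j / 2 ≤ #(unc A T₁ W) ∧
        (#(surv A b T₂ R (unc A T₁ W)) : ℝ) < θ then (1 : ℝ) else 0) =
        ex (fun _ => (p : ℝ)) E₂ (fun T₂ => if
        (#(surv A b T₂ R (unc A T₁ W)) : ℝ) < θ then (1 : ℝ) else 0) := by
        refine ex_congr fun T₂ _ => ?_
        simp only [h2, true_and]
      rw [e2]
      refine h3.trans ?_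
      have h4 : θ / #(unc A T₁ W) ≤ 2 * θ / (a : ℝ) ^ j := by
        rw [div_le_div_iff₀ hpos haj]
        nlinarith
      have hcp : 1 ≤ 1 + c * (p : ℝ) ^ j := by
        have : 0 ≤ c * (p : ℝ) ^ j := by positivity
        linarith
      refine mul_le_mul (pow_le_pow_left₀ (by positivity) h4 lam) ?_ (by positivity) (by positivity)
      exact pow_le_pow_right₀ hcp (card_le_univ R)
    · have e2 : ex (fun _ => (p : ℝ)) E₂ (fun T₂ => if (a : ℝ) ^ j / 2 ≤ #(unc A T₁ W) ∧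
        (#(surv A b T₂ R (unc A T₁ W)) : ℝ) < θ then (1 : ℝ) else 0) =
        ex (fun _ => (p : ℝ)) E₂ (fun _ => 0) := by
        refine ex_congr fun T₂ _ => ?_
        rw [if_neg]
        intro h; exact h2 h.1
      rw [e2, ex_const]
      positivity
  · -- Janson part
    set E₂ := prs (un A) with hE₂
    have hE₂sub : E₂ ⊆ allE V := by
      intro e he
      obtain ⟨x, _, y, _, hxy, rfl⟩ := mem_prs.1 he
      exact mk_mem_allE.2 hxy
    refine ex_le_of_cond (fun _ => h0) (fun _ => h1) hE₂sub _ _ fun T₁ hT₁ => ?_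
    have hu1 : ∀ T₂ ⊆ E₂, unc A (T₁ ∪ T₂) W = unc A T₁ W := by
      intro T₂ hT₂
      refine unc_congr fun w hw v hv => ?_
      rw [mem_union]
      refine or_iff_left ?_
      intro h
      exact hW w hw (mk_mem_prs.1 (hT₂ h)).1
    have hs1 : ∀ T₂ ⊆ E₂, ∀ U ⊆ Fintype.piFinset A, surv A b (T₁ ∪ T₂) R U = surv A b T₁ R U := by
      intro T₂ hT₂ U hU
      refine surv_congr hU fun w hw v hv => ?_
      rw [mem_union]
      refine or_iff_left ?_
      intro h
      exact hRA w hw (mk_mem_prs.1 (hT₂ h)).1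
    set U := surv A b T₁ R (unc A T₁ W) with hU
    have hUA : U ⊆ Fintype.piFinset A := (surv_subset _ _ _ _ _).trans (unc_subset A T₁ W)
    have hpE : ∀ u ∈ U, prs (univ.image u) ⊆ E₂ := by
      intro u hu
      refine prs_mono fun v hv => ?_
      obtain ⟨i, _, rfl⟩ := mem_image.1 hv
      exact mem_un.2 ⟨i, Fintype.mem_piFinset.1 (hUA hu) i⟩
    have e1 : ex (fun _ => (p : ℝ)) E₂ (fun T₂ =>
        if θ ≤ (#(surv A b (T₁ ∪ T₂) R (unc A (T₁ ∪ T₂) W)) : ℝ) ∧
          ∀ u ∈ surv A b (T₁ ∪ T₂) R (unc A (T₁ ∪ T₂) W), ¬ prs (univ.image u) ⊆ T₁ ∪ T₂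
          then (1 : ℝ) else 0) =
        ex (fun _ => (p : ℝ)) E₂ (fun T₂ => if θ ≤ (#U : ℝ) ∧
          ∀ u ∈ U, ¬ prs (univ.image u) ⊆ T₂ then (1 : ℝ) else 0) := by
      refine ex_congr fun T₂ hT₂ => ?_
      rw [hu1 T₂ hT₂, hs1 T₂ hT₂ _ (unc_subset A T₁ W), ← hU]
      have h2 : (∀ u ∈ U, ¬ prs (univ.image u) ⊆ T₁ ∪ T₂) ↔
          (∀ u ∈ U, ¬ prs (univ.image u) ⊆ T₂) := by
        refine forall_congr' fun u => forall_congr' fun hu => not_congr ?_
        constructor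
        · intro h e he
          rcases mem_union.1 (h he) with h3 | h3
          · exact absurd (hpE u hu he) (mem_sdiff.1 (hT₁ h3)).2
          · exact h3
        · intro h
          exact h.trans subset_union_right
      simp only [h2]
    rw [e1]
    by_cases h2 : θ ≤ (#U : ℝ)
    · have e2 : ex (fun _ => (p : ℝ)) E₂ (fun T₂ => if θ ≤ (#U : ℝ) ∧
          ∀ u ∈ U, ¬ prs (univ.image u) ⊆ T₂ then (1 : ℝ) else 0) =
          ex (fun _ => (p : ℝ)) univ (fun T₂ => if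
          ∀ u ∈ U, ¬ prs (univ.image u) ⊆ T₂ then (1 : ℝ) else 0) := by
        rw [ex_restrict (fun _ => (p : ℝ)) (subset_univ E₂)]
        · refine ex_congr fun T₂ _ => ?_
          simp only [h2, true_and]
        · intro T _
          have h3 : (∀ u ∈ U, ¬ prs (univ.image u) ⊆ T) ↔
              (∀ u ∈ U, ¬ prs (univ.image u) ⊆ T ∩ E₂) := by
            refine forall_congr' fun u => forall_congr' fun hu => not_congr ?_
            rw [Finset.subset_inter_iff]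
            exact ⟨fun h => ⟨h, hpE u hu⟩, fun h => h.1⟩
          simp only [h3]
      rw [e2]
      refine (jan_tuples h0 h1 hA hAa hUA).trans (Real.exp_le_exp.2 ?_)
      have hD := dsum_nonneg j a h0
      have h3 : θ * (p : ℝ) ^ (j.choose 2) ≤ #U * (p : ℝ) ^ (j.choose 2) :=
        mul_le_mul_of_nonneg_right h2 (by positivity)
      have h4 : θ * (p : ℝ) ^ (j.choose 2) / (2 * (1 + dsum j a p)) ≤
          #U * (p : ℝ) ^ (j.choose 2) / (2 * (1 + dsum j a p)) :=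
        div_le_div_of_nonneg_right h3 (by positivity)
      linarith
    · have e2 : ex (fun _ => (p : ℝ)) E₂ (fun T₂ => if θ ≤ (#U : ℝ) ∧
          ∀ u ∈ U, ¬ prs (univ.image u) ⊆ T₂ then (1 : ℝ) else 0) =
        ex (fun _ => (p : ℝ)) E₂ (fun _ => 0) := by
        refine ex_congr fun T₂ _ => ?_
        rw [if_neg]
        intro h; exact h2 h.1
      rw [e2, ex_const]
      positivity

end Pool.Agent.H977.CC
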