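import Pool.Agent.H977.CC.GoodC

/-! Special vertices and the union bound. -/

open MeasureTheory ProbabilityTheory unitInterval Finset
open scoped SimpleGraph

namespace Pool.Agent.H977.CC

open Pool.Agent.V11328

section Det

variable {V : Type} [Fintype V] [DecidableEq V]

/-- Few edges between `A` and small sets. -/
def Few (G : SimpleGraph V) (a m s : ℕ) : Prop :=
  ∀ A : Finset V, #A = a → ∀ W : Finset V, Disjoint W A → #W ≤ m → ∑ w ∈ W, #(nb G w A) < s

open Classical in
/-- Vertices outside `A` with at least `b` neighbours in `A`. -/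
noncomputable def rich (G : SimpleGraph V) (b : ℕ) (A : Finset V) : Finset V :=
  univ.filter (fun w => w ∉ A ∧ b ≤ #(nb G w A))

lemma mem_rich {G : SimpleGraph V} {b : ℕ} {A : Finset V} {w : V} :
    w ∈ rich G b A ↔ w ∉ A ∧ b ≤ #(nb G w A) := by
  unfold rich; simp

lemma rich_card {G : SimpleGraph V} {a m s g : ℕ} (h : Few G a m s) (hs : s ≤ m * g)
    {A : Finset V} (hA : #A = a) : #(rich G g A) < m := by
  by_contra hcon
  push Not at hcon
  obtain ⟨W, hW, hWm⟩ := Finset.exists_subset_card_eq hcon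
  have h1 := h A hA W (by
    rw [Finset.disjoint_left]
    intro w hw
    exact (mem_rich.1 (hW hw)).1) hWm.le
  have h2 : m * g ≤ ∑ w ∈ W, #(nb G w A) := by
    rw [← hWm, ← smul_eq_mul]
    exact Finset.card_nsmul_le_sum W _ g fun w hw => (mem_rich.1 (hW hw)).2
  omega

lemma rich_sq {G : SimpleGraph V} {a b g m₁ s₁ m₂ s₂ : ℕ} (h1 : Few G a m₁ s₁)
    (hs1 : s₁ ≤ m₁ * g) (h2 : Few G a m₂ s₂) (hs2 : s₂ ≤ m₂ * b) {A : Finset V} (hA : #A = a) :
    ∑ w ∈ rich G b A, #(nb G w A) ^ 2 ≤ a * s₁ + m₂ * g ^ 2 := by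
  classical
  have hg := rich_card h1 hs1 hA
  have hb := rich_card h2 hs2 hA
  have h3 := h1 A hA (rich G g A) (by
    rw [Finset.disjoint_left]
    intro w hw
    exact (mem_rich.1 hw).1) hg.le
  have h4 : ∑ w ∈ rich G b A, #(nb G w A) ^ 2 ≤
      ∑ w ∈ rich G g A, #(nb G w A) ^ 2 + ∑ w ∈ rich G b A \ rich G g A, #(nb G w A) ^ 2 := by
    rw [← Finset.sum_union (Finset.disjoint_sdiff)]
    refine Finset.sum_le_sum_of_subset fun w hw => ?_
    rw [mem_union, mem_sdiff]
    by_cases h : w ∈ rich G g A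
    · exact Or.inl h
    · exact Or.inr ⟨hw, h⟩
  refine h4.trans (add_le_add ?_ ?_)
  · calc ∑ w ∈ rich G g A, #(nb G w A) ^ 2 ≤ ∑ w ∈ rich G g A, a * #(nb G w A) := by
          refine Finset.sum_le_sum fun w _ => ?_
          rw [pow_two]
          refine Nat.mul_le_mul_right _ ?_
          rw [← hA]
          exact card_le_card (nb_subset G w A)
      _ = a * ∑ w ∈ rich G g A, #(nb G w A) := by rw [Finset.mul_sum]
      _ ≤ a * s₁ := Nat.mul_le_mul_left a h3.le
  · calc ∑ w ∈ rich G b A \ rich G g A, #(nb G w A) ^ 2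
        ≤ ∑ _w ∈ rich G b A \ rich G g A, g ^ 2 := by
          refine Finset.sum_le_sum fun w hw => ?_
          rw [mem_sdiff, mem_rich, mem_rich, not_and] at hw
          have := hw.2 hw.1.1
          exact Nat.pow_le_pow_left (by omega) 2
      _ = #(rich G b A \ rich G g A) * g ^ 2 := by rw [Finset.sum_const, smul_eq_mul]
      _ ≤ m₂ * g ^ 2 := by
          refine Nat.mul_le_mul_right _ ?_
          exact (card_le_card sdiff_subset).trans hb.le

open Classical in
/-- Special vertices of a family. -/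
noncomputable def spec {j : ℕ} (G : SimpleGraph V) (b : ℕ) (A : Fin j → Finset V) : Finset V :=
  univ.filter (fun w => w ∉ un A ∧ ¬ typ A b (ed G) w)

lemma mem_spec {j : ℕ} {G : SimpleGraph V} {b : ℕ} {A : Fin j → Finset V} {w : V} :
    w ∈ spec G b A ↔ w ∉ un A ∧ ¬ typ A b (ed G) w := by
  unfold spec; simp

lemma spec_rich {j : ℕ} {G : SimpleGraph V} {b : ℕ} {A : Fin j → Finset V} {w : V}
    (hw : w ∈ spec G b A) : ∃ i, w ∈ rich G b (A i) := by
  rw [mem_spec] at hw
  have h := hw.2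
  unfold typ at h
  push Not at h
  obtain ⟨i, hi⟩ := h
  refine ⟨i, mem_rich.2 ⟨fun h => hw.1 (mem_un.2 ⟨i, h⟩), ?_⟩⟩
  rwa [nb_eq]

/-- The special vertices cover at most half of the tuples. -/
lemma bad_exists {j : ℕ} (hj : 3 ≤ j) {G : SimpleGraph V} {a b l g m₁ s₁ m₂ s₂ : ℕ}
    (ha : 1 ≤ a)
    (h1 : Few G a m₁ s₁) (hs1 : s₁ ≤ m₁ * g) (h2 : Few G a m₂ s₂) (hs2 : s₂ ≤ m₂ * b)
    (hl : 2 * (l * (j * (a * s₁ + m₂ * g ^ 2))) ≤ a ^ 3) (hG : ¬ Good G j a l) :
    ∃ A : Fin j → Finset V, (∀ i, #(A i) = a) ∧ (∀ i k, i ≠ k → Disjoint (A i) (A k)) ∧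
      ∃ W : Finset V, (∀ w ∈ W, w ∉ un A) ∧ #W ≤ j * m₂ ∧ BadE A a b W (ed G) := by
  classical
  unfold Good at hG
  push Not at hG
  obtain ⟨A, hAa, hA, hAw, hAu⟩ := hG
  refine ⟨A, hAa, hA, spec G b A, fun w hw => (mem_spec.1 hw).1, ?_, ?_, ?_, ?_⟩
  · have h3 : spec G b A ⊆ (univ : Finset (Fin j)).biUnion (fun i => rich G b (A i)) := by
      intro w hw
      obtain ⟨i, hi⟩ := spec_rich hw
      exact mem_biUnion.2 ⟨i, mem_univ i, hi⟩
    refine (card_le_card h3).trans (card_biUnion_le.trans ?_)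
    refine (Finset.sum_le_card_nsmul _ _ m₂ fun i _ => (rich_card h2 hs2 (hAa i)).le).trans ?_
    rw [card_univ, Fintype.card_fin, smul_eq_mul]
  · intro w hw hw2
    by_contra h
    exact hw2 (mem_spec.2 ⟨hw, h⟩)
  · -- covering
    set C := (spec G b A).biUnion (fun w => Fintype.piFinset (fun i => nb G w (A i))) with hC
    have hsub : Fintype.piFinset A ⊆ unc A (ed G) (spec G b A) ∪ C := by
      intro u hu
      rw [mem_union]
      by_cases hc : ∃ w ∈ spec G b A, cvr (ed G) w u
      · right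
        obtain ⟨w, hw, hcw⟩ := hc
        refine mem_biUnion.2 ⟨w, hw, ?_⟩
        rw [Fintype.mem_piFinset]
        intro i
        rw [mem_nb]
        exact ⟨Fintype.mem_piFinset.1 hu i, mk_mem_ed.1 (hcw i)⟩
      · left
        push Not at hc
        exact mem_unc.2 ⟨Fintype.mem_piFinset.1 hu, hc⟩
    have hcard := (card_le_card hsub).trans (card_union_le _ _)
    rw [Fintype.card_piFinset] at hcard
    simp_rw [hAa] at hcard
    rw [Finset.prod_const, card_univ, Fintype.card_fin] at hcard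
    have hCc : 2 * #C ≤ a ^ j := by
      have h3 : ∀ w ∈ spec G b A, #(Fintype.piFinset (fun i => nb G w (A i))) ≤
          l * a ^ (j - 3) * ∑ i, (if w ∈ rich G b (A i) then #(nb G w (A i)) ^ 2 else 0) := by
        intro w hw
        obtain ⟨i₀, hi₀⟩ := hAw w
        obtain ⟨i₂, hi₂⟩ := spec_rich hw
        haveI : Nonempty (Fin j) := ⟨i₀⟩
        obtain ⟨i₁, _, hi₁⟩ := (univ : Finset (Fin j)).exists_max_image
          (fun i => #(nb G w (A i))) ⟨i₀, mem_univ i₀⟩
        set M := #(nb G w (A i₁)) with hM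
        have hMa : M ≤ a := by
          rw [hM, ← hAa i₁]
          exact card_le_card (nb_subset G w (A i₁))
        have hMb : b ≤ M := (mem_rich.1 hi₂).2.trans (hi₁ i₂ (mem_univ i₂))
        have hr : w ∈ rich G b (A i₁) := by
          rw [mem_rich]
          exact ⟨fun h => (mem_spec.1 hw).1 (mem_un.2 ⟨i₁, h⟩), hMb⟩
        rw [Fintype.card_piFinset, ← Finset.mul_prod_erase univ _ (mem_univ i₀)]
        have h4 : ∏ x ∈ univ.erase i₀, #(nb G w (A x)) ≤ M ^ (j - 1) := by
          refine (Finset.prod_le_prod (fun _ _ => Nat.zero_le _)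
            (g := fun _ => M) fun i _ => hi₁ i (mem_univ i)).trans ?_
          rw [Finset.prod_const, card_erase_of_mem (mem_univ i₀), card_univ, Fintype.card_fin]
        have h5 : M ^ (j - 1) ≤ a ^ (j - 3) * M ^ 2 := by
          have : j - 1 = (j - 3) + 2 := by omega
          rw [this, pow_add]
          exact Nat.mul_le_mul_right _ (Nat.pow_le_pow_left hMa _)
        have h6 : M ^ 2 ≤ ∑ i, (if w ∈ rich G b (A i) then #(nb G w (A i)) ^ 2 else 0) := by
          have := Finset.single_le_sum (f := fun i =>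
            (if w ∈ rich G b (A i) then #(nb G w (A i)) ^ 2 else 0))
            (fun i _ => Nat.zero_le _) (mem_univ i₁)
          simp only [hr, if_true] at this
          exact this
        calc #(nb G w (A i₀)) * ∏ x ∈ univ.erase i₀, #(nb G w (A x))
            ≤ l * (a ^ (j - 3) * M ^ 2) := Nat.mul_le_mul hi₀.le (h4.trans h5)
          _ = l * a ^ (j - 3) * M ^ 2 := by ring
          _ ≤ _ := Nat.mul_le_mul_left _ h6
      have h4 : #C ≤ l * a ^ (j - 3) * (j * (a * s₁ + m₂ * g ^ 2)) := by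
        refine card_biUnion_le.trans ((Finset.sum_le_sum h3).trans ?_)
        rw [← Finset.mul_sum]
        refine Nat.mul_le_mul_left _ ?_
        rw [Finset.sum_comm]
        have h5 : ∀ i : Fin j, ∑ w ∈ spec G b A,
            (if w ∈ rich G b (A i) then #(nb G w (A i)) ^ 2 else 0) ≤ a * s₁ + m₂ * g ^ 2 := by
          intro i
          rw [← Finset.sum_filter]
          refine le_trans (Finset.sum_le_sum_of_subset ?_) (rich_sq h1 hs1 h2 hs2 (hAa i))
          intro w hw
          exact (mem_filter.1 hw).2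
        refine (Finset.sum_le_card_nsmul _ _ _ fun i _ => h5 i).trans ?_
        rw [card_univ, Fintype.card_fin, smul_eq_mul]
      calc 2 * #C ≤ 2 * (l * a ^ (j - 3) * (j * (a * s₁ + m₂ * g ^ 2))) :=
            Nat.mul_le_mul_left 2 h4
        _ = a ^ (j - 3) * (2 * (l * (j * (a * s₁ + m₂ * g ^ 2)))) := by ring
        _ ≤ a ^ (j - 3) * a ^ 3 := Nat.mul_le_mul_left _ hl
        _ = a ^ j := by rw [← pow_add]; congr 1; omega
    have h5 : a ^ j ≤ 2 * #(unc A (ed G) (spec G b A)) := by omega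
    have h6 : (a : ℝ) ^ j ≤ 2 * #(unc A (ed G) (spec G b A)) := by exact_mod_cast h5
    linarith
  · intro u hu hc hcl
    obtain ⟨w, hw, hw2⟩ := hAu u hu (fun i k hik => by
      rw [← mk_mem_ed]
      apply hcl
      rw [mk_mem_prs]
      refine ⟨mem_image.2 ⟨i, mem_univ i, rfl⟩, mem_image.2 ⟨k, mem_univ k, rfl⟩, ?_⟩
      exact fun h => hik (tuple_inj hA hu h))
    refine hc w (fun h => ?_) (fun i => mk_mem_ed.2 (hw2 i))
    obtain ⟨i, hi⟩ := mem_un.1 h
    exact hw i hi

end Det

section Prob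

variable {V : Type} [Fintype V] [DecidableEq V]

lemma sum_nb_eq (G : SimpleGraph V) (A W : Finset V) (h : Disjoint W A) :
    ∑ w ∈ W, #(nb G w A) = #(ed G ∩ W.biUnion (ew A)) := by
  classical
  rw [Finset.inter_biUnion, card_biUnion]
  · refine Finset.sum_congr rfl fun w hw => ?_
    have hwA : w ∉ A := Finset.disjoint_left.1 h hw
    rw [nb_eq]
    symm
    have : ed G ∩ ew A w = (A.filter (fun v => s(w, v) ∈ ed G)).image (fun v => s(w, v)) := by
      ext e
      rw [mem_inter, mem_ew, mem_image]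
      constructor
      · rintro ⟨h1, v, hv, rfl⟩
        exact ⟨v, mem_filter.2 ⟨hv, h1⟩, rfl⟩
      · rintro ⟨v, hv, rfl⟩
        rw [mem_filter] at hv
        exact ⟨hv.2, v, hv.1, rfl⟩
    rw [this, card_image_of_injOn]
    intro v _ v' _ hvv
    have h4 : s(w, v) = s(w, v') := hvv
    rw [Sym2.eq_iff] at h4
    rcases h4 with ⟨_, h⟩ | ⟨h1, h2⟩
    · exact h
    · rw [← h1, h2]
  · intro w hw w' hw' hne
    refine Finset.disjoint_of_subset_left inter_subset_right
      (Finset.disjoint_of_subset_right inter_subset_right ?_)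
    exact ew_disjoint (Finset.disjoint_left.1 h hw) hne

/-- Probability that `Few` fails. -/
lemma few_prob (p : I) (a m s : ℕ) {z : ℝ} (hz : 1 ≤ z) :
    (G(V, p)).real {G : SimpleGraph V | ¬ Few G a m s} ≤
      (Fintype.card V : ℝ) ^ a * ((Fintype.card V : ℝ) + 1) ^ m *
        Real.exp ((p : ℝ) * z * (m * a) - s * Real.log z) := by
  classical
  have hp0 : (0 : ℝ) ≤ p := p.2.1
  set AS := powersetCard a (univ : Finset V) with hAS
  set WS := univ.filter (fun s : Finset V => #s ≤ m) with hWS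
  set Ev : Finset V × Finset V → Set (SimpleGraph V) := fun q =>
    {G | Disjoint q.2 q.1 ∧ s ≤ ∑ w ∈ q.2, #(nb G w q.1)} with hEv
  have hsub : {G : SimpleGraph V | ¬ Few G a m s} ⊆ ⋃ q ∈ AS ×ˢ WS, Ev q := by
    intro G hG
    simp only [Few, Set.mem_ofPred_eq, not_forall, not_lt] at hG
    obtain ⟨A, hA, W, hd, hW, h⟩ := hG
    simp only [Set.mem_iUnion]
    refine ⟨(A, W), ?_, hd, h⟩
    rw [mem_product, hAS, hWS, mem_powersetCard, mem_filter]
    exact ⟨⟨subset_univ _, hA⟩, mem_univ _, hW⟩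
  have hev : ∀ q ∈ AS ×ˢ WS, (G(V, p)).real (Ev q) ≤
      Real.exp ((p : ℝ) * z * (m * a) - s * Real.log z) := by
    rintro ⟨A, W⟩ hq
    rw [mem_product, hAS, hWS, mem_powersetCard, mem_filter] at hq
    obtain ⟨⟨_, hA⟩, _, hW⟩ := hq
    by_cases hd : Disjoint W A
    · set Q := W.biUnion (ew A) with hQ
      have hQsub : Q ⊆ allE V := by
        intro e he
        obtain ⟨w, hw, he⟩ := mem_biUnion.1 he
        obtain ⟨v, hv, rfl⟩ := mem_ew.1 he
        rw [mk_mem_allE]
        intro h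
        exact Finset.disjoint_left.1 hd hw (h ▸ hv)
      have hQc : #Q ≤ m * a := by
        refine card_biUnion_le.trans ?_
        refine (Finset.sum_le_card_nsmul _ _ a fun w _ => ?_).trans ?_
        · unfold ew
          exact card_image_le.trans hA.le
        · rw [smul_eq_mul]
          exact Nat.mul_le_mul_right a hW
      refine (pat_up p hQsub hz (s := (s : ℝ)) (Ev (A, W)) ?_).trans (Real.exp_le_exp.2 ?_)
      · intro G hG
        have h1 := hG.2
        rw [sum_nb_eq G A W hd] at h1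
        exact_mod_cast h1
      · have h2 : (#Q : ℝ) ≤ m * a := by exact_mod_cast hQc
        have h3 : (p : ℝ) * z * #Q ≤ (p : ℝ) * z * (m * a) :=
          mul_le_mul_of_nonneg_left h2 (mul_nonneg hp0 (by linarith))
        linarith
    · have : Ev (A, W) = ∅ := by
        ext G
        simp only [hEv, Set.mem_ofPred_eq, Set.mem_empty_iff_false, iff_false]
        rintro ⟨h, _⟩
        exact hd h
      rw [this, measureReal_empty]
      exact (Real.exp_pos _).le
  refine (measureReal_mono hsub (measure_ne_top _ _)).trans ?_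
  refine (measureReal_biUnion_finset_le _ _).trans ?_
  refine (Finset.sum_le_sum hev).trans ?_
  rw [Finset.sum_const, card_product, nsmul_eq_mul]
  refine mul_le_mul_of_nonneg_right ?_ (Real.exp_pos _).le
  rw [Nat.cast_mul]
  refine mul_le_mul ?_ ?_ (by positivity) (by positivity)
  · rw [hAS, card_powersetCard, card_univ]
    exact_mod_cast Nat.choose_le_pow _ a
  · exact_mod_cast card_small (α := V) m

/-- Probability that `Good` fails while the special vertices are under control. -/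
lemma good_prob {j : ℕ} (hj : 3 ≤ j) {a b l g m₁ s₁ m₂ s₂ : ℕ} (ha : 1 ≤ a) (p : I)
    (hs1 : s₁ ≤ m₁ * g) (hs2 : s₂ ≤ m₂ * b)
    (hl : 2 * (l * (j * (a * s₁ + m₂ * g ^ 2))) ≤ a ^ 3)
    {θ ρ c : ℝ} (hθ : 0 < θ) (hρ : ρ ≤ 1 / 2)
    (hb : (b : ℝ) ^ j ≤ ρ * θ) {lam : ℕ} (hc0 : 0 ≤ c)
    (hc : ∀ x : ℝ, 0 ≤ x → x ≤ ρ → (1 / (1 - x)) ^ lam ≤ 1 + c * x) :
    (G(V, p)).real {G : SimpleGraph V | ¬ Good G j a l} ≤
      (G(V, p)).real {G : SimpleGraph V | ¬ Few G a m₁ s₁} +
      (G(V, p)).real {G : SimpleGraph V | ¬ Few G a m₂ s₂} +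
      (Fintype.card V : ℝ) ^ (a * j) * ((Fintype.card V : ℝ) + 1) ^ (j * m₂) *
      ((2 * θ / (a : ℝ) ^ j) ^ lam * (1 + c * (p : ℝ) ^ j) ^ Fintype.card V +
      Real.exp (-(θ * (p : ℝ) ^ (j.choose 2) / (2 * (1 + dsum j a p))))) := by
  classical
  set AS := (Fintype.piFinset (fun _ : Fin j => powersetCard a (univ : Finset V))) with hAS
  set WS := univ.filter (fun s : Finset V => #s ≤ j * m₂) with hWS
  set δ := (2 * θ / (a : ℝ) ^ j) ^ lam * (1 + c * (p : ℝ) ^ j) ^ Fintype.card V +
      Real.exp (-(θ * (p : ℝ) ^ (j.choose 2) / (2 * (1 + dsum j a p)))) with hδ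
  have hp0 : (0 : ℝ) ≤ p := p.2.1
  have hδ0 : 0 ≤ δ := by rw [hδ]; positivity
  set Ev : (Fin j → Finset V) × Finset V → Set (SimpleGraph V) := fun q =>
    {G | (∀ i k, i ≠ k → Disjoint (q.1 i) (q.1 k)) ∧ (∀ w ∈ q.2, w ∉ un q.1) ∧
      BadE q.1 a b q.2 (ed G)} with hEv
  have hsub : {G : SimpleGraph V | ¬ Good G j a l} ⊆
      ({G : SimpleGraph V | ¬ Few G a m₁ s₁} ∪ {G : SimpleGraph V | ¬ Few G a m₂ s₂}) ∪
      ⋃ q ∈ AS ×ˢ WS, Ev q := by
    intro G hG
    by_cases h1 : Few G a m₁ s₁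
    · by_cases h2 : Few G a m₂ s₂
      · right
        obtain ⟨A, hAa, hA, W, hW, hWc, hB⟩ := bad_exists hj ha h1 hs1 h2 hs2 hl hG
        simp only [Set.mem_iUnion]
        refine ⟨(A, W), ?_, hA, hW, hB⟩
        rw [mem_product, hAS, hWS, mem_filter, Fintype.mem_piFinset]
        exact ⟨fun i => mem_powersetCard.2 ⟨subset_univ _, hAa i⟩, mem_univ _, hWc⟩
      · exact Or.inl (Or.inr h2)
    · exact Or.inl (Or.inl h1)
  have hev : ∀ q ∈ AS ×ˢ WS, (G(V, p)).real (Ev q) ≤ δ := by
    rintro ⟨A, W⟩ hq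
    rw [mem_product, hAS, hWS, mem_filter, Fintype.mem_piFinset] at hq
    obtain ⟨hAa', _, _⟩ := hq
    have hAa : ∀ i, #(A i) = a := fun i => (mem_powersetCard.1 (hAa' i)).2
    by_cases hA : ∀ i k, i ≠ k → Disjoint (A i) (A k)
    · by_cases hW : ∀ w ∈ W, w ∉ un A
      · refine le_trans (measureReal_mono ?_ (measure_ne_top _ _))
          (badE_prob (by omega) ha p hA hAa W hW hθ hρ hb hc0 hc)
        intro G hG
        exact hG.2.2
      · have : Ev (A, W) = ∅ := by
          ext G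
          simp only [hEv, Set.mem_ofPred_eq, Set.mem_empty_iff_false, iff_false]
          rintro ⟨_, h, _⟩
          exact hW h
        rw [this, measureReal_empty]
        exact hδ0
    · have : Ev (A, W) = ∅ := by
        ext G
        simp only [hEv, Set.mem_ofPred_eq, Set.mem_empty_iff_false, iff_false]
        rintro ⟨h, _⟩
        exact hA h
      rw [this, measureReal_empty]
      exact hδ0
  refine (measureReal_mono hsub (measure_ne_top _ _)).trans ?_
  refine (measureReal_union_le _ _).trans ?_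
  refine add_le_add (measureReal_union_le _ _) ?_
  refine (measureReal_biUnion_finset_le _ _).trans ?_
  refine (Finset.sum_le_sum hev).trans ?_
  rw [Finset.sum_const, card_product, nsmul_eq_mul]
  refine mul_le_mul_of_nonneg_right ?_ hδ0
  rw [Nat.cast_mul]
  refine mul_le_mul ?_ ?_ (by positivity) (by positivity)
  · rw [hAS, Fintype.card_piFinset, Finset.prod_const, card_univ, Fintype.card_fin,
      card_powersetCard, card_univ, pow_mul]
    have h1 : ((Fintype.card V).choose a : ℝ) ≤ (Fintype.card V : ℝ) ^ a := by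
      exact_mod_cast Nat.choose_le_pow _ a
    push_cast
    exact pow_le_pow_left₀ (by positivity) h1 j
  · exact_mod_cast card_small (α := V) (j * m₂)

end Prob

end Pool.Agent.H977.CC
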