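import Pool.Agent.H977.CC.GoodD

/-! Parameters for the structure lemma. -/

open MeasureTheory ProbabilityTheory unitInterval Finset
open scoped SimpleGraph

namespace Pool.Agent.H977.CC

/-- constant in the size of the sets -/
def cJ (j : ℕ) : ℕ := (3 * j + 1) * 2 ^ (j + 6)

lemma cJ_pos (j : ℕ) : 1 ≤ cJ j := by
  unfold cJ
  exact Nat.mul_pos (by omega) (by positivity)

/-- Basic numerical data: `x = log (1/p)`, `L = log n`, `l = log log n`, `μ = n p ^ j`. -/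
structure Dat (j : ℕ) (p x L l μ κ : ℝ) (a : ℕ) : Prop where
  hj : 3 ≤ j
  hp : p = Real.exp (-x)
  hL : 1 ≤ L
  hl : L = Real.exp l
  hμ : 0 ≤ μ
  hx : x ≤ L
  hc : μ + (j + 5) * l ≤ (j - 1) / 2 * x
  hκ : κ = Real.exp ((l + μ) / (j - 1) + j / 2 * x)
  ha : a = ⌈cJ j * κ⌉₊

variable {j : ℕ} {p x L l μ κ : ℝ} {a : ℕ}

lemma Dat.l0 (h : Dat j p x L l μ κ a) : 0 ≤ l := by
  have := h.hL
  rw [h.hl, Real.one_le_exp_iff] at this
  exact this

lemma Dat.jR (h : Dat j p x L l μ κ a) : (3 : ℝ) ≤ j := by exact_mod_cast h.hj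

lemma Dat.x0 (h : Dat j p x L l μ κ a) : 0 ≤ x := by
  have h1 := h.hc
  have h2 := h.l0
  have h3 := h.jR
  have h4 := h.hμ
  have h5 : 0 ≤ (j - 1 : ℝ) / 2 * x := by nlinarith
  by_contra hneg
  push Not at hneg
  nlinarith

lemma Dat.p0 (h : Dat j p x L l μ κ a) : 0 < p := by rw [h.hp]; exact Real.exp_pos _

lemma Dat.p1 (h : Dat j p x L l μ κ a) : p ≤ 1 := by
  rw [h.hp, Real.exp_le_one_iff]; linarith [h.x0]

lemma Dat.κge (h : Dat j p x L l μ κ a) : Real.exp (3 / 2 * x) ≤ κ := by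
  rw [h.hκ]
  refine Real.exp_le_exp.2 ?_
  have h1 := h.l0
  have h2 := h.jR
  have h3 := h.hμ
  have h4 := h.x0
  have h5 : 0 ≤ (l + μ) / (j - 1) := div_nonneg (by linarith) (by linarith)
  nlinarith

lemma Dat.κ1 (h : Dat j p x L l μ κ a) : 1 ≤ κ := by
  refine le_trans ?_ h.κge
  rw [Real.one_le_exp_iff]
  linarith [h.x0]

lemma Dat.a_ge (h : Dat j p x L l μ κ a) : cJ j * κ ≤ a := by
  rw [h.ha]; exact Nat.le_ceil _

lemma Dat.κa (h : Dat j p x L l μ κ a) : κ ≤ a := by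
  refine le_trans ?_ h.a_ge
  have h1 : (1 : ℝ) ≤ cJ j := by exact_mod_cast cJ_pos j
  have := h.κ1
  nlinarith

lemma Dat.a_le (h : Dat j p x L l μ κ a) : (a : ℝ) ≤ 2 * (cJ j * κ) := by
  have h1 : (1 : ℝ) ≤ cJ j := by exact_mod_cast cJ_pos j
  have h2 := h.κ1
  have h3 : (1 : ℝ) ≤ cJ j * κ := by nlinarith
  have h4 : (a : ℝ) < cJ j * κ + 1 := by
    rw [h.ha]; exact Nat.ceil_lt_add_one (by linarith)
  linarith

lemma Dat.a1 (h : Dat j p x L l μ κ a) : 1 ≤ a := by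
  have h1 : (1 : ℝ) ≤ a := h.κ1.trans h.κa
  exact_mod_cast h1

lemma exp_pow_nat (t : ℝ) (k : ℕ) : Real.exp t ^ k = Real.exp (k * t) := by
  rw [Real.exp_nat_mul]

/-- main inequality on powers -/
lemma Dat.pw (h : Dat j p x L l μ κ a) {k : ℕ} (hk2 : 2 ≤ k) (hkj : k ≤ j) :
    cJ j * (Real.exp μ * L) ≤ (a : ℝ) ^ (k - 1) * p ^ (k.choose 2) := by
  have hjR := h.jR
  have hkR : (2 : ℝ) ≤ k := by exact_mod_cast hk2
  have hkjR : (k : ℝ) ≤ j := by exact_mod_cast hkj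
  have hC : (1 : ℝ) ≤ cJ j := by exact_mod_cast cJ_pos j
  have h1 : (cJ j : ℝ) * κ ^ (k - 1) ≤ (a : ℝ) ^ (k - 1) := by
    calc (cJ j : ℝ) * κ ^ (k - 1) ≤ (cJ j : ℝ) ^ (k - 1) * κ ^ (k - 1) := by
          refine mul_le_mul_of_nonneg_right ?_ (pow_nonneg (by linarith [h.κ1]) _)
          exact le_self_pow₀ hC (by omega)
      _ = (cJ j * κ) ^ (k - 1) := by rw [mul_pow]
      _ ≤ _ := pow_le_pow_left₀ (mul_nonneg (by linarith) (by linarith [h.κ1])) h.a_ge _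
  have hp0 : 0 ≤ p ^ (k.choose 2) := pow_nonneg h.p0.le _
  refine le_trans ?_ (mul_le_mul_of_nonneg_right h1 hp0)
  rw [mul_assoc]
  refine mul_le_mul_of_nonneg_left ?_ (by linarith)
  rw [h.hκ, h.hp, h.hl, exp_pow_nat, exp_pow_nat, ← Real.exp_add, ← Real.exp_add]
  refine Real.exp_le_exp.2 ?_
  rw [Nat.cast_choose_two, Nat.cast_sub (by omega), Nat.cast_one]
  have h2 : ((k : ℝ) - 1) * ((l + μ) / (j - 1) + j / 2 * x) + k * (k - 1) / 2 * -x =
      (k - 1) * ((l + μ) / (j - 1)) + (k - 1) * (j - k) / 2 * x := by ring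
  rw [h2]
  have h3 : l + μ = (j - 1) * ((l + μ) / (j - 1)) := by
    have : (j : ℝ) - 1 ≠ 0 := by linarith
    field_simp
  have h4 : (l + μ) / (j - 1) ≤ x / 2 := by
    rw [div_le_iff₀ (by linarith)]
    have h5 := h.hc
    have h6 := h.l0
    nlinarith
  have h5 : μ + l = (k - 1) * ((l + μ) / (j - 1)) + (j - k) * ((l + μ) / (j - 1)) := by
    rw [← add_mul]
    have : ((k : ℝ) - 1 + (j - k)) = j - 1 := by ring
    rw [this, ← h3]; ring
  rw [h5]
  have h6 : 0 ≤ (j : ℝ) - k := by linarith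
  have h7 := mul_le_mul_of_nonneg_left h4 h6
  have h8 : (j - k) * (x / 2) ≤ (k - 1) * (j - k) / 2 * x := by
    have : 0 ≤ ((k : ℝ) - 2) * ((j - k) * x) :=
      mul_nonneg (by linarith) (mul_nonneg h6 h.x0)
    nlinarith
  linarith

/-- Janson exponent -/
lemma Dat.jan (h : Dat j p x L l μ κ a) :
    (3 * j + 1) * (a * L) ≤
      (1 / 2 * (Real.exp (-μ - 2) * (a : ℝ) ^ j)) * p ^ (j.choose 2) / (2 * (1 + dsum j a p)) := by
  have hjR := h.jR
  have hC : (1 : ℝ) ≤ cJ j := by exact_mod_cast cJ_pos j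
  have hp0 := h.p0
  have ha0 : (0 : ℝ) < a := by linarith [h.κ1, h.κa]
  have hL := h.hL
  set Z : ℝ := cJ j * (Real.exp μ * L) with hZ
  have hZ0 : 0 < Z := by positivity
  set X : ℝ := (a : ℝ) ^ (j - 1) * p ^ (j.choose 2) / Z with hX
  have hX1 : 1 ≤ X := by
    rw [hX, le_div_iff₀ hZ0, one_mul]
    exact h.pw (by have := h.hj; omega) le_rfl
  have hterm : ∀ J ∈ (univ : Finset (Finset (Fin j))).filter (fun J => 2 ≤ #J ∧ #J < j),
      (a : ℝ) ^ (j - #J) * p ^ (j.choose 2 - (#J).choose 2) ≤ X := by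
    intro J hJ
    rw [mem_filter] at hJ
    obtain ⟨_, hJ2, hJj⟩ := hJ
    rw [hX, le_div_iff₀ hZ0]
    have h1 := h.pw hJ2 hJj.le
    have h2 : (a : ℝ) ^ (j - 1) * p ^ (j.choose 2) =
        ((a : ℝ) ^ (j - #J) * p ^ (j.choose 2 - (#J).choose 2)) *
          ((a : ℝ) ^ (#J - 1) * p ^ ((#J).choose 2)) := by
      have e1 : j - 1 = (j - #J) + (#J - 1) := by omega
      have e2 : j.choose 2 = (j.choose 2 - (#J).choose 2) + (#J).choose 2 := by
        have := Nat.choose_le_choose 2 hJj.le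
        omega
      rw [e1, pow_add]
      conv_lhs => rw [e2, pow_add]
      ring
    rw [h2]
    exact mul_le_mul_of_nonneg_left h1 (by positivity)
  have hD : dsum j a p ≤ 2 ^ j * X := by
    unfold dsum
    refine (Finset.sum_le_card_nsmul _ _ X hterm).trans ?_
    rw [nsmul_eq_mul]
    refine mul_le_mul_of_nonneg_right ?_ (by linarith)
    have h1 : #((univ : Finset (Finset (Fin j))).filter (fun J => 2 ≤ #J ∧ #J < j)) ≤ 2 ^ j := by
      refine (card_filter_le _ _).trans ?_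
      rw [card_univ, Fintype.card_finset, Fintype.card_fin]
    exact_mod_cast h1
  have hD' : 2 * (1 + dsum j a p) ≤ 2 ^ (j + 2) * X := by
    have h1 : (1 : ℝ) ≤ 2 ^ j := one_le_pow₀ (by norm_num)
    have h2 : 2 * (1 + dsum j a p) ≤ 2 * (X + 2 ^ j * X) := by linarith
    have h3 : (2 : ℝ) ^ (j + 2) = 4 * 2 ^ j := by rw [pow_add]; norm_num; ring
    rw [h3]
    nlinarith
  have hDpos : 0 < 2 * (1 + dsum j a p) := by
    have := dsum_nonneg j a hp0.le
    linarith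
  rw [le_div_iff₀ hDpos]
  refine (mul_le_mul_of_nonneg_left hD' (by positivity)).trans ?_
  have hXe : X * Z = (a : ℝ) ^ (j - 1) * p ^ (j.choose 2) := by
    rw [hX]; field_simp
  have haj : (a : ℝ) ^ j = a ^ (j - 1) * a := by
    rw [← pow_succ]; congr 1; have := h.hj; omega
  have h2 : 1 / 2 * (Real.exp (-μ - 2) * (a : ℝ) ^ j) * p ^ (j.choose 2) =
      1 / 2 * Real.exp (-μ - 2) * a * (X * Z) := by
    rw [hXe, haj]; ring
  rw [h2, hZ]
  have h3 : Real.exp (-μ - 2) * Real.exp μ = Real.exp (-2) := by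
    rw [← Real.exp_add]; congr 1; ring
  have h4 : 1 / 2 * Real.exp (-μ - 2) * a * (X * (cJ j * (Real.exp μ * L))) =
      1 / 2 * (Real.exp (-μ - 2) * Real.exp μ) * a * X * cJ j * L := by ring
  rw [h4, h3]
  have h5 : (1 : ℝ) / 8 ≤ Real.exp (-2) := by
    rw [Real.exp_neg, one_div]
    refine inv_anti₀ (Real.exp_pos _) ?_
    have h6 : Real.exp 2 = Real.exp 1 * Real.exp 1 := by rw [← Real.exp_add]; norm_num
    rw [h6]
    have := Real.exp_one_lt_d9
    have h7 := Real.exp_pos 1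
    nlinarith
  have h6 : (cJ j : ℝ) = (3 * j + 1) * 2 ^ (j + 6) := by unfold cJ; push_cast; ring
  have h7 : (2 : ℝ) ^ (j + 6) = 2 ^ (j + 2) * 16 := by
    rw [show j + 6 = (j + 2) + 4 by ring, pow_add]; norm_num
  rw [h6, h7]
  have h8 : 0 ≤ (3 * (j : ℝ) + 1) * (a * L) * (2 ^ (j + 2) * X) := by positivity
  nlinarith

/-- constant for the largeness condition -/
def c6 (j : ℕ) : ℕ := (3 * j + 2) * 2 * cJ j * 16 * j * 16 ^ j

/-- typical bound -/
noncomputable def rho (j : ℕ) (p L μ : ℝ) : ℝ := 2 * (16 * L) ^ j * p ^ j * Real.exp (μ + 2)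

lemma Dat.mu_le (h : Dat j p x L l μ κ a) : μ + 1 ≤ j * L := by
  have h1 := h.hc
  have h2 := h.l0
  have h3 := h.hx
  have h4 := h.jR
  have h5 := h.hL
  nlinarith

lemma Dat.R_ge (h : Dat j p x L l μ κ a) (h6 : (c6 j : ℝ) * Real.exp 2 ≤ L ^ 2) :
    (3 * j + 2) * (a * L) ≤ 1 / (8 * (μ + 1)) / rho j p L μ := by
  have hjR := h.jR
  have hL := h.hL
  have hμ := h.hμ
  have hp0 := h.p0
  have hL0 : 0 < L := by linarith
  have hρ : 0 < rho j p L μ := by unfold rho; positivity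
  rw [le_div_iff₀ hρ, le_div_iff₀ (by linarith)]
  have hμ1 := h.mu_le
  have hal := h.a_le
  have hC : (1 : ℝ) ≤ cJ j := by exact_mod_cast cJ_pos j
  have hκ1 := h.κ1
  have h1 : (3 * (j : ℝ) + 2) * (a * L) * rho j p L μ * (8 * (μ + 1)) ≤
      (3 * j + 2) * (2 * (cJ j * κ) * L) * rho j p L μ * (8 * (j * L)) := by
    gcongr
  refine h1.trans ?_
  have h2 : (3 * (j : ℝ) + 2) * (2 * (cJ j * κ) * L) * rho j p L μ * (8 * (j * L)) =
      c6 j * (κ * L ^ (j + 2) * p ^ j * Real.exp (μ + 2)) := by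
    unfold rho c6
    push_cast
    rw [mul_pow]
    ring
  rw [h2]
  have h3 : (c6 j : ℝ) ≤ Real.exp (2 * l - 2) := by
    rw [Real.exp_sub, le_div_iff₀ (Real.exp_pos 2)]
    refine h6.trans (le_of_eq ?_)
    rw [h.hl, exp_pow_nat]
    norm_num
  have h4 : κ * L ^ (j + 2) * p ^ j * Real.exp (μ + 2) =
      Real.exp ((l + μ) / (j - 1) + j / 2 * x + (j + 2) * l + j * -x + (μ + 2)) := by
    rw [h.hκ, h.hl, h.hp, exp_pow_nat, exp_pow_nat, ← Real.exp_add, ← Real.exp_add,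
      ← Real.exp_add]
    push_cast
    rfl
  have h5 : 0 ≤ κ * L ^ (j + 2) * p ^ j * Real.exp (μ + 2) := by positivity
  refine (mul_le_mul_of_nonneg_right h3 h5).trans ?_
  rw [h4, ← Real.exp_add, Real.exp_le_one_iff]
  set t := (l + μ) / (j - 1) with ht
  set s := (μ + (j + 5) * l) / (j - 1) with hs
  have hj1 : (0 : ℝ) < j - 1 := by linarith
  have h7 : (j - 1) * s = μ + (j + 5) * l := by rw [hs]; field_simp
  have h8 : t ≤ s := by
    rw [ht, hs]
    refine div_le_div_of_nonneg_right ?_ hj1.le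
    have := h.l0
    nlinarith
  have h9 : s ≤ x / 2 := by
    rw [hs, div_le_iff₀ hj1]
    have := h.hc
    linarith
  have h10 : j * s ≤ j * (x / 2) := mul_le_mul_of_nonneg_left h9 (by linarith)
  have h11 := h.l0
  nlinarith

lemma pow_bound {lam : ℕ} {ρ ζ μ : ℝ} (hlam : 1 ≤ lam) (hμ : 0 ≤ μ) (hζ : ζ = 1 / (8 * (μ + 1)))
    (h : lam * ρ ≤ ζ) (x : ℝ) (hx0 : 0 ≤ x) (hxρ : x ≤ ρ) :
    (1 / (1 - x)) ^ lam ≤ 1 + lam * (1 + 1 / (μ + 1)) * x := by
  have hlR : (1 : ℝ) ≤ lam := by exact_mod_cast hlam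
  have hρ0 : 0 ≤ ρ := hx0.trans hxρ
  have hζ8 : ζ ≤ 1 / 8 := by
    rw [hζ]
    exact one_div_le_one_div_of_le (by norm_num) (by linarith)
  have hρζ : ρ ≤ ζ := by nlinarith
  have hx2 : x ≤ 1 / 8 := by linarith
  have h1 : 1 / (1 - x) ≤ Real.exp ((1 + 2 * ρ) * x) := by
    have h2 : 1 / (1 - x) ≤ 1 + (1 + 2 * ρ) * x := by
      rw [div_le_iff₀ (by linarith)]
      have h9 : 0 ≤ 2 * ρ - x - 2 * ρ * x := by nlinarith
      nlinarith [mul_nonneg hx0 h9]
    have := Real.add_one_le_exp ((1 + 2 * ρ) * x)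
    linarith
  have h2 : 0 ≤ 1 / (1 - x) := div_nonneg zero_le_one (by linarith)
  refine (pow_le_pow_left₀ h2 h1 lam).trans ?_
  rw [exp_pow_nat]
  set y : ℝ := lam * ((1 + 2 * ρ) * x) with hy
  have hy0 : 0 ≤ y := by positivity
  have hyζ : y ≤ 2 * ζ := by
    have h3 : lam * x ≤ ζ := (mul_le_mul_of_nonneg_left hxρ (by linarith)).trans h
    have h4 : y = (lam * x) * (1 + 2 * ρ) := by rw [hy]; ring
    rw [h4]
    have : 0 ≤ lam * x := by positivity
    nlinarith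
  have h3 := (abs_le.1 (Real.abs_exp_sub_one_sub_id_le (x := y) (by
    rw [abs_of_nonneg hy0]; linarith))).2
  have h4 : Real.exp y ≤ 1 + y * (1 + y) := by nlinarith
  refine h4.trans ?_
  have h5 : y * (1 + y) ≤ y * (1 + 2 * ζ) := mul_le_mul_of_nonneg_left (by linarith) hy0
  have h6 : (1 + 2 * ρ) * (1 + 2 * ζ) ≤ 1 + 1 / (μ + 1) := by
    have h7 : 1 / (μ + 1) = 8 * ζ := by
      rw [hζ]; field_simp
    rw [h7]
    have h8 : 0 ≤ ζ := by linarith
    nlinarith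
  have h7 : y * (1 + 2 * ζ) = lam * x * ((1 + 2 * ρ) * (1 + 2 * ζ)) := by rw [hy]; ring
  have h8 : lam * x * ((1 + 2 * ρ) * (1 + 2 * ζ)) ≤ lam * x * (1 + 1 / (μ + 1)) :=
    mul_le_mul_of_nonneg_left h6 (by positivity)
  have h9 : lam * x * (1 + 1 / (μ + 1)) = lam * (1 + 1 / (μ + 1)) * x := by ring
  linarith

/-- the numbers for the covering process -/
lemma Dat.cover (h : Dat j p x L l μ κ a) (h6 : (c6 j : ℝ) * Real.exp 2 ≤ L ^ 2) {n b : ℕ}
    (hn : (n : ℝ) * p ^ j = μ) (hb : b = ⌈8 * L * p * a⌉₊) :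
    ∃ (lam : ℕ) (c : ℝ), rho j p L μ ≤ 1 / 2 ∧
      (b : ℝ) ^ j ≤ rho j p L μ * (1 / 2 * (Real.exp (-μ - 2) * (a : ℝ) ^ j)) ∧ 0 ≤ c ∧
      (∀ z : ℝ, 0 ≤ z → z ≤ rho j p L μ → (1 / (1 - z)) ^ lam ≤ 1 + c * z) ∧
      (2 * (1 / 2 * (Real.exp (-μ - 2) * (a : ℝ) ^ j)) / (a : ℝ) ^ j) ^ lam *
        (1 + c * p ^ j) ^ n ≤ Real.exp (-lam) ∧ (3 * j + 1) * (a * L) ≤ lam := by
  have hjR := h.jR
  have hL := h.hL
  have hμ := h.hμ
  have hp0 := h.p0
  have hL0 : 0 < L := by linarith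
  have ha1 : (1 : ℝ) ≤ a := by exact_mod_cast h.a1
  have hρ : 0 < rho j p L μ := by unfold rho; positivity
  have hR := h.R_ge h6
  set ζ : ℝ := 1 / (8 * (μ + 1)) with hζ
  set R : ℝ := ζ / rho j p L μ with hRdef
  have haL : 1 ≤ a * L := by nlinarith
  have hR1 : 1 ≤ R := by nlinarith
  set lam := ⌊R⌋₊ with hlam
  have hlam1 : 1 ≤ lam := Nat.le_floor (by simpa using hR1)
  have hlamR : (lam : ℝ) ≤ R := Nat.floor_le (by linarith)
  have hlamR' : R < lam + 1 := Nat.lt_floor_add_one R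
  have hlρ : lam * rho j p L μ ≤ ζ := by
    rw [hRdef, le_div_iff₀ hρ] at hlamR
    exact hlamR
  have hζ8 : ζ ≤ 1 / 8 := by
    rw [hζ]
    exact one_div_le_one_div_of_le (by norm_num) (by linarith)
  have hl1 : (1 : ℝ) ≤ lam := by exact_mod_cast hlam1
  refine ⟨lam, lam * (1 + 1 / (μ + 1)), ?_, ?_, by positivity, ?_, ?_, ?_⟩
  · nlinarith
  · have hpa : 1 ≤ p * a := by
      have h1 := h.κge
      have h2 := h.κa
      rw [h.hp]
      have h3 : Real.exp (-x) * Real.exp (3 / 2 * x) = Real.exp (x / 2) := by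
        rw [← Real.exp_add]; congr 1; ring
      have h4 : 1 ≤ Real.exp (x / 2) := by
        rw [Real.one_le_exp_iff]; linarith [h.x0]
      calc (1 : ℝ) ≤ Real.exp (-x) * Real.exp (3 / 2 * x) := by rw [h3]; exact h4
        _ ≤ Real.exp (-x) * a := mul_le_mul_of_nonneg_left (h1.trans h2) (Real.exp_pos _).le
    have hb1 : (b : ℝ) ≤ 16 * L * p * a := by
      have h1 : (b : ℝ) < 8 * L * p * a + 1 := by
        rw [hb]; exact Nat.ceil_lt_add_one (by positivity)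
      have h2 : 1 ≤ 8 * L * p * a := by
        have : 8 * L * p * a = 8 * L * (p * a) := by ring
        rw [this]; nlinarith
      nlinarith
    have h2 : (b : ℝ) ^ j ≤ (16 * L * p * a) ^ j := pow_le_pow_left₀ (by positivity) hb1 j
    refine h2.trans (le_of_eq ?_)
    unfold rho
    have h3 : Real.exp (μ + 2) * Real.exp (-μ - 2) = 1 := by
      rw [← Real.exp_add, ← Real.exp_zero]; congr 1; ring
    have h4 : 2 * (16 * L) ^ j * p ^ j * Real.exp (μ + 2) *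
        (1 / 2 * (Real.exp (-μ - 2) * (a : ℝ) ^ j)) =
        (16 * L) ^ j * p ^ j * (a : ℝ) ^ j * (Real.exp (μ + 2) * Real.exp (-μ - 2)) := by ring
    rw [h4, h3, mul_one, ← mul_pow, ← mul_pow]
  · intro z hz0 hz
    exact pow_bound hlam1 hμ hζ hlρ z hz0 hz
  · have haj : (0 : ℝ) < (a : ℝ) ^ j := by positivity
    have h1 : 2 * (1 / 2 * (Real.exp (-μ - 2) * (a : ℝ) ^ j)) / (a : ℝ) ^ j =
        Real.exp (-μ - 2) := by field_simp
    rw [h1, exp_pow_nat]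
    have h2 : (1 + lam * (1 + 1 / (μ + 1)) * p ^ j) ^ n ≤
        Real.exp (lam * (1 + 1 / (μ + 1)) * μ) := by
      have h3 : 1 + lam * (1 + 1 / (μ + 1)) * p ^ j ≤
          Real.exp (lam * (1 + 1 / (μ + 1)) * p ^ j) := by
        have := Real.add_one_le_exp (lam * (1 + 1 / (μ + 1)) * p ^ j)
        linarith
      refine (pow_le_pow_left₀ (by positivity) h3 n).trans (le_of_eq ?_)
      rw [exp_pow_nat]
      congr 1
      rw [← hn]; ring
    refine (mul_le_mul_of_nonneg_left h2 (Real.exp_pos _).le).trans ?_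
    rw [← Real.exp_add]
    refine Real.exp_le_exp.2 ?_
    have h3 : (1 + 1 / (μ + 1)) * μ ≤ μ + 1 := by
      have h4 : (1 + 1 / (μ + 1)) * μ = μ + μ / (μ + 1) := by ring
      have h5 : μ / (μ + 1) ≤ 1 := by rw [div_le_one (by linarith)]; linarith
      linarith
    have h4 := mul_le_mul_of_nonneg_left h3 (show (0 : ℝ) ≤ lam by linarith)
    nlinarith
  · have : (3 * (j : ℝ) + 2) * (a * L) = (3 * j + 1) * (a * L) + a * L := by ring
    linarith

end Pool.Agent.H977.CC
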