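import Pool.Agent.H977.CC.GoodE

/-! The structure lemma, probabilistic form. -/

open MeasureTheory ProbabilityTheory unitInterval Finset
open scoped SimpleGraph

namespace Pool.Agent.H977.CC

open Pool.Agent.V11328

/-- modulus -/
def mM (j c3 : ℕ) : ℕ := 4 * j * (c3 + 8)

/-- largeness constant -/
def qQ (j c3 : ℕ) : ℕ := 21 * 4 ^ mM j c3 + 8 * c3 + 8 + mM j c3 + c6 j * 8

/-- largeness conditions -/
structure Big (j c3 : ℕ) (x L : ℝ) : Prop where
  q1 : (qQ j c3 : ℝ) ≤ L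
  q2 : (qQ j c3 : ℝ) * L ≤ Real.exp (x / 2)

section Num

variable {j c3 n : ℕ} {p x L l μ κ : ℝ} {a : ℕ}

lemma np_exp (hn : (n : ℝ) = Real.exp L) (k : ℕ) : (n : ℝ) ^ k = Real.exp (k * L) := by
  rw [hn, exp_pow_nat]

lemma n1_exp (hn : (n : ℝ) = Real.exp L) (hL : 1 ≤ L) (k : ℕ) :
    ((n : ℝ) + 1) ^ k ≤ Real.exp (2 * L * k) := by
  have h1 : (n : ℝ) + 1 ≤ Real.exp (2 * L) := by
    have h2 : Real.exp (2 * L) = Real.exp L * Real.exp L := by rw [← Real.exp_add]; congr 1; ring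
    have h3 : 2 ≤ Real.exp L := by
      have := Real.add_one_le_exp L
      linarith
    rw [h2, hn]
    nlinarith
  refine (pow_le_pow_left₀ (by positivity) h1 k).trans (le_of_eq ?_)
  rw [exp_pow_nat]; congr 1; ring

lemma e2_le : Real.exp 2 ≤ 8 := by
  have h6 : Real.exp 2 = Real.exp 1 * Real.exp 1 := by rw [← Real.exp_add]; norm_num
  rw [h6]
  have := Real.exp_one_lt_d9
  have h7 := Real.exp_pos 1
  nlinarith

lemma Big.hc6 (hB : Big j c3 x L) : (c6 j : ℝ) * Real.exp 2 ≤ L ^ 2 := by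
  have h1 := hB.q1
  have h2 : (c6 j * 8 : ℕ) ≤ qQ j c3 := by unfold qQ; omega
  have h3 : ((c6 j * 8 : ℕ) : ℝ) ≤ (qQ j c3 : ℝ) := by exact_mod_cast h2
  push_cast at h3
  have h4 := e2_le
  have h5 : (0 : ℝ) ≤ Pool.Agent.H977.CC.c6 j := by positivity
  have h6 : (8 : ℝ) ≤ qQ j c3 := by
    have : 8 ≤ qQ j c3 := by unfold qQ; omega
    exact_mod_cast this
  have h7 : L ≤ L ^ 2 := by nlinarith
  nlinarith

lemma Big.ex (hB : Big j c3 x L) : (qQ j c3 : ℝ) ≤ Real.exp (x / 2) := by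
  have h1 := hB.q1
  have h2 := hB.q2
  have h6 : (8 : ℝ) ≤ qQ j c3 := by
    have : 8 ≤ qQ j c3 := by unfold qQ; omega
    exact_mod_cast this
  nlinarith

end Num

section Prob

variable {V : Type} [Fintype V] [DecidableEq V]
variable {j c3 : ℕ} {p : I} {x L l μ κ : ℝ} {a : ℕ}

lemma few1 (h : Dat j p x L l μ κ a) (hB : Big j c3 x L) (hc3 : 1 ≤ c3) {ε : ℝ}
    (hε : 18 ≤ c3 * ε) (hxε : ε * L ≤ x) (hn : (Fintype.card V : ℝ) = Real.exp L) :
    (G(V, p)).real {G : SimpleGraph V | ¬ Few G a ⌈c3 * Real.exp (x / 2)⌉₊ (c3 * a)} ≤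
      Real.exp (-L) := by
  have hL := h.hL
  have hc3R : (1 : ℝ) ≤ c3 := by exact_mod_cast hc3
  have ha1 : (1 : ℝ) ≤ a := by exact_mod_cast h.a1
  have hx0 := h.x0
  have hz : 1 ≤ Real.exp (x / 2) := by rw [Real.one_le_exp_iff]; linarith
  have hz0 := Real.exp_pos (x / 2)
  set m := ⌈c3 * Real.exp (x / 2)⌉₊ with hm
  have hm1 : (m : ℝ) ≤ 2 * (c3 * Real.exp (x / 2)) := by
    have h1 : (m : ℝ) < c3 * Real.exp (x / 2) + 1 := by
      rw [hm]; exact Nat.ceil_lt_add_one (by positivity)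
    have h2 : 1 ≤ c3 * Real.exp (x / 2) := by nlinarith
    linarith
  refine (few_prob p a m (c3 * a) hz).trans ?_
  rw [np_exp hn]
  have h1 := n1_exp hn hL m
  have h2 : Real.exp (a * L) * ((Fintype.card V : ℝ) + 1) ^ m *
      Real.exp ((p : ℝ) * Real.exp (x / 2) * (m * a) -
        ((c3 * a : ℕ) : ℝ) * Real.log (Real.exp (x / 2))) ≤
      Real.exp (a * L) * Real.exp (2 * L * m) *
      Real.exp ((p : ℝ) * Real.exp (x / 2) * (m * a) -
        ((c3 * a : ℕ) : ℝ) * Real.log (Real.exp (x / 2))) := by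
    refine mul_le_mul_of_nonneg_right ?_ (Real.exp_pos _).le
    exact mul_le_mul_of_nonneg_left h1 (Real.exp_pos _).le
  refine h2.trans ?_
  rw [← Real.exp_add, ← Real.exp_add, Real.log_exp]
  refine Real.exp_le_exp.2 ?_
  push_cast
  have h3 : (p : ℝ) * Real.exp (x / 2) * (m * a) ≤ 2 * c3 * a := by
    rw [h.hp]
    have h4 : Real.exp (-x) * Real.exp (x / 2) * Real.exp (x / 2) = 1 := by
      rw [← Real.exp_add, ← Real.exp_add, ← Real.exp_zero]; congr 1; ring
    have h5 : 0 ≤ Real.exp (-x) * Real.exp (x / 2) := by positivity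
    calc Real.exp (-x) * Real.exp (x / 2) * (m * a)
        ≤ Real.exp (-x) * Real.exp (x / 2) * (2 * (c3 * Real.exp (x / 2)) * a) := by gcongr
      _ = 2 * c3 * a * (Real.exp (-x) * Real.exp (x / 2) * Real.exp (x / 2)) := by ring
      _ = _ := by rw [h4, mul_one]
  have h4 : 4 * (c3 : ℝ) ≤ Real.exp (x / 2) := by
    refine le_trans ?_ hB.ex
    have : 4 * c3 ≤ qQ j c3 := by unfold qQ; omega
    exact_mod_cast this
  have h5 : 2 * (m : ℝ) ≤ a := by
    have h6 := h.κge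
    have h7 := h.κa
    have h8 : Real.exp (3 / 2 * x) = Real.exp (x / 2) * Real.exp (x / 2) * Real.exp (x / 2) := by
      rw [← Real.exp_add, ← Real.exp_add]; congr 1; ring
    have h9 : 4 * (c3 * Real.exp (x / 2)) ≤ Real.exp (x / 2) * Real.exp (x / 2) := by nlinarith
    have h10 : Real.exp (x / 2) * Real.exp (x / 2) ≤
        Real.exp (x / 2) * Real.exp (x / 2) * Real.exp (x / 2) :=
      le_mul_of_one_le_right (by positivity) hz
    linarith
  have h6 : 2 * (c3 : ℝ) ≤ L := by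
    refine le_trans ?_ hB.q1
    have : 2 * c3 ≤ qQ j c3 := by unfold qQ; omega
    exact_mod_cast this
  have h7 : 9 * L ≤ c3 * (x / 2) := by
    have : (c3 : ℝ) * (ε * L) ≤ c3 * x := mul_le_mul_of_nonneg_left hxε (by linarith)
    nlinarith
  have h8 : 2 * L * m ≤ L * a := by nlinarith
  have h9 : 2 * c3 * a ≤ L * a := mul_le_mul_of_nonneg_right h6 (by linarith)
  have h10 : a * (9 * L) ≤ a * (c3 * (x / 2)) := mul_le_mul_of_nonneg_left h7 (by linarith)
  have h11 : L ≤ a * L := by nlinarith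
  nlinarith

lemma few2 (h : Dat j p x L l μ κ a) (hB : Big j c3 x L)
    (hn : (Fintype.card V : ℝ) = Real.exp L) :
    (G(V, p)).real {G : SimpleGraph V | ¬ Few G a ⌈Real.exp x⌉₊
      (⌈Real.exp x⌉₊ * ⌈8 * L * p * a⌉₊)} ≤ Real.exp (-L) := by
  have hL := h.hL
  have ha1 : (1 : ℝ) ≤ a := by exact_mod_cast h.a1
  have hx0 := h.x0
  have hz0 := Real.exp_pos x
  have hp0 := h.p0
  have hx1 : 1 ≤ Real.exp x := by rw [Real.one_le_exp_iff]; exact hx0
  set m := ⌈Real.exp x⌉₊ with hm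
  set b := ⌈8 * L * p * a⌉₊ with hb
  have hm0 : Real.exp x ≤ m := Nat.le_ceil _
  have hb0 : 8 * L * p * a ≤ b := Nat.le_ceil _
  have hm1 : (m : ℝ) ≤ 2 * Real.exp x := by
    have h1 : (m : ℝ) < Real.exp x + 1 := by
      rw [hm]; exact Nat.ceil_lt_add_one (by positivity)
    linarith
  have hz : 1 ≤ Real.exp 2 := by rw [Real.one_le_exp_iff]; norm_num
  refine (few_prob p a m (m * b) hz).trans ?_
  rw [np_exp hn]
  have h1 := n1_exp hn hL m
  have h2 : Real.exp (a * L) * ((Fintype.card V : ℝ) + 1) ^ m *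
      Real.exp ((p : ℝ) * Real.exp 2 * (m * a) -
        ((m * b : ℕ) : ℝ) * Real.log (Real.exp 2)) ≤
      Real.exp (a * L) * Real.exp (2 * L * m) *
      Real.exp ((p : ℝ) * Real.exp 2 * (m * a) -
        ((m * b : ℕ) : ℝ) * Real.log (Real.exp 2)) := by
    refine mul_le_mul_of_nonneg_right ?_ (Real.exp_pos _).le
    exact mul_le_mul_of_nonneg_left h1 (Real.exp_pos _).le
  refine h2.trans ?_
  rw [← Real.exp_add, ← Real.exp_add, Real.log_exp]
  refine Real.exp_le_exp.2 ?_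
  push_cast
  have h3 : (p : ℝ) * Real.exp 2 * (m * a) ≤ m * b := by
    have h4 := e2_le
    have h5 : (p : ℝ) * Real.exp 2 * a ≤ b := by
      refine le_trans ?_ hb0
      have h6 : (p : ℝ) * Real.exp 2 * a ≤ p * 8 * a := by gcongr
      have h7 : (p : ℝ) * 8 * a ≤ 8 * L * p * a := by
        have : 0 ≤ (p : ℝ) * a := by positivity
        nlinarith
      linarith
    calc (p : ℝ) * Real.exp 2 * (m * a) = m * (p * Real.exp 2 * a) := by ring
      _ ≤ m * b := mul_le_mul_of_nonneg_left h5 (by positivity)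
  have h4 : 8 * (a * L) ≤ m * b := by
    have h5 : Real.exp x * (8 * L * p * a) ≤ m * b :=
      mul_le_mul hm0 hb0 (by positivity) (by positivity)
    refine le_trans (le_of_eq ?_) h5
    rw [h.hp]
    have h6 : Real.exp x * Real.exp (-x) = 1 := by
      rw [← Real.exp_add, ← Real.exp_zero]; congr 1; ring
    calc 8 * (a * L) = 8 * L * a * 1 := by ring
      _ = 8 * L * a * (Real.exp x * Real.exp (-x)) := by rw [h6]
      _ = _ := by ring
  have h5 : 2 * (m : ℝ) ≤ a := by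
    have h6 := h.κge
    have h7 := h.κa
    have h8 : Real.exp (3 / 2 * x) = Real.exp x * Real.exp (x / 2) := by
      rw [← Real.exp_add]; congr 1; ring
    have h9 : (4 : ℝ) ≤ Real.exp (x / 2) := by
      refine le_trans ?_ hB.ex
      have : 4 ≤ qQ j c3 := by unfold qQ; omega
      exact_mod_cast this
    nlinarith
  have h8 : 2 * L * m ≤ L * a := by nlinarith
  have h11 : L ≤ a * L := by nlinarith
  nlinarith

/-- `Good` holds with high probability. -/
lemma good_final (h : Dat j p x L l μ κ a) (hB : Big j c3 x L) (hc3 : 1 ≤ c3) {ε : ℝ}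
    (hε : 18 ≤ c3 * ε) (hxε : ε * L ≤ x) (hn : (Fintype.card V : ℝ) = Real.exp L)
    (hμ : (Fintype.card V : ℝ) * (p : ℝ) ^ j = μ) :
    (G(V, p)).real {G : SimpleGraph V | ¬ Good G j a (a / mM j c3 + 1)} ≤
      4 * Real.exp (-L) := by
  have hL := h.hL
  have hjR := h.jR
  have hc3R : (1 : ℝ) ≤ c3 := by exact_mod_cast hc3
  have ha1 : (1 : ℝ) ≤ a := by exact_mod_cast h.a1
  have hx0 := h.x0
  have hx1 : 1 ≤ Real.exp x := by rw [Real.one_le_exp_iff]; exact hx0
  have hxh0 := Real.exp_pos (-(x / 2))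
  have hp0 := h.p0
  set m₁ := ⌈c3 * Real.exp (x / 2)⌉₊ with hm₁
  set m₂ := ⌈Real.exp x⌉₊ with hm₂
  set b := ⌈8 * L * p * a⌉₊ with hb
  set g := ⌈Real.exp (-(x / 2)) * a⌉₊ with hg
  set M := mM j c3 with hM
  obtain ⟨lam, c, hρ, hbj, hc0, hc, hfin, hlam⟩ := h.cover hB.hc6 hμ hb
  have hm1a : c3 * Real.exp (x / 2) ≤ m₁ := Nat.le_ceil _
  have hga : Real.exp (-(x / 2)) * a ≤ g := Nat.le_ceil _
  have hee : Real.exp (x / 2) * Real.exp (-(x / 2)) = 1 := by
    rw [← Real.exp_add, ← Real.exp_zero]; congr 1; ring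
  have hs1 : c3 * a ≤ m₁ * g := by
    have h1 : ((c3 * a : ℕ) : ℝ) ≤ ((m₁ * g : ℕ) : ℝ) := by
      push_cast
      calc (c3 : ℝ) * a = (c3 * Real.exp (x / 2)) * (Real.exp (-(x / 2)) * a) := by
            calc (c3 : ℝ) * a = c3 * a * 1 := by ring
              _ = c3 * a * (Real.exp (x / 2) * Real.exp (-(x / 2))) := by rw [hee]
              _ = _ := by ring
        _ ≤ m₁ * g := mul_le_mul hm1a hga (by positivity) (by positivity)
    exact_mod_cast h1
  have hMpos : 1 ≤ M := by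
    rw [hM]; unfold mM
    have := h.hj
    exact Nat.mul_pos (by omega) (by omega)
  have hMa : M ≤ a := by
    have h1 : (M : ℝ) ≤ a := by
      have h2 : (M : ℝ) ≤ qQ j c3 := by
        have : M ≤ qQ j c3 := by rw [hM]; unfold qQ; omega
        exact_mod_cast this
      have h3 : Real.exp (x / 2) ≤ Real.exp (3 / 2 * x) := Real.exp_le_exp.2 (by linarith)
      linarith [hB.ex, h.κge, h.κa]
    exact_mod_cast h1
  have hl : 2 * ((a / M + 1) * (j * (a * (c3 * a) + m₂ * g ^ 2))) ≤ a ^ 3 := by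
    have h1 : ((a / M + 1 : ℕ) : ℝ) * M ≤ 2 * a := by
      have h2 : (a / M + 1) * M ≤ 2 * a := by
        have := Nat.div_mul_le_self a M
        nlinarith
      exact_mod_cast h2
    have h2 : (m₂ : ℝ) ≤ 2 * Real.exp x := by
      have h3 : (m₂ : ℝ) < Real.exp x + 1 := by
        rw [hm₂]; exact Nat.ceil_lt_add_one (by positivity)
      linarith
    have h3 : 1 ≤ Real.exp (-(x / 2)) * a := by
      have h4 : Real.exp (x / 2) ≤ a := by
        have h5 : Real.exp (x / 2) ≤ Real.exp (3 / 2 * x) := Real.exp_le_exp.2 (by linarith)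
        linarith [h.κge, h.κa]
      calc (1 : ℝ) = Real.exp (-(x / 2)) * Real.exp (x / 2) := by rw [mul_comm]; exact hee.symm
        _ ≤ _ := mul_le_mul_of_nonneg_left h4 (Real.exp_pos _).le
    have h4 : (g : ℝ) ≤ 2 * (Real.exp (-(x / 2)) * a) := by
      have h5 : (g : ℝ) < Real.exp (-(x / 2)) * a + 1 := by
        rw [hg]; exact Nat.ceil_lt_add_one (by positivity)
      linarith
    have h5 : (m₂ : ℝ) * (g : ℝ) ^ 2 ≤ 8 * (a : ℝ) ^ 2 := by
      have h6 : (g : ℝ) ^ 2 ≤ (2 * (Real.exp (-(x / 2)) * a)) ^ 2 :=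
        pow_le_pow_left₀ (by positivity) h4 2
      have h7 : Real.exp x * (Real.exp (-(x / 2)) * Real.exp (-(x / 2))) = 1 := by
        rw [← Real.exp_add, ← Real.exp_add, ← Real.exp_zero]; congr 1; ring
      calc (m₂ : ℝ) * (g : ℝ) ^ 2 ≤ 2 * Real.exp x * (2 * (Real.exp (-(x / 2)) * a)) ^ 2 :=
            mul_le_mul h2 h6 (by positivity) (by positivity)
        _ = 8 * (a : ℝ) ^ 2 * (Real.exp x * (Real.exp (-(x / 2)) * Real.exp (-(x / 2)))) := by ring
        _ = _ := by rw [h7, mul_one]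
    have h6 : ((2 * ((a / M + 1) * (j * (a * (c3 * a) + m₂ * g ^ 2))) : ℕ) : ℝ) ≤
        ((a ^ 3 : ℕ) : ℝ) := by
      push_cast
      have h7 : (M : ℝ) = 4 * j * (c3 + 8) := by rw [hM]; unfold mM; push_cast; ring
      have h8 : ((a / M + 1 : ℕ) : ℝ) = ((a / M : ℕ) : ℝ) + 1 := by push_cast; ring
      rw [h8] at h1
      have h9 : 0 ≤ ((a / M : ℕ) : ℝ) + 1 := by positivity
      calc 2 * ((((a / M : ℕ) : ℝ) + 1) * (j * (a * (c3 * a) + m₂ * g ^ 2)))
          ≤ 2 * ((((a / M : ℕ) : ℝ) + 1) * (j * (a * (c3 * a) + 8 * (a : ℝ) ^ 2))) := by gcongr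
        _ = ((((a / M : ℕ) : ℝ) + 1) * M) * (a : ℝ) ^ 2 / 2 := by rw [h7]; ring
        _ ≤ (2 * a) * (a : ℝ) ^ 2 / 2 := by gcongr
        _ = (a : ℝ) ^ 3 := by ring
    exact_mod_cast h6
  have hθ : 0 < 1 / 2 * (Real.exp (-μ - 2) * (a : ℝ) ^ j) := by positivity
  have hmain := good_prob (V := V) h.hj h.a1 p hs1 (le_refl (m₂ * b)) hl hθ hρ hbj hc0 hc
  refine hmain.trans ?_
  have hf1 := few1 (V := V) h hB hc3 hε hxε hn
  have hf2 := few2 (V := V) h hB hn
  have hjan := h.jan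
  have h5 : 2 * (m₂ : ℝ) ≤ a := by
    have h2 : (m₂ : ℝ) ≤ 2 * Real.exp x := by
      have h3 : (m₂ : ℝ) < Real.exp x + 1 := by
        rw [hm₂]; exact Nat.ceil_lt_add_one (by positivity)
      linarith
    have h6 := h.κge
    have h7 := h.κa
    have h8 : Real.exp (3 / 2 * x) = Real.exp x * Real.exp (x / 2) := by
      rw [← Real.exp_add]; congr 1; ring
    have h9 : (4 : ℝ) ≤ Real.exp (x / 2) := by
      refine le_trans ?_ hB.ex
      have : 4 ≤ qQ j c3 := by unfold qQ; omega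
      exact_mod_cast this
    nlinarith
  have hlast : (Fintype.card V : ℝ) ^ (a * j) * ((Fintype.card V : ℝ) + 1) ^ (j * m₂) *
      ((2 * (1 / 2 * (Real.exp (-μ - 2) * (a : ℝ) ^ j)) / (a : ℝ) ^ j) ^ lam *
        (1 + c * (p : ℝ) ^ j) ^ Fintype.card V +
      Real.exp (-(1 / 2 * (Real.exp (-μ - 2) * (a : ℝ) ^ j) * (p : ℝ) ^ (j.choose 2) /
        (2 * (1 + dsum j a p))))) ≤ 2 * Real.exp (-L) := by
    have h1 : (2 * (1 / 2 * (Real.exp (-μ - 2) * (a : ℝ) ^ j)) / (a : ℝ) ^ j) ^ lam *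
        (1 + c * (p : ℝ) ^ j) ^ Fintype.card V ≤ Real.exp (-((3 * j + 1) * (a * L))) :=
      hfin.trans (Real.exp_le_exp.2 (by linarith))
    have h2 : Real.exp (-(1 / 2 * (Real.exp (-μ - 2) * (a : ℝ) ^ j) * (p : ℝ) ^ (j.choose 2) /
        (2 * (1 + dsum j a p)))) ≤ Real.exp (-((3 * j + 1) * (a * L))) :=
      Real.exp_le_exp.2 (by linarith)
    have h3 := n1_exp hn hL (j * m₂)
    rw [np_exp hn]
    calc _ ≤ Real.exp (((a * j : ℕ) : ℝ) * L) * Real.exp (2 * L * ((j * m₂ : ℕ) : ℝ)) *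
          (Real.exp (-((3 * j + 1) * (a * L))) + Real.exp (-((3 * j + 1) * (a * L)))) := by
          have h10 : 0 ≤ (2 * (1 / 2 * (Real.exp (-μ - 2) * (a : ℝ) ^ j)) / (a : ℝ) ^ j) ^ lam *
            (1 + c * (p : ℝ) ^ j) ^ Fintype.card V := by positivity
          gcongr
      _ = 2 * Real.exp (((a * j : ℕ) : ℝ) * L + 2 * L * ((j * m₂ : ℕ) : ℝ) -
          (3 * j + 1) * (a * L)) := by
          rw [Real.exp_sub, Real.exp_add, Real.exp_neg]; ring
      _ ≤ 2 * Real.exp (-L) := by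
          refine mul_le_mul_of_nonneg_left (Real.exp_le_exp.2 ?_) (by norm_num)
          push_cast
          have h4 : 2 * L * (j * m₂) ≤ j * (a * L) := by
            have : L * j * (2 * m₂) ≤ L * j * a := mul_le_mul_of_nonneg_left h5 (by positivity)
            nlinarith
          have h11 : L ≤ a * L := by nlinarith
          nlinarith
  linarith

end Prob

end Pool.Agent.H977.CC
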