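import Pool.Agent.H977.CC.GoodF

/-! Common neighbours, and the final form of the structure lemma. -/

open MeasureTheory ProbabilityTheory unitInterval Finset
open scoped SimpleGraph

namespace Pool.Agent.H977.CC

open Pool.Agent.V11328

variable {V : Type} [Fintype V] [DecidableEq V]

lemma real_subset (p : I) {T : Finset (Sym2 V)} (hT : T ⊆ allE V) :
    (G(V, p)).real {G : SimpleGraph V | T ⊆ ed G} = (p : ℝ) ^ #T := by
  rw [real_ed, ex_subset _ hT, Finset.prod_const]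

lemma card_ew_union {X Y : Finset V} (h : Disjoint Y X) : #(Y.biUnion (ew X)) = #Y * #X := by
  rw [card_biUnion, Finset.sum_const_nat (m := #X)]
  · intro w hw
    have hwX : w ∉ X := Finset.disjoint_left.1 h hw
    unfold ew
    rw [card_image_of_injOn]
    intro v _ v' _ hvv
    have h4 : s(w, v) = s(w, v') := hvv
    rw [Sym2.eq_iff] at h4
    rcases h4 with ⟨_, h⟩ | ⟨h1, h2⟩
    · exact h
    · rw [← h1, h2]
  · intro w hw w' _ hne
    exact ew_disjoint (Finset.disjoint_left.1 h hw) hne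

lemma com_prob (p : I) (j D : ℕ) :
    (G(V, p)).real {G : SimpleGraph V | ∃ F : Finset V, #F = j ∧ D ≤ #(com G F)} ≤
      (Fintype.card V : ℝ) ^ j * ((Fintype.card V).choose D * (p : ℝ) ^ (D * j)) := by
  classical
  have hp0 : (0 : ℝ) ≤ p := p.2.1
  set FS := powersetCard j (univ : Finset V) with hFS
  set YS := powersetCard D (univ : Finset V) with hYS
  set Ev : Finset V × Finset V → Set (SimpleGraph V) := fun q =>
    {G | q.2 ⊆ com G q.1} with hEv
  have hsub : {G : SimpleGraph V | ∃ F : Finset V, #F = j ∧ D ≤ #(com G F)} ⊆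
      ⋃ q ∈ FS ×ˢ YS, Ev q := by
    intro G hG
    obtain ⟨F, hF, hD⟩ := hG
    obtain ⟨Y, hY, hYD⟩ := Finset.exists_subset_card_eq hD
    simp only [Set.mem_iUnion]
    refine ⟨(F, Y), ?_, hY⟩
    rw [mem_product, hFS, hYS, mem_powersetCard, mem_powersetCard]
    exact ⟨⟨subset_univ _, hF⟩, subset_univ _, hYD⟩
  have hev : ∀ q ∈ FS ×ˢ YS, (G(V, p)).real (Ev q) ≤ (p : ℝ) ^ (D * j) := by
    rintro ⟨F, Y⟩ hq
    rw [mem_product, hFS, hYS, mem_powersetCard, mem_powersetCard] at hq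
    obtain ⟨⟨_, hF⟩, _, hY⟩ := hq
    by_cases hd : Disjoint Y F
    · have hT : Y.biUnion (ew F) ⊆ allE V := by
        intro e he
        obtain ⟨w, hw, he⟩ := mem_biUnion.1 he
        obtain ⟨v, hv, rfl⟩ := mem_ew.1 he
        rw [mk_mem_allE]
        intro h
        exact Finset.disjoint_left.1 hd hw (h ▸ hv)
      have h1 := real_subset p hT
      rw [card_ew_union hd, hF, hY] at h1
      refine le_trans (measureReal_mono ?_ (measure_ne_top _ _)) h1.le
      intro G hG e he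
      obtain ⟨w, hw, he⟩ := mem_biUnion.1 he
      obtain ⟨v, hv, rfl⟩ := mem_ew.1 he
      exact mk_mem_ed.2 (mem_com.1 (hG hw) v hv)
    · have : Ev (F, Y) = ∅ := by
        ext G
        simp only [hEv, Set.mem_ofPred_eq, Set.mem_empty_iff_false, iff_false]
        intro h
        rw [Finset.not_disjoint_iff] at hd
        obtain ⟨v, hv, hv'⟩ := hd
        exact G.loopless.irrefl v (mem_com.1 (h hv) v hv')
      rw [this, measureReal_empty]
      positivity
  refine (measureReal_mono hsub (measure_ne_top _ _)).trans ?_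
  refine (measureReal_biUnion_finset_le _ _).trans ?_
  refine (Finset.sum_le_sum hev).trans ?_
  rw [Finset.sum_const, card_product, nsmul_eq_mul, hFS, hYS, card_powersetCard,
    card_powersetCard, card_univ, Nat.cast_mul, mul_assoc]
  refine mul_le_mul_of_nonneg_right ?_ (by positivity)
  exact_mod_cast Nat.choose_le_pow _ j

lemma choose_pow_bound {n D : ℕ} {q μ : ℝ} (hq : 0 ≤ q) (hμ : (n : ℝ) * q = μ)
    (hD : 1 ≤ D) (hDμ : Real.exp 2 * μ ≤ D) :
    (n.choose D : ℝ) * q ^ D ≤ Real.exp (-D) := by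
  have hD0 : (0 : ℝ) < D := by exact_mod_cast hD
  have hμ0 : 0 ≤ μ := by rw [← hμ]; positivity
  have h1 : (n.choose D : ℝ) ≤ (n : ℝ) ^ D / (D.factorial : ℝ) := Nat.choose_le_pow_div D n
  have h2 : (D : ℝ) ^ D / (D.factorial : ℝ) ≤ Real.exp D :=
    Real.pow_div_factorial_le_exp (D : ℝ) hD0.le D
  have h3 : (n : ℝ) ^ D / (D.factorial : ℝ) * q ^ D =
      (μ / D) ^ D * ((D : ℝ) ^ D / (D.factorial : ℝ)) := by
    rw [← hμ, div_pow, mul_pow]
    field_simp
  calc (n.choose D : ℝ) * q ^ D ≤ (n : ℝ) ^ D / (D.factorial : ℝ) * q ^ D :=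
        mul_le_mul_of_nonneg_right h1 (by positivity)
    _ = (μ / D) ^ D * ((D : ℝ) ^ D / (D.factorial : ℝ)) := h3
    _ ≤ (Real.exp (-2)) ^ D * Real.exp D := by
        refine mul_le_mul ?_ h2 (by positivity) (by positivity)
        refine pow_le_pow_left₀ (by positivity) ?_ D
        rw [div_le_iff₀ hD0]
        have h4 : Real.exp (-2) * Real.exp 2 = 1 := by
          rw [← Real.exp_add, ← Real.exp_zero]; congr 1; ring
        calc μ = Real.exp (-2) * (Real.exp 2 * μ) := by rw [← mul_assoc, h4, one_mul]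
          _ ≤ Real.exp (-2) * D := mul_le_mul_of_nonneg_left hDμ (Real.exp_pos _).le
    _ = Real.exp (-D) := by
        rw [exp_pow_nat, ← Real.exp_add]; congr 1; ring

variable {j c3 : ℕ} {p : I} {x L l μ κ : ℝ} {a : ℕ}

lemma com_final (h : Dat j p x L l μ κ a) (hn : (Fintype.card V : ℝ) = Real.exp L)
    (hμ : (Fintype.card V : ℝ) * (p : ℝ) ^ j = μ) :
    (G(V, p)).real {G : SimpleGraph V | ∃ F : Finset V, #F = j ∧ ⌈20 * j * L⌉₊ ≤ #(com G F)} ≤
      Real.exp (-L) := by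
  have hL := h.hL
  have hjR := h.jR
  have hp0 := h.p0
  set D := ⌈20 * j * L⌉₊ with hD
  have hD0 : 20 * j * L ≤ D := Nat.le_ceil _
  have hD1 : 1 ≤ D := by
    have : (1 : ℝ) ≤ D := by nlinarith
    exact_mod_cast this
  refine (com_prob p j D).trans ?_
  rw [mul_comm D j, pow_mul, np_exp hn]
  have h1 : Real.exp 2 * μ ≤ D := by
    have h2 := h.mu_le
    have h3 := e2_le
    have h4 := h.hμ
    nlinarith
  have h2 := choose_pow_bound (pow_nonneg hp0.le j) hμ hD1 h1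
  refine (mul_le_mul_of_nonneg_left h2 (Real.exp_pos _).le).trans ?_
  rw [← Real.exp_add]
  refine Real.exp_le_exp.2 ?_
  nlinarith

/-- constant in the structure lemma -/
noncomputable def c0 (j c3 : ℕ) : ℝ := 4 * j * cJ j / (1 / 2 * (4 : ℝ)⁻¹ ^ mM j c3) ^ (j - 1)

lemma c0_pos {j c3 : ℕ} (hj : 3 ≤ j) : 1 ≤ c0 j c3 := by
  unfold c0
  have h1 : (1 : ℝ) ≤ cJ j := by exact_mod_cast cJ_pos j
  have h2 : (3 : ℝ) ≤ j := by exact_mod_cast hj
  have h3 : (0 : ℝ) < (1 / 2 * (4 : ℝ)⁻¹ ^ mM j c3) ^ (j - 1) := by positivity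
  rw [le_div_iff₀ h3, one_mul]
  have h4 : (1 / 2 * (4 : ℝ)⁻¹ ^ mM j c3) ^ (j - 1) ≤ 1 := by
    refine pow_le_one₀ (by positivity) ?_
    have : (4 : ℝ)⁻¹ ^ mM j c3 ≤ 1 := pow_le_one₀ (by norm_num) (by norm_num)
    linarith
  nlinarith

/-- The structure lemma. -/
theorem struct_final [Nonempty V] (h : Dat j p x L l μ κ a) (hB : Big j c3 x L) (hc3 : 1 ≤ c3)
    {ε : ℝ} (hε : 18 ≤ c3 * ε) (hxε : ε * L ≤ x) (hn : (Fintype.card V : ℝ) = Real.exp L)
    (hμ : (Fintype.card V : ℝ) * (p : ℝ) ^ j = μ) :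
    (G(V, p)).real {G : SimpleGraph V | ¬ ∀ S, NoMax G S →
      ∃ w, (#(S \ nb G w S) : ℝ) ≤ c0 j c3 * κ} ≤ 5 * Real.exp (-L) := by
  have hL := h.hL
  have hjR := h.jR
  have hc3R : (1 : ℝ) ≤ c3 := by exact_mod_cast hc3
  have ha1 : (1 : ℝ) ≤ a := by exact_mod_cast h.a1
  have hx0 := h.x0
  set M := mM j c3 with hM
  set y : ℝ := 1 / 2 * (4 : ℝ)⁻¹ ^ M with hy
  have hy0 : 0 < y := by positivity
  have h4M : (4 : ℝ)⁻¹ ^ M ≤ 1 := pow_le_one₀ (by norm_num) (by norm_num)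
  have hy1 : 2 * y ≤ 1 := by rw [hy]; linarith
  have hκ1 := h.κ1
  have hκx := h.κge
  have hκa := h.κa
  have hxx : Real.exp (x / 2) ≤ Real.exp (3 / 2 * x) := Real.exp_le_exp.2 (by linarith)
  have hq2 := hB.q2
  have hqR : 21 * (4 : ℝ) ^ M + 8 ≤ qQ j c3 := by
    have : 21 * 4 ^ M + 8 ≤ qQ j c3 := by unfold qQ; rw [hM]; omega
    exact_mod_cast this
  have h4M1 : (1 : ℝ) ≤ 4 ^ M := one_le_pow₀ (by norm_num)
  have haq : (21 * (4 : ℝ) ^ M + 8) * L ≤ a := by
    have := mul_le_mul_of_nonneg_right hqR (show 0 ≤ L by linarith)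
    linarith
  set D := ⌈20 * j * L⌉₊ with hD
  have hD21 : (D : ℝ) ≤ 21 * j * L := by
    have h1 : (D : ℝ) < 20 * j * L + 1 := by
      rw [hD]; exact Nat.ceil_lt_add_one (by positivity)
    nlinarith
  have hDy : (D : ℝ) ≤ y * (2 * (j * a)) := by
    refine hD21.trans ?_
    have h1 : (4 : ℝ)⁻¹ ^ M * 4 ^ M = 1 := by
      rw [← mul_pow]; norm_num
    have h2 : y * (2 * (j * a)) = j * ((4 : ℝ)⁻¹ ^ M * a) := by rw [hy]; ring
    rw [h2]
    have h3 : 21 * L ≤ (4 : ℝ)⁻¹ ^ M * a := by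
      have h4 : 21 * (4 : ℝ) ^ M * L ≤ a := by nlinarith
      calc 21 * L = (4 : ℝ)⁻¹ ^ M * 4 ^ M * (21 * L) := by rw [h1, one_mul]
        _ = (4 : ℝ)⁻¹ ^ M * (21 * 4 ^ M * L) := by ring
        _ ≤ (4 : ℝ)⁻¹ ^ M * a := mul_le_mul_of_nonneg_left h4 (by positivity)
    nlinarith
  have hMpos : 1 ≤ M := by
    rw [hM]; unfold mM
    have := h.hj
    exact Nat.mul_pos (by omega) (by omega)
  have hnum : (Fintype.card V : ℝ) * (2 ^ a * (2 * y) ^ (a / M + 1)) < 1 := by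
    have h1 : 2 * y = (4 : ℝ)⁻¹ ^ M := by rw [hy]; ring
    rw [h1, ← pow_mul]
    have h2 : a ≤ M * (a / M + 1) := by
      have := Nat.lt_mul_div_succ a (show 0 < M by omega)
      exact this.le
    have h3 : (4 : ℝ)⁻¹ ^ (M * (a / M + 1)) ≤ (4 : ℝ)⁻¹ ^ a :=
      pow_le_pow_of_le_one (by norm_num) (by norm_num) h2
    have h4 : (2 : ℝ) ^ a * (4 : ℝ)⁻¹ ^ a = (2 : ℝ)⁻¹ ^ a := by
      rw [← mul_pow]; norm_num
    have h5 : (2 : ℝ) ^ a * (4 : ℝ)⁻¹ ^ (M * (a / M + 1)) ≤ (2 : ℝ)⁻¹ ^ a := by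
      rw [← h4]; exact mul_le_mul_of_nonneg_left h3 (by positivity)
    have h6 : (2 : ℝ)⁻¹ ^ a < Real.exp (-L) := by
      have h7 : (2 : ℝ)⁻¹ = Real.exp (-Real.log 2) := by
        rw [Real.exp_neg, Real.exp_log (by norm_num)]
      rw [h7, exp_pow_nat]
      refine Real.exp_lt_exp.2 ?_
      have h8 := Real.log_two_gt_d9
      have h9 : 2 * L ≤ a := by nlinarith
      nlinarith
    rw [hn]
    calc Real.exp L * (2 ^ a * (4 : ℝ)⁻¹ ^ (M * (a / M + 1))) ≤ Real.exp L * (2 : ℝ)⁻¹ ^ a :=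
          mul_le_mul_of_nonneg_left h5 (Real.exp_pos _).le
      _ < Real.exp L * Real.exp (-L) := mul_lt_mul_of_pos_left h6 (Real.exp_pos _)
      _ = 1 := by rw [← Real.exp_add, ← Real.exp_zero]; congr 1; ring
  have hs₀ : 2 * ((j : ℝ) * a) ≤ y ^ (j - 1) * (c0 j c3 * κ) := by
    unfold c0
    rw [← hM, ← hy]
    have h1 : y ^ (j - 1) * (4 * j * cJ j / y ^ (j - 1) * κ) = 4 * j * (cJ j * κ) := by
      have : y ^ (j - 1) ≠ 0 := by positivity
      field_simp
    rw [h1]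
    have := h.a_le
    nlinarith
  have hsub : {G : SimpleGraph V | ¬ ∀ S, NoMax G S → ∃ w, (#(S \ nb G w S) : ℝ) ≤ c0 j c3 * κ} ⊆
      {G : SimpleGraph V | ¬ Good G j a (a / M + 1)} ∪
      {G : SimpleGraph V | ∃ F : Finset V, #F = j ∧ D ≤ #(com G F)} := by
    intro G hG
    by_contra hcon
    rw [Set.mem_union, not_or] at hcon
    obtain ⟨h1, h2⟩ := hcon
    simp only [Set.mem_ofPred_eq, not_not] at h1
    simp only [Set.mem_ofPred_eq, not_exists, not_and, not_le] at h2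
    apply hG
    intro S hS
    exact struct_det G (by have := h.hj; omega) h.a1 hy0 hy1 h2 hDy hnum h1 hs₀ S hS
  refine (measureReal_mono hsub (measure_ne_top _ _)).trans ?_
  refine (measureReal_union_le _ _).trans ?_
  have h1 := good_final (V := V) h hB hc3 hε hxε hn hμ
  have h2 := com_final (V := V) h hn hμ
  linarith

end Pool.Agent.H977.CC
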