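import Pool.Agent.H977.CC.CovA

/-! Upper bound: blockers, deterministic part. -/

open MeasureTheory ProbabilityTheory unitInterval Finset
open scoped SimpleGraph

namespace Pool.Agent.H977.CC

open Pool.Agent.V11328

section Gen

variable {V : Type*} [Fintype V] [DecidableEq V]

lemma chiC_le_type (G : SimpleGraph V) {ι : Type*} [Fintype ι] (c : V → ι)
    (h : ∀ S : Finset V, (∃ i, ∀ v ∈ S, c v = i) → NoMax G S) : chiC G ≤ Fintype.card ι := by
  classical
  refine chiC_le G (fun v => Fintype.equivFin ι (c v)) fun i => h _ ⟨(Fintype.equivFin ι).symm i, ?_⟩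
  intro v hv
  rw [mem_filter] at hv
  rw [← hv.2, Equiv.symm_apply_apply]

/-- A family of nonempty sets without `a` disjoint members has a small transversal. -/
lemma transversal (𝓕 : Finset (Finset V)) {a t : ℕ} (ht : ∀ F ∈ 𝓕, #F = t) (ht1 : 1 ≤ t)
    (hno : ∀ 𝓜 ⊆ 𝓕, #𝓜 = a → ¬ (∀ K ∈ 𝓜, ∀ K' ∈ 𝓜, K ≠ K' → Disjoint K K')) :
    ∃ B : Finset V, #B ≤ a * t ∧ (B ⊆ 𝓕.biUnion id) ∧ ∀ F ∈ 𝓕, ∃ v ∈ F, v ∈ B := by
  classical
  set S := 𝓕.powerset.filter (fun 𝓜 => ∀ K ∈ 𝓜, ∀ K' ∈ 𝓜, K ≠ K' → Disjoint K K') with hS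
  have hne : S.Nonempty := ⟨∅, by rw [hS, mem_filter]; simp⟩
  obtain ⟨𝓜, h𝓜, hmax⟩ := S.exists_max_image card hne
  rw [hS, mem_filter, mem_powerset] at h𝓜
  have hlt : #𝓜 < a := by
    by_contra hge
    push Not at hge
    obtain ⟨𝓜', h1, h2⟩ := Finset.exists_subset_card_eq hge
    exact hno 𝓜' (h1.trans h𝓜.1) h2 (fun K hK K' hK' => h𝓜.2 K (h1 hK) K' (h1 hK'))
  refine ⟨𝓜.biUnion id, ?_, Finset.biUnion_subset_biUnion_of_subset_left _ h𝓜.1, ?_⟩
  · refine card_biUnion_le.trans ?_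
    refine (Finset.sum_le_card_nsmul _ _ t fun K hK => (ht K (h𝓜.1 hK)).le).trans ?_
    rw [smul_eq_mul]
    exact Nat.mul_le_mul_right t hlt.le
  · intro F hF
    by_contra hcon
    push Not at hcon
    have hF𝓜 : F ∉ 𝓜 := by
      intro h
      have hFne : F.Nonempty := by rw [← card_pos, ht F hF]; omega
      obtain ⟨v, hv⟩ := hFne
      exact hcon v hv (mem_biUnion.2 ⟨F, h, hv⟩)
    have hd : ∀ K ∈ 𝓜, Disjoint F K := by
      intro K hK
      rw [Finset.disjoint_left]
      intro v hv hvK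
      exact hcon v hv (mem_biUnion.2 ⟨K, hK, hvK⟩)
    have h1 : insert F 𝓜 ∈ S := by
      rw [hS, mem_filter, mem_powerset]
      refine ⟨Finset.insert_subset hF h𝓜.1, ?_⟩
      intro K hK K' hK' hne
      rcases mem_insert.1 hK with hKF | hK1
      · rcases mem_insert.1 hK' with hKF' | hK1'
        · exact absurd (hKF.trans hKF'.symm) hne
        · rw [hKF]; exact hd K' hK1'
      · rcases mem_insert.1 hK' with hKF' | hK1'
        · rw [hKF']; exact (hd K hK1).symm
        · exact h𝓜.2 K hK1 K' hK1' hne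
    have h2 := hmax _ h1
    rw [card_insert_of_notMem hF𝓜] at h2
    omega

/-- Colouring a digraph of small out-degree. -/
lemma digraph_colour (B : V → Finset V) {d : ℕ} (hB : ∀ v, #(B v) ≤ d) (S : Finset V) :
    ∃ c : V → Fin (2 * d + 1), ∀ v ∈ S, ∀ u ∈ B v, u ∈ S → u ≠ v → c u ≠ c v := by
  classical
  induction S using Finset.strongInduction with
  | _ S ih =>
    rcases S.eq_empty_or_nonempty with rfl | hne
    · exact ⟨fun _ => 0, by simp⟩
    · -- a vertex of small in-degree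
      have hin : ∃ v ∈ S, #(S.filter (fun u => v ∈ B u)) ≤ d := by
        by_contra hcon
        push Not at hcon
        have h1 : ∑ v ∈ S, #(S.filter (fun u => v ∈ B u)) = ∑ u ∈ S, #(S.filter (fun v => v ∈ B u)) := by
          simp only [Finset.card_filter]
          exact Finset.sum_comm
        have h2 : ∑ u ∈ S, #(S.filter (fun v => v ∈ B u)) ≤ #S * d := by
          rw [← smul_eq_mul]
          refine Finset.sum_le_card_nsmul S _ d fun u _ => ?_
          refine le_trans (card_le_card ?_) (hB u)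
          intro v hv
          exact (mem_filter.1 hv).2
        have h3 : #S * (d + 1) ≤ ∑ v ∈ S, #(S.filter (fun u => v ∈ B u)) := by
          rw [← smul_eq_mul]
          exact Finset.card_nsmul_le_sum S _ (d + 1) fun v hv => hcon v hv
        have h4 : 0 < #S := card_pos.2 hne
        nlinarith
      obtain ⟨v, hv, hvd⟩ := hin
      obtain ⟨c, hc⟩ := ih (S.erase v) (Finset.erase_ssubset hv)
      have hfree : ∃ γ : Fin (2 * d + 1), γ ∉ (B v ∪ S.filter (fun u => v ∈ B u)).image c := by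
        by_contra hcon
        push Not at hcon
        have h1 : (univ : Finset (Fin (2 * d + 1))) ⊆
            (B v ∪ S.filter (fun u => v ∈ B u)).image c := fun γ _ => hcon γ
        have h2 := card_le_card h1
        rw [card_univ, Fintype.card_fin] at h2
        have h3 := (card_image_le (s := B v ∪ S.filter (fun u => v ∈ B u)) (f := c))
        have h4 := card_union_le (B v) (S.filter (fun u => v ∈ B u))
        have h5 := hB v
        omega
      obtain ⟨γ, hγ⟩ := hfree
      refine ⟨Function.update c v γ, ?_⟩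
      intro w hw u hu huS hne'
      by_cases hwv : w = v
      · subst hwv
        rw [Function.update_self, Function.update_of_ne hne']
        intro h
        exact hγ (mem_image.2 ⟨u, mem_union_left _ hu, h⟩)
      · by_cases huv : u = v
        · subst huv
          rw [Function.update_self, Function.update_of_ne hwv]
          intro h
          exact hγ (mem_image.2 ⟨w, mem_union_right _ (mem_filter.2 ⟨hw, hu⟩), h.symm⟩)
        · rw [Function.update_of_ne huv, Function.update_of_ne hwv]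
          exact hc w (mem_erase.2 ⟨hwv, hw⟩) u hu (mem_erase.2 ⟨huv, huS⟩) hne'

end Gen

section Chunk

variable {n : ℕ}

/-- Index of the chunk of `v`. -/
def ch (R : Finset (Fin n)) (s : ℕ) (v : Fin n) : ℕ := #(R.filter (· < v)) / s

/-- Chunk of `v` in `R`. -/
def chs (R : Finset (Fin n)) (s : ℕ) (v : Fin n) : Finset (Fin n) :=
  R.filter (fun u => ch R s u = ch R s v)

lemma rank_inj {R : Finset (Fin n)} {u v : Fin n} (hu : u ∈ R) (hv : v ∈ R)
    (h : #(R.filter (· < u)) = #(R.filter (· < v))) : u = v := by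
  by_contra hne
  rcases lt_or_gt_of_ne hne with hlt | hlt
  · have h1 : R.filter (· < u) ⊂ R.filter (· < v) := by
      rw [Finset.ssubset_iff_of_subset]
      · exact ⟨u, mem_filter.2 ⟨hu, hlt⟩, fun h => lt_irrefl u (mem_filter.1 h).2⟩
      · intro w hw
        rw [mem_filter] at hw ⊢
        exact ⟨hw.1, hw.2.trans hlt⟩
    have := card_lt_card h1
    omega
  · have h1 : R.filter (· < v) ⊂ R.filter (· < u) := by
      rw [Finset.ssubset_iff_of_subset]
      · exact ⟨v, mem_filter.2 ⟨hv, hlt⟩, fun h => lt_irrefl v (mem_filter.1 h).2⟩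
      · intro w hw
        rw [mem_filter] at hw ⊢
        exact ⟨hw.1, hw.2.trans hlt⟩
    have := card_lt_card h1
    omega

lemma chs_card {R : Finset (Fin n)} {s : ℕ} (hs : 1 ≤ s) (v : Fin n) : #(chs R s v) ≤ s := by
  have h1 : #(chs R s v) = #((chs R s v).image (fun u => #(R.filter (· < u)))) := by
    rw [card_image_of_injOn]
    intro u hu w hw h
    exact rank_inj (mem_filter.1 hu).1 (mem_filter.1 hw).1 h
  have h2 : (chs R s v).image (fun u => #(R.filter (· < u))) ⊆
      Finset.Ico (ch R s v * s) (ch R s v * s + s) := by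
    intro m hm
    obtain ⟨u, hu, rfl⟩ := mem_image.1 hm
    unfold chs at hu
    rw [mem_filter] at hu
    have h3 : #(R.filter (· < u)) / s = ch R s v := hu.2
    rw [mem_Ico]
    rw [← h3]
    constructor
    · exact Nat.div_mul_le_self _ _
    · have := Nat.lt_div_mul_add (a := #(R.filter (· < u))) (show 0 < s by omega)
      exact this
  rw [h1]
  refine (card_le_card h2).trans ?_
  rw [Nat.card_Ico]
  omega

lemma ch_lt {R : Finset (Fin n)} (s : ℕ) {v : Fin n} (hv : v ∈ R) : ch R s v < #R / s + 1 := by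
  have h1 : #(R.filter (· < v)) ≤ #R := card_filter_le _ _
  unfold ch
  exact Nat.lt_succ_of_le (Nat.div_le_div_right h1)

variable (G : SimpleGraph (Fin n))

/-- No `a` cliques of size `t` through a vertex, disjoint otherwise and inside a chunk, all of
them satisfying `Q`. -/
def NoConf (R : Finset (Fin n)) (s a t : ℕ) (Q : Finset (Fin n) → Prop) : Prop :=
  ∀ v ∈ R, ∀ 𝓜 : Finset (Finset (Fin n)), #𝓜 = a →
    (∀ K ∈ 𝓜, #K + 1 = t ∧ v ∉ K ∧ K ⊆ chs R s v) →
    (∀ K ∈ 𝓜, ∀ K' ∈ 𝓜, K ≠ K' → Disjoint K K') →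
    ¬ ∀ K ∈ 𝓜, prs (insert v K) ⊆ ed G ∧ Q (insert v K)

open Classical in
lemma blockers {R : Finset (Fin n)} {s a t : ℕ} {Q : Finset (Fin n) → Prop} (ht : 2 ≤ t)
    (h : NoConf G R s a t Q) (v : Fin n) (hv : v ∈ R) :
    ∃ B : Finset (Fin n), #B ≤ a * t ∧ ∀ K : Finset (Fin n), #K = t → v ∈ K →
      K ⊆ chs R s v → prs K ⊆ ed G → Q K → ∃ u ∈ K, u ∈ B ∧ u ≠ v := by
  set 𝓕 := (powersetCard (t - 1) ((chs R s v).erase v)).filter
    (fun K => prs (insert v K) ⊆ ed G ∧ Q (insert v K)) with h𝓕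
  obtain ⟨B, hB, _, hB2⟩ := transversal 𝓕 (a := a) (t := t - 1) (fun F hF => by
    rw [h𝓕, mem_filter, mem_powersetCard] at hF
    exact hF.1.2) (by omega) (fun 𝓜 h𝓜 hc hd => by
    refine h v hv 𝓜 hc (fun K hK => ?_) hd (fun K hK => ?_)
    · have h1 := h𝓜 hK
      rw [h𝓕, mem_filter, mem_powersetCard] at h1
      refine ⟨by omega, fun hvK => ?_, h1.1.1.trans (erase_subset _ _)⟩
      exact (mem_erase.1 (h1.1.1 hvK)).1 rfl
    · have h1 := h𝓜 hK
      rw [h𝓕, mem_filter] at h1
      exact h1.2)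
  refine ⟨B, hB.trans (Nat.mul_le_mul_left a (by omega)), ?_⟩
  intro K hKt hvK hKc hKG hKQ
  have h1 : K.erase v ∈ 𝓕 := by
    rw [h𝓕, mem_filter, mem_powersetCard, Finset.insert_erase hvK]
    exact ⟨⟨Finset.erase_subset_erase v hKc, by rw [card_erase_of_mem hvK, hKt]⟩, hKG, hKQ⟩
  obtain ⟨u, hu, huB⟩ := hB2 _ h1
  exact ⟨u, (mem_erase.1 hu).2, huB, (mem_erase.1 hu).1⟩

lemma clique_prs {K : Finset (Fin n)} (h : ∀ x ∈ K, ∀ y ∈ K, x ≠ y → G.Adj x y) :
    prs K ⊆ ed G := by
  intro e he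
  obtain ⟨x, hx, y, hy, hxy, rfl⟩ := mem_prs.1 he
  exact mk_mem_ed.2 (h x hx y hy hxy)

/-- Deterministic upper bound. -/
theorem upper_det {X : Finset (Fin n)} {s a j : ℕ} (hj : 2 ≤ j) (hjn : j ≤ n)
    (H0 : ∀ F : Finset (Fin n), #F = j - 1 → (com G F).Nonempty)
    (HA : NoConf G (far (ed G) X) s a (j + 1) (fun _ => True))
    (HB : NoConf G (far (ed G) X) s a j (fun K => ∀ w, w ∉ K → ∃ x ∈ K, ¬ G.Adj w x)) :
    chiC G ≤ #X + (1 + (#(far (ed G) X) / s + 1) * (2 * (a * (j + 1) + a * j) + 1)) := by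
  classical
  set R := far (ed G) X with hR
  have hBA : ∀ v, ∃ B : Finset (Fin n), #B ≤ a * (j + 1) + a * j ∧ (v ∈ R →
      (∀ K : Finset (Fin n), #K = j + 1 → v ∈ K → K ⊆ chs R s v → prs K ⊆ ed G →
        ∃ u ∈ K, u ∈ B ∧ u ≠ v) ∧
      (∀ K : Finset (Fin n), #K = j → v ∈ K → K ⊆ chs R s v → prs K ⊆ ed G →
        (∀ w, w ∉ K → ∃ x ∈ K, ¬ G.Adj w x) → ∃ u ∈ K, u ∈ B ∧ u ≠ v)) := by
    intro v
    by_cases hv : v ∈ R
    · obtain ⟨B₁, h1, h2⟩ := blockers G (by omega) HA v hv
      obtain ⟨B₂, h3, h4⟩ := blockers G (by omega) HB v hv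
      refine ⟨B₁ ∪ B₂, (card_union_le _ _).trans (by omega), fun _ => ⟨?_, ?_⟩⟩
      · intro K hK hvK hKc hKG
        obtain ⟨u, hu, hu1, hu2⟩ := h2 K hK hvK hKc hKG trivial
        exact ⟨u, hu, mem_union_left _ hu1, hu2⟩
      · intro K hK hvK hKc hKG hm
        obtain ⟨u, hu, hu1, hu2⟩ := h4 K hK hvK hKc hKG hm
        exact ⟨u, hu, mem_union_right _ hu1, hu2⟩
    · exact ⟨∅, by simp, fun h => absurd h hv⟩
  choose B hBc hBv using hBA
  obtain ⟨c', hc'⟩ := digraph_colour B hBc univ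
  have hchs : ∀ v ∈ R, ch R s v < #R / s + 1 := fun v hv => ch_lt s hv
  set c : Fin n → ↥X ⊕ (Fin 1 ⊕ (Fin (#R / s + 1) × Fin (2 * (a * (j + 1) + a * j) + 1))) :=
    fun v => if h : ∃ x, x ∈ X ∧ G.Adj x v then Sum.inl ⟨h.choose, h.choose_spec.1⟩
      else if h' : v ∈ R then Sum.inr (Sum.inr (⟨ch R s v, hchs v h'⟩, c' v))
      else Sum.inr (Sum.inl 0) with hc
  have hcard : Fintype.card (↥X ⊕ (Fin 1 ⊕ (Fin (#R / s + 1) ×
      Fin (2 * (a * (j + 1) + a * j) + 1)))) =
      #X + (1 + (#R / s + 1) * (2 * (a * (j + 1) + a * j) + 1)) := by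
    simp
  rw [← hcard]
  refine chiC_le_type G c ?_
  rintro S ⟨i, hi⟩ K hKS ⟨hcl, hK2, hmx⟩
  have hiK : ∀ v ∈ K, c v = i := fun v hv => hi v (hKS hv)
  obtain ⟨x₀, hx₀, y₀, hy₀, hxy₀⟩ := Finset.one_lt_card.1 hK2
  rcases i with ⟨x, hx⟩ | i
  · -- class inside a neighbourhood
    have hadj : ∀ v ∈ K, G.Adj x v := by
      intro v hv
      have h1 := hiK v hv
      simp only [hc] at h1
      by_cases h : ∃ x, x ∈ X ∧ G.Adj x v
      · rw [dif_pos h] at h1
        have h2 : h.choose = x := congrArg Subtype.val (Sum.inl.inj h1)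
        rw [← h2]
        exact h.choose_spec.2
      · rw [dif_neg h] at h1
        split_ifs at h1
    have hxK : x ∉ K := fun h => G.loopless.irrefl x (hadj x h)
    obtain ⟨y, hy, hny⟩ := hmx x hxK
    exact hny (hadj y hy)
  · have hnX : ∀ v ∈ K, ¬ ∃ x, x ∈ X ∧ G.Adj x v := by
      intro v hv h
      have h1 := hiK v hv
      simp only [hc] at h1
      rw [dif_pos h] at h1
      simp at h1
    rcases i with i | ⟨i, γ⟩
    · -- independent class
      have hX : ∀ v ∈ K, v ∈ X := by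
        intro v hv
        have h1 := hiK v hv
        simp only [hc] at h1
        rw [dif_neg (hnX v hv)] at h1
        by_contra hvX
        have hvR : v ∈ R := by
          rw [hR, mem_far]
          refine ⟨hvX, fun x hx h => hnX v hv ⟨x, hx, ?_⟩⟩
          exact (mk_mem_ed.1 h).symm
        rw [dif_pos hvR] at h1
        simp at h1
      exact hnX y₀ hy₀ ⟨x₀, hX x₀ hx₀, hcl x₀ hx₀ y₀ hy₀ hxy₀⟩
    · have hR' : ∀ v ∈ K, v ∈ R ∧ ch R s v = i ∧ c' v = γ := by
        intro v hv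
        have h1 := hiK v hv
        simp only [hc] at h1
        rw [dif_neg (hnX v hv)] at h1
        by_cases hvR : v ∈ R
        · rw [dif_pos hvR] at h1
          have h2 := Sum.inr.inj (Sum.inr.inj h1)
          rw [Prod.mk.injEq] at h2
          refine ⟨hvR, ?_, h2.2⟩
          rw [← h2.1]
        · rw [dif_neg hvR] at h1
          simp at h1
      have hKc : ∀ v ∈ K, K ⊆ chs R s v := by
        intro v hv u hu
        unfold chs
        rw [mem_filter]
        exact ⟨(hR' u hu).1, (hR' u hu).2.1.trans (hR' v hv).2.1.symm⟩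
      have hcol : ∀ v ∈ K, ∀ u ∈ K, u ∈ B v → u ≠ v → False := by
        intro v hv u hu huB hne
        exact hc' v (mem_univ v) u huB (mem_univ u) hne
          ((hR' u hu).2.2.trans (hR' v hv).2.2.symm)
      -- size of `K`
      have hKj : j ≤ #K := by
        by_contra hlt
        push Not at hlt
        obtain ⟨F, hKF, hF⟩ := Finset.exists_superset_card_eq (s := K) (n := j - 1) (by omega)
          (by rw [Fintype.card_fin]; omega)
        obtain ⟨w, hw⟩ := H0 F hF
        rw [mem_com] at hw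
        have hwK : w ∉ K := fun h => G.loopless.irrefl w (hw w (hKF h))
        obtain ⟨x, hx, hnx⟩ := hmx w hwK
        exact hnx (hw x (hKF hx))
      rcases hKj.eq_or_lt with heq | hlt
      · obtain ⟨u, hu, huB, hne⟩ := (hBv x₀ (hR' x₀ hx₀).1).2 K heq.symm hx₀ (hKc x₀ hx₀)
          (clique_prs G hcl) hmx
        exact hcol x₀ hx₀ u hu huB hne
      · obtain ⟨K', hK'1, hK'2, hK'3⟩ := Finset.exists_subsuperset_card_eq
          (s := {x₀}) (t := K) (n := j + 1) (by simpa using hx₀) (by simp) hlt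
        obtain ⟨u, hu, huB, hne⟩ := (hBv x₀ (hR' x₀ hx₀).1).1 K' hK'3
          (hK'1 (mem_singleton_self x₀)) (hK'2.trans (hKc x₀ hx₀))
          (clique_prs G fun x hx y hy => hcl x (hK'2 hx) y (hK'2 hy))
        exact hcol x₀ hx₀ u (hK'2 hu) huB hne

end Chunk

end Pool.Agent.H977.CC
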