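import Pool.Agent.H977.CC.UpA

/-! Upper bound: probability of bad configurations. -/

open MeasureTheory ProbabilityTheory unitInterval Finset
open scoped SimpleGraph

namespace Pool.Agent.H977.CC

open Pool.Agent.V11328

section One

variable {V : Type} [Fintype V] [DecidableEq V]

/-- Vertices of the configuration. -/
def vs (v : V) (𝓜 : Finset (Finset V)) : Finset V := insert v (𝓜.biUnion id)

lemma sub_vs {v : V} {𝓜 : Finset (Finset V)} {K : Finset V} (hK : K ∈ 𝓜) :
    insert v K ⊆ vs v 𝓜 := by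
  intro x hx
  unfold vs
  rcases mem_insert.1 hx with rfl | hx
  · exact mem_insert_self _ _
  · exact mem_insert_of_mem (mem_biUnion.2 ⟨K, hK, hx⟩)

lemma card_im {Y : Finset V} {w : V} (hw : w ∉ Y) (Z : Finset V) (hZ : Z ⊆ Y) :
    #(Z.image (fun x => s(w, x))) = #Z := by
  rw [card_image_of_injOn]
  intro v hv v' hv' hvv
  have h4 : s(w, v) = s(w, v') := hvv
  rw [Sym2.eq_iff] at h4
  rcases h4 with ⟨_, h⟩ | ⟨h1, h2⟩
  · exact h
  · exact absurd (hZ (h1 ▸ hv')) hw

/-- Probability that `w` covers none of the cliques. -/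
lemma nocover_prob {p : ℝ} (h0 : 0 ≤ p) (h1 : p ≤ 1) {v w : V} {𝓜 : Finset (Finset V)} {a t : ℕ}
    (ha : #𝓜 = a) (ht : ∀ K ∈ 𝓜, #K + 1 = t) (hv : ∀ K ∈ 𝓜, v ∉ K)
    (hd : ∀ K ∈ 𝓜, ∀ K' ∈ 𝓜, K ≠ K' → Disjoint K K') (hw : w ∉ vs v 𝓜) :
    ex (fun _ => p) (ew (vs v 𝓜) w)
      (fun S => if ∀ K ∈ 𝓜, ∃ x ∈ insert v K, s(w, x) ∉ S then 1 else 0) ≤
      1 - a * p ^ t + (a : ℝ) ^ 2 / 2 * p ^ (2 * t - 1) := by
  classical
  set C : Finset V → Finset (Sym2 V) := fun K => (insert v K).image (fun x => s(w, x)) with hC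
  have hCsub : ∀ K ∈ 𝓜, C K ⊆ ew (vs v 𝓜) w := by
    intro K hK e he
    obtain ⟨x, hx, rfl⟩ := mem_image.1 he
    exact mem_ew.2 ⟨x, sub_vs hK hx, rfl⟩
  have hCc : ∀ K ∈ 𝓜, #(C K) = t := by
    intro K hK
    simp only [hC]
    rw [card_im hw _ (sub_vs hK), card_insert_of_notMem (hv K hK), ht K hK]
  have hCu : ∀ K ∈ 𝓜, ∀ K' ∈ 𝓜, K ≠ K' → #(C K ∪ C K') = 2 * t - 1 := by
    intro K hK K' hK' hne
    have h2 : C K ∪ C K' = (insert v (K ∪ K')).image (fun x => s(w, x)) := by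
      simp only [hC]
      rw [← Finset.image_union]
      congr 1
      ext x; simp only [mem_union, mem_insert]; tauto
    rw [h2, card_im hw _ (by
      intro x hx
      rcases mem_insert.1 hx with rfl | hx
      · exact sub_vs hK (mem_insert_self _ _)
      · rcases mem_union.1 hx with hx | hx
        · exact sub_vs hK (mem_insert_of_mem hx)
        · exact sub_vs hK' (mem_insert_of_mem hx)), card_insert_of_notMem, card_union_of_disjoint
        (hd K hK K' hK' hne)]
    · have h3 := ht K hK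
      have h4 := ht K' hK'
      omega
    · rw [mem_union, not_or]
      exact ⟨hv K hK, hv K' hK'⟩
  set Ind : Finset V → Finset (Sym2 V) → ℝ := fun K S => if C K ⊆ S then 1 else 0 with hI
  have hpt : ∀ S ⊆ ew (vs v 𝓜) w,
      (if ∀ K ∈ 𝓜, ∃ x ∈ insert v K, s(w, x) ∉ S then (1 : ℝ) else 0) ≤
      (1 - ∑ K ∈ 𝓜, Ind K S) + (1 / 2) * ∑ q ∈ 𝓜.offDiag, (if C q.1 ∪ C q.2 ⊆ S then 1 else 0) := by
    intro S _
    set N := #(𝓜.filter (fun K => C K ⊆ S)) with hN
    have e1 : ∑ K ∈ 𝓜, Ind K S = N := by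
      simp only [hI]
      rw [← Finset.sum_filter, Finset.sum_const, nsmul_eq_mul, mul_one]
    have e2 : ∑ q ∈ 𝓜.offDiag, (if C q.1 ∪ C q.2 ⊆ S then (1 : ℝ) else 0) = N * N - N := by
      rw [← Finset.sum_filter, Finset.sum_const, nsmul_eq_mul, mul_one]
      have h2 : 𝓜.offDiag.filter (fun q => C q.1 ∪ C q.2 ⊆ S) =
          (𝓜.filter (fun K => C K ⊆ S)).offDiag := by
        ext q
        simp only [mem_filter, mem_offDiag, Finset.union_subset_iff]
        tauto
      rw [h2, offDiag_card, Nat.cast_sub (Nat.le_mul_self _)]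
      push_cast
      rfl
    rw [e1, e2]
    split_ifs with h
    · have h3 : N = 0 := by
        rw [hN, card_eq_zero, Finset.filter_eq_empty_iff]
        intro K hK hsub
        obtain ⟨x, hx, hxS⟩ := h K hK
        exact hxS (hsub (mem_image.2 ⟨x, hx, rfl⟩))
      rw [h3]; norm_num
    · have h3 : 1 ≤ N := by
        push Not at h
        obtain ⟨K, hK, hKS⟩ := h
        rw [hN, Nat.one_le_iff_ne_zero, ne_eq, card_eq_zero, ← ne_eq, ← nonempty_iff_ne_empty]
        refine ⟨K, mem_filter.2 ⟨hK, ?_⟩⟩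
        intro e he
        obtain ⟨x, hx, rfl⟩ := mem_image.1 he
        exact hKS x hx
      have h4 : (0 : ℝ) ≤ ((N : ℝ) - 1) * (N - 2) := by
        rcases Nat.lt_or_ge N 2 with h5 | h5
        · have : N = 1 := by omega
          rw [this]; norm_num
        · have h6 : (2 : ℝ) ≤ N := by exact_mod_cast h5
          nlinarith
      nlinarith
  refine (ex_mono (fun _ => h0) (fun _ => h1) hpt).trans ?_
  rw [ex_add, ex_sub, ex_const, ex_mul, ex_sum, ex_sum]
  have e3 : ∑ K ∈ 𝓜, ex (fun _ => p) (ew (vs v 𝓜) w) (Ind K) = a * p ^ t := by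
    rw [← ha, ← nsmul_eq_mul, ← Finset.sum_const]
    refine Finset.sum_congr rfl fun K hK => ?_
    simp only [hI]
    rw [ex_subset _ (hCsub K hK), Finset.prod_const, hCc K hK]
  have e4 : ∑ q ∈ 𝓜.offDiag, ex (fun _ => p) (ew (vs v 𝓜) w)
      (fun S => if C q.1 ∪ C q.2 ⊆ S then 1 else 0) ≤ (a : ℝ) ^ 2 * p ^ (2 * t - 1) := by
    have h5 : ∑ q ∈ 𝓜.offDiag, ex (fun _ => p) (ew (vs v 𝓜) w)
        (fun S => if C q.1 ∪ C q.2 ⊆ S then 1 else 0) = ∑ _q ∈ 𝓜.offDiag, p ^ (2 * t - 1) := by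
      refine Finset.sum_congr rfl fun q hq => ?_
      rw [mem_offDiag] at hq
      rw [ex_subset _ (Finset.union_subset (hCsub _ hq.1) (hCsub _ hq.2.1)), Finset.prod_const,
        hCu _ hq.1 _ hq.2.1 hq.2.2]
    rw [h5, Finset.sum_const, nsmul_eq_mul]
    refine mul_le_mul_of_nonneg_right ?_ (by positivity)
    rw [offDiag_card, ha]
    have : a * a - a ≤ a ^ 2 := by rw [pow_two]; omega
    exact_mod_cast this
  rw [e3]
  linarith

/-- Probability of a configuration. -/
lemma config_prob {p : ℝ} (h0 : 0 ≤ p) (h1 : p ≤ 1) (X : Finset V) {v : V}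
    {𝓜 : Finset (Finset V)} {a t : ℕ}
    (ha : #𝓜 = a) (ht : ∀ K ∈ 𝓜, #K + 1 = t) (hv : ∀ K ∈ 𝓜, v ∉ K)
    (hd : ∀ K ∈ 𝓜, ∀ K' ∈ 𝓜, K ≠ K' → Disjoint K K') (hYX : Disjoint (vs v 𝓜) X)
    (W : Finset V) (hWX : Disjoint W X) (hWY : Disjoint W (vs v 𝓜))
    (f : Finset (Sym2 V) → ℝ) (hf0 : ∀ T, 0 ≤ f T) (hf : ∀ T, f T = f (T \ prs (univ \ X))) :
    ex (fun _ => p) (allE V) (fun T => f T * (if ∀ K ∈ 𝓜, prs (insert v K) ⊆ T ∧
      ∀ w ∈ W, ∃ x ∈ insert v K, s(w, x) ∉ T then 1 else 0)) ≤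
    ex (fun _ => p) (allE V) f * (p ^ (a * t.choose 2) *
      (1 - a * p ^ t + (a : ℝ) ^ 2 / 2 * p ^ (2 * t - 1)) ^ #W) := by
  classical
  set Y := vs v 𝓜 with hY
  set E₂ := prs (univ \ X) with hE₂
  have hE₂sub : E₂ ⊆ allE V := by
    intro e he
    obtain ⟨x, _, y, _, hxy, rfl⟩ := mem_prs.1 he
    exact mk_mem_allE.2 hxy
  have hYs : ∀ x ∈ Y, x ∈ univ \ X := fun x hx =>
    mem_sdiff.2 ⟨mem_univ x, Finset.disjoint_left.1 hYX hx⟩
  have hWs : ∀ x ∈ W, x ∈ univ \ X := fun x hx =>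
    mem_sdiff.2 ⟨mem_univ x, Finset.disjoint_left.1 hWX hx⟩
  have hwx : ∀ w ∈ W, ∀ x ∈ Y, s(w, x) ∈ E₂ := by
    intro w hw x hx
    rw [hE₂, mk_mem_prs]
    refine ⟨hWs w hw, hYs x hx, ?_⟩
    rintro rfl
    exact Finset.disjoint_left.1 hWY hw hx
  have hwx2 : ∀ w ∈ W, ∀ x ∈ Y, s(w, x) ∉ prs Y := by
    intro w hw x hx h
    exact Finset.disjoint_left.1 hWY hw (mk_mem_prs.1 h).1
  have hpY : prs Y ⊆ E₂ := prs_mono hYs
  set g₁ : Finset (Sym2 V) → ℝ := fun T => if 𝓜.biUnion (fun K => prs (insert v K)) ⊆ T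
    then 1 else 0 with hg₁
  set hh : Finset (Sym2 V) → V → ℝ := fun S w =>
    if ∀ K ∈ 𝓜, ∃ x ∈ insert v K, s(w, x) ∉ S then 1 else 0 with hhh
  set g₂ : Finset (Sym2 V) → ℝ := fun T => ∏ w ∈ W, hh (T ∩ ew Y w) w with hg₂
  have hhw : ∀ T : Finset (Sym2 V), ∀ w, hh (T ∩ ew Y w) w = hh T w := by
    intro T w
    simp only [hhh]
    congr 1
    apply propext
    refine forall_congr' fun K => forall_congr' fun hK => ?_
    refine exists_congr fun x => and_congr_right fun hx => not_congr ?_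
    rw [mem_inter]
    exact ⟨fun h => h.1, fun h => ⟨h, mem_ew.2 ⟨x, sub_vs hK hx, rfl⟩⟩⟩
  have hprod : ∀ T, g₂ T = if ∀ w ∈ W, ∀ K ∈ 𝓜, ∃ x ∈ insert v K, s(w, x) ∉ T then 1 else 0 := by
    intro T
    simp only [hg₂, hhw]
    simp only [hhh]
    split_ifs with h
    · refine Finset.prod_eq_one fun w hw => ?_
      rw [if_pos (h w hw)]
    · simp only [not_forall] at h
      obtain ⟨w, hw, h2⟩ := h
      refine Finset.prod_eq_zero hw ?_
      rw [if_neg]
      intro h3
      obtain ⟨K, hK, h4⟩ := h2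
      exact h4 (h3 K hK)
  have hg : ∀ T : Finset (Sym2 V), (if ∀ K ∈ 𝓜, prs (insert v K) ⊆ T ∧
      ∀ w ∈ W, ∃ x ∈ insert v K, s(w, x) ∉ T then (1 : ℝ) else 0) = g₂ T * g₁ T := by
    intro T
    rw [hprod]
    simp only [hg₁]
    have e : (∀ K ∈ 𝓜, prs (insert v K) ⊆ T ∧ ∀ w ∈ W, ∃ x ∈ insert v K, s(w, x) ∉ T) ↔
        (∀ w ∈ W, ∀ K ∈ 𝓜, ∃ x ∈ insert v K, s(w, x) ∉ T) ∧
          𝓜.biUnion (fun K => prs (insert v K)) ⊆ T := by
      rw [Finset.biUnion_subset]
      constructor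
      · intro h
        exact ⟨fun w hw K hK => (h K hK).2 w hw, fun K hK => (h K hK).1⟩
      · intro h K hK
        exact ⟨h.2 K hK, fun w hw => h.1 w hw K hK⟩
    by_cases h2 : ∀ w ∈ W, ∀ K ∈ 𝓜, ∃ x ∈ insert v K, s(w, x) ∉ T
    · by_cases h3 : 𝓜.biUnion (fun K => prs (insert v K)) ⊆ T
      · rw [if_pos (e.2 ⟨h2, h3⟩), if_pos h2, if_pos h3, mul_one]
      · rw [if_neg (fun h => h3 (e.1 h).2), if_pos h2, if_neg h3, mul_zero]
    · rw [if_neg (fun h => h2 (e.1 h).1), if_neg h2, zero_mul]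
  simp_rw [hg]
  rw [ex_indep (fun _ => p) hE₂sub f (fun T => g₂ T * g₁ T) (fun T _ => hf T) ?_]
  swap
  · intro T _
    congr 1
    · rw [hprod, hprod]
      congr 1
      apply propext
      refine forall_congr' fun w => forall_congr' fun hw => forall_congr' fun K =>
        forall_congr' fun hK => ?_
      refine exists_congr fun x => and_congr_right fun hx => not_congr ?_
      rw [mem_inter]
      exact ⟨fun h => ⟨h, hwx w hw x (sub_vs hK hx)⟩, fun h => h.1⟩
    · simp only [hg₁]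
      congr 1
      apply propext
      rw [Finset.subset_inter_iff]
      refine ⟨fun h => ⟨h, ?_⟩, fun h => h.1⟩
      rw [Finset.biUnion_subset]
      intro K hK
      exact (prs_mono (sub_vs hK)).trans hpY
  refine mul_le_mul_of_nonneg_left ?_ (ex_nonneg (fun _ => h0) (fun _ => h1) fun T _ => hf0 T)
  rw [ex_indep (fun _ => p) hpY g₂ g₁ ?_ ?_]
  rotate_left
  · intro T _
    rw [hprod, hprod]
    congr 1
    apply propext
    refine forall_congr' fun w => forall_congr' fun hw => forall_congr' fun K =>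
      forall_congr' fun hK => ?_
    refine exists_congr fun x => and_congr_right fun hx => not_congr ?_
    rw [mem_sdiff]
    exact ⟨fun h => ⟨h, hwx2 w hw x (sub_vs hK hx)⟩, fun h => h.1⟩
  · intro T _
    simp only [hg₁]
    congr 1
    apply propext
    rw [Finset.subset_inter_iff]
    refine ⟨fun h => ⟨h, ?_⟩, fun h => h.1⟩
    rw [Finset.biUnion_subset]
    intro K hK
    exact prs_mono (sub_vs hK)
  have e1 : ex (fun _ => p) (prs Y) g₁ = p ^ (a * t.choose 2) := by
    simp only [hg₁]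
    rw [ex_subset]
    · rw [Finset.prod_const]
      congr 1
      rw [card_biUnion]
      · rw [Finset.sum_const_nat (m := t.choose 2), ha]
        intro K hK
        rw [card_prs, card_insert_of_notMem (hv K hK), ht K hK]
      · intro K hK K' hK' hne
        change Disjoint (prs (insert v K)) (prs (insert v K'))
        rw [Finset.mem_coe] at hK hK'
        rw [Finset.disjoint_iff_inter_eq_empty, prs_inter]
        have h2 : insert v K ∩ insert v K' = {v} := by
          ext x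
          simp only [mem_inter, mem_insert, mem_singleton]
          constructor
          · rintro ⟨h3 | h3, h4 | h4⟩
            · exact h3
            · exact h3
            · exact h4
            · exact absurd h4 (Finset.disjoint_left.1 (hd K hK K' hK' hne) h3)
          · intro h3
            exact ⟨Or.inl h3, Or.inl h3⟩
        rw [h2]
        have h3 := card_prs ({v} : Finset V)
        rw [card_singleton] at h3
        exact card_eq_zero.1 (by rw [h3]; rfl)
    · rw [Finset.biUnion_subset]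
      intro K hK
      exact prs_mono (sub_vs hK)
  rw [e1, mul_comm]
  refine mul_le_mul_of_nonneg_left ?_ (by positivity)
  have hsub3 : W.biUnion (ew Y) ⊆ E₂ := by
    intro e he
    obtain ⟨w, hw, he⟩ := mem_biUnion.1 he
    obtain ⟨x, hx, rfl⟩ := mem_ew.1 he
    exact hwx w hw x hx
  rw [ex_restrict (fun _ => p) hsub3 g₂ ?_]
  swap
  · intro T _
    rw [hprod, hprod]
    congr 1
    apply propext
    refine forall_congr' fun w => forall_congr' fun hw => forall_congr' fun K =>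
      forall_congr' fun hK => ?_
    refine exists_congr fun x => and_congr_right fun hx => not_congr ?_
    rw [mem_inter]
    exact ⟨fun h => ⟨h, mem_biUnion.2 ⟨w, hw, mem_ew.2 ⟨x, sub_vs hK hx, rfl⟩⟩⟩, fun h => h.1⟩
  have e2 : ex (fun _ => p) (W.biUnion (ew Y)) g₂ = ∏ w ∈ W, ex (fun _ => p) (ew Y w)
      (fun S => hh S w) := by
    simp only [hg₂]
    exact ex_prod (fun _ => p) W (ew Y) (fun w hw w' _ hne =>
      ew_disjoint (Finset.disjoint_left.1 hWY hw) hne) (fun w S => hh S w)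
  rw [e2, ← Finset.prod_const]
  refine Finset.prod_le_prod (fun w _ => ?_) (fun w hw => ?_)
  · refine ex_nonneg (fun _ => h0) (fun _ => h1) fun T _ => ?_
    simp only [hhh]
    split_ifs <;> norm_num
  · exact nocover_prob h0 h1 ha ht hv hd (Finset.disjoint_left.1 hWY hw)

end One

end Pool.Agent.H977.CC
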