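import Pool.Agent.H977.CC.UpB

/-! Upper bound: union bound over configurations, and the final probabilistic upper bound. -/

open MeasureTheory ProbabilityTheory unitInterval Finset
open scoped SimpleGraph

namespace Pool.Agent.H977.CC

open Pool.Agent.V11328

variable {n : ℕ}

lemma far_congr (T : Finset (Sym2 (Fin n))) (X : Finset (Fin n)) :
    far T X = far (T \ prs (univ \ X)) X := by
  ext v
  rw [mem_far, mem_far]
  refine and_congr_right fun hv => forall_congr' fun x => forall_congr' fun hx => not_congr ?_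
  rw [mem_sdiff]
  refine ⟨fun h => ⟨h, fun h2 => ?_⟩, fun h => h.1⟩
  exact (mem_sdiff.1 (mk_mem_prs.1 h2).2.1).2 hx

/-- Union bound over configurations. -/
lemma noconf_prob (p : I) (X : Finset (Fin n)) {s a t m : ℕ} (hs : 1 ≤ s)
    (Q : SimpleGraph (Fin n) → Finset (Fin n) → Prop)
    (W : Fin n → Finset (Finset (Fin n)) → Finset (Fin n))
    (hWX : ∀ v 𝓜, Disjoint (W v 𝓜) X) (hWY : ∀ v 𝓜, Disjoint (W v 𝓜) (vs v 𝓜))
    (hWm : ∀ v 𝓜, #𝓜 = a → (∀ K ∈ 𝓜, #K + 1 = t) → m ≤ #(W v 𝓜))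
    (hQ : ∀ G v 𝓜, ∀ K ∈ 𝓜, Q G (insert v K) → ∀ w ∈ W v 𝓜, ∃ x ∈ insert v K, ¬ G.Adj w x)
    {β : ℝ} (hβ : 1 - a * (p : ℝ) ^ t + (a : ℝ) ^ 2 / 2 * (p : ℝ) ^ (2 * t - 1) = β)
    (hβ0 : 0 ≤ β) (hβ1 : β ≤ 1) :
    (G(Fin n, p)).real {G : SimpleGraph (Fin n) | ¬ NoConf G (far (ed G) X) s a t (Q G)} ≤
      (n : ℝ) * ((s : ℝ) ^ (t - 1)) ^ a * ((p : ℝ) ^ (a * t.choose 2) * β ^ m) := by
  classical
  have h0 : (0 : ℝ) ≤ p := p.2.1
  have h1 : (p : ℝ) ≤ 1 := p.2.2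
  set PP : Finset (Finset (Finset (Fin n))) := powersetCard a (powersetCard (t - 1) univ) with hPP
  set f : Fin n → Finset (Finset (Fin n)) → Finset (Sym2 (Fin n)) → ℝ := fun v 𝓜 T =>
    if v ∈ far T X ∧ ∀ K ∈ 𝓜, K ⊆ chs (far T X) s v then 1 else 0 with hf
  have hf0 : ∀ v 𝓜 T, 0 ≤ f v 𝓜 T := by
    intro v 𝓜 T; simp only [hf]; split_ifs <;> norm_num
  have hfc : ∀ v 𝓜 T, f v 𝓜 T = f v 𝓜 (T \ prs (univ \ X)) := by
    intro v 𝓜 T
    simp only [hf]
    rw [← far_congr]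
  set c : ℝ := (p : ℝ) ^ (a * t.choose 2) * β ^ m with hc
  have hc0 : 0 ≤ c := by positivity
  set Ev : Fin n × Finset (Finset (Fin n)) → Set (SimpleGraph (Fin n)) := fun q =>
    {G | (q.1 ∈ far (ed G) X ∧ ∀ K ∈ q.2, K ⊆ chs (far (ed G) X) s q.1) ∧
      (∀ K ∈ q.2, #K + 1 = t ∧ q.1 ∉ K) ∧ (∀ K ∈ q.2, ∀ K' ∈ q.2, K ≠ K' → Disjoint K K') ∧
      ∀ K ∈ q.2, prs (insert q.1 K) ⊆ ed G ∧
        ∀ w ∈ W q.1 q.2, ∃ x ∈ insert q.1 K, s(w, x) ∉ ed G} with hEv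
  have hsub : {G : SimpleGraph (Fin n) | ¬ NoConf G (far (ed G) X) s a t (Q G)} ⊆
      ⋃ q ∈ (univ : Finset (Fin n)) ×ˢ PP, Ev q := by
    intro G hG
    simp only [NoConf, Set.mem_ofPred_eq, not_forall, not_not] at hG
    obtain ⟨v, hv, 𝓜, ha, ht', hd, hK'⟩ := hG
    have hK : ∀ K ∈ 𝓜, prs (insert v K) ⊆ ed G ∧ Q G (insert v K) := by
      intro K hKM
      by_contra h
      exact hK' ⟨K, hKM, h⟩
    simp only [Set.mem_iUnion]
    refine ⟨(v, 𝓜), ?_, ⟨hv, fun K hK => (ht' K hK).2.2⟩,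
      fun K hK => ⟨(ht' K hK).1, (ht' K hK).2.1⟩, hd, fun K hKM => ⟨(hK K hKM).1, ?_⟩⟩
    · rw [mem_product, hPP, mem_powersetCard]
      refine ⟨mem_univ _, fun K hK => ?_, ha⟩
      rw [mem_powersetCard]
      have := (ht' K hK).1
      exact ⟨subset_univ _, by omega⟩
    · intro w hw
      obtain ⟨x, hx, hnx⟩ := hQ G v 𝓜 K hKM (hK K hKM).2 w hw
      exact ⟨x, hx, fun h => hnx (mk_mem_ed.1 h)⟩
  have hev : ∀ q ∈ (univ : Finset (Fin n)) ×ˢ PP, (G(Fin n, p)).real (Ev q) ≤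
      ex (fun _ => (p : ℝ)) (allE (Fin n)) (f q.1 q.2) * c := by
    rintro ⟨v, 𝓜⟩ hq
    rw [mem_product, hPP, mem_powersetCard] at hq
    have hnn : 0 ≤ ex (fun _ => (p : ℝ)) (allE (Fin n)) (f v 𝓜) :=
      ex_nonneg (fun _ => h0) (fun _ => h1) fun T _ => hf0 v 𝓜 T
    by_cases hgood : (∀ K ∈ 𝓜, #K + 1 = t ∧ v ∉ K) ∧
        (∀ K ∈ 𝓜, ∀ K' ∈ 𝓜, K ≠ K' → Disjoint K K') ∧ Disjoint (vs v 𝓜) X
    · obtain ⟨hg1, hg2, hg3⟩ := hgood
      have ha' : #𝓜 = a := hq.2.2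
      have h2 := config_prob h0 h1 X ha' (fun K hK => (hg1 K hK).1) (fun K hK => (hg1 K hK).2)
        hg2 hg3 (W v 𝓜) (hWX v 𝓜) (hWY v 𝓜) (f v 𝓜) (hf0 v 𝓜) (hfc v 𝓜)
      rw [hβ] at h2
      have h3 := real_ed p (fun T : Finset (Sym2 (Fin n)) =>
          (v ∈ far T X ∧ ∀ K ∈ 𝓜, K ⊆ chs (far T X) s v) ∧
          (∀ K ∈ 𝓜, #K + 1 = t ∧ v ∉ K) ∧ (∀ K ∈ 𝓜, ∀ K' ∈ 𝓜, K ≠ K' → Disjoint K K') ∧
          ∀ K ∈ 𝓜, prs (insert v K) ⊆ T ∧
            ∀ w ∈ W v 𝓜, ∃ x ∈ insert v K, s(w, x) ∉ T)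
      have h3' : (G(Fin n, p)).real (Ev (v, 𝓜)) ≤
          ex (fun _ => (p : ℝ)) (allE (Fin n)) (f v 𝓜) *
            ((p : ℝ) ^ (a * t.choose 2) * β ^ #(W v 𝓜)) := by
        refine le_trans ?_ h2
        refine le_trans (le_of_eq h3) ?_
        refine ex_mono (fun _ => h0) (fun _ => h1) fun T _ => ?_
        by_cases h4 : (v ∈ far T X ∧ ∀ K ∈ 𝓜, K ⊆ chs (far T X) s v) ∧
          (∀ K ∈ 𝓜, #K + 1 = t ∧ v ∉ K) ∧ (∀ K ∈ 𝓜, ∀ K' ∈ 𝓜, K ≠ K' → Disjoint K K') ∧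
          ∀ K ∈ 𝓜, prs (insert v K) ⊆ T ∧
            ∀ w ∈ W v 𝓜, ∃ x ∈ insert v K, s(w, x) ∉ T
        · have h5 : f v 𝓜 T = 1 := by simp only [hf]; exact if_pos h4.1
          rw [if_pos h4, h5, if_pos h4.2.2.2, mul_one]
        · rw [if_neg h4]
          refine mul_nonneg (hf0 v 𝓜 T) ?_
          split_ifs <;> norm_num
      have h4 : β ^ #(W v 𝓜) ≤ β ^ m :=
        pow_le_pow_of_le_one hβ0 hβ1 (hWm v 𝓜 ha' fun K hK => (hg1 K hK).1)
      have h5 : (p : ℝ) ^ (a * t.choose 2) * β ^ #(W v 𝓜) ≤ c :=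
        mul_le_mul_of_nonneg_left h4 (by positivity)
      have h6 := mul_le_mul_of_nonneg_left h5 hnn
      exact h3'.trans h6
    · have : Ev (v, 𝓜) = ∅ := by
        ext G
        simp only [hEv, Set.mem_ofPred_eq, Set.mem_empty_iff_false, iff_false]
        rintro ⟨⟨h2, h3⟩, h4, h5, _⟩
        apply hgood
        refine ⟨h4, h5, ?_⟩
        rw [Finset.disjoint_left]
        intro x hx
        unfold vs at hx
        rcases mem_insert.1 hx with rfl | hx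
        · exact (mem_far.1 h2).1
        · obtain ⟨K, hK, hxK⟩ := mem_biUnion.1 hx
          have h6 := h3 K hK hxK
          exact (mem_far.1 (mem_filter.1 h6).1).1
      rw [this, measureReal_empty]
      exact mul_nonneg hnn hc0
  refine (measureReal_mono hsub (measure_ne_top _ _)).trans ?_
  refine (measureReal_biUnion_finset_le _ _).trans ?_
  refine (Finset.sum_le_sum hev).trans ?_
  rw [← Finset.sum_mul, ← ex_sum]
  refine mul_le_mul_of_nonneg_right ?_ hc0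
  refine ex_le_const (fun _ => h0) (fun _ => h1) fun T _ => ?_
  rw [Finset.sum_product]
  have h2 : ∀ v : Fin n, ∑ 𝓜 ∈ PP, f v 𝓜 T ≤ ((s : ℝ) ^ (t - 1)) ^ a := by
    intro v
    have h3 : ∑ 𝓜 ∈ PP, f v 𝓜 T ≤
        (#(PP.filter (fun 𝓜 => ∀ K ∈ 𝓜, K ⊆ chs (far T X) s v)) : ℝ) := by
      rw [← mul_one (#(PP.filter _) : ℝ), ← nsmul_eq_mul, ← Finset.sum_const, Finset.sum_filter]
      refine Finset.sum_le_sum fun 𝓜 _ => ?_
      simp only [hf]
      split_ifs with h4 h5 h6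
      · norm_num
      · exact absurd h4.2 h5
      · norm_num
      · norm_num
    refine h3.trans ?_
    have h4 : PP.filter (fun 𝓜 => ∀ K ∈ 𝓜, K ⊆ chs (far T X) s v) ⊆
        powersetCard a (powersetCard (t - 1) (chs (far T X) s v)) := by
      intro 𝓜 h𝓜
      rw [mem_filter, hPP, mem_powersetCard] at h𝓜
      rw [mem_powersetCard]
      refine ⟨fun K hK => ?_, h𝓜.1.2⟩
      rw [mem_powersetCard]
      exact ⟨h𝓜.2 K hK, (mem_powersetCard.1 (h𝓜.1.1 hK)).2⟩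
    have h5 : #(PP.filter (fun 𝓜 => ∀ K ∈ 𝓜, K ⊆ chs (far T X) s v)) ≤ (s ^ (t - 1)) ^ a := by
      refine (card_le_card h4).trans ?_
      rw [card_powersetCard, card_powersetCard]
      refine (Nat.choose_le_pow _ a).trans (Nat.pow_le_pow_left ?_ a)
      refine (Nat.choose_le_pow _ (t - 1)).trans (Nat.pow_le_pow_left ?_ _)
      exact chs_card hs v
    exact_mod_cast h5
  refine (Finset.sum_le_sum fun v _ => h2 v).trans ?_
  rw [Finset.sum_const, card_univ, Fintype.card_fin, nsmul_eq_mul]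

/-- Every set of size `t` has a common neighbour. -/
lemma nocom_prob (p : I) (t : ℕ) :
    (G(Fin n, p)).real {G : SimpleGraph (Fin n) | ¬ ∀ F : Finset (Fin n), #F = t →
      (com G F).Nonempty} ≤ (n : ℝ) ^ t * Real.exp (-(((n - t : ℕ) : ℝ) * (p : ℝ) ^ t)) := by
  classical
  have h0 : (0 : ℝ) ≤ p := p.2.1
  have h1 : (p : ℝ) ≤ 1 := p.2.2
  have hsub : {G : SimpleGraph (Fin n) | ¬ ∀ F : Finset (Fin n), #F = t → (com G F).Nonempty} ⊆
      ⋃ F ∈ powersetCard t (univ : Finset (Fin n)),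
        {G | ∀ w ∈ univ \ F, ¬ ew F w ⊆ ed G} := by
    intro G hG
    simp only [Set.mem_ofPred_eq, not_forall] at hG
    obtain ⟨F, hF, hne⟩ := hG
    simp only [Set.mem_iUnion]
    refine ⟨F, mem_powersetCard.2 ⟨subset_univ _, hF⟩, ?_⟩
    intro w hw hsub
    apply hne
    refine ⟨w, mem_com.2 fun v hv => mk_mem_ed.1 (hsub (mem_ew.2 ⟨v, hv, rfl⟩))⟩
  have hev : ∀ F ∈ powersetCard t (univ : Finset (Fin n)),
      (G(Fin n, p)).real {G | ∀ w ∈ univ \ F, ¬ ew F w ⊆ ed G} ≤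
        Real.exp (-(((n - t : ℕ) : ℝ) * (p : ℝ) ^ t)) := by
    intro F hF
    rw [mem_powersetCard] at hF
    rw [real_ed p (fun T => ∀ w ∈ univ \ F, ¬ ew F w ⊆ T)]
    have hE : (univ \ F).biUnion (ew F) ⊆ allE (Fin n) := by
      intro e he
      obtain ⟨w, hw, he⟩ := mem_biUnion.1 he
      obtain ⟨v, hv, rfl⟩ := mem_ew.1 he
      rw [mk_mem_allE]
      rintro rfl
      exact (mem_sdiff.1 hw).2 hv
    have e1 : ∀ T : Finset (Sym2 (Fin n)), (if ∀ w ∈ univ \ F, ¬ ew F w ⊆ T then (1 : ℝ) else 0) =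
        ∏ w ∈ univ \ F, (if ew F w ⊆ T ∩ ew F w then 0 else 1) := by
      intro T
      split_ifs with h
      · symm
        refine Finset.prod_eq_one fun w hw => ?_
        rw [if_neg]
        intro h2
        exact h w hw (h2.trans inter_subset_left)
      · push Not at h
        obtain ⟨w, hw, h2⟩ := h
        symm
        refine Finset.prod_eq_zero hw ?_
        rw [if_pos]
        exact Finset.subset_inter h2 (Finset.Subset.refl _)
    rw [ex_restrict _ hE]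
    · simp_rw [e1]
      rw [ex_prod (fun _ => (p : ℝ)) (univ \ F) (ew F) (fun w hw w' _ hne =>
        ew_disjoint (mem_sdiff.1 hw).2 hne) (fun w T => if ew F w ⊆ T then 0 else 1)]
      have h2 : ∀ w ∈ univ \ F, ex (fun _ => (p : ℝ)) (ew F w)
          (fun T => if ew F w ⊆ T then 0 else 1) = 1 - (p : ℝ) ^ t := by
        intro w hw
        have h3 : (fun T : Finset (Sym2 (Fin n)) => if ew F w ⊆ T then (0 : ℝ) else 1) =
            (fun T => 1 - (if ew F w ⊆ T then 1 else 0)) := by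
          funext T; split_ifs <;> norm_num
        rw [h3, ex_sub, ex_const, ex_subset _ (Finset.Subset.refl _), Finset.prod_const,
          card_ew (mem_sdiff.1 hw).2, hF.2]
      rw [Finset.prod_congr rfl h2, Finset.prod_const, card_sdiff_of_subset (subset_univ F),
        card_univ, Fintype.card_fin, hF.2]
      have h3 : 1 - (p : ℝ) ^ t ≤ Real.exp (-((p : ℝ) ^ t)) := by
        have := Real.add_one_le_exp (-((p : ℝ) ^ t))
        linarith
      have h4 : (p : ℝ) ^ t ≤ 1 := pow_le_one₀ h0 h1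
      refine (pow_le_pow_left₀ (by linarith) h3 _).trans (le_of_eq ?_)
      rw [exp_pow_nat]
      congr 1; ring
    · intro T _
      have : (∀ w ∈ univ \ F, ¬ ew F w ⊆ T) ↔
          (∀ w ∈ univ \ F, ¬ ew F w ⊆ T ∩ (univ \ F).biUnion (ew F)) := by
        refine forall_congr' fun w => forall_congr' fun hw => not_congr ?_
        rw [Finset.subset_inter_iff]
        exact ⟨fun h => ⟨h, Finset.subset_biUnion_of_mem (ew F) hw⟩, fun h => h.1⟩
      simp only [this]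
  refine (measureReal_mono hsub (measure_ne_top _ _)).trans ?_
  refine (measureReal_biUnion_finset_le _ _).trans ?_
  refine (Finset.sum_le_sum hev).trans ?_
  rw [Finset.sum_const, nsmul_eq_mul, card_powersetCard, card_univ, Fintype.card_fin]
  refine mul_le_mul_of_nonneg_right ?_ (Real.exp_pos _).le
  exact_mod_cast Nat.choose_le_pow n t

end Pool.Agent.H977.CC
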