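import Pool.Agent.H977.CC.UpC

/-! Upper bound, probabilistic form. -/

open MeasureTheory ProbabilityTheory unitInterval Finset
open scoped SimpleGraph

namespace Pool.Agent.H977.CC

open Pool.Agent.V11328

/-- numerical conditions for the upper bound -/
structure UpC (n k s a j : ℕ) (p L μ r : ℝ) : Prop where
  hj : 2 ≤ j
  hp0 : 0 < p
  hp1 : p ≤ 1
  hL : 1 ≤ L
  hn : (n : ℝ) = Real.exp L
  hμ : (n : ℝ) * p ^ j = μ
  ha : L ≤ a
  hs : 1 ≤ s
  hkn : k + 1 + a * j ≤ n
  h0 : j * L ≤ ((n - (j - 1) : ℕ) : ℝ) * p ^ (j - 1)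
  hA : (s : ℝ) ^ j * p ^ ((j + 1).choose 2) ≤ Real.exp (-2)
  hB : (s : ℝ) ^ (j - 1) * p ^ (j.choose 2) ≤ Real.exp (μ - 3)
  hE : (k + 1 + a * j) * p ^ j + a / 2 * (n * p ^ (2 * j - 1)) ≤ 1
  hap : a * p ^ (j - 1) ≤ 1
  hr : 4 * (((n - k : ℕ) : ℝ) * (1 - p) ^ k) ≤ r
  hr2 : 4 * L ≤ r

lemma beta_le {a t : ℕ} {p : ℝ} (hp0 : 0 < p) (hp1 : p ≤ 1) (ht : 1 ≤ t)
    (h : a * p ^ (t - 1) ≤ 1) :
    0 ≤ 1 - a * p ^ t + (a : ℝ) ^ 2 / 2 * p ^ (2 * t - 1) ∧
      1 - a * p ^ t + (a : ℝ) ^ 2 / 2 * p ^ (2 * t - 1) ≤ 1 := by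
  have e1 : p ^ t = p ^ (t - 1) * p := by rw [← pow_succ]; congr 1; omega
  have e2 : p ^ (2 * t - 1) = p ^ (t - 1) * p ^ t := by rw [← pow_add]; congr 1; omega
  have h1 : 0 < p ^ (t - 1) := by positivity
  have h2 : 0 < p ^ t := by positivity
  have ha0 : (0 : ℝ) ≤ a := by positivity
  constructor
  · have h3 : a * p ^ t ≤ 1 := by
      rw [e1]
      have : a * p ^ (t - 1) * p ≤ 1 * 1 := mul_le_mul h hp1 hp0.le (by norm_num)
      linarith
    have h4 : 0 ≤ (a : ℝ) ^ 2 / 2 * p ^ (2 * t - 1) := by positivity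
    linarith
  · rw [e2]
    have h3 : (a : ℝ) ^ 2 / 2 * (p ^ (t - 1) * p ^ t) = (a * p ^ (t - 1)) * (a * p ^ t) / 2 := by
      ring
    rw [h3]
    have h4 : 0 ≤ a * p ^ t := by positivity
    nlinarith

theorem upper_prob {n k s a j : ℕ} {p : I} {L μ r : ℝ} (h : UpC n k s a j p L μ r) :
    (G(Fin n, p)).real {G : SimpleGraph (Fin n) | ¬ (chiC G : ℝ) ≤
      k + 1 + (r / s + 1) * (4 * a * (j + 1))} ≤ 4 * Real.exp (-L) := by
  classical
  have hj := h.hj
  have hp0 : (0 : ℝ) < p := h.hp0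
  have hp1 : (p : ℝ) ≤ 1 := h.hp1
  have hL := h.hL
  have hn := h.hn
  have ha0 : (1 : ℝ) ≤ a := hL.trans h.ha
  have ha1 : 1 ≤ a := by exact_mod_cast ha0
  have hkn := h.hkn
  have hjn : j ≤ n := by nlinarith
  obtain ⟨X, -, hX⟩ := Finset.exists_subset_card_eq (s := (univ : Finset (Fin n))) (n := k)
    (by rw [card_univ, Fintype.card_fin]; omega)
  have hs0 : (0 : ℝ) < s := by exact_mod_cast h.hs
  -- the four bad events
  have hsub : {G : SimpleGraph (Fin n) | ¬ (chiC G : ℝ) ≤ k + 1 + (r / s + 1) * (4 * a * (j + 1))} ⊆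
      (({G : SimpleGraph (Fin n) | ¬ ∀ F : Finset (Fin n), #F = j - 1 → (com G F).Nonempty} ∪
      {G : SimpleGraph (Fin n) | r ≤ (#(far (ed G) X) : ℝ)}) ∪
      {G : SimpleGraph (Fin n) | ¬ NoConf G (far (ed G) X) s a (j + 1) (fun _ => True)}) ∪
      {G : SimpleGraph (Fin n) | ¬ NoConf G (far (ed G) X) s a j
        (fun K => ∀ w, w ∉ K → ∃ x ∈ K, ¬ G.Adj w x)} := by
    intro G hG
    by_contra hcon
    simp only [Set.mem_union, Set.mem_ofPred_eq, not_or, not_not, not_le] at hcon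
    obtain ⟨⟨⟨h1, h2⟩, h3⟩, h4⟩ := hcon
    apply hG
    have h5 := upper_det G hj hjn h1 h3 h4
    have h6 : (chiC G : ℝ) ≤ ((#X + (1 + (#(far (ed G) X) / s + 1) *
        (2 * (a * (j + 1) + a * j) + 1)) : ℕ) : ℝ) := by exact_mod_cast h5
    refine h6.trans ?_
    push_cast
    rw [hX]
    have h7 : ((#(far (ed G) X) / s : ℕ) : ℝ) ≤ r / s := by
      refine Nat.cast_div_le.trans ?_
      exact div_le_div_of_nonneg_right h2.le hs0.le
    have hjR : (2 : ℝ) ≤ j := by exact_mod_cast hj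
    have h8 : 2 * ((a : ℝ) * (j + 1) + a * j) + 1 ≤ 4 * a * (j + 1) := by nlinarith
    have h9 : (0 : ℝ) ≤ ((#(far (ed G) X) / s : ℕ) : ℝ) + 1 := by positivity
    have h10 : (((#(far (ed G) X) / s : ℕ) : ℝ) + 1) * (2 * ((a : ℝ) * (j + 1) + a * j) + 1) ≤
        (r / s + 1) * (4 * a * (j + 1)) :=
      mul_le_mul (by linarith) h8 (by positivity) (by linarith)
    linarith
  refine (measureReal_mono hsub (measure_ne_top _ _)).trans ?_
  refine (measureReal_union_le _ _).trans ?_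
  have hb0 : (G(Fin n, p)).real {G : SimpleGraph (Fin n) | ¬ ∀ F : Finset (Fin n), #F = j - 1 →
      (com G F).Nonempty} ≤ Real.exp (-L) := by
    refine (nocom_prob p (j - 1)).trans ?_
    rw [np_exp hn, ← Real.exp_add]
    refine Real.exp_le_exp.2 ?_
    have h1 := h.h0
    rw [Nat.cast_sub (by omega), Nat.cast_one]
    linarith
  have hb1 : (G(Fin n, p)).real {G : SimpleGraph (Fin n) | r ≤ (#(far (ed G) X) : ℝ)} ≤
      Real.exp (-L) := by
    refine (far_upper p X (s := r) ?_).trans (Real.exp_le_exp.2 ?_)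
    · rw [Fintype.card_fin, hX]
      exact h.hr
    · linarith [h.hr2]
  have hb2 : (G(Fin n, p)).real {G : SimpleGraph (Fin n) |
      ¬ NoConf G (far (ed G) X) s a (j + 1) (fun _ => True)} ≤ Real.exp (-L) := by
    have hβ := beta_le (a := a) (t := j + 1) hp0 hp1 (by omega) (by
      have h1 : (p : ℝ) ^ (j + 1 - 1) ≤ (p : ℝ) ^ (j - 1) :=
        pow_le_pow_of_le_one hp0.le hp1 (by omega)
      have := mul_le_mul_of_nonneg_left h1 (show (0 : ℝ) ≤ a by positivity)
      linarith [h.hap])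
    have h1 := noconf_prob p X (s := s) (a := a) (t := j + 1) (m := 0) h.hs
      (fun _ _ => True) (fun _ _ => ∅) (fun _ _ => Finset.disjoint_empty_left _)
      (fun _ _ => Finset.disjoint_empty_left _) (fun _ _ _ _ => Nat.zero_le _)
      (fun _ _ _ _ _ _ w hw => by simp at hw) rfl hβ.1 hβ.2
    refine h1.trans ?_
    rw [pow_zero, mul_one, hn, mul_comm a, pow_mul, mul_assoc, ← mul_pow, Nat.add_sub_cancel]
    calc Real.exp L * ((s : ℝ) ^ j * (p : ℝ) ^ ((j + 1).choose 2)) ^ a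
        ≤ Real.exp L * (Real.exp (-2)) ^ a := by
          refine mul_le_mul_of_nonneg_left ?_ (Real.exp_pos _).le
          exact pow_le_pow_left₀ (by positivity) h.hA a
      _ = Real.exp (L + a * -2) := by rw [exp_pow_nat, ← Real.exp_add]
      _ ≤ Real.exp (-L) := Real.exp_le_exp.2 (by linarith [h.ha])
  have hb3 : (G(Fin n, p)).real {G : SimpleGraph (Fin n) | ¬ NoConf G (far (ed G) X) s a j
        (fun K => ∀ w, w ∉ K → ∃ x ∈ K, ¬ G.Adj w x)} ≤ Real.exp (-L) := by
    have hβ := beta_le (a := a) (t := j) hp0 hp1 (by omega) h.hap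
    set m : ℕ := n - (k + 1 + a * (j - 1)) with hm
    have h1 := noconf_prob p X (s := s) (a := a) (t := j) (m := m) h.hs
      (fun G K => ∀ w, w ∉ K → ∃ x ∈ K, ¬ G.Adj w x)
      (fun v 𝓜 => univ \ (X ∪ vs v 𝓜))
      (fun v 𝓜 => by
        rw [Finset.disjoint_left]
        intro w hw hwX
        exact (mem_sdiff.1 hw).2 (mem_union_left _ hwX))
      (fun v 𝓜 => by
        rw [Finset.disjoint_left]
        intro w hw hwX
        exact (mem_sdiff.1 hw).2 (mem_union_right _ hwX))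
      (fun v 𝓜 ha' ht => by
        rw [card_sdiff_of_subset (subset_univ _), card_univ, Fintype.card_fin, hm]
        have h2 : #(X ∪ vs v 𝓜) ≤ k + 1 + a * (j - 1) := by
          refine (card_union_le _ _).trans ?_
          have h3 : #(vs v 𝓜) ≤ 1 + a * (j - 1) := by
            unfold vs
            refine (card_insert_le _ _).trans ?_
            have h4 : #(𝓜.biUnion id) ≤ a * (j - 1) := by
              refine card_biUnion_le.trans ?_
              refine (Finset.sum_le_card_nsmul _ _ (j - 1) fun K hK => ?_).trans ?_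
              · have := ht K hK
                simp only [id]
                omega
              · rw [ha', smul_eq_mul]
            omega
          omega
        omega)
      (fun G v 𝓜 K hK hQ w hw => by
        refine hQ w fun hwK => ?_
        exact (mem_sdiff.1 hw).2 (mem_union_right _ (sub_vs hK hwK)))
      rfl hβ.1 hβ.2
    refine h1.trans ?_
    set β : ℝ := 1 - a * (p : ℝ) ^ j + (a : ℝ) ^ 2 / 2 * (p : ℝ) ^ (2 * j - 1) with hβdef
    have h2 : β ^ m ≤ Real.exp (m * (-(a * (p : ℝ) ^ j) + (a : ℝ) ^ 2 / 2 * (p : ℝ) ^ (2 * j - 1))) := by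
      rw [← exp_pow_nat]
      refine pow_le_pow_left₀ hβ.1 ?_ m
      have := Real.add_one_le_exp (-(a * (p : ℝ) ^ j) + (a : ℝ) ^ 2 / 2 * (p : ℝ) ^ (2 * j - 1))
      rw [hβdef]
      linarith
    rw [hn, mul_comm a, pow_mul]
    calc Real.exp L * ((s : ℝ) ^ (j - 1)) ^ a * (((p : ℝ) ^ (j.choose 2)) ^ a * β ^ m)
        = Real.exp L * ((s : ℝ) ^ (j - 1) * (p : ℝ) ^ (j.choose 2)) ^ a * β ^ m := by
          rw [mul_pow]; ring
      _ ≤ Real.exp L * (Real.exp (μ - 3)) ^ a *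
          Real.exp (m * (-(a * (p : ℝ) ^ j) + (a : ℝ) ^ 2 / 2 * (p : ℝ) ^ (2 * j - 1))) := by
          have h5 := hβ.1
          have h6 : ((s : ℝ) ^ (j - 1) * (p : ℝ) ^ (j.choose 2)) ^ a ≤ (Real.exp (μ - 3)) ^ a :=
            pow_le_pow_left₀ (by positivity) h.hB a
          refine mul_le_mul (mul_le_mul_of_nonneg_left h6 (Real.exp_pos _).le) h2 (by positivity)
            (by positivity)
      _ = Real.exp (L + a * (μ - 3) +
          m * (-(a * (p : ℝ) ^ j) + (a : ℝ) ^ 2 / 2 * (p : ℝ) ^ (2 * j - 1))) := by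
          rw [exp_pow_nat, ← Real.exp_add, ← Real.exp_add]
      _ ≤ Real.exp (-L) := by
          refine Real.exp_le_exp.2 ?_
          have hm1 : (n : ℝ) - (k + 1 + a * j) ≤ m := by
            have h3 : n ≤ m + (k + 1 + a * j) := by
              have : a * (j - 1) ≤ a * j := Nat.mul_le_mul_left a (Nat.sub_le j 1)
              omega
            have h4 : (n : ℝ) ≤ m + (k + 1 + a * j) := by exact_mod_cast h3
            linarith
          have hm2 : (m : ℝ) ≤ n := by exact_mod_cast Nat.sub_le _ _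
          have hpj : (0 : ℝ) ≤ (p : ℝ) ^ j := by positivity
          have hpj2 : (0 : ℝ) ≤ (p : ℝ) ^ (2 * j - 1) := by positivity
          have h3 : ((n : ℝ) - (k + 1 + a * j)) * (a * (p : ℝ) ^ j) ≤ m * (a * (p : ℝ) ^ j) :=
            mul_le_mul_of_nonneg_right hm1 (by positivity)
          have h4 : (m : ℝ) * ((a : ℝ) ^ 2 / 2 * (p : ℝ) ^ (2 * j - 1)) ≤
              n * ((a : ℝ) ^ 2 / 2 * (p : ℝ) ^ (2 * j - 1)) :=
            mul_le_mul_of_nonneg_right hm2 (by positivity)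
          have h5 := h.hE
          have h6 : (a : ℝ) * ((k + 1 + a * j) * (p : ℝ) ^ j + a / 2 * (n * (p : ℝ) ^ (2 * j - 1))) ≤
              a * 1 := mul_le_mul_of_nonneg_left h5 (by linarith)
          have h7 : ((n : ℝ) - (k + 1 + a * j)) * (a * (p : ℝ) ^ j) =
              a * μ - a * ((k + 1 + a * j) * (p : ℝ) ^ j) := by
            rw [← h.hμ]; ring
          have h8 : (n : ℝ) * ((a : ℝ) ^ 2 / 2 * (p : ℝ) ^ (2 * j - 1)) =
              a * (a / 2 * (n * (p : ℝ) ^ (2 * j - 1))) := by ring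
          have h9 := h.ha
          rw [h8] at h4
          rw [h7] at h3
          nlinarith
  have hu1 := measureReal_union_le (μ := G(Fin n, p)) ({G : SimpleGraph (Fin n) |
      ¬ ∀ F : Finset (Fin n), #F = j - 1 → (com G F).Nonempty} ∪
      {G : SimpleGraph (Fin n) | r ≤ (#(far (ed G) X) : ℝ)})
      {G : SimpleGraph (Fin n) | ¬ NoConf G (far (ed G) X) s a (j + 1) (fun _ => True)}
  have hu2 := measureReal_union_le (μ := G(Fin n, p)) {G : SimpleGraph (Fin n) |
      ¬ ∀ F : Finset (Fin n), #F = j - 1 → (com G F).Nonempty}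
      {G : SimpleGraph (Fin n) | r ≤ (#(far (ed G) X) : ℝ)}
  linarith

end Pool.Agent.H977.CC
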